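import Mathlib
import Pool.Agent.Run7.h257.Defs
import Pool.Agent.Run7.h257.Indep

/-!
Zero estimate for the functions `1, log(1+X), G` of `Run7.h257.Defs`: a nontrivial combination of
the `30 M` rows does not vanish to order `(3p-1)/2 + 8M`, for every prime `p > 20 M`.
-/

namespace Run7.h361

noncomputable section

open PowerSeries Run7.h257

lemma norm_gap {p : ℕ} (hp : p.Prime) {x y : ℚ} (h : padicNorm p x < padicNorm p y) :
    padicNorm p x * p ≤ padicNorm p y := by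
  have : Fact p.Prime := ⟨hp⟩
  have hp0 : (0 : ℚ) < p := by exact_mod_cast hp.pos
  have hp1 : (1 : ℚ) < p := by exact_mod_cast hp.one_lt
  by_cases hx : x = 0
  · subst hx
    rw [padicNorm.zero, zero_mul]
    exact padicNorm.nonneg _
  have hy : y ≠ 0 := by
    rintro rfl
    rw [padicNorm.zero] at h
    exact absurd h (not_lt.mpr (padicNorm.nonneg _))
  rw [padicNorm.eq_zpow_of_nonzero hx, padicNorm.eq_zpow_of_nonzero hy] at h ⊢
  have h2 := (zpow_lt_zpow_iff_right₀ hp1).mp h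
  rw [← zpow_add_one₀ hp0.ne']
  exact zpow_le_zpow_right₀ hp1.le (by omega)

lemma exists_gauss {p : ℕ} (hp : p.Prime) (P : Polynomial ℚ) (hP : P ≠ 0) :
    ∃ (j₀ : ℕ) (N : ℚ), 0 < N ∧ j₀ ≤ P.natDegree ∧ padicNorm p (P.coeff j₀) = N ∧
      (∀ j, padicNorm p (P.coeff j) ≤ N) ∧ (∀ j < j₀, padicNorm p (P.coeff j) * p ≤ N) := by
  classical
  have : Fact p.Prime := ⟨hp⟩
  have hne : P.support.Nonempty := Polynomial.support_nonempty.mpr hP
  obtain ⟨j₁, hj₁, hmax⟩ := Finset.exists_max_image P.support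
    (fun j => padicNorm p (P.coeff j)) hne
  have hj1' : P.coeff j₁ ≠ 0 := Polynomial.mem_support_iff.mp hj₁
  have hpos : 0 < padicNorm p (P.coeff j₁) :=
    lt_of_le_of_ne (padicNorm.nonneg _) (fun h => hj1' (padicNorm.zero_of_padicNorm_eq_zero h.symm))
  have hall : ∀ j, padicNorm p (P.coeff j) ≤ padicNorm p (P.coeff j₁) := by
    intro j
    by_cases hj : P.coeff j = 0
    · rw [hj, padicNorm.zero]; exact hpos.le
    · exact hmax j (Polynomial.mem_support_iff.mpr hj)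
  have hex : ∃ j, padicNorm p (P.coeff j) = padicNorm p (P.coeff j₁) := ⟨j₁, rfl⟩
  refine ⟨Nat.find hex, padicNorm p (P.coeff j₁), hpos, ?_, Nat.find_spec hex, hall, ?_⟩
  · exact (Nat.find_min' hex rfl).trans (Polynomial.le_natDegree_of_ne_zero hj1')
  · intro j hj
    have h1 := Nat.find_min hex hj
    exact norm_gap hp (lt_of_le_of_ne (hall j) h1)

lemma coeff_mul_eq {p : ℕ} (hp : p.Prime) (P : Polynomial ℚ) (F : ℚ⟦X⟧) (j₀ m : ℕ) (N T : ℚ)
    (hN0 : 0 < N) (hT0 : 0 < T)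
    (h0 : padicNorm p (P.coeff j₀) = N) (hall : ∀ j, padicNorm p (P.coeff j) ≤ N)
    (hlow : ∀ j < j₀, padicNorm p (P.coeff j) * p ≤ N)
    (hm : padicNorm p (PowerSeries.coeff m F) = T)
    (hs : ∀ i < m, padicNorm p (PowerSeries.coeff i F) * p ≤ T)
    (hb : ∀ i, m < i → i ≤ m + j₀ → padicNorm p (PowerSeries.coeff i F) ≤ T) :
    padicNorm p (PowerSeries.coeff (j₀ + m) ((P : ℚ⟦X⟧) * F)) = N * T := by
  have : Fact p.Prime := ⟨hp⟩
  have hp0 : (0 : ℚ) < p := by exact_mod_cast hp.pos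
  have hp1 : (1 : ℚ) < p := by exact_mod_cast hp.one_lt
  rw [PowerSeries.coeff_mul]
  have hmem : (j₀, m) ∈ Finset.HasAntidiagonal.antidiagonal (j₀ + m) := by simp
  rw [← Finset.add_sum_erase _ _ hmem]
  have e1 : padicNorm p (PowerSeries.coeff (j₀, m).1 (P : ℚ⟦X⟧) *
      PowerSeries.coeff (j₀, m).2 F) = N * T := by
    simp only [Polynomial.coeff_coe]
    rw [padicNorm.mul, h0, hm]
  have e2 : padicNorm p (∑ x ∈ (Finset.HasAntidiagonal.antidiagonal (j₀ + m)).erase (j₀, m),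
      PowerSeries.coeff x.1 (P : ℚ⟦X⟧) * PowerSeries.coeff x.2 F) ≤ N * T / p := by
    apply padicNorm.sum_le' _ (by positivity)
    intro x hx
    rw [Finset.mem_erase, Finset.HasAntidiagonal.mem_antidiagonal] at hx
    obtain ⟨hne, hsum⟩ := hx
    rw [padicNorm.mul, Polynomial.coeff_coe, le_div_iff₀ hp0]
    rcases lt_trichotomy x.1 j₀ with h | h | h
    · have h1 := hlow _ h
      have h2 := hb x.2 (by omega) (by omega)
      calc padicNorm p (P.coeff x.1) * padicNorm p (PowerSeries.coeff x.2 F) * p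
          = (padicNorm p (P.coeff x.1) * p) * padicNorm p (PowerSeries.coeff x.2 F) := by ring
        _ ≤ N * T := mul_le_mul h1 h2 (padicNorm.nonneg _) hN0.le
    · exfalso
      apply hne
      ext
      · exact h
      · simp only; omega
    · have h1 := hall x.1
      have h2 := hs x.2 (by omega)
      calc padicNorm p (P.coeff x.1) * padicNorm p (PowerSeries.coeff x.2 F) * p
          = padicNorm p (P.coeff x.1) * (padicNorm p (PowerSeries.coeff x.2 F) * p) := by ring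
        _ ≤ N * T := mul_le_mul h1 h2
            (mul_nonneg (padicNorm.nonneg _) hp0.le) hN0.le
  have hlt : N * T / p < N * T := by
    rw [div_lt_iff₀ hp0]
    have : 0 < N * T := by positivity
    nlinarith
  have e3 := lt_of_le_of_lt e2 (hlt.trans_eq e1.symm)
  rw [padicNorm.add_eq_max_of_ne (ne_of_gt e3), max_eq_left e3.le, e1]

lemma coeff_mul_le {p : ℕ} (hp : p.Prime) (P : Polynomial ℚ) (F : ℚ⟦X⟧) (n : ℕ) (N t : ℚ)
    (hN : 0 ≤ N) (ht : 0 ≤ t) (hP : ∀ j, padicNorm p (P.coeff j) ≤ N)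
    (hs : ∀ i ≤ n, padicNorm p (PowerSeries.coeff i F) ≤ t) :
    padicNorm p (PowerSeries.coeff n ((P : ℚ⟦X⟧) * F)) ≤ N * t := by
  have : Fact p.Prime := ⟨hp⟩
  rw [PowerSeries.coeff_mul]
  apply padicNorm.sum_le' _ (by positivity)
  intro x hx
  rw [Finset.HasAntidiagonal.mem_antidiagonal] at hx
  rw [padicNorm.mul, Polynomial.coeff_coe]
  exact mul_le_mul (hP _) (hs _ (by omega)) (padicNorm.nonneg _) hN

lemma gk_le2 {p : ℕ} (hp : p.Prime) (h5 : 5 < p) {k : ℕ} (hk : 2 * k + 1 < 5 * p) :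
    padicNorm p (gk k) ≤ (p : ℚ) ^ 2 := by
  have : Fact p.Prime := ⟨hp⟩
  have hp0 : (0 : ℚ) < p := by exact_mod_cast hp.pos
  unfold gk
  rw [div_eq_mul_inv, padicNorm.mul]
  have hk2 : k < p ^ 2 := by nlinarith
  have hk3 : 2 * k + 1 < p ^ 2 := by nlinarith
  have h1 := ind_harm_le hp hk2
  have h2 := ind_nat_inv_le hp (m := 2 * k + 1) (by omega) hk3
  push_cast at h2
  rw [pow_two]
  exact mul_le_mul h1 h2 (padicNorm.nonneg _) hp0.le

lemma gam_le2 {p : ℕ} (hp : p.Prime) (h5 : 5 < p) {m : ℕ} (hm : 2 * m + 1 < 5 * p) :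
    padicNorm p (gam m) ≤ (p : ℚ) ^ 2 := by
  have : Fact p.Prime := ⟨hp⟩
  cases m with
  | zero => simp [gam]
  | succ m =>
    unfold gam
    apply padicNorm.sum_le' _ (by positivity)
    intro k hk
    rw [Finset.mem_range] at hk
    exact (ind_gam_term hp m k (k + 1)).trans (gk_le2 hp h5 (by omega))

/-- **Zero estimate.** -/
theorem zero_est {M p : ℕ} (hM : 1 ≤ M) (hp : p.Prime) (hpM : 20 * M < p)
    (P₀ P₁ P₂ : Polynomial ℚ) (d0 : P₀.natDegree < 12 * M) (d1 : P₁.natDegree < 10 * M)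
    (d2 : P₂.natDegree < 8 * M)
    (h : ∀ k < (3 * p - 1) / 2 + 8 * M, PowerSeries.coeff k ((P₀ : ℚ⟦X⟧) +
      (P₁ : ℚ⟦X⟧) * PowerSeries.mk lc + (P₂ : ℚ⟦X⟧) * PowerSeries.mk gam) = 0) :
    P₀ = 0 ∧ P₁ = 0 ∧ P₂ = 0 := by
  have : Fact p.Prime := ⟨hp⟩
  have hodd : p % 2 = 1 := by
    rcases hp.eq_two_or_odd with h | h
    · omega
    · exact h
  have hm : 2 * ((3 * p - 1) / 2) + 1 = 3 * p := by omega
  set m := (3 * p - 1) / 2 with hmdef
  have hp0 : (0 : ℚ) < p := by exact_mod_cast hp.pos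
  have hp1 : (1 : ℚ) < p := by exact_mod_cast hp.one_lt
  have h5p : 5 * p < p ^ 2 := by nlinarith
  -- an upper bound for the coefficients of `P₁`
  have hN1 : ∃ N1 : ℚ, 0 ≤ N1 ∧ (∀ j, padicNorm p (P₁.coeff j) ≤ N1) ∧ (P₁ = 0 → N1 = 0) ∧
      (P₁ ≠ 0 → ∃ j₀, j₀ ≤ P₁.natDegree ∧ padicNorm p (P₁.coeff j₀) = N1 ∧ 0 < N1 ∧
        (∀ j < j₀, padicNorm p (P₁.coeff j) * p ≤ N1)) := by
    by_cases hP : P₁ = 0
    · refine ⟨0, le_rfl, ?_, fun _ => rfl, fun h => absurd hP h⟩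
      intro j
      rw [hP, Polynomial.coeff_zero, padicNorm.zero]
    · obtain ⟨j₀, N, hN, hj, h1, h2, h3⟩ := exists_gauss hp P₁ hP
      exact ⟨N, hN.le, h2, fun h => absurd h hP, fun _ => ⟨j₀, hj, h1, hN, h3⟩⟩
  obtain ⟨N1, hN10, hN1, hz1, hnz1⟩ := hN1
  have hN2 : ∃ N2 : ℚ, 0 ≤ N2 ∧ (∀ j, padicNorm p (P₂.coeff j) ≤ N2) ∧ (P₂ = 0 → N2 = 0) ∧
      (P₂ ≠ 0 → ∃ j₀, j₀ ≤ P₂.natDegree ∧ padicNorm p (P₂.coeff j₀) = N2 ∧ 0 < N2 ∧
        (∀ j < j₀, padicNorm p (P₂.coeff j) * p ≤ N2)) := by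
    by_cases hP : P₂ = 0
    · refine ⟨0, le_rfl, ?_, fun _ => rfl, fun h => absurd hP h⟩
      intro j
      rw [hP, Polynomial.coeff_zero, padicNorm.zero]
    · obtain ⟨j₀, N, hN, hj, h1, h2, h3⟩ := exists_gauss hp P₂ hP
      exact ⟨N, hN.le, h2, fun h => absurd h hP, fun _ => ⟨j₀, hj, h1, hN, h3⟩⟩
  obtain ⟨N2, hN20, hN2, hz2, hnz2⟩ := hN2
  -- step 1
  have step1 : N2 * p ≤ N1 := by
    by_cases hP : P₂ = 0
    · rw [hz2 hP, zero_mul]; exact hN10
    · obtain ⟨j₀, hj, h1, hpos, h3⟩ := hnz2 hP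
      have e2 : padicNorm p (PowerSeries.coeff (j₀ + m) ((P₂ : ℚ⟦X⟧) * PowerSeries.mk gam)) =
          N2 * (p : ℚ) ^ 2 := by
        apply coeff_mul_eq hp P₂ _ j₀ m N2 _ hpos (by positivity) h1 hN2 h3
        · rw [PowerSeries.coeff_mk]
          exact ind_gam_big hp (by omega) hm
        · intro i hi
          rw [PowerSeries.coeff_mk, pow_two]
          exact mul_le_mul_of_nonneg_right (ind_gam_le hp (by omega) (by omega)) hp0.le
        · intro i hi1 hi2
          rw [PowerSeries.coeff_mk]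
          exact gam_le2 hp (by omega) (by omega)
      have e1 : padicNorm p (PowerSeries.coeff (j₀ + m) ((P₁ : ℚ⟦X⟧) * PowerSeries.mk lc)) ≤
          N1 * p := by
        apply coeff_mul_le hp P₁ _ _ N1 p hN10 hp0.le hN1
        intro i hi
        rw [PowerSeries.coeff_mk]
        apply ind_lc_le hp
        omega
      have e0 : PowerSeries.coeff (j₀ + m) (P₀ : ℚ⟦X⟧) = 0 := by
        rw [Polynomial.coeff_coe]
        apply Polynomial.coeff_eq_zero_of_natDegree_lt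
        omega
      have h' := h (j₀ + m) (by omega)
      rw [map_add, map_add, e0, zero_add] at h'
      have h'' : PowerSeries.coeff (j₀ + m) ((P₂ : ℚ⟦X⟧) * PowerSeries.mk gam) =
          - PowerSeries.coeff (j₀ + m) ((P₁ : ℚ⟦X⟧) * PowerSeries.mk lc) := by linarith
      rw [h'', padicNorm.neg] at e2
      rw [e2] at e1
      have : N2 * p * p ≤ N1 * p := by nlinarith
      exact le_of_mul_le_mul_right this hp0
  -- step 2
  have hP1 : P₁ = 0 := by
    by_contra hne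
    obtain ⟨j₀, hj, h1, hpos, h3⟩ := hnz1 hne
    have e1 : padicNorm p (PowerSeries.coeff (j₀ + p) ((P₁ : ℚ⟦X⟧) * PowerSeries.mk lc)) =
        N1 * p := by
      apply coeff_mul_eq hp P₁ _ j₀ p N1 _ hpos hp0 h1 hN1 h3
      · rw [PowerSeries.coeff_mk]
        exact ind_lc_p hp
      · intro i hi
        rw [PowerSeries.coeff_mk]
        have := ind_lc_small hp hi
        nlinarith
      · intro i hi1 hi2
        rw [PowerSeries.coeff_mk]
        apply ind_lc_le hp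
        omega
    have e2 : padicNorm p (PowerSeries.coeff (j₀ + p) ((P₂ : ℚ⟦X⟧) * PowerSeries.mk gam)) ≤
        N2 * p := by
      apply coeff_mul_le hp P₂ _ _ N2 p hN20 hp0.le hN2
      intro i hi
      rw [PowerSeries.coeff_mk]
      exact ind_gam_le hp (by omega) (by omega)
    have e0 : PowerSeries.coeff (j₀ + p) (P₀ : ℚ⟦X⟧) = 0 := by
      rw [Polynomial.coeff_coe]
      apply Polynomial.coeff_eq_zero_of_natDegree_lt
      omega
    have h' := h (j₀ + p) (by omega)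
    rw [map_add, map_add, e0, zero_add] at h'
    have h'' : PowerSeries.coeff (j₀ + p) ((P₁ : ℚ⟦X⟧) * PowerSeries.mk lc) =
        - PowerSeries.coeff (j₀ + p) ((P₂ : ℚ⟦X⟧) * PowerSeries.mk gam) := by linarith
    rw [h'', padicNorm.neg] at e1
    rw [e1] at e2
    nlinarith
  have hP2 : P₂ = 0 := by
    by_contra hne
    obtain ⟨j₀, hj, h1, hpos, h3⟩ := hnz2 hne
    rw [hz1 hP1] at step1
    nlinarith
  subst hP1
  subst hP2
  refine ⟨?_, rfl, rfl⟩
  ext k
  rw [Polynomial.coeff_zero]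
  by_cases hk : k < 12 * M
  · have h' := h k (by omega)
    simp only [Polynomial.coe_zero, zero_mul, add_zero] at h'
    rwa [Polynomial.coeff_coe] at h'
  · apply Polynomial.coeff_eq_zero_of_natDegree_lt
    omega

end

end Run7.h361
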