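import Mathlib
import Pool.Agent.Run7.h257.Final
import Pool.Agent.Run7.h361.ZeroRows

/-!
The non-Wieferich primes (base `2`) have positive lower density.
-/

namespace Run7.h361

noncomputable section

open PowerSeries Filter Topology Metric Run7.h257

/-- the primes `≤ K` which are not Wieferich primes. -/
def nw (K : ℕ) : Finset ℕ :=
  (Finset.range (K + 1)).filter (fun p => p.Prime ∧ ¬ p ^ 2 ∣ 2 ^ (p - 1) - 1)

lemma mem_nw {K p : ℕ} : p ∈ nw K ↔ p ≤ K ∧ p.Prime ∧ ¬ p ^ 2 ∣ 2 ^ (p - 1) - 1 := by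
  unfold nw
  rw [Finset.mem_filter, Finset.mem_range, Nat.lt_succ_iff]

/-- `0` for Wieferich primes, `p` for the others. -/
def Q (p : ℕ) : ℕ := if p ^ 2 ∣ 2 ^ (p - 1) - 1 ∨ p = 2 then 0 else p

lemma dd_Q_le {p : ℕ} (hp : p.Prime) (n : ℕ) :
    (dd (Q p) p n : ℝ) * Real.log p ≤ (dd 0 p n : ℝ) * Real.log p +
      (if p ≤ 2 * n + 1 ∧ ¬ p ^ 2 ∣ 2 ^ (p - 1) - 1 then Real.log p else 0) := by
  have hlog : 0 ≤ Real.log p := Real.log_nonneg (by exact_mod_cast hp.one_lt.le)
  by_cases hW : p ^ 2 ∣ 2 ^ (p - 1) - 1 ∨ p = 2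
  · have : Q p = 0 := by unfold Q; rw [if_pos hW]
    rw [this]
    split_ifs
    · linarith
    · linarith
  · have hQ : Q p = p := by unfold Q; rw [if_neg hW]
    push Not at hW
    have h3 : 3 ≤ p := by
      have := hp.two_le
      have := hW.2
      omega
    rw [hQ]
    unfold dd
    rw [if_pos (Or.inl le_rfl)]
    by_cases h : 3 * p ≤ 2 * n + 1
    · rw [if_pos (Or.inr h)]
      split_ifs
      · linarith
      · linarith
    · rw [if_neg (by push Not; exact ⟨hp.pos, by omega⟩)]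
      by_cases h2 : p ≤ 2 * n + 1
      · rw [if_pos ⟨h2, hW.1⟩]
        have h4 : Nat.log p (2 * n + 1) < 2 := by
          apply Nat.log_lt_of_lt_pow (by omega)
          nlinarith
        have h5 : (Nat.log p (2 * n + 1) : ℝ) ≤ 1 := by exact_mod_cast (by omega)
        have := mul_le_mul_of_nonneg_right h5 hlog
        push_cast
        linarith
      · rw [Nat.log_of_lt (by omega)]
        split_ifs
        · simpa using hlog
        · simp

/-- lower bound for the determinant, with the loss at the non-Wieferich primes. -/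
lemma lowerD (ε : ℝ) (hε : 0 < ε) : ∃ C : ℝ, ∀ M : ℕ, 1 ≤ M →
    ∀ n : Fin (30 * M) → ℕ, StrictMono n → (mat M n).det ≠ 0 →
    ∀ K : ℕ, (∀ t, 2 * n t + 1 ≤ K) →
      Real.log 2 * (142 - ε) * (M : ℝ) ^ 2 - C * M - ε * ∑ t, (n t : ℝ) -
        (1 + ε) * ∑ t : Fin (30 * M), (if 12 * M ≤ (t : ℕ) then (n t : ℝ) else 0) -
        (2 / 3 + ε) * ∑ t : Fin (30 * M), (if 22 * M ≤ (t : ℕ) then (n t : ℝ) else 0) -
        8 * M * ∑ p ∈ nw K, Real.log p ≤
      Real.log |((mat M n).det : ℝ)| := by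
  obtain ⟨C1, h1⟩ := psi_bound ε hε
  obtain ⟨C2, h2⟩ := dd_bound 0 ε hε
  obtain ⟨C3, h3⟩ := two_bound ε hε
  obtain ⟨C4, h4⟩ := log2F_bound ε hε
  refine ⟨30 * (|C1| + |C2| + |C4|) + Real.log 2 * C3, ?_⟩
  intro M hM n hn hdet K hK
  have hharm : ∀ p : ℕ, p.Prime → 2 < p → Q p < p →
      padicNorm p (harmonic ((p - 1) / 2)) ≤ (p : ℚ)⁻¹ := by
    intro p hp h2 hPp
    apply harm_of_wief hp h2
    by_contra hcon
    unfold Q at hPp
    rw [if_neg (by push Not; exact ⟨hcon, by omega⟩)] at hPp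
    exact lt_irrefl _ hPp
  have hval : ∀ p : ℕ, p.Prime → 2 < p →
      -(((∑ t : Fin (30 * M), (if 12 * M ≤ (t : ℕ) then Nat.log p (n t) else 0) +
        ∑ t : Fin (30 * M), (if 22 * M ≤ (t : ℕ) then dd (Q p) p (n t) else 0) : ℕ) : ℤ)) ≤
        padicValRat p (mat M n).det := by
    intro p hp hp2
    apply valF_of_norm hp hdet
    apply det_norm_le hp (mat M n) (12 * M) (22 * M) (fun t => Nat.log p (n t))
      (fun t => dd (Q p) p (n t))
    · intro s t hst
      exact Nat.log_mono_right (hn.monotone hst)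
    · intro s t hst
      exact ddF_mono (Q p) p (hn.monotone hst)
    · intro r t
      exact row_norm hp hp2 (hharm p hp hp2) M r (n t)
  have hM0 : 0 < 30 * M := by omega
  set l : Fin (30 * M) := ⟨30 * M - 1, by omega⟩ with hl
  have hnl : ∀ t, n t ≤ n l := fun t => hn.monotone (by
    rw [hl, Fin.le_def]
    have := t.isLt
    simp only
    omega)
  have hl29 : 29 ≤ n l := by
    have := fin_le_of_strictMono n hn l
    rw [hl] at this ⊢
    simp only at this
    omega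
  set S : Finset ℕ := (Finset.range (2 * n l + 2)).filter Nat.Prime with hS
  have hSp : ∀ p ∈ S, p.Prime := fun p hp => (Finset.mem_filter.mp hp).2
  have h2S : 2 ∈ S := by
    rw [hS, Finset.mem_filter, Finset.mem_range]
    exact ⟨by omega, Nat.prime_two⟩
  have hout : ∀ p : ℕ, p.Prime → p ∉ S → 0 ≤ padicValRat p (mat M n).det := by
    intro p hp hpS
    have hpl : 2 * n l + 2 ≤ p := by
      by_contra hcon
      apply hpS
      rw [hS, Finset.mem_filter, Finset.mem_range]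
      exact ⟨by omega, hp⟩
    have := hval p hp (by omega)
    have z1 : ∑ t : Fin (30 * M), (if 12 * M ≤ (t : ℕ) then Nat.log p (n t) else 0) = 0 := by
      apply Finset.sum_eq_zero
      intro t _
      have := hnl t
      rw [Nat.log_of_lt (by omega)]
      simp
    have z2 : ∑ t : Fin (30 * M), (if 22 * M ≤ (t : ℕ) then dd (Q p) p (n t) else 0) = 0 := by
      apply Finset.sum_eq_zero
      intro t _
      have := hnl t
      rw [ddF_eq_zero (by omega)]
      simp
    rw [z1, z2] at this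
    simpa using this
  have hprod := log_abs_ge hdet S hSp hout
  rw [← Finset.add_sum_erase S _ h2S] at hprod
  have hlog2 : 0 < Real.log 2 := Real.log_pos (by norm_num)
  -- the 2-part
  have h2part := mul_le_mul_of_nonneg_right (h3 M hM n hn hdet) hlog2.le
  have h2sum : (∑ t, (Nat.log 2 (n t) : ℝ)) * Real.log 2 ≤ ε * ∑ t, (n t : ℝ) + 30 * M * |C4| := by
    rw [Finset.sum_mul, Finset.mul_sum]
    have : ∀ t ∈ (Finset.univ : Finset (Fin (30 * M))),
        (Nat.log 2 (n t) : ℝ) * Real.log 2 ≤ ε * (n t : ℝ) + |C4| := by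
      intro t _
      exact (h4 (n t)).trans (by linarith [le_abs_self C4])
    refine (Finset.sum_le_sum this).trans (le_of_eq ?_)
    rw [Finset.sum_add_distrib, Finset.sum_const, Finset.card_univ, Fintype.card_fin, nsmul_eq_mul]
    push_cast
    ring
  -- the odd part
  have hodd : -(∑ p ∈ S, ((∑ t : Fin (30 * M), (if 12 * M ≤ (t : ℕ) then (Nat.log p (n t) : ℝ) else 0)) +
        ∑ t : Fin (30 * M), (if 22 * M ≤ (t : ℕ) then (dd (Q p) p (n t) : ℝ) else 0)) * Real.log p) ≤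
      ∑ p ∈ S.erase 2, (padicValRat p (mat M n).det : ℝ) * Real.log p := by
    have e1 : ∑ p ∈ S.erase 2, ((∑ t : Fin (30 * M),
        (if 12 * M ≤ (t : ℕ) then (Nat.log p (n t) : ℝ) else 0)) +
        ∑ t : Fin (30 * M), (if 22 * M ≤ (t : ℕ) then (dd (Q p) p (n t) : ℝ) else 0)) * Real.log p ≤
        ∑ p ∈ S, ((∑ t : Fin (30 * M), (if 12 * M ≤ (t : ℕ) then (Nat.log p (n t) : ℝ) else 0)) +
        ∑ t : Fin (30 * M), (if 22 * M ≤ (t : ℕ) then (dd (Q p) p (n t) : ℝ) else 0)) * Real.log p := by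
      apply Finset.sum_le_sum_of_subset_of_nonneg (Finset.erase_subset _ _)
      intro p hp _
      apply mul_nonneg
      · apply add_nonneg <;>
        · apply Finset.sum_nonneg
          intro t _
          split_ifs <;> positivity
      · exact Real.log_nonneg (by exact_mod_cast (hSp p hp).one_lt.le)
    refine le_trans (neg_le_neg e1) ?_
    rw [← Finset.sum_neg_distrib]
    apply Finset.sum_le_sum
    intro p hp
    have hpS := Finset.mem_of_mem_erase hp
    have hpp := hSp p hpS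
    have hp2 : 2 < p := lt_of_le_of_ne hpp.two_le (Finset.ne_of_mem_erase hp).symm
    have hv := hval p hpp hp2
    have hlogp : 0 ≤ Real.log p := Real.log_nonneg (by exact_mod_cast hpp.one_lt.le)
    rw [← neg_mul]
    apply mul_le_mul_of_nonneg_right _ hlogp
    have hv' : (((-(((∑ t : Fin (30 * M), (if 12 * M ≤ (t : ℕ) then Nat.log p (n t) else 0) +
        ∑ t : Fin (30 * M), (if 22 * M ≤ (t : ℕ) then dd (Q p) p (n t) else 0) : ℕ) : ℤ)) : ℤ)) : ℝ) ≤
        ((padicValRat p (mat M n).det : ℤ) : ℝ) := by exact_mod_cast hv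
    push_cast at hv'
    linarith
  have hA : ∑ p ∈ S, ((∑ t : Fin (30 * M), (if 12 * M ≤ (t : ℕ) then (Nat.log p (n t) : ℝ) else 0)) +
        ∑ t : Fin (30 * M), (if 22 * M ≤ (t : ℕ) then (dd (Q p) p (n t) : ℝ) else 0)) * Real.log p =
      (∑ t : Fin (30 * M), (if 12 * M ≤ (t : ℕ) then
        ∑ p ∈ S, (Nat.log p (n t) : ℝ) * Real.log p else 0)) +
      ∑ t : Fin (30 * M), (if 22 * M ≤ (t : ℕ) then
        ∑ p ∈ S, (dd (Q p) p (n t) : ℝ) * Real.log p else 0) := by
    have : ∀ (m : ℕ) (f : ℕ → Fin (30 * M) → ℝ),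
        ∑ p ∈ S, (∑ t : Fin (30 * M), (if m ≤ (t : ℕ) then f p t else 0)) * Real.log p =
        ∑ t : Fin (30 * M), (if m ≤ (t : ℕ) then ∑ p ∈ S, f p t * Real.log p else 0) := by
      intro m f
      simp_rw [Finset.sum_mul]
      rw [Finset.sum_comm]
      apply Finset.sum_congr rfl
      intro t _
      split_ifs with h
      · rfl
      · simp
    simp_rw [add_mul]
    rw [Finset.sum_add_distrib, this (12 * M) (fun p t => (Nat.log p (n t) : ℝ)),
      this (22 * M) (fun p t => (dd (Q p) p (n t) : ℝ))]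
  have hB1 : ∀ t : Fin (30 * M), ∑ p ∈ S, (Nat.log p (n t) : ℝ) * Real.log p ≤
      (1 + ε) * n t + |C1| := by
    intro t
    have e1 : ∑ p ∈ (Finset.range (n t + 1)).filter Nat.Prime, (Nat.log p (n t) : ℝ) * Real.log p =
        ∑ p ∈ S, (Nat.log p (n t) : ℝ) * Real.log p := by
      apply Finset.sum_subset
      · intro p hp
        rw [Finset.mem_filter, Finset.mem_range] at hp
        rw [hS, Finset.mem_filter, Finset.mem_range]
        have := hnl t
        exact ⟨by omega, hp.2⟩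
      · intro p hpS hp
        have : n t < p := by
          by_contra hcon
          apply hp
          rw [Finset.mem_filter, Finset.mem_range]
          exact ⟨by omega, hSp p hpS⟩
        rw [Nat.log_of_lt this]
        simp
    rw [← e1]
    exact (h1 (n t)).trans (by linarith [le_abs_self C1])
  set Θ : ℝ := ∑ p ∈ nw K, Real.log p with hΘ
  have hΘ0 : 0 ≤ Θ := Finset.sum_nonneg (fun p hp => Real.log_nonneg (by
    exact_mod_cast (mem_nw.mp hp).2.1.one_lt.le))
  have hB2 : ∀ t : Fin (30 * M), ∑ p ∈ S, (dd (Q p) p (n t) : ℝ) * Real.log p ≤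
      (2 / 3 + ε) * n t + |C2| + Θ := by
    intro t
    have e1 : ∑ p ∈ (Finset.range (2 * n t + 2)).filter Nat.Prime,
        (dd 0 p (n t) : ℝ) * Real.log p = ∑ p ∈ S, (dd 0 p (n t) : ℝ) * Real.log p := by
      apply Finset.sum_subset
      · intro p hp
        rw [Finset.mem_filter, Finset.mem_range] at hp
        rw [hS, Finset.mem_filter, Finset.mem_range]
        have := hnl t
        exact ⟨by omega, hp.2⟩
      · intro p hpS hp
        have : 2 * n t + 1 < p := by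
          by_contra hcon
          apply hp
          rw [Finset.mem_filter, Finset.mem_range]
          exact ⟨by omega, hSp p hpS⟩
        rw [ddF_eq_zero this]
        simp
    have e2 : ∑ p ∈ S, (dd (Q p) p (n t) : ℝ) * Real.log p ≤
        ∑ p ∈ S, (dd 0 p (n t) : ℝ) * Real.log p +
        ∑ p ∈ S, (if p ≤ 2 * n t + 1 ∧ ¬ p ^ 2 ∣ 2 ^ (p - 1) - 1 then Real.log p else 0) := by
      rw [← Finset.sum_add_distrib]
      exact Finset.sum_le_sum (fun p hp => dd_Q_le (hSp p hp) _)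
    have e3 : ∑ p ∈ S, (if p ≤ 2 * n t + 1 ∧ ¬ p ^ 2 ∣ 2 ^ (p - 1) - 1 then Real.log p else 0) ≤ Θ := by
      rw [← Finset.sum_filter, hΘ]
      apply Finset.sum_le_sum_of_subset_of_nonneg
      · intro p hp
        rw [Finset.mem_filter] at hp
        rw [mem_nw]
        have := hK t
        exact ⟨by omega, hSp p hp.1, hp.2.2⟩
      · intro p hp _
        exact Real.log_nonneg (by exact_mod_cast (mem_nw.mp hp).2.1.one_lt.le)
    have e4 := h2 (n t)
    rw [e1] at e4
    linarith [le_abs_self C2]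
  have hgen : ∀ (m : ℕ) (κ C : ℝ) (_ : 0 ≤ C) (f : Fin (30 * M) → ℝ)
      (_ : ∀ t, f t ≤ κ * n t + C),
      ∑ t : Fin (30 * M), (if m ≤ (t : ℕ) then f t else 0) ≤
        κ * ∑ t : Fin (30 * M), (if m ≤ (t : ℕ) then (n t : ℝ) else 0) + 30 * M * C := by
    intro m κ C hC f hf
    rw [Finset.mul_sum]
    have : ∀ t ∈ (Finset.univ : Finset (Fin (30 * M))), (if m ≤ (t : ℕ) then f t else 0) ≤
        κ * (if m ≤ (t : ℕ) then (n t : ℝ) else 0) + C := by
      intro t _
      split_ifs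
      · exact hf t
      · linarith
    refine (Finset.sum_le_sum this).trans (le_of_eq ?_)
    rw [Finset.sum_add_distrib, Finset.sum_const, Finset.card_univ, Fintype.card_fin, nsmul_eq_mul]
    push_cast
    ring
  have hC1 := hgen (12 * M) (1 + ε) |C1| (abs_nonneg _) _ hB1
  have hC2' := hgen (22 * M) (2 / 3 + ε) |C2| (abs_nonneg _)
    (fun t => ∑ p ∈ S, (dd (Q p) p (n t) : ℝ) * Real.log p - Θ) (fun t => by
      have := hB2 t
      linarith)
  have hcount : ∑ t : Fin (30 * M), (if 22 * M ≤ (t : ℕ) then Θ else 0) = 8 * M * Θ := by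
    rw [Fin.sum_univ_eq_sum_range (fun i : ℕ => if 22 * M ≤ i then Θ else 0) (30 * M),
      ← Finset.sum_filter, Finset.sum_const, nsmul_eq_mul]
    have : (Finset.range (30 * M)).filter (fun i => 22 * M ≤ i) = Finset.Ico (22 * M) (30 * M) := by
      ext i
      rw [Finset.mem_filter, Finset.mem_range, Finset.mem_Ico, and_comm]
    rw [this, Nat.card_Ico]
    have h8 : 30 * M - 22 * M = 8 * M := by omega
    rw [h8]
    push_cast
    ring
  have hC2 : ∑ t : Fin (30 * M), (if 22 * M ≤ (t : ℕ) then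
      ∑ p ∈ S, (dd (Q p) p (n t) : ℝ) * Real.log p else 0) ≤
      (2 / 3 + ε) * ∑ t : Fin (30 * M), (if 22 * M ≤ (t : ℕ) then (n t : ℝ) else 0) +
        30 * M * |C2| + 8 * M * Θ := by
    rw [← hcount]
    have : ∑ t : Fin (30 * M), (if 22 * M ≤ (t : ℕ) then
        ∑ p ∈ S, (dd (Q p) p (n t) : ℝ) * Real.log p else 0) =
        ∑ t : Fin (30 * M), (if 22 * M ≤ (t : ℕ) then
        (∑ p ∈ S, (dd (Q p) p (n t) : ℝ) * Real.log p - Θ) else 0) +
        ∑ t : Fin (30 * M), (if 22 * M ≤ (t : ℕ) then Θ else 0) := by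
      rw [← Finset.sum_add_distrib]
      apply Finset.sum_congr rfl
      intro t _
      split_ifs <;> ring
    rw [this]
    linarith
  rw [hA] at hodd
  have hcast2 : Real.log ((2 : ℕ) : ℝ) = Real.log 2 := by norm_num
  rw [hcast2] at hprod
  have h2p : Real.log 2 * (142 - ε) * (M : ℝ) ^ 2 - Real.log 2 * C3 * M -
      (ε * ∑ t, (n t : ℝ) + 30 * M * |C4|) ≤
      (padicValRat 2 (mat M n).det : ℝ) * Real.log 2 := by
    nlinarith
  nlinarith


/-- a slightly sharper numerical bound for the conformal radius. -/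
theorem log_eL' : 1.954 ≤ Real.log eL := by
  rw [Real.le_log_iff_exp_le (lt_trans (by norm_num) eL_gt)]
  refine le_trans ?_ eL_gt.le
  have h3 : Real.exp 1 < 2.7182818286 := Real.exp_one_lt_d9
  have h4 : Real.exp 1.954 = Real.exp 1 ^ 2 * Real.exp (-0.046) := by
    rw [← Real.exp_nat_mul, ← Real.exp_add]
    norm_num
  have h5 : Real.exp (-0.046) ≤ 0.95508 := by
    rw [Real.exp_neg, inv_le_comm₀ (Real.exp_pos _) (by norm_num)]
    have := Real.quadratic_le_exp_of_nonneg (x := 0.046) (by norm_num)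
    refine le_trans (by norm_num) this
  have h6 : Real.exp 1 ^ 2 < 7.389057 := by
    have : Real.exp 1 ^ 2 < (2.7182818286 : ℝ) ^ 2 := by gcongr
    refine lt_trans this ?_
    norm_num
  rw [h4]
  have : 0 < Real.exp (-0.046) := Real.exp_pos _
  nlinarith [Real.exp_pos 1]

/-- for large `M` there is a prime in `(20 M, 21 M]`. -/
lemma exists_prime_M : ∃ M₀ : ℕ, ∀ M : ℕ, M₀ ≤ M → ∃ p, p.Prime ∧ 20 * M < p ∧ p ≤ 21 * M := by
  have h := Pool.Agent.Cov.PNT.theta_div_tendsto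
  have h1 := h.eventually (lt_mem_nhds (show (0.99 : ℝ) < 1 by norm_num))
  have h2 := h.eventually (gt_mem_nhds (show (1 : ℝ) < 1.01 by norm_num))
  obtain ⟨X, hX⟩ := eventually_atTop.mp (h1.and (h2.and (eventually_gt_atTop 0)))
  refine ⟨⌈|X|⌉₊ + 1, ?_⟩
  intro M hM
  have hM1 : (1 : ℝ) ≤ M := by
    have : 1 ≤ M := by omega
    exact_mod_cast this
  have hMX : X ≤ M := by
    have h3 : (⌈|X|⌉₊ : ℝ) ≤ M := by exact_mod_cast (by omega : ⌈|X|⌉₊ ≤ M)
    exact (le_abs_self X).trans ((Nat.le_ceil _).trans h3)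
  by_contra hcon
  push Not at hcon
  have e : Chebyshev.theta ((21 * M : ℕ) : ℝ) = Chebyshev.theta ((20 * M : ℕ) : ℝ) := by
    rw [Chebyshev.theta_eq_sum_primesLE_log, Chebyshev.theta_eq_sum_primesLE_log]
    symm
    apply Finset.sum_subset
    · intro p hp
      rw [Nat.mem_primesLE] at hp ⊢
      exact ⟨by omega, hp.2⟩
    · intro p hp hp2
      exfalso
      rw [Nat.mem_primesLE] at hp
      apply hp2
      rw [Nat.mem_primesLE]
      refine ⟨?_, hp.2⟩
      by_contra h5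
      push Not at h5
      have := hcon p hp.2 h5
      omega
  have c1 : (((21 * M : ℕ) : ℝ)) = 21 * M := by push_cast; ring
  have c2 : (((20 * M : ℕ) : ℝ)) = 20 * M := by push_cast; ring
  have a1 := (hX ((21 * M : ℕ) : ℝ) (by rw [c1]; nlinarith)).1
  have a2 := (hX ((20 * M : ℕ) : ℝ) (by rw [c2]; nlinarith)).2.1
  rw [lt_div_iff₀ (by rw [c1]; linarith)] at a1
  rw [div_lt_iff₀ (by rw [c2]; linarith)] at a2
  rw [e] at a1
  rw [c1] at a1
  rw [c2] at a1 a2
  nlinarith

/-- the main inequality. -/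
theorem theta_nw_M : ∃ M₀ : ℕ, ∀ M : ℕ, M₀ ≤ M → 1.7 * (M : ℝ) ≤ ∑ p ∈ nw (79 * M), Real.log p := by
  obtain ⟨C, hC, hup⟩ := upper (1 / 100000) (by norm_num)
  obtain ⟨C', hlow⟩ := lowerD (1 / 100000) (by norm_num)
  obtain ⟨M₁, hM₁⟩ := exists_prime_M
  -- the inequality for every M
  have key : ∀ M : ℕ, 1 ≤ M → M₁ ≤ M →
      13.7 * (M : ℝ) ^ 2 ≤ 30 * M * Real.log (C * M) + (C' + 100) * M +
        8 * M * ∑ p ∈ nw (79 * M), Real.log p := by
    intro M hM hMM
    obtain ⟨n, hn, hdet, hgr⟩ := exists_sel _ (rows_indep M)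
    obtain ⟨p, hp, hp1, hp2⟩ := hM₁ M hMM
    have hnlt := sel_lt hM hp hp1 n hgr
    have hK : ∀ t, 2 * n t + 1 ≤ 79 * M := by
      intro t
      have := hnlt t
      omega
    have hdet' : (mat M n).det ≠ 0 := hdet
    have u := hup M hM n hdet' hgr
    have l := hlow M hM n hn hdet' _ hK
    set Θ := ∑ p ∈ nw (79 * M), Real.log p with hΘ
    have hMr : (1 : ℝ) ≤ M := by exact_mod_cast hM
    set s0 := ∑ t, (n t : ℝ) with hs0
    set s1 := ∑ t : Fin (30 * M), (if 12 * M ≤ (t : ℕ) then (n t : ℝ) else 0) with hs1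
    set s2 := ∑ t : Fin (30 * M), (if 22 * M ≤ (t : ℕ) then (n t : ℝ) else 0) with hs2
    have hlogE := log_eL'
    have hs0nn : 0 ≤ s0 := Finset.sum_nonneg (fun t _ => Nat.cast_nonneg _)
    -- weights
    have hw : ∀ t : Fin (30 * M), 0 ≤ (1.9539 - (if 12 * M ≤ (t : ℕ) then 1.00001 else 0) -
        (if 22 * M ≤ (t : ℕ) then (2 / 3 + 0.00001) else 0) : ℝ) := by
      intro t
      split_ifs <;> norm_num
    have hsum : ∑ t : Fin (30 * M), (1.9539 - (if 12 * M ≤ (t : ℕ) then 1.00001 else 0) -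
        (if 22 * M ≤ (t : ℕ) then (2 / 3 + 0.00001) else 0) : ℝ) * ((t : ℕ) : ℝ) ≤
        1.9539 * s0 - 1.00001 * s1 - (2 / 3 + 0.00001) * s2 := by
      rw [hs0, hs1, hs2, Finset.mul_sum, Finset.mul_sum, Finset.mul_sum, ← Finset.sum_sub_distrib,
        ← Finset.sum_sub_distrib]
      apply Finset.sum_le_sum
      intro t _
      have h1 : ((t : ℕ) : ℝ) ≤ n t := by exact_mod_cast fin_le_of_strictMono n hn t
      refine (mul_le_mul_of_nonneg_left h1 (hw t)).trans (le_of_eq ?_)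
      split_ifs <;> ring
    have hexact : ∑ t : Fin (30 * M), (1.9539 - (if 12 * M ≤ (t : ℕ) then 1.00001 else 0) -
        (if 22 * M ≤ (t : ℕ) then (2 / 3 + 0.00001) else 0) : ℝ) * ((t : ℕ) : ℝ) ≥
        362.4 * (M : ℝ) ^ 2 - 50 * M := by
      have e0 := Fin.sum_univ_eq_sum_range (fun i : ℕ => (1.9539 - (if 12 * M ≤ i then 1.00001 else 0) -
        (if 22 * M ≤ i then (2 / 3 + 0.00001) else 0) : ℝ) * (i : ℝ)) (30 * M)
      rw [e0]
      have e1 := sum_ge_range 0 (30 * M) (by omega)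
      have e2 := sum_ge_range (12 * M) (30 * M) (by omega)
      have e3 := sum_ge_range (22 * M) (30 * M) (by omega)
      have e4 : ∑ i ∈ Finset.range (30 * M), (1.9539 - (if 12 * M ≤ i then 1.00001 else 0) -
        (if 22 * M ≤ i then (2 / 3 + 0.00001) else 0) : ℝ) * (i : ℝ) =
        1.9539 * ∑ i ∈ Finset.range (30 * M), (if 0 ≤ i then (i : ℝ) else 0) -
        1.00001 * ∑ i ∈ Finset.range (30 * M), (if 12 * M ≤ i then (i : ℝ) else 0) -
        (2 / 3 + 0.00001) * ∑ i ∈ Finset.range (30 * M), (if 22 * M ≤ i then (i : ℝ) else 0) := by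
        rw [Finset.mul_sum, Finset.mul_sum, Finset.mul_sum, ← Finset.sum_sub_distrib,
          ← Finset.sum_sub_distrib]
        apply Finset.sum_congr rfl
        intro i _
        rw [if_pos (Nat.zero_le i)]
        split_ifs <;> ring
      rw [e4, e1, e2, e3]
      push_cast
      nlinarith
    have hlog2 : 0.6931 < Real.log 2 := lt_trans (by norm_num) Real.log_two_gt_d9
    nlinarith
  have hlim : Tendsto (fun M : ℕ => (30 * Real.log (C * M) + (C' + 100)) / (M : ℝ)) atTop (𝓝 0) := by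
    have l1 : Tendsto (fun x : ℝ => Real.log x / x) atTop (𝓝 0) :=
      Real.isLittleO_log_id_atTop.tendsto_div_nhds_zero
    have l2 : Tendsto (fun M : ℕ => C * (M : ℝ)) atTop atTop :=
      tendsto_natCast_atTop_atTop.const_mul_atTop hC
    have l3 := (l1.comp l2).const_mul (30 * C)
    have l4 : Tendsto (fun M : ℕ => (C' + 100) / (M : ℝ)) atTop (𝓝 0) :=
      tendsto_const_div_atTop_nhds_zero_nat _
    have l5 := l3.add l4
    rw [mul_zero, add_zero] at l5
    refine l5.congr ?_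
    intro M
    simp only [Function.comp_apply]
    field_simp
  have hev := hlim.eventually (gt_mem_nhds (show (0 : ℝ) < 0.1 by norm_num))
  obtain ⟨M₂, hM₂⟩ := eventually_atTop.mp (hev.and (eventually_ge_atTop 1))
  refine ⟨max M₁ M₂, ?_⟩
  intro M hM
  obtain ⟨hM1, hM2⟩ := hM₂ M ((le_max_right _ _).trans hM)
  have hMr : (0 : ℝ) < M := by exact_mod_cast hM2
  have h1 := key M hM2 ((le_max_left _ _).trans hM)
  rw [div_lt_iff₀ hMr] at hM1
  set Θ := ∑ p ∈ nw (79 * M), Real.log p with hΘ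
  have h2 : 13.6 * (M : ℝ) ^ 2 ≤ 8 * M * Θ := by nlinarith
  have h3 : M * (13.6 * (M : ℝ)) ≤ M * (8 * Θ) := by nlinarith
  have h4 := le_of_mul_le_mul_left h3 hMr
  linarith

lemma nw_mono {a b : ℕ} (h : a ≤ b) : nw a ⊆ nw b := by
  intro p hp
  rw [mem_nw] at hp ⊢
  exact ⟨hp.1.trans h, hp.2⟩

/-- **Theorem.** For all large `x` at least `x / (50 log x)` primes `p ≤ x` are not Wieferich
primes (even with the prime `2` removed). -/
theorem density' : ∃ x₀ : ℕ, ∀ x : ℕ, x₀ ≤ x →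
    (x : ℝ) / (50 * Real.log x) + 1 ≤ (nw x).card := by
  obtain ⟨M₀, hM₀⟩ := theta_nw_M
  -- `log x <= x / 10^6` for large `x`
  have hlx : ∀ᶠ x : ℕ in atTop, Real.log x ≤ (1 / 1000) * (x : ℝ) := by
    have l1 : Tendsto (fun x : ℝ => Real.log x / x) atTop (𝓝 0) :=
      Real.isLittleO_log_id_atTop.tendsto_div_nhds_zero
    have l2 := l1.comp tendsto_natCast_atTop_atTop
    have l3 := l2.eventually (gt_mem_nhds (show (0 : ℝ) < 1 / 1000 by norm_num))
    filter_upwards [l3, eventually_gt_atTop 0] with x hx hx0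
    have hx0' : (0 : ℝ) < x := by exact_mod_cast hx0
    simp only [Function.comp_apply] at hx
    rw [div_lt_iff₀ hx0'] at hx
    exact hx.le
  obtain ⟨X, hX⟩ := eventually_atTop.mp hlx
  refine ⟨max (max (79 * M₀) 20000) X, ?_⟩
  intro x hx
  have hx2 : 20000 ≤ x := (le_max_right _ _).trans ((le_max_left _ _).trans hx)
  have hx1 : 79 * M₀ ≤ x := (le_max_left _ _).trans ((le_max_left _ _).trans hx)
  have hx3 := hX x ((le_max_right _ _).trans hx)
  have hM : M₀ ≤ x / 79 := by omega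
  have h1 := hM₀ (x / 79) hM
  have hle : 79 * (x / 79) ≤ x := by omega
  have hge : x ≤ 79 * (x / 79) + 78 := by omega
  have hge' : (x : ℝ) ≤ 79 * ((x / 79 : ℕ) : ℝ) + 78 := by exact_mod_cast hge
  have hx2' : (20000 : ℝ) ≤ x := by exact_mod_cast hx2
  have hlogx : 0 < Real.log x := Real.log_pos (by linarith)
  have h2 : ∑ p ∈ nw (79 * (x / 79)), Real.log p ≤ (nw x).card * Real.log x := by
    calc ∑ p ∈ nw (79 * (x / 79)), Real.log p ≤ ∑ p ∈ nw x, Real.log p := by
          apply Finset.sum_le_sum_of_subset_of_nonneg (nw_mono hle)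
          intro p hp _
          exact Real.log_nonneg (by exact_mod_cast (mem_nw.mp hp).2.1.one_lt.le)
      _ ≤ ∑ p ∈ nw x, Real.log x := by
          apply Finset.sum_le_sum
          intro p hp
          have := (mem_nw.mp hp)
          apply Real.log_le_log (by exact_mod_cast this.2.1.pos)
          exact_mod_cast this.1
      _ = (nw x).card * Real.log x := by rw [Finset.sum_const, nsmul_eq_mul]
  have h3 : (x : ℝ) / (50 * Real.log x) + 1 = ((x : ℝ) / 50 + Real.log x) / Real.log x := by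
    field_simp
  rw [h3, div_le_iff₀ hlogx]
  nlinarith

theorem density_two : ∃ x₀ : ℕ, ∀ x : ℕ, x₀ ≤ x →
      (x : ℝ) / (50 * Real.log x) ≤
        ({p : ℕ | p ≤ x ∧ p.Prime ∧ ¬ p ^ 2 ∣ 2 ^ (p - 1) - 1}.ncard : ℝ) ∧
      (x : ℝ) / (50 * Real.log x) ≤
        ({p : ℕ | p ≤ x ∧ p.Prime ∧
          ∃ n : ℕ, 1 ≤ n ∧ n < p ∧ p ∣ 2 ^ n - 1 ∧ ¬ p ^ 2 ∣ 2 ^ n - 1}.ncard : ℝ) := by
  obtain ⟨x₀, h⟩ := density'
  refine ⟨x₀, ?_⟩
  intro x hx
  have h1 := h x hx
  have e1 : {p : ℕ | p ≤ x ∧ p.Prime ∧ ¬ p ^ 2 ∣ 2 ^ (p - 1) - 1} = (nw x : Set ℕ) := by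
    ext p
    rw [Finset.mem_coe, mem_nw]
    rfl
  refine ⟨?_, ?_⟩
  · rw [e1, Set.ncard_coe_finset]
    linarith
  · have hfin : {p : ℕ | p ≤ x ∧ p.Prime ∧
          ∃ n : ℕ, 1 ≤ n ∧ n < p ∧ p ∣ 2 ^ n - 1 ∧ ¬ p ^ 2 ∣ 2 ^ n - 1}.Finite :=
      (Set.finite_Iic x).subset (fun p hp => hp.1)
    have hsub : (((nw x).erase 2 : Finset ℕ) : Set ℕ) ⊆ {p : ℕ | p ≤ x ∧ p.Prime ∧
          ∃ n : ℕ, 1 ≤ n ∧ n < p ∧ p ∣ 2 ^ n - 1 ∧ ¬ p ^ 2 ∣ 2 ^ n - 1} := by
      intro p hp
      rw [Finset.mem_coe, Finset.mem_erase, mem_nw] at hp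
      obtain ⟨hp2, hpx, hpp, hW⟩ := hp
      refine ⟨hpx, hpp, p - 1, ?_, ?_, ?_, hW⟩
      · have := hpp.two_le; omega
      · have := hpp.two_le; omega
      · have : Fact p.Prime := ⟨hpp⟩
        have hcop : Nat.Coprime 2 p := (Nat.coprime_primes Nat.prime_two hpp).mpr (Ne.symm hp2)
        have h3 := Nat.ModEq.pow_totient hcop
        rw [Nat.totient_prime hpp] at h3
        exact (Nat.modEq_iff_dvd' Nat.one_le_two_pow).mp h3.symm
    have h4 := Set.ncard_le_ncard hsub hfin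
    rw [Set.ncard_coe_finset] at h4
    have h5 := Finset.pred_card_le_card_erase (s := nw x) (a := 2)
    have h6 : ((nw x).card : ℝ) ≤ ({p : ℕ | p ≤ x ∧ p.Prime ∧
          ∃ n : ℕ, 1 ≤ n ∧ n < p ∧ p ∣ 2 ^ n - 1 ∧ ¬ p ^ 2 ∣ 2 ^ n - 1}.ncard : ℝ) + 1 := by
      exact_mod_cast (by omega)
    linarith

/-- **Theorem.** For all large `x` at least `x / (50 log x)` primes `p ≤ x` are not Wieferich
primes. -/
theorem density : ∃ x₀ : ℕ, ∀ x : ℕ, x₀ ≤ x →
      (x : ℝ) / (50 * Real.log x) ≤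
        ({p : ℕ | p ≤ x ∧ p.Prime ∧ ¬ p ^ 2 ∣ 2 ^ (p - 1) - 1}.ncard : ℝ) := by
  obtain ⟨x₀, h⟩ := density_two
  exact ⟨x₀, fun x hx => (h x hx).1⟩

end

end Run7.h361
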