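import Mathlib

/-!
Equality cases of Minkowski's inhomogeneous product conjecture: basic notions over an arbitrary
finite index type and their invariance under the obvious substitutions.
-/

open Matrix Finset

set_option linter.unusedSectionVars false

namespace Run7.h361

variable {ι κ : Type*} [Fintype ι] [DecidableEq ι] [Fintype κ] [DecidableEq κ]

/-- an integer vector, seen as a real vector -/
def iv (n : ι → ℤ) : ι → ℝ := fun j => (n j : ℝ)

@[simp] theorem iv_apply (n : ι → ℤ) (j : ι) : iv n j = (n j : ℝ) := rfl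

/-- an integer matrix, seen as a real matrix -/
def im (U : Matrix ι ι ℤ) : Matrix ι ι ℝ := U.map (fun z : ℤ => (z : ℝ))

@[simp] theorem im_apply (U : Matrix ι ι ℤ) (i j : ι) : im U i j = (U i j : ℝ) := rfl

theorem im_mul (U V : Matrix ι ι ℤ) : im (U * V) = im U * im V := by
  ext i j
  simp [Matrix.mul_apply]

theorem im_one : im (1 : Matrix ι ι ℤ) = 1 := by
  ext i j
  by_cases h : i = j
  · subst h; simp
  · simp [h]

theorem im_mulVec (U : Matrix ι ι ℤ) (n : ι → ℤ) : im U *ᵥ iv n = iv (U *ᵥ n) := by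
  ext i
  simp [Matrix.mulVec, dotProduct]

theorem im_det (U : Matrix ι ι ℤ) : (im U).det = (U.det : ℝ) := by
  have := (Int.castRingHom ℝ).map_det U
  simp only [eq_intCast] at this
  rw [this]
  congr 1

theorem iv_add (m n : ι → ℤ) : iv (m + n) = iv m + iv n := by
  ext i; simp

theorem iv_sub (m n : ι → ℤ) : iv (m - n) = iv m - iv n := by
  ext i; simp

theorem iv_neg (m : ι → ℤ) : iv (-m) = - iv m := by
  ext i; simp

theorem iv_zero : iv (0 : ι → ℤ) = 0 := by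
  ext i; simp

theorem iv_inj {m n : ι → ℤ} (h : iv m = iv n) : m = n := by
  ext i
  have := congrFun h i
  simpa using this

theorem abs_det_unit {U : Matrix ι ι ℤ} (hU : IsUnit U.det) : |(im U).det| = 1 := by
  rw [im_det]
  rcases Int.isUnit_iff.mp hU with h | h <;> simp [h]

theorem exists_inv {U : Matrix ι ι ℤ} (hU : IsUnit U.det) :
    ∃ V : Matrix ι ι ℤ, IsUnit V.det ∧ U * V = 1 ∧ V * U = 1 := by
  refine ⟨U⁻¹, ?_, Matrix.mul_nonsing_inv _ hU, Matrix.nonsing_inv_mul _ hU⟩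
  rw [Matrix.det_nonsing_inv]
  exact hU.ringInverse

/-- no integer vector gives strict inequality in Minkowski's product inequality -/
def EqC (L : Matrix ι ι ℝ) (c : ι → ℝ) : Prop :=
  ∀ n : ι → ℤ, |L.det| / 2 ^ Fintype.card ι ≤ |∏ k, ((L *ᵥ iv n) k + c k)|

/-- the configuration is diagonal after an integral unimodular substitution -/
def Dg (L : Matrix ι ι ℝ) (c : ι → ℝ) : Prop :=
  ∃ U : Matrix ι ι ℤ, IsUnit U.det ∧ ∃ m : ι → ℤ,
    L * im U = Matrix.diagonal (fun k => 2 * (c k + (L *ᵥ iv m) k))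

/-- all equality cases with the given forms are diagonalisable -/
def Good (L : Matrix ι ι ℝ) : Prop := ∀ c : ι → ℝ, EqC L c → Dg L c

/-! ### row scaling -/

/-- multiply the `k`-th form by `t k` -/
def rs (t : ι → ℝ) (L : Matrix ι ι ℝ) : Matrix ι ι ℝ := Matrix.of (fun k j => t k * L k j)

@[simp] theorem rs_apply (t : ι → ℝ) (L : Matrix ι ι ℝ) (k j : ι) : rs t L k j = t k * L k j := rfl

theorem rs_eq (t : ι → ℝ) (L : Matrix ι ι ℝ) : rs t L = Matrix.diagonal t * L := by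
  ext k j
  simp [Matrix.diagonal_mul]

theorem rs_mulVec (t : ι → ℝ) (L : Matrix ι ι ℝ) (x : ι → ℝ) (k : ι) :
    (rs t L *ᵥ x) k = t k * (L *ᵥ x) k := by
  simp [Matrix.mulVec, dotProduct, Finset.mul_sum, mul_assoc]

theorem rs_det (t : ι → ℝ) (L : Matrix ι ι ℝ) : (rs t L).det = (∏ k, t k) * L.det := by
  rw [rs_eq, Matrix.det_mul, Matrix.det_diagonal]

theorem rs_mul (t : ι → ℝ) (L M : Matrix ι ι ℝ) : rs t L * M = rs t (L * M) := by
  rw [rs_eq, rs_eq, Matrix.mul_assoc]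

theorem rs_rs (s t : ι → ℝ) (L : Matrix ι ι ℝ) : rs s (rs t L) = rs (s * t) L := by
  ext k j; simp [mul_assoc]

theorem rs_one (L : Matrix ι ι ℝ) : rs 1 L = L := by
  ext k j; simp

theorem EqC.rs {L : Matrix ι ι ℝ} {c : ι → ℝ} (h : EqC L c) (t : ι → ℝ) :
    EqC (rs t L) (t * c) := by
  intro n
  have h1 : ∏ k, ((Run7.h361.rs t L *ᵥ iv n) k + (t * c) k) =
      (∏ k, t k) * ∏ k, ((L *ᵥ iv n) k + c k) := by
    rw [← Finset.prod_mul_distrib]
    refine Finset.prod_congr rfl fun k _ => ?_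
    rw [rs_mulVec, Pi.mul_apply]; ring
  rw [h1, rs_det, abs_mul, abs_mul, mul_div_assoc]
  exact mul_le_mul_of_nonneg_left (h n) (abs_nonneg _)

theorem Dg.rs {L : Matrix ι ι ℝ} {c : ι → ℝ} (h : Dg L c) (t : ι → ℝ) :
    Dg (rs t L) (t * c) := by
  obtain ⟨U, hU, m, hm⟩ := h
  refine ⟨U, hU, m, ?_⟩
  rw [rs_mul, hm]
  ext k j
  by_cases hkj : k = j
  · subst hkj
    simp [rs_mulVec]; ring
  · simp [hkj]

theorem EqC_rs_iff {L : Matrix ι ι ℝ} {c : ι → ℝ} {t : ι → ℝ} (ht : ∀ k, t k ≠ 0) :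
    EqC (rs t L) (t * c) ↔ EqC L c := by
  refine ⟨fun h => ?_, fun h => h.rs t⟩
  have := h.rs t⁻¹
  rw [rs_rs] at this
  have h1 : t⁻¹ * t = 1 := by
    ext k; simp [ht k]
  rwa [h1, rs_one, ← mul_assoc, h1, one_mul] at this

theorem Dg_rs_iff {L : Matrix ι ι ℝ} {c : ι → ℝ} {t : ι → ℝ} (ht : ∀ k, t k ≠ 0) :
    Dg (rs t L) (t * c) ↔ Dg L c := by
  refine ⟨fun h => ?_, fun h => h.rs t⟩
  have := h.rs t⁻¹
  rw [rs_rs] at this
  have h1 : t⁻¹ * t = 1 := by
    ext k; simp [ht k]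
  rwa [h1, rs_one, ← mul_assoc, h1, one_mul] at this

/-! ### unimodular substitutions -/

theorem EqC.mul {L : Matrix ι ι ℝ} {c : ι → ℝ} (h : EqC L c) {U : Matrix ι ι ℤ}
    (hU : IsUnit U.det) : EqC (L * im U) c := by
  intro n
  rw [Matrix.det_mul, abs_mul, abs_det_unit hU, mul_one, ← Matrix.mulVec_mulVec, im_mulVec]
  exact h _

theorem EqC_mul_iff {L : Matrix ι ι ℝ} {c : ι → ℝ} {U : Matrix ι ι ℤ}
    (hU : IsUnit U.det) : EqC (L * im U) c ↔ EqC L c := by
  refine ⟨fun h => ?_, fun h => h.mul hU⟩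
  obtain ⟨V, hV, hUV, -⟩ := exists_inv hU
  have := h.mul hV
  rwa [Matrix.mul_assoc, ← im_mul, hUV, im_one, Matrix.mul_one] at this

theorem Dg.mul {L : Matrix ι ι ℝ} {c : ι → ℝ} (h : Dg L c) {U : Matrix ι ι ℤ}
    (hU : IsUnit U.det) : Dg (L * im U) c := by
  obtain ⟨V, hV, hUV, hVU⟩ := exists_inv hU
  obtain ⟨W, hW, m, hm⟩ := h
  refine ⟨V * W, by rw [Matrix.det_mul]; exact hV.mul hW, V *ᵥ m, ?_⟩
  rw [im_mul, Matrix.mul_assoc, ← Matrix.mul_assoc (im U), ← im_mul, hUV, im_one, Matrix.one_mul,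
    hm]
  congr 1
  ext k
  rw [← im_mulVec, Matrix.mulVec_mulVec, Matrix.mul_assoc, ← im_mul, hUV, im_one, Matrix.mul_one]

theorem Dg_mul_iff {L : Matrix ι ι ℝ} {c : ι → ℝ} {U : Matrix ι ι ℤ}
    (hU : IsUnit U.det) : Dg (L * im U) c ↔ Dg L c := by
  refine ⟨fun h => ?_, fun h => h.mul hU⟩
  obtain ⟨V, hV, hUV, -⟩ := exists_inv hU
  have := h.mul hV
  rwa [Matrix.mul_assoc, ← im_mul, hUV, im_one, Matrix.mul_one] at this

/-! ### translations -/

theorem EqC.add {L : Matrix ι ι ℝ} {c : ι → ℝ} (h : EqC L c) (m : ι → ℤ) :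
    EqC L (c + L *ᵥ iv m) := by
  intro n
  have := h (n + m)
  have h1 : ∏ k, ((L *ᵥ iv n) k + (c + L *ᵥ iv m) k) = ∏ k, ((L *ᵥ iv (n + m)) k + c k) := by
    refine Finset.prod_congr rfl fun k _ => ?_
    rw [iv_add, Matrix.mulVec_add, Pi.add_apply, Pi.add_apply]; ring
  rwa [h1]

theorem EqC_add_iff {L : Matrix ι ι ℝ} {c : ι → ℝ} (m : ι → ℤ) :
    EqC L (c + L *ᵥ iv m) ↔ EqC L c := by
  refine ⟨fun h => ?_, fun h => h.add m⟩
  have := h.add (-m)
  rwa [iv_neg, Matrix.mulVec_neg, add_neg_cancel_right] at this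

theorem Dg.add {L : Matrix ι ι ℝ} {c : ι → ℝ} (h : Dg L c) (m : ι → ℤ) :
    Dg L (c + L *ᵥ iv m) := by
  obtain ⟨U, hU, l, hl⟩ := h
  refine ⟨U, hU, l - m, ?_⟩
  rw [hl]
  congr 1
  ext k
  rw [iv_sub, Matrix.mulVec_sub, Pi.add_apply, Pi.sub_apply]; ring

theorem Dg_add_iff {L : Matrix ι ι ℝ} {c : ι → ℝ} (m : ι → ℤ) :
    Dg L (c + L *ᵥ iv m) ↔ Dg L c := by
  refine ⟨fun h => ?_, fun h => h.add m⟩
  have := h.add (-m)
  rwa [iv_neg, Matrix.mulVec_neg, add_neg_cancel_right] at this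

/-! ### reindexing -/

theorem reindex_mulVec (e : ι ≃ κ) (L : Matrix ι ι ℝ) (x : κ → ℝ) :
    (Matrix.reindex e e L) *ᵥ x = (L *ᵥ (x ∘ e)) ∘ e.symm := by
  rw [Matrix.reindex_apply]
  have := Matrix.submatrix_mulVec_equiv L x e.symm e.symm
  simpa using this

theorem EqC.reindex {L : Matrix ι ι ℝ} {c : ι → ℝ} (h : EqC L c) (e : ι ≃ κ) :
    EqC (Matrix.reindex e e L) (c ∘ e.symm) := by
  intro n
  rw [Matrix.det_reindex_self, reindex_mulVec, ← Fintype.card_congr e]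
  have := h (n ∘ e)
  convert this using 2
  rw [← Equiv.prod_comp e]
  refine Finset.prod_congr rfl fun k _ => ?_
  simp only [Function.comp_apply, Equiv.symm_apply_apply]
  rfl

theorem Dg.reindex {L : Matrix ι ι ℝ} {c : ι → ℝ} (h : Dg L c) (e : ι ≃ κ) :
    Dg (Matrix.reindex e e L) (c ∘ e.symm) := by
  obtain ⟨U, hU, m, hm⟩ := h
  refine ⟨Matrix.reindex e e U, by rwa [Matrix.det_reindex_self], m ∘ e.symm, ?_⟩
  have h1 : im (Matrix.reindex e e U) = Matrix.reindex e e (im U) := rfl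
  rw [h1]
  have h2 : Matrix.reindex e e L * Matrix.reindex e e (im U) = Matrix.reindex e e (L * im U) := by
    simp only [Matrix.reindex_apply]
    rw [Matrix.submatrix_mul_equiv]
  rw [h2, hm, reindex_mulVec]
  ext i j
  by_cases hij : i = j
  · subst hij
    simp only [Matrix.reindex_apply, Matrix.submatrix_apply, Matrix.diagonal_apply_eq,
      Function.comp_apply]
    congr 3
    congr 1
    ext k
    simp
  · have : e.symm i ≠ e.symm j := fun h => hij (e.symm.injective h)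
    simp only [Matrix.reindex_apply, Matrix.submatrix_apply]
    rw [Matrix.diagonal_apply_ne _ this, Matrix.diagonal_apply_ne _ hij]

/-! ### permutation of the forms -/

theorem EqC.perm {L : Matrix ι ι ℝ} {c : ι → ℝ} (h : EqC L c) (σ : Equiv.Perm ι) :
    EqC (L.submatrix σ id) (c ∘ σ) := by
  intro n
  have h1 : (L.submatrix σ id).det = (Equiv.Perm.sign σ : ℤ) * L.det := by
    rw [Matrix.det_permute]
  have h2 : |(L.submatrix σ id).det| = |L.det| := by
    rw [h1, abs_mul]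
    have : |((Equiv.Perm.sign σ : ℤ) : ℝ)| = 1 := by
      rcases Int.units_eq_one_or (Equiv.Perm.sign σ) with h | h <;> simp [h]
    rw [this, one_mul]
  rw [h2]
  have := h n
  convert this using 2
  exact Equiv.prod_comp σ (fun k => (L *ᵥ iv n) k + c k)

theorem Dg.perm {L : Matrix ι ι ℝ} {c : ι → ℝ} (h : Dg L c) (σ : Equiv.Perm ι) :
    Dg (L.submatrix σ id) (c ∘ σ) := by
  obtain ⟨U, hU, m, hm⟩ := h
  refine ⟨U.submatrix id σ, ?_, m, ?_⟩
  · rw [Matrix.det_permute']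
    exact (Units.isUnit _).mul hU
  · have h1 : L.submatrix σ id * im (U.submatrix id σ) = (L * im U).submatrix σ σ := by
      ext i j
      simp [Matrix.mul_apply]
    rw [h1, hm]
    ext i j
    by_cases hij : i = j
    · subst hij
      simp only [Matrix.submatrix_apply, Matrix.diagonal_apply_eq, Function.comp_apply]
      rfl
    · have : σ i ≠ σ j := fun h => hij (σ.injective h)
      simp only [Matrix.submatrix_apply]
      rw [Matrix.diagonal_apply_ne _ this, Matrix.diagonal_apply_ne _ hij]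

theorem EqC_perm_iff {L : Matrix ι ι ℝ} {c : ι → ℝ} (σ : Equiv.Perm ι) :
    EqC (L.submatrix σ id) (c ∘ σ) ↔ EqC L c := by
  refine ⟨fun h => ?_, fun h => h.perm σ⟩
  have := h.perm σ.symm
  have h1 : (L.submatrix σ id).submatrix σ.symm id = L := by ext i j; simp
  have h2 : (c ∘ σ) ∘ σ.symm = c := by ext i; simp
  rwa [h1, h2] at this

theorem Dg_perm_iff {L : Matrix ι ι ℝ} {c : ι → ℝ} (σ : Equiv.Perm ι) :
    Dg (L.submatrix σ id) (c ∘ σ) ↔ Dg L c := by
  refine ⟨fun h => ?_, fun h => h.perm σ⟩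
  have := h.perm σ.symm
  have h1 : (L.submatrix σ id).submatrix σ.symm id = L := by ext i j; simp
  have h2 : (c ∘ σ) ∘ σ.symm = c := by ext i; simp
  rwa [h1, h2] at this

theorem EqC_reindex_iff {L : Matrix ι ι ℝ} {c : ι → ℝ} (e : ι ≃ κ) :
    EqC (Matrix.reindex e e L) (c ∘ e.symm) ↔ EqC L c := by
  refine ⟨fun h => ?_, fun h => h.reindex e⟩
  have := h.reindex e.symm
  have h1 : Matrix.reindex e.symm e.symm (Matrix.reindex e e L) = L := by ext i j; simp
  have h2 : (c ∘ e.symm) ∘ e.symm.symm = c := by ext i; simp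
  rwa [h1, h2] at this

theorem Dg_reindex_iff {L : Matrix ι ι ℝ} {c : ι → ℝ} (e : ι ≃ κ) :
    Dg (Matrix.reindex e e L) (c ∘ e.symm) ↔ Dg L c := by
  refine ⟨fun h => ?_, fun h => h.reindex e⟩
  have := h.reindex e.symm
  have h1 : Matrix.reindex e.symm e.symm (Matrix.reindex e e L) = L := by ext i j; simp
  have h2 : (c ∘ e.symm) ∘ e.symm.symm = c := by ext i; simp
  rwa [h1, h2] at this

/-! ### invariance of `Good` -/

theorem Good.reindex {L : Matrix ι ι ℝ} (h : Good L) (e : ι ≃ κ) :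
    Good (Matrix.reindex e e L) := by
  intro c hc
  have h1 : c = (c ∘ e) ∘ e.symm := by ext i; simp
  rw [h1] at hc ⊢
  rw [EqC_reindex_iff] at hc
  rw [Dg_reindex_iff]
  exact h _ hc

theorem Good_rs_iff {L : Matrix ι ι ℝ} {t : ι → ℝ} (ht : ∀ k, t k ≠ 0) :
    Good (rs t L) ↔ Good L := by
  constructor
  · intro h c hc
    have := h (t * c) (hc.rs t)
    rwa [Dg_rs_iff ht] at this
  · intro h c hc
    have h1 : c = t * (t⁻¹ * c) := by ext k; simp [ht k]
    rw [h1] at hc ⊢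
    rw [EqC_rs_iff ht] at hc
    rw [Dg_rs_iff ht]
    exact h _ hc

theorem Good_mul_iff {L : Matrix ι ι ℝ} {U : Matrix ι ι ℤ} (hU : IsUnit U.det) :
    Good (L * im U) ↔ Good L := by
  simp only [Good, EqC_mul_iff hU, Dg_mul_iff hU]

theorem Good_perm_iff {L : Matrix ι ι ℝ} (σ : Equiv.Perm ι) :
    Good (L.submatrix σ id) ↔ Good L := by
  constructor
  · intro h c hc
    have := h _ (hc.perm σ)
    rwa [Dg_perm_iff] at this
  · intro h c hc
    have h1 : c = (c ∘ σ.symm) ∘ σ := by ext k; simp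
    rw [h1] at hc ⊢
    rw [EqC_perm_iff] at hc
    rw [Dg_perm_iff]
    exact h _ hc

end Run7.h361
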