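import Mathlib
import Pool.Agent.Run7.h361.Basic

/-!
Block triangular configurations.
-/

open Matrix Finset

set_option linter.unusedSectionVars false

namespace Run7.h361

section
variable {ι : Type*} [Fintype ι] [DecidableEq ι]

theorem Dg.exists_eq {L : Matrix ι ι ℝ} {c : ι → ℝ} (h : Dg L c) :
    ∃ n : ι → ℤ, |∏ k, ((L *ᵥ iv n) k + c k)| = |L.det| / 2 ^ Fintype.card ι := by
  obtain ⟨U, hU, m, hm⟩ := h
  refine ⟨m, ?_⟩
  have h1 : |(L * im U).det| = |L.det| := by
    rw [Matrix.det_mul, abs_mul, abs_det_unit hU, mul_one]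
  rw [← h1, hm, Matrix.det_diagonal, Finset.prod_mul_distrib, Finset.prod_const, Finset.card_univ,
    abs_mul, abs_pow]
  have h2 : |(2 : ℝ)| = 2 := by norm_num
  rw [h2, mul_div_right_comm, div_self (by positivity), one_mul]
  congr 1
  exact Finset.prod_congr rfl fun k _ => add_comm _ _

theorem Good.exists_le {L : Matrix ι ι ℝ} (h : Good L) (c : ι → ℝ) :
    ∃ n : ι → ℤ, |∏ k, ((L *ᵥ iv n) k + c k)| ≤ |L.det| / 2 ^ Fintype.card ι := by
  by_cases hE : EqC L c
  · obtain ⟨n, hn⟩ := (h c hE).exists_eq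
    exact ⟨n, hn.le⟩
  · unfold EqC at hE
    push Not at hE
    obtain ⟨n, hn⟩ := hE
    exact ⟨n, hn.le⟩

/-- translates of a diagonal configuration which are still equality cases -/
theorem diag_shift {a x : ι → ℝ} (ha : ∀ i, a i ≠ 0)
    (h : ∀ n : ι → ℤ, |∏ i, a i| ≤ |∏ i, (2 * a i * (n i : ℝ) + (a i - x i))|) :
    ∀ i, ∃ z : ℤ, x i = 2 * a i * z := by
  set y : ι → ℝ := fun i => x i / (2 * a i) with hy
  set n : ι → ℤ := fun i => ⌊y i⌋ with hn
  have h1 := h n
  have h2 : ∀ i, 2 * a i * (n i : ℝ) + (a i - x i) = a i * (1 - 2 * Int.fract (y i)) := by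
    intro i
    have h3 : x i = 2 * a i * y i := by
      have := ha i
      simp only [hy]; field_simp
    have h4 : (n i : ℝ) = y i - Int.fract (y i) := by
      simp only [hn]; rw [Int.self_sub_fract]
    rw [h3, h4]; ring
  simp only [h2] at h1
  rw [Finset.prod_mul_distrib, abs_mul] at h1
  have hpos : 0 < |∏ i, a i| := by
    rw [abs_pos]; exact Finset.prod_ne_zero_iff.mpr fun i _ => ha i
  have h5 : 1 ≤ |∏ i, (1 - 2 * Int.fract (y i))| := by
    by_contra hcon
    push Not at hcon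
    nlinarith
  rw [Finset.abs_prod] at h5
  have h6 : ∀ i, |1 - 2 * Int.fract (y i)| ≤ 1 := by
    intro i
    have := Int.fract_nonneg (y i)
    have h7 := (Int.fract_lt_one (y i)).le
    rw [abs_le]; constructor <;> linarith
  intro i
  have h7 : |1 - 2 * Int.fract (y i)| = 1 := by
    apply le_antisymm (h6 i)
    rw [← Finset.mul_prod_erase _ _ (Finset.mem_univ i)] at h5
    have h8 : ∏ x ∈ Finset.univ.erase i, |1 - 2 * Int.fract (y x)| ≤ 1 :=
      Finset.prod_le_one (fun j _ => abs_nonneg _) fun j _ => h6 j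
    have h9 : 0 ≤ ∏ x ∈ Finset.univ.erase i, |1 - 2 * Int.fract (y x)| :=
      Finset.prod_nonneg fun j _ => abs_nonneg _
    nlinarith [abs_nonneg (1 - 2 * Int.fract (y i))]
  have h8 : Int.fract (y i) = 0 := by
    have h9 := Int.fract_nonneg (y i)
    have h10 := Int.fract_lt_one (y i)
    rcases (abs_eq (by norm_num : (0 : ℝ) ≤ 1)).mp h7 with h | h
    · linarith
    · linarith
  refine ⟨n i, ?_⟩
  have h9 := h2 i
  rw [h8] at h9
  linarith

end

section
variable {α β : Type*} [Fintype α] [DecidableEq α] [Fintype β] [DecidableEq β]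

theorem im_fromBlocks (A : Matrix α α ℤ) (B : Matrix α β ℤ) (C : Matrix β α ℤ) (D : Matrix β β ℤ) :
    im (fromBlocks A B C D) = fromBlocks (im A) (B.map (fun z : ℤ => (z : ℝ)))
      (C.map (fun z : ℤ => (z : ℝ))) (im D) := by
  ext i j
  rcases i with i | i <;> rcases j with j | j <;> simp

theorem block_prod (B : Matrix α α ℝ) (C : Matrix α β ℝ) (E : Matrix β β ℝ) (c : α ⊕ β → ℝ)
    (n : α ⊕ β → ℤ) :
    ∏ k, ((fromBlocks B C 0 E *ᵥ iv n) k + c k) =
      (∏ i, ((B *ᵥ iv (n ∘ Sum.inl)) i + ((C *ᵥ iv (n ∘ Sum.inr)) i + c (Sum.inl i)))) *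
      ∏ j, ((E *ᵥ iv (n ∘ Sum.inr)) j + c (Sum.inr j)) := by
  have h1 : iv n = Sum.elim (iv (n ∘ Sum.inl)) (iv (n ∘ Sum.inr)) := by
    ext k; rcases k with k | k <;> rfl
  rw [Fintype.prod_sum_type]
  congr 1
  · refine Finset.prod_congr rfl fun i _ => ?_
    rw [h1, Matrix.fromBlocks_mulVec]
    simp only [Sum.elim_inl, Pi.add_apply]
    rw [add_assoc]; rfl
  · refine Finset.prod_congr rfl fun j _ => ?_
    rw [h1, Matrix.fromBlocks_mulVec]
    simp only [Sum.elim_inr, Matrix.zero_mulVec, zero_add]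
    rfl

theorem good_block {B : Matrix α α ℝ} {C : Matrix α β ℝ} {E : Matrix β β ℝ}
    (hB : Good B) (hE : Good E) (hBd : B.det ≠ 0) (hEd : E.det ≠ 0) :
    Good (fromBlocks B C 0 E) := by
  intro c hc
  have hcard : Fintype.card (α ⊕ β) = Fintype.card α + Fintype.card β := Fintype.card_sum
  have hBpos : 0 < |B.det| / 2 ^ Fintype.card α := by positivity
  have hEpos : 0 < |E.det| / 2 ^ Fintype.card β := by positivity
  have hdet : |(fromBlocks B C 0 E).det| / 2 ^ Fintype.card (α ⊕ β) =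
      (|B.det| / 2 ^ Fintype.card α) * (|E.det| / 2 ^ Fintype.card β) := by
    rw [Matrix.det_fromBlocks_zero₂₁, abs_mul, hcard, pow_add]
    field_simp
  -- the lower block is an equality case
  have hE2 : EqC E (c ∘ Sum.inr) := by
    intro n2
    by_contra hcon
    push Not at hcon
    obtain ⟨n1, hn1⟩ := hB.exists_le (fun i => (C *ᵥ iv n2) i + c (Sum.inl i))
    have h1 := hc (Sum.elim n1 n2)
    rw [hdet, block_prod, abs_mul] at h1
    have e1 : (Sum.elim n1 n2) ∘ Sum.inl = n1 := rfl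
    have e2 : (Sum.elim n1 n2 : α ⊕ β → ℤ) ∘ Sum.inr = n2 := rfl
    rw [e1, e2] at h1
    have h2 := mul_le_mul_of_nonneg_right hn1 (abs_nonneg (∏ j, ((E *ᵥ iv n2) j + c (Sum.inr j))))
    have h3 := mul_lt_mul_of_pos_left hcon hBpos
    simp only [Function.comp_apply] at h3
    linarith
  obtain ⟨U2, hU2, m2, hm2⟩ := hE _ hE2
  -- first normalisation
  set V2 : Matrix (α ⊕ β) (α ⊕ β) ℤ := fromBlocks 1 0 0 U2 with hV2
  have hV2u : IsUnit V2.det := by
    rw [hV2, Matrix.det_fromBlocks_zero₂₁, Matrix.det_one, one_mul]; exact hU2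
  set M2 : α ⊕ β → ℤ := Sum.elim 0 m2 with hM2
  set γ : β → ℝ := fun k => c (Sum.inr k) + (E *ᵥ iv m2) k with hγ
  set C' : Matrix α β ℝ := C * im U2 with hC'
  set E' : Matrix β β ℝ := E * im U2 with hE'
  have hE'd : E' = Matrix.diagonal (fun k => 2 * γ k) := hm2
  have hL' : fromBlocks B C 0 E * im V2 = fromBlocks B C' 0 E' := by
    rw [hV2, im_fromBlocks, Matrix.fromBlocks_multiply, im_one]
    congr 1 <;> simp [hC', hE']
  rw [← Dg_mul_iff hV2u, hL', ← Dg_add_iff (L := fromBlocks B C' 0 E') (V2⁻¹ *ᵥ M2)]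
  rw [← EqC_mul_iff hV2u, hL', ← EqC_add_iff (V2⁻¹ *ᵥ M2)] at hc
  have hshift : fromBlocks B C' 0 E' *ᵥ iv (V2⁻¹ *ᵥ M2) = fromBlocks B C 0 E *ᵥ iv M2 := by
    rw [← hL', ← Matrix.mulVec_mulVec, im_mulVec, Matrix.mulVec_mulVec,
      Matrix.mul_nonsing_inv _ hV2u, Matrix.one_mulVec]
  rw [hshift] at hc ⊢
  set c' := c + fromBlocks B C 0 E *ᵥ iv M2 with hc'
  have hc'r : ∀ k, c' (Sum.inr k) = γ k := by
    intro k
    have h1 : iv M2 = Sum.elim (iv (0 : α → ℤ)) (iv m2) := by
      ext k; rcases k with k | k <;> rfl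
    simp only [hc', hγ, Pi.add_apply]
    rw [h1, Matrix.fromBlocks_mulVec]
    simp [Matrix.zero_mulVec]
  have hE'det : |E'.det| = |E.det| := by
    rw [hE', Matrix.det_mul, abs_mul, abs_det_unit hU2, mul_one]
  have hγ0 : ∀ k, γ k ≠ 0 := by
    intro k hk
    have : E'.det = 0 := by
      rw [hE'd, Matrix.det_diagonal]
      exact Finset.prod_eq_zero (Finset.mem_univ k) (by rw [hk, mul_zero])
    rw [this, abs_zero] at hE'det
    exact hEd (abs_eq_zero.mp hE'det.symm)
  have hγp : |∏ k, γ k| = |E'.det| / 2 ^ Fintype.card β := by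
    rw [hE'd, Matrix.det_diagonal, Finset.prod_mul_distrib, Finset.prod_const, Finset.card_univ,
      abs_mul, abs_pow]
    have h2 : |(2 : ℝ)| = 2 := by norm_num
    rw [h2, mul_div_right_comm, div_self (by positivity), one_mul]
  have hγpos : 0 < |∏ k, γ k| := by
    rw [abs_pos]; exact Finset.prod_ne_zero_iff.mpr fun i _ => hγ0 i
  have hdet' : |(fromBlocks B C' 0 E').det| / 2 ^ Fintype.card (α ⊕ β) =
      (|B.det| / 2 ^ Fintype.card α) * |∏ k, γ k| := by
    rw [Matrix.det_fromBlocks_zero₂₁, abs_mul, hcard, pow_add, hγp]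
    field_simp
  -- the fibres over the minimal points of the lower block are equality cases
  have hfib : ∀ n2 : β → ℤ, |∏ j, ((E' *ᵥ iv n2) j + γ j)| = |∏ k, γ k| →
      EqC B (fun i => (C' *ᵥ iv n2) i + c' (Sum.inl i)) := by
    intro n2 hn2 n1
    have h1 := hc (Sum.elim n1 n2)
    rw [hdet', block_prod, abs_mul] at h1
    have e1 : (Sum.elim n1 n2) ∘ Sum.inl = n1 := rfl
    have e2 : (Sum.elim n1 n2 : α ⊕ β → ℤ) ∘ Sum.inr = n2 := rfl
    rw [e1, e2] at h1
    simp only [hc'r] at h1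
    rw [hn2] at h1
    exact le_of_mul_le_mul_right h1 hγpos
  have hB1 : EqC B (fun i => c' (Sum.inl i)) := by
    have := hfib 0 (by rw [iv_zero, Matrix.mulVec_zero]; simp)
    simpa [iv_zero, Matrix.mulVec_zero] using this
  obtain ⟨U1, hU1, m1, hm1⟩ := hB _ hB1
  set V1 : Matrix (α ⊕ β) (α ⊕ β) ℤ := fromBlocks U1 0 0 1 with hV1
  have hV1u : IsUnit V1.det := by
    rw [hV1, Matrix.det_fromBlocks_zero₂₁, Matrix.det_one, mul_one]; exact hU1
  set M1 : α ⊕ β → ℤ := Sum.elim m1 0 with hM1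
  set a : α → ℝ := fun k => c' (Sum.inl k) + (B *ᵥ iv m1) k with ha
  set B' : Matrix α α ℝ := B * im U1 with hB'
  have hB'd : B' = Matrix.diagonal (fun k => 2 * a k) := hm1
  have hL'' : fromBlocks B C' 0 E' * im V1 = fromBlocks B' C' 0 E' := by
    rw [hV1, im_fromBlocks, Matrix.fromBlocks_multiply, im_one]
    congr 1 <;> simp [hB']
  have ha0 : ∀ k, a k ≠ 0 := by
    intro k hk
    have h1 : B'.det = 0 := by
      rw [hB'd, Matrix.det_diagonal]
      exact Finset.prod_eq_zero (Finset.mem_univ k) (by rw [hk, mul_zero])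
    have h2 : |B'.det| = |B.det| := by
      rw [hB', Matrix.det_mul, abs_mul, abs_det_unit hU1, mul_one]
    rw [h1, abs_zero] at h2
    exact hBd (abs_eq_zero.mp h2.symm)
  have hap : |B.det| / 2 ^ Fintype.card α = |∏ k, a k| := by
    have h2 : |B'.det| = |B.det| := by
      rw [hB', Matrix.det_mul, abs_mul, abs_det_unit hU1, mul_one]
    rw [← h2, hB'd, Matrix.det_diagonal, Finset.prod_mul_distrib, Finset.prod_const,
      Finset.card_univ, abs_mul, abs_pow]
    have h2 : |(2 : ℝ)| = 2 := by norm_num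
    rw [h2, mul_div_right_comm, div_self (by positivity), one_mul]
  -- the off-diagonal block is integral
  have hz : ∀ (i : α) (j : β), ∃ z : ℤ, C' i j = 2 * a i * z := by
    intro i j
    have h1 := hfib (Pi.single j (-1)) (by
      rw [Finset.abs_prod, Finset.abs_prod]
      refine Finset.prod_congr rfl fun k _ => ?_
      have h2 : iv (Pi.single j (-1 : ℤ)) = Pi.single j (-1 : ℝ) := by
        ext l
        by_cases hl : l = j
        · subst hl; simp
        · simp [hl]
      rw [h2, hE'd, Matrix.mulVec_single]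
      by_cases hk : k = j
      · subst hk
        simp
        rw [← abs_neg]
        congr 1; ring
      · simp [hk])
    have h3 : ∀ n : α → ℤ, |∏ i, a i| ≤ |∏ i, (2 * a i * (n i : ℝ) + (a i - C' i j))| := by
      intro n
      have h4 := h1 (m1 + U1 *ᵥ n)
      rw [hap] at h4
      refine h4.trans (le_of_eq ?_)
      congr 1
      refine Finset.prod_congr rfl fun k _ => ?_
      have h5 : (B *ᵥ iv (m1 + U1 *ᵥ n)) = B *ᵥ iv m1 + B' *ᵥ iv n := by
        rw [iv_add, Matrix.mulVec_add, ← im_mulVec, Matrix.mulVec_mulVec]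
      have h2 : iv (Pi.single j (-1 : ℤ)) = Pi.single j (-1 : ℝ) := by
        ext l
        by_cases hl : l = j
        · subst hl; simp
        · simp [hl]
      rw [h5, h2, hB'd, Matrix.mulVec_single, Pi.add_apply, Matrix.mulVec_diagonal]
      simp [ha]
      ring
    exact diag_shift ha0 h3 i
  choose z hz using hz
  set Z : Matrix α β ℤ := Matrix.of z with hZ
  set V3 : Matrix (α ⊕ β) (α ⊕ β) ℤ := fromBlocks 1 (-Z) 0 1 with hV3
  have hV3u : IsUnit V3.det := by
    rw [hV3, Matrix.det_fromBlocks_zero₂₁, Matrix.det_one, Matrix.det_one, mul_one]; exact isUnit_one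
  rw [← Dg_mul_iff hV1u, hL'', ← Dg_mul_iff hV3u,
    ← Dg_add_iff (L := fromBlocks B' C' 0 E' * im V3) (V3⁻¹ *ᵥ (V1⁻¹ *ᵥ M1))]
  have hshift1 : (fromBlocks B' C' 0 E' * im V3) *ᵥ iv (V3⁻¹ *ᵥ (V1⁻¹ *ᵥ M1)) =
      fromBlocks B C' 0 E' *ᵥ iv M1 := by
    rw [← Matrix.mulVec_mulVec, im_mulVec, Matrix.mulVec_mulVec (M := V3),
      Matrix.mul_nonsing_inv _ hV3u, Matrix.one_mulVec, ← hL'', ← Matrix.mulVec_mulVec, im_mulVec,
      Matrix.mulVec_mulVec, Matrix.mul_nonsing_inv _ hV1u, Matrix.one_mulVec]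
  rw [hshift1]
  refine ⟨1, by simp, 0, ?_⟩
  rw [im_one, Matrix.mul_one, iv_zero, Matrix.mulVec_zero]
  have hM1v : iv M1 = Sum.elim (iv m1) (iv (0 : β → ℤ)) := by
    ext k; rcases k with k | k <;> rfl
  rw [hV3, im_fromBlocks, Matrix.fromBlocks_multiply, im_one, hM1v, Matrix.fromBlocks_mulVec]
  ext i j
  rcases i with i | i <;> rcases j with j | j
  · simp only [Matrix.fromBlocks_apply₁₁, Matrix.mul_one]
    by_cases hij : i = j
    · subst hij
      simp [hB'd, ha, iv_zero]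
    · have : (Sum.inl i : α ⊕ β) ≠ Sum.inl j := fun h => hij (Sum.inl_injective h)
      rw [Matrix.diagonal_apply_ne _ this]
      simp [hB'd, hij]
  · simp only [Matrix.fromBlocks_apply₁₂]
    rw [Matrix.diagonal_apply_ne _ (by simp)]
    have h1 : (B' * (-Z).map (fun z : ℤ => (z : ℝ))) i j = - C' i j := by
      rw [hB'd, Matrix.diagonal_mul, hz]
      simp [hZ]
    simp [h1, im_one]
  · simp only [Matrix.fromBlocks_apply₂₁]
    rw [Matrix.diagonal_apply_ne _ (by simp)]
    simp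
  · simp only [Matrix.fromBlocks_apply₂₂]
    by_cases hij : i = j
    · subst hij
      simp [hE'd, hc'r, iv_zero]
    · have : (Sum.inr i : α ⊕ β) ≠ Sum.inr j := fun h => hij (Sum.inr_injective h)
      rw [Matrix.diagonal_apply_ne _ this]
      simp [hE'd, hij]

end

section
variable {ι : Type*} [Fintype ι] [DecidableEq ι]

/-- a block triangular matrix with good diagonal blocks is good -/
theorem good_of_blocks {L : Matrix ι ι ℝ} (p : ι → Prop) [DecidablePred p]
    (h0 : ∀ i j, ¬ p i → p j → L i j = 0) (hL : L.det ≠ 0)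
    (h1 : ∀ M : Matrix {i // p i} {i // p i} ℝ, M.det ≠ 0 → Good M)
    (h2 : ∀ M : Matrix {i // ¬ p i} {i // ¬ p i} ℝ, M.det ≠ 0 → Good M) : Good L := by
  set e := Equiv.sumCompl p with he
  set L' := Matrix.reindex e.symm e.symm L with hL'
  have hback : L = Matrix.reindex e e L' := by
    ext i j; simp [hL']
  have hblock : L' = fromBlocks L'.toBlocks₁₁ L'.toBlocks₁₂ 0 L'.toBlocks₂₂ := by
    have h3 : L'.toBlocks₂₁ = 0 := by
      ext i j
      simp only [Matrix.toBlocks₂₁, hL', Matrix.reindex_apply, Matrix.of_apply,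
        Matrix.submatrix_apply, Equiv.symm_symm, he, Equiv.sumCompl_apply_inr,
        Equiv.sumCompl_apply_inl, Matrix.zero_apply]
      exact h0 _ _ i.2 j.2
    conv_lhs => rw [← Matrix.fromBlocks_toBlocks L']
    rw [h3]
  have hdet : L'.det ≠ 0 := by
    rw [hL', Matrix.det_reindex_self]; exact hL
  rw [hblock, Matrix.det_fromBlocks_zero₂₁] at hdet
  have hd1 := left_ne_zero_of_mul hdet
  have hd2 := right_ne_zero_of_mul hdet
  rw [hback, hblock]
  exact (good_block (h1 _ hd1) (h2 _ hd2) hd1 hd2).reindex e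

end

end Run7.h361
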