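import Mathlib
import Pool.Agent.Run7.h361.Basic

/-!
Isolation of the diagonal configurations: near `(2 I, 1)` the only equality cases are diagonal.
-/

open Matrix Finset

set_option linter.unusedSectionVars false

namespace Run7.h361

variable {ι : Type*} [Fintype ι] [DecidableEq ι]

/-- a sign vector as a real vector -/
def sg (ε : ι → ℤˣ) : ι → ℝ := fun k => ((ε k : ℤ) : ℝ)

theorem sg_sq (ε : ι → ℤˣ) (k : ι) : sg ε k * sg ε k = 1 := by
  unfold sg
  rcases Int.units_eq_one_or (ε k) with h | h <;> simp [h]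

theorem sg_cases (ε : ι → ℤˣ) (k : ι) : sg ε k = 1 ∨ sg ε k = -1 := by
  unfold sg
  rcases Int.units_eq_one_or (ε k) with h | h <;> simp [h]

/-- flip one sign -/
def flip (i : ι) (ε : ι → ℤˣ) : ι → ℤˣ := Function.update ε i (-ε i)

theorem flip_flip (i : ι) (ε : ι → ℤˣ) : flip i (flip i ε) = ε := by
  unfold flip
  simp

theorem sg_flip_self (i : ι) (ε : ι → ℤˣ) : sg (flip i ε) i = - sg ε i := by
  simp [sg, flip]

theorem sg_flip_ne {i j : ι} (h : j ≠ i) (ε : ι → ℤˣ) : sg (flip i ε) j = sg ε j := by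
  simp [sg, flip, h]

theorem sum_eq_zero_of_flip (i : ι) (F : (ι → ℤˣ) → ℝ) (hF : ∀ ε, F (flip i ε) = - F ε) :
    ∑ ε, F ε = 0 := by
  let e : (ι → ℤˣ) ≃ (ι → ℤˣ) := ⟨flip i, flip i, flip_flip i, flip_flip i⟩
  have h := Equiv.sum_comp e F
  have h2 : ∑ ε, F (e ε) = - ∑ ε, F ε := by
    rw [← Finset.sum_neg_distrib]
    exact Finset.sum_congr rfl fun ε _ => hF ε
  linarith

/-- the first order term -/
def ss (E : Matrix ι ι ℝ) (e : ι → ℝ) (x : ι → ℝ) : ℝ := e ⬝ᵥ x + x ⬝ᵥ (E *ᵥ x)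

theorem sum_ss (E : Matrix ι ι ℝ) (e : ι → ℝ) (hE : ∀ k, E k k = 0) :
    ∑ ε : ι → ℤˣ, ss E e (sg ε) = 0 := by
  unfold ss
  rw [Finset.sum_add_distrib]
  have h1 : ∑ ε : ι → ℤˣ, e ⬝ᵥ sg ε = 0 := by
    simp only [dotProduct]
    rw [Finset.sum_comm]
    refine Finset.sum_eq_zero fun k _ => ?_
    refine sum_eq_zero_of_flip k _ fun ε => ?_
    rw [sg_flip_self]; ring
  have h2 : ∑ ε : ι → ℤˣ, sg ε ⬝ᵥ (E *ᵥ sg ε) = 0 := by
    simp only [dotProduct, mulVec, Finset.mul_sum]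
    rw [Finset.sum_comm]
    refine Finset.sum_eq_zero fun k _ => ?_
    rw [Finset.sum_comm]
    refine Finset.sum_eq_zero fun j _ => ?_
    by_cases hkj : j = k
    · subst hkj
      simp [hE]
    · refine sum_eq_zero_of_flip k _ fun ε => ?_
      rw [sg_flip_self, sg_flip_ne hkj]; ring
  rw [h1, h2, add_zero]

/-- the linear factor at a sign vector -/
def XX (E : Matrix ι ι ℝ) (e : ι → ℝ) (x : ι → ℝ) (k : ι) : ℝ := x k * e k + x k * (E *ᵥ x) k

theorem sum_XX (E : Matrix ι ι ℝ) (e : ι → ℝ) (x : ι → ℝ) : ∑ k, XX E e x k = ss E e x := by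
  unfold XX ss dotProduct
  rw [Finset.sum_add_distrib]
  congr 1
  exact Finset.sum_congr rfl fun k _ => mul_comm _ _

theorem prod_le_exp (E : Matrix ι ι ℝ) (e : ι → ℝ) (x : ι → ℝ) (h : ∀ k, 0 ≤ 1 + XX E e x k) :
    ∏ k, (1 + XX E e x k) ≤ Real.exp (ss E e x) := by
  rw [← sum_XX, Real.exp_sum]
  refine Finset.prod_le_prod (fun k _ => h k) fun k _ => ?_
  rw [add_comm]
  exact Real.add_one_le_exp _

theorem abs_term_le {E : Matrix ι ι ℝ} {r : ℝ} (hr0 : 0 ≤ r) (hE : ∀ k, E k k = 0)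
    (hEr : ∀ k j, |E k j| ≤ r) (σ : Equiv.Perm ι) :
    |∏ i, (1 + E) (σ i) i| ≤ r ^ σ.support.card := by
  rw [Finset.abs_prod]
  have h1 : r ^ σ.support.card = ∏ i, (if i ∈ σ.support then r else 1) := by
    rw [Finset.prod_ite_mem, Finset.univ_inter, Finset.prod_const]
  rw [h1]
  refine Finset.prod_le_prod (fun i _ => abs_nonneg _) fun i _ => ?_
  by_cases hi : i ∈ σ.support
  · rw [if_pos hi]
    have : σ i ≠ i := by rwa [Equiv.Perm.mem_support] at hi
    rw [Matrix.add_apply, Matrix.one_apply_ne this, zero_add]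
    exact hEr _ _
  · rw [if_neg hi]
    have : σ i = i := by
      by_contra h
      exact hi (Equiv.Perm.mem_support.mpr h)
    rw [this, Matrix.add_apply, Matrix.one_apply_eq, hE]
    simp

/-- the signed term of the determinant expansion -/
def tt (E : Matrix ι ι ℝ) (σ : Equiv.Perm ι) : ℝ :=
  ((Equiv.Perm.sign σ : ℤ) : ℝ) * ∏ i, (1 + E) (σ i) i

theorem det_eq_sum_tt (E : Matrix ι ι ℝ) : (1 + E).det = ∑ σ, tt E σ := by
  rw [Matrix.det_apply']
  rfl

theorem abs_tt_le {E : Matrix ι ι ℝ} {r : ℝ} (hr0 : 0 ≤ r) (hE : ∀ k, E k k = 0)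
    (hEr : ∀ k j, |E k j| ≤ r) (σ : Equiv.Perm ι) :
    |tt E σ| ≤ r ^ σ.support.card := by
  unfold tt
  rw [abs_mul]
  have : |((Equiv.Perm.sign σ : ℤ) : ℝ)| = 1 := by
    rcases Int.units_eq_one_or (Equiv.Perm.sign σ) with h | h <;> simp [h]
  rw [this, one_mul]
  exact abs_term_le hr0 hE hEr σ

theorem tt_one {E : Matrix ι ι ℝ} (hE : ∀ k, E k k = 0) : tt E 1 = 1 := by
  unfold tt
  simp [hE]

theorem tt_swap {E : Matrix ι ι ℝ} (hE : ∀ k, E k k = 0) {a b : ι} (hab : a ≠ b) :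
    tt E (Equiv.swap a b) = - (E a b * E b a) := by
  unfold tt
  rw [Equiv.Perm.sign_swap hab]
  rw [Finset.prod_eq_mul a b hab]
  · rw [Equiv.swap_apply_left, Equiv.swap_apply_right, Matrix.add_apply, Matrix.add_apply,
      Matrix.one_apply_ne hab, Matrix.one_apply_ne hab.symm]
    simp; ring
  · intro c _ hc
    rw [Equiv.swap_apply_of_ne_of_ne hc.1 hc.2, Matrix.add_apply, Matrix.one_apply_eq, hE, add_zero]
  · intro h; exact absurd (Finset.mem_univ _) h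
  · intro h; exact absurd (Finset.mem_univ _) h

theorem tt_ge_crude {E : Matrix ι ι ℝ} {r : ℝ} (hr0 : 0 ≤ r) (hr1 : r ≤ 1) (hE : ∀ k, E k k = 0)
    (hEr : ∀ k j, |E k j| ≤ r) {σ : Equiv.Perm ι} (hσ : σ ≠ 1) : - r ^ 2 ≤ tt E σ := by
  have h1 := abs_tt_le hr0 hE hEr σ
  have h2 : 2 ≤ σ.support.card := Equiv.Perm.two_le_card_support_of_ne_one hσ
  have h3 : r ^ σ.support.card ≤ r ^ 2 := pow_le_pow_of_le_one hr0 hr1 h2
  have := neg_abs_le (tt E σ)
  linarith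

theorem tt_ge_fine {E : Matrix ι ι ℝ} {r K : ℝ} (hr0 : 0 ≤ r) (hr1 : r ≤ 1)
    (hE : ∀ k, E k k = 0) (hEr : ∀ k j, |E k j| ≤ r)
    (hK0 : 0 ≤ K) (hK : ∀ k j, k ≠ j → |E k j + E j k| ≤ K)
    {σ : Equiv.Perm ι} (hσ : σ ≠ 1) : - (r * K + r ^ 3) ≤ tt E σ := by
  have h1 := abs_tt_le hr0 hE hEr σ
  have h2 : 2 ≤ σ.support.card := Equiv.Perm.two_le_card_support_of_ne_one hσ
  rcases eq_or_lt_of_le h2 with h | h
  · have hs : σ.IsSwap := Equiv.Perm.card_support_eq_two.mp h.symm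
    obtain ⟨a, b, hab, rfl⟩ := hs
    rw [tt_swap hE hab]
    have h3 := hK a b hab
    have h4 := hEr a b
    have h5 : |E a b * (E a b + E b a)| ≤ r * K := by
      rw [abs_mul]
      exact mul_le_mul h4 h3 (abs_nonneg _) hr0
    have h6 := abs_le.mp h5
    nlinarith [sq_nonneg (E a b), pow_nonneg hr0 3]
  · have h3 : r ^ σ.support.card ≤ r ^ 3 := pow_le_pow_of_le_one hr0 hr1 h
    have := neg_abs_le (tt E σ)
    nlinarith [mul_nonneg hr0 hK0]

theorem det_ge_crude {E : Matrix ι ι ℝ} {r : ℝ} (hr0 : 0 ≤ r) (hr1 : r ≤ 1)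
    (hE : ∀ k, E k k = 0) (hEr : ∀ k j, |E k j| ≤ r) :
    1 - (Fintype.card (Equiv.Perm ι)) * r ^ 2 ≤ (1 + E).det := by
  rw [det_eq_sum_tt, ← Finset.add_sum_erase Finset.univ (tt E) (Finset.mem_univ 1), tt_one hE]
  have h1 : ∑ σ ∈ Finset.univ.erase (1 : Equiv.Perm ι), tt E σ ≥
      ∑ σ ∈ Finset.univ.erase (1 : Equiv.Perm ι), (- r ^ 2) := by
    refine Finset.sum_le_sum fun σ hσ => ?_
    exact tt_ge_crude hr0 hr1 hE hEr (Finset.ne_of_mem_erase hσ)
  rw [Finset.sum_const, nsmul_eq_mul] at h1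
  have h2 : ((Finset.univ.erase (1 : Equiv.Perm ι)).card : ℝ) ≤ Fintype.card (Equiv.Perm ι) := by
    have := Finset.card_erase_le (s := (Finset.univ : Finset (Equiv.Perm ι))) (a := 1)
    rw [Finset.card_univ] at this
    exact_mod_cast this
  nlinarith [sq_nonneg r]

theorem det_ge_fine {E : Matrix ι ι ℝ} {r K : ℝ} (hr0 : 0 ≤ r) (hr1 : r ≤ 1)
    (hE : ∀ k, E k k = 0) (hEr : ∀ k j, |E k j| ≤ r)
    (hK0 : 0 ≤ K) (hK : ∀ k j, k ≠ j → |E k j + E j k| ≤ K) {a b : ι} (hab : a ≠ b) :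
    1 + E a b ^ 2 - (Fintype.card (Equiv.Perm ι)) * (r * K + r ^ 3) ≤ (1 + E).det := by
  have hs1 : Equiv.swap a b ≠ 1 := by
    intro h
    have := Equiv.swap_eq_one_iff.mp h
    exact hab this
  have hmem : Equiv.swap a b ∈ Finset.univ.erase (1 : Equiv.Perm ι) :=
    Finset.mem_erase.mpr ⟨hs1, Finset.mem_univ _⟩
  rw [det_eq_sum_tt, ← Finset.add_sum_erase Finset.univ (tt E) (Finset.mem_univ 1), tt_one hE,
    ← Finset.add_sum_erase _ (tt E) hmem, tt_swap hE hab]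
  set S := (Finset.univ.erase (1 : Equiv.Perm ι)).erase (Equiv.swap a b) with hS
  have h1 : ∑ σ ∈ S, tt E σ ≥ ∑ σ ∈ S, (- (r * K + r ^ 3)) := by
    refine Finset.sum_le_sum fun σ hσ => ?_
    have h2 : σ ∈ Finset.univ.erase (1 : Equiv.Perm ι) := Finset.mem_of_mem_erase hσ
    exact tt_ge_fine hr0 hr1 hE hEr hK0 hK (Finset.ne_of_mem_erase h2)
  rw [Finset.sum_const, nsmul_eq_mul] at h1
  have h2 : (S.card : ℝ) + 1 ≤ Fintype.card (Equiv.Perm ι) := by
    have h3 : S.card + 1 = (Finset.univ.erase (1 : Equiv.Perm ι)).card :=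
      Finset.card_erase_add_one hmem
    have h4 := Finset.card_erase_le (s := (Finset.univ : Finset (Equiv.Perm ι))) (a := 1)
    rw [Finset.card_univ] at h4
    have h5 : S.card + 1 ≤ Fintype.card (Equiv.Perm ι) := by omega
    exact_mod_cast h5
  have h3 := hK a b hab
  have h4 := hEr a b
  have h5 : |E a b * (E a b + E b a)| ≤ r * K := by
    rw [abs_mul]
    exact mul_le_mul h4 h3 (abs_nonneg _) hr0
  have h6 := abs_le.mp h5
  have h7 : 0 ≤ r * K + r ^ 3 := by positivity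
  have h8 := mul_nonneg (sub_nonneg.mpr h2) h7
  have h9 := pow_nonneg hr0 3
  have h10 : - (E a b * E b a) = E a b ^ 2 - E a b * (E a b + E b a) := by ring
  rw [h10]
  nlinarith [h6.2]

/-- a quadratic function on sign vectors with mean zero and bounded from below is small -/
theorem abs_ss_le {E : Matrix ι ι ℝ} {e : ι → ℝ} (hE : ∀ k, E k k = 0) {η : ℝ} (hη : 0 ≤ η)
    (h : ∀ ε : ι → ℤˣ, - η ≤ ss E e (sg ε)) (ε : ι → ℤˣ) :
    |ss E e (sg ε)| ≤ (Fintype.card (ι → ℤˣ)) * η := by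
  have h1 : ∑ ε : ι → ℤˣ, (ss E e (sg ε) + η) = (Fintype.card (ι → ℤˣ)) * η := by
    rw [Finset.sum_add_distrib, sum_ss E e hE, Finset.sum_const, Finset.card_univ, nsmul_eq_mul,
      zero_add]
  have h2 : ss E e (sg ε) + η ≤ ∑ ε : ι → ℤˣ, (ss E e (sg ε) + η) :=
    Finset.single_le_sum (f := fun ε : ι → ℤˣ => ss E e (sg ε) + η)
      (fun ε _ => by have := h ε; linarith) (Finset.mem_univ ε)
  have h3 : (1 : ℝ) ≤ Fintype.card (ι → ℤˣ) := by
    exact_mod_cast Fintype.card_pos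
  rw [abs_le]
  constructor
  · have := h ε
    nlinarith
  · rw [h1] at h2
    linarith

theorem exists_ss_nonpos {E : Matrix ι ι ℝ} {e : ι → ℝ} (hE : ∀ k, E k k = 0) :
    ∃ ε : ι → ℤˣ, ss E e (sg ε) ≤ 0 := by
  by_contra hcon
  push Not at hcon
  have := Finset.sum_pos (fun (ε : ι → ℤˣ) _ => hcon ε) Finset.univ_nonempty
  rw [sum_ss E e hE] at this
  exact lt_irrefl _ this

theorem ss_second (E : Matrix ι ι ℝ) (e : ι → ℝ) (x u v : ι → ℝ) :
    ss E e (x + u + v) - ss E e (x + u) - ss E e (x + v) + ss E e x =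
      u ⬝ᵥ (E *ᵥ v) + v ⬝ᵥ (E *ᵥ u) := by
  unfold ss
  simp only [Matrix.mulVec_add, dotProduct_add, add_dotProduct]
  ring

theorem ss_odd (E : Matrix ι ι ℝ) (e : ι → ℝ) (x : ι → ℝ) :
    ss E e x - ss E e (-x) = 2 * (e ⬝ᵥ x) := by
  unfold ss
  simp only [Matrix.mulVec_neg, dotProduct_neg, neg_dotProduct]
  ring

theorem sg_one : sg (1 : ι → ℤˣ) = 1 := by
  ext k; simp [sg]

theorem sg_neg (ε : ι → ℤˣ) : sg (-ε) = - sg ε := by
  ext k; simp [sg]

theorem sg_flip_one (a : ι) : sg (flip a 1) = 1 + Pi.single a (-2) := by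
  ext k
  by_cases h : k = a
  · subst h
    rw [sg_flip_self, sg_one]
    simp; norm_num
  · rw [sg_flip_ne h, sg_one]
    simp [h]

theorem sg_flip_flip {a b : ι} (hab : a ≠ b) :
    sg (flip b (flip a 1)) = 1 + Pi.single a (-2) + Pi.single b (-2) := by
  ext k
  by_cases h : k = b
  · subst h
    rw [sg_flip_self, sg_flip_one]
    simp [hab.symm]; norm_num
  · rw [sg_flip_ne h, sg_flip_one]
    simp [h]

theorem sym_bound {E : Matrix ι ι ℝ} {e : ι → ℝ} {K : ℝ}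
    (h : ∀ ε : ι → ℤˣ, |ss E e (sg ε)| ≤ K) {a b : ι} (hab : a ≠ b) :
    |E a b + E b a| ≤ K := by
  have h0 := ss_second E e 1 (Pi.single a (-2)) (Pi.single b (-2))
  have h1 := abs_le.mp (h (flip b (flip a 1)))
  have h2 := abs_le.mp (h (flip a 1))
  have h3 := abs_le.mp (h (flip b 1))
  have h4 := abs_le.mp (h 1)
  rw [sg_flip_flip hab] at h1
  rw [sg_flip_one] at h2 h3
  rw [sg_one] at h4
  have h5 : (Pi.single a (-2 : ℝ)) ⬝ᵥ (E *ᵥ (Pi.single b (-2 : ℝ))) = 4 * E a b := by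
    rw [Matrix.mulVec_single, single_dotProduct]
    simp; ring
  have h6 : (Pi.single b (-2 : ℝ)) ⬝ᵥ (E *ᵥ (Pi.single a (-2 : ℝ))) = 4 * E b a := by
    rw [Matrix.mulVec_single, single_dotProduct]
    simp; ring
  rw [h5, h6] at h0
  rw [abs_le]
  constructor <;> linarith [h1.1, h1.2, h2.1, h2.2, h3.1, h3.2, h4.1, h4.2]

theorem lin_bound {E : Matrix ι ι ℝ} {e : ι → ℝ} {K : ℝ}
    (h : ∀ ε : ι → ℤˣ, |ss E e (sg ε)| ≤ K) (a : ι) : |e a| ≤ K := by
  have h0 := ss_odd E e 1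
  have h0' := ss_odd E e (1 + Pi.single a (-2))
  have h1 := abs_le.mp (h 1)
  have h2 := abs_le.mp (h (-1))
  have h3 := abs_le.mp (h (flip a 1))
  have h4 := abs_le.mp (h (- flip a 1))
  rw [sg_neg] at h2 h4
  rw [sg_flip_one] at h3 h4
  rw [sg_one] at h1 h2
  rw [dotProduct_add, dotProduct_single] at h0'
  rw [abs_le]
  constructor <;> linarith [h1.1, h1.2, h2.1, h2.2, h3.1, h3.2, h4.1, h4.2]

/-- the quantitative step -/
theorem iso_step : ∃ C : ℝ, 0 < C ∧ ∀ (E : Matrix ι ι ℝ) (e : ι → ℝ) (r : ℝ), 0 ≤ r → r ≤ 1 →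
    (∀ k, E k k = 0) → (∀ k j, |E k j| ≤ r) → (C * r ≤ 1) →
    (∀ (ε : ι → ℤˣ) k, 0 ≤ 1 + XX E e (sg ε) k) →
    (∀ ε : ι → ℤˣ, (1 + E).det ≤ ∏ k, (1 + XX E e (sg ε) k)) →
    (∀ k j, E k j ^ 2 ≤ C * r ^ 3) ∧ (∀ k, |e k| ≤ C * r ^ 2) := by
  set P : ℝ := (Fintype.card (Equiv.Perm ι) : ℝ) with hP
  set S : ℝ := (Fintype.card (ι → ℤˣ) : ℝ) with hS
  have hP1 : 1 ≤ P := by rw [hP]; exact_mod_cast Fintype.card_pos
  have hS1 : 1 ≤ S := by rw [hS]; exact_mod_cast Fintype.card_pos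
  refine ⟨P * (2 * S * P + 1) + 2 * P, by positivity, ?_⟩
  intro E e r hr0 hr1 hE hEr hCr hpos hdet
  set D := (1 + E).det with hD
  have hCr2 : (P * (2 * S * P + 1) + 2 * P) * r ^ 2 ≤ r := by nlinarith
  have hPr : P * r ^ 2 ≤ 1 / 2 := by
    have : 0 ≤ P * (2 * S * P + 1) * r ^ 2 := by positivity
    nlinarith
  have hcr := det_ge_crude hr0 hr1 hE hEr
  rw [← hD, ← hP] at hcr
  have hDpos : 0 < D := by linarith
  have hexp : ∀ ε : ι → ℤˣ, D ≤ Real.exp (ss E e (sg ε)) := fun ε =>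
    (hdet ε).trans (prod_le_exp E e (sg ε) (hpos ε))
  have hD1 : D ≤ 1 := by
    obtain ⟨ε, hε⟩ := exists_ss_nonpos (E := E) (e := e) hE
    refine (hexp ε).trans ?_
    rw [← Real.exp_zero]
    exact Real.exp_le_exp.mpr hε
  have hlog : - (2 * P * r ^ 2) ≤ Real.log D := by
    have h1 : 1 - D⁻¹ ≤ Real.log D := Real.one_sub_inv_le_log_of_pos hDpos
    have h2 : D⁻¹ ≤ 1 + 2 * P * r ^ 2 := by
      rw [inv_le_iff_one_le_mul₀ hDpos]
      have h3 : 0 ≤ P * r ^ 2 := by positivity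
      nlinarith
    linarith
  have hss : ∀ ε : ι → ℤˣ, - (2 * P * r ^ 2) ≤ ss E e (sg ε) := by
    intro ε
    have := Real.log_le_log hDpos (hexp ε)
    rw [Real.log_exp] at this
    linarith
  have habs := abs_ss_le hE (η := 2 * P * r ^ 2) (by positivity) hss
  rw [← hS] at habs
  have hsym : ∀ k j, k ≠ j → |E k j + E j k| ≤ S * (2 * P * r ^ 2) := fun k j hkj =>
    sym_bound habs hkj
  have hlin : ∀ k, |e k| ≤ S * (2 * P * r ^ 2) := fun k => lin_bound habs k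
  constructor
  · intro a b
    by_cases hab : a = b
    · subst hab
      rw [hE]
      have : 0 ≤ (P * (2 * S * P + 1) + 2 * P) * r ^ 3 := by positivity
      linarith [this]
    · have h1 := det_ge_fine hr0 hr1 hE hEr (by positivity) hsym hab
      rw [← hD, ← hP] at h1
      have h2 : r * (S * (2 * P * r ^ 2)) + r ^ 3 = (2 * S * P + 1) * r ^ 3 := by ring
      rw [h2] at h1
      have h3 : 0 ≤ 2 * P * r ^ 3 := by positivity
      nlinarith
  · intro k
    refine (hlin k).trans ?_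
    have h1 : 0 ≤ r ^ 2 := by positivity
    have h2 : S * (2 * P * r ^ 2) = (2 * S * P) * r ^ 2 := by ring
    rw [h2]
    refine mul_le_mul_of_nonneg_right ?_ h1
    nlinarith [mul_nonneg (sub_nonneg.mpr hP1) (by positivity : 0 ≤ 2 * S * P)]

/-- the isolation lemma in normalised form -/
theorem iso_norm : ∃ δ : ℝ, 0 < δ ∧ ∀ (E : Matrix ι ι ℝ) (e : ι → ℝ),
    (∀ k, E k k = 0) → (∀ k j, |E k j| ≤ δ) → (∀ k, |e k| ≤ δ) →
    (∀ ε : ι → ℤˣ, (1 + E).det ≤ |∏ k, (1 + XX E e (sg ε) k)|) →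
    E = 0 ∧ e = 0 := by
  obtain ⟨C, hC, hstep⟩ := iso_step (ι := ι)
  set N : ℝ := (Fintype.card ι : ℝ) with hN
  have hN0 : 0 ≤ N := by rw [hN]; exact_mod_cast Nat.zero_le _
  refine ⟨min (1 / (4 * C)) (min (1 / (N + 1)) 1), by positivity, ?_⟩
  intro E e hE hEd hed hdet0
  set δ := min (1 / (4 * C)) (min (1 / (N + 1)) 1) with hδ
  have hδ0 : 0 < δ := by positivity
  have hδ1 : δ ≤ 1 := (min_le_right _ _).trans (min_le_right _ _)
  have hδN : δ ≤ 1 / (N + 1) := (min_le_right _ _).trans (min_le_left _ _)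
  have hδC : δ ≤ 1 / (4 * C) := min_le_left _ _
  have hδC' : 4 * C * δ ≤ 1 := by
    rw [le_div_iff₀ (by positivity)] at hδC
    linarith
  have hpos : ∀ (ε : ι → ℤˣ) k, 0 ≤ 1 + XX E e (sg ε) k := by
    intro ε k
    have habs : ∀ k, |sg ε k| = 1 := by
      intro k
      rcases sg_cases ε k with h | h <;> simp [h]
    have h1 : |XX E e (sg ε) k| ≤ (N + 1) * δ := by
      unfold XX
      have h2 : |sg ε k * e k| ≤ δ := by
        rw [abs_mul, habs, one_mul]; exact hed k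
      have h3 : |sg ε k * (E *ᵥ sg ε) k| ≤ N * δ := by
        rw [abs_mul, habs, one_mul]
        simp only [mulVec, dotProduct]
        refine (Finset.abs_sum_le_sum_abs _ _).trans ?_
        have h4 : ∑ j, |E k j * sg ε j| ≤ ∑ _j : ι, δ := by
          refine Finset.sum_le_sum fun j _ => ?_
          rw [abs_mul, habs, mul_one]
          exact hEd k j
        rw [Finset.sum_const, Finset.card_univ, nsmul_eq_mul] at h4
        exact h4
      calc |sg ε k * e k + sg ε k * (E *ᵥ sg ε) k| ≤ _ := abs_add_le _ _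
        _ ≤ δ + N * δ := add_le_add h2 h3
        _ = (N + 1) * δ := by ring
    have h5 : (N + 1) * δ ≤ 1 := by
      rw [le_div_iff₀ (by positivity)] at hδN
      linarith
    have := (abs_le.mp h1).1
    linarith
  have hdet : ∀ ε : ι → ℤˣ, (1 + E).det ≤ ∏ k, (1 + XX E e (sg ε) k) := by
    intro ε
    have h1 := hdet0 ε
    rwa [abs_of_nonneg (Finset.prod_nonneg fun k _ => hpos ε k)] at h1
  have key : ∀ n : ℕ, (∀ k j, |E k j| ≤ δ / 2 ^ n) ∧ (∀ k, |e k| ≤ δ / 2 ^ n) := by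
    intro n
    induction n with
    | zero => simpa using ⟨hEd, hed⟩
    | succ n ih =>
      have hr0 : 0 ≤ δ / 2 ^ n := by positivity
      have hrδ : δ / 2 ^ n ≤ δ := div_le_self hδ0.le (one_le_pow₀ (by norm_num))
      set r := δ / 2 ^ n with hr
      have hnext : δ / 2 ^ (n + 1) = r / 2 := by rw [hr, pow_succ]; ring
      have h4 : 4 * C * r ≤ 1 := by nlinarith
      obtain ⟨h1, h2⟩ := hstep E e r hr0 (hrδ.trans hδ1) hE ih.1 (by nlinarith) hpos hdet
      rw [hnext]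
      constructor
      · intro k j
        refine abs_le_of_sq_le_sq' ?_ (by positivity) |> fun h => abs_le.mpr h
        have h3 := h1 k j
        have h5 : C * r ^ 3 ≤ (r / 2) ^ 2 := by
          have : 0 ≤ r ^ 2 := by positivity
          nlinarith
        linarith
      · intro k
        refine (h2 k).trans ?_
        nlinarith
  have hlim : Filter.Tendsto (fun n : ℕ => δ / 2 ^ n) Filter.atTop (nhds 0) := by
    have := tendsto_pow_atTop_nhds_zero_of_lt_one (r := (1 / 2 : ℝ)) (by norm_num) (by norm_num)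
    have h2 := this.const_mul δ
    rw [mul_zero] at h2
    refine h2.congr fun n => ?_
    rw [one_div, inv_pow]; rfl
  constructor
  · ext k j
    have h1 : |E k j| ≤ 0 := ge_of_tendsto' hlim fun n => (key n).1 k j
    simpa using abs_nonpos_iff.mp h1
  · ext k
    have h1 : |e k| ≤ 0 := ge_of_tendsto' hlim fun n => (key n).2 k
    simpa using abs_nonpos_iff.mp h1

end Run7.h361
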