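import Mathlib
import Pool.Agent.Run7.h361.Iso

/-!
Near a diagonalisable configuration every equality case is diagonalisable.
-/

open Matrix Finset Filter Topology

set_option linter.unusedSectionVars false

namespace Run7.h361

variable {ι : Type*} [Fintype ι] [DecidableEq ι]

/-- the integer vector attached to a sign vector -/
def sn (ε : ι → ℤˣ) : ι → ℤ := fun k => if ε k = 1 then 0 else -1

theorem iv_sn (ε : ι → ℤˣ) (k : ι) : 2 * iv (sn ε) k = sg ε k - 1 := by
  unfold sn sg iv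
  rcases Int.units_eq_one_or (ε k) with h | h
  · simp [h]
  · have h1 : ¬ ((-1 : ℤˣ) = 1) := by decide
    simp only [h, if_neg h1]; norm_num

theorem iso_box : ∃ δ : ℝ, 0 < δ ∧ ∀ (L : Matrix ι ι ℝ) (c : ι → ℝ),
    (∀ k j, |L k j - (2 : ℝ) * (1 : Matrix ι ι ℝ) k j| ≤ δ) → (∀ k, |c k - 1| ≤ δ) →
    EqC L c → Dg L c := by
  obtain ⟨δ, hδ, hiso⟩ := iso_norm (ι := ι)
  set N : ℝ := (Fintype.card ι : ℝ) with hN
  have hN0 : 0 ≤ N := by rw [hN]; exact_mod_cast Nat.zero_le _
  set δ' := min 1 (δ / (N + 3)) with hδ'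
  have hδ'0 : 0 < δ' := by positivity
  have hδ'1 : δ' ≤ 1 := min_le_left _ _
  have hδ'2 : (N + 3) * δ' ≤ δ := by
    have : δ' ≤ δ / (N + 3) := min_le_right _ _
    rw [le_div_iff₀ (by positivity)] at this
    linarith
  refine ⟨δ', hδ'0, ?_⟩
  intro L c hL hc hEq
  have hkk : ∀ k, 1 ≤ L k k := by
    intro k
    have h := abs_le.mp (hL k k)
    rw [Matrix.one_apply_eq] at h
    linarith [h.1]
  set t : ι → ℝ := fun k => 2 / L k k with ht
  have ht0 : ∀ k, t k ≠ 0 := fun k => by
    have := hkk k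
    simp only [ht]; positivity
  have hEq' := hEq.rs t
  rw [← Dg_rs_iff ht0]
  set L' := rs t L with hL'
  set c' := t * c with hc'
  set E : Matrix ι ι ℝ := Matrix.of (fun k j => L' k j / 2 - (1 : Matrix ι ι ℝ) k j) with hEdef
  have hE0 : ∀ k, E k k = 0 := by
    intro k
    have : L k k ≠ 0 := by have := hkk k; positivity
    simp only [hEdef, Matrix.of_apply, hL', rs_apply, ht, Matrix.one_apply_eq]
    field_simp; norm_num
  have hEk : ∀ k j, |E k j| ≤ δ' := by
    intro k j
    by_cases hkj : k = j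
    · subst hkj; rw [hE0]; simpa using hδ'0.le
    · have h1 := hL k j
      have h2 := hkk k
      rw [Matrix.one_apply_ne hkj, mul_zero, sub_zero] at h1
      have h3 : E k j = L k j / L k k := by
        simp only [hEdef, Matrix.of_apply, hL', rs_apply, ht, Matrix.one_apply_ne hkj]
        ring
      rw [h3, abs_div, abs_of_pos (lt_of_lt_of_le one_pos h2)]
      exact (div_le_self (abs_nonneg _) h2).trans h1
  have hL'E : L' = (2 : ℝ) • (1 + E) := by
    ext k j
    simp only [hEdef, Matrix.smul_apply, Matrix.add_apply, Matrix.of_apply, smul_eq_mul]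
    ring
  set e : ι → ℝ := fun k => c' k - 1 - (E *ᵥ 1) k with he
  have hec : ∀ k, |e k| ≤ (N + 3) * δ' := by
    intro k
    have h1 : |c' k - 1| ≤ 3 * δ' := by
      have h2 := hkk k
      have h3 : c' k - 1 = (2 * (c k - 1) - (L k k - 2)) / L k k := by
        have : L k k ≠ 0 := by positivity
        simp only [hc', ht, Pi.mul_apply]
        field_simp; ring
      rw [h3, abs_div, abs_of_pos (lt_of_lt_of_le one_pos h2)]
      refine (div_le_self (abs_nonneg _) h2).trans ?_
      have h4 := abs_le.mp (hc k)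
      have h5 := abs_le.mp (hL k k)
      rw [Matrix.one_apply_eq] at h5
      rw [abs_le]; constructor <;> linarith [h4.1, h4.2, h5.1, h5.2]
    have h2 : |(E *ᵥ 1) k| ≤ N * δ' := by
      simp only [mulVec, dotProduct, Pi.one_apply, mul_one]
      refine (Finset.abs_sum_le_sum_abs _ _).trans ?_
      have h4 : ∑ j, |E k j| ≤ ∑ _j : ι, δ' := Finset.sum_le_sum fun j _ => hEk k j
      rwa [Finset.sum_const, Finset.card_univ, nsmul_eq_mul] at h4
    have := abs_sub (c' k - 1) ((E *ᵥ 1) k)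
    simp only [he]
    calc _ ≤ _ := this
      _ ≤ 3 * δ' + N * δ' := add_le_add h1 h2
      _ = _ := by ring
  have hprod : ∀ ε : ι → ℤˣ, (1 + E).det ≤ |∏ k, (1 + XX E e (sg ε) k)| := by
    intro ε
    have h1 := hEq' (sn ε)
    have h2 : ∀ k, (L' *ᵥ iv (sn ε)) k + c' k = sg ε k * (1 + XX E e (sg ε) k) := by
      intro k
      have h3 : (L' *ᵥ iv (sn ε)) = (1 + E) *ᵥ (sg ε - 1) := by
        rw [hL'E, Matrix.smul_mulVec, ← Matrix.mulVec_smul]
        congr 1
        ext j
        simp only [Pi.smul_apply, smul_eq_mul, iv_sn, Pi.sub_apply, Pi.one_apply]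
      rw [h3, Matrix.mulVec_sub, Matrix.add_mulVec, Matrix.add_mulVec, Matrix.one_mulVec,
        Matrix.one_mulVec]
      simp only [Pi.sub_apply, Pi.add_apply, Pi.one_apply, XX, he]
      have h4 := sg_sq ε k
      linear_combination (-(c' k - 1 - (E *ᵥ 1) k) - (E *ᵥ sg ε) k) * h4
    simp only [h2] at h1
    rw [Finset.prod_mul_distrib, abs_mul] at h1
    have h5 : |∏ k, sg ε k| = 1 := by
      rw [Finset.abs_prod]
      refine Finset.prod_eq_one fun k _ => ?_
      rcases sg_cases ε k with h | h <;> simp [h]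
    rw [h5, one_mul, hL'E, Matrix.det_smul, abs_mul, abs_pow] at h1
    have h6 : |(2 : ℝ)| = 2 := by norm_num
    rw [h6, mul_comm, mul_div_assoc, div_self (by positivity), mul_one] at h1
    exact (le_abs_self _).trans h1
  obtain ⟨hE1, he1⟩ := hiso E e hE0
    (fun k j => (hEk k j).trans (by nlinarith)) (fun k => (hec k).trans hδ'2) hprod
  have hL1 : L' = (2 : ℝ) • 1 := by rw [hL'E, hE1, add_zero]
  have hc1 : c' = 1 := by
    ext k
    have := congrFun he1 k
    simp only [he, hE1, Matrix.zero_mulVec, Pi.zero_apply, sub_zero] at this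
    simp only [Pi.one_apply]; linarith
  refine ⟨1, by simp, 0, ?_⟩
  rw [im_one, Matrix.mul_one, iv_zero, Matrix.mulVec_zero, hL1, hc1]
  ext k j
  by_cases hkj : k = j
  · subst hkj; simp
  · simp [hkj]

theorem iso_eventually (L0 : Matrix ι ι ℝ) (c0 : ι → ℝ) (h : Dg L0 c0) (hdet : L0.det ≠ 0) :
    ∀ᶠ p : Matrix ι ι ℝ × (ι → ℝ) in 𝓝 (L0, c0), EqC p.1 p.2 → Dg p.1 p.2 := by
  obtain ⟨U, hU, m, hm⟩ := h
  obtain ⟨δ, hδ, hbox⟩ := iso_box (ι := ι)
  set w : ι → ℝ := fun k => c0 k + (L0 *ᵥ iv m) k with hw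
  have hw0 : ∀ k, w k ≠ 0 := by
    have h1 : (L0 * im U).det = ∏ k, (2 * w k) := by rw [hm, Matrix.det_diagonal]
    have h2 : (L0 * im U).det ≠ 0 := by
      rw [Matrix.det_mul]
      refine mul_ne_zero hdet ?_
      have := abs_det_unit hU
      intro h0; rw [h0] at this; simp at this
    rw [h1] at h2
    intro k hk
    exact h2 (Finset.prod_eq_zero (Finset.mem_univ k) (by rw [hk, mul_zero]))
  let Φ : Matrix ι ι ℝ × (ι → ℝ) → Matrix ι ι ℝ × (ι → ℝ) := fun p =>
    (rs w⁻¹ (p.1 * im U), w⁻¹ * (p.2 + p.1 *ᵥ iv m))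
  have hΦ : Continuous Φ := by
    refine Continuous.prodMk ?_ ?_
    · have : (fun p : Matrix ι ι ℝ × (ι → ℝ) => rs w⁻¹ (p.1 * im U)) =
          fun p => Matrix.diagonal w⁻¹ * (p.1 * im U) := by
        ext p; rw [rs_eq]
      rw [this]
      exact Continuous.matrix_mul continuous_const
        (Continuous.matrix_mul continuous_fst continuous_const)
    · exact continuous_const.mul
        (continuous_snd.add (Continuous.matrix_mulVec continuous_fst continuous_const))
  have hΦ0 : Φ (L0, c0) = ((2 : ℝ) • 1, 1) := by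
    simp only [Φ]
    ext k j
    · rw [hm]
      by_cases hkj : k = j
      · subst hkj
        have := hw0 k
        have h2 : c0 k + (L0 *ᵥ iv m) k = w k := rfl
        simp [h2]
        field_simp
      · simp [hkj]
    · have := hw0 k
      have h2 : c0 k + (L0 *ᵥ iv m) k = w k := rfl
      simp [h2, this]
  have hev : ∀ᶠ q : Matrix ι ι ℝ × (ι → ℝ) in 𝓝 ((2 : ℝ) • (1 : Matrix ι ι ℝ), (1 : ι → ℝ)),
      EqC q.1 q.2 → Dg q.1 q.2 := by
    have h1 : ∀ k j, ∀ᶠ q : Matrix ι ι ℝ × (ι → ℝ) in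
        𝓝 ((2 : ℝ) • (1 : Matrix ι ι ℝ), (1 : ι → ℝ)),
        |q.1 k j - (2 : ℝ) * (1 : Matrix ι ι ℝ) k j| < δ := by
      intro k j
      have hc : Continuous fun q : Matrix ι ι ℝ × (ι → ℝ) =>
          |q.1 k j - (2 : ℝ) * (1 : Matrix ι ι ℝ) k j| := by
        refine Continuous.abs (Continuous.sub ?_ continuous_const)
        exact (continuous_apply_apply k j).comp continuous_fst
      have := hc.tendsto ((2 : ℝ) • (1 : Matrix ι ι ℝ), (1 : ι → ℝ))
      simp only [Matrix.smul_apply, smul_eq_mul, sub_self, abs_zero] at this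
      exact this.eventually_lt_const hδ
    have h2 : ∀ k, ∀ᶠ q : Matrix ι ι ℝ × (ι → ℝ) in
        𝓝 ((2 : ℝ) • (1 : Matrix ι ι ℝ), (1 : ι → ℝ)), |q.2 k - 1| < δ := by
      intro k
      have hc : Continuous fun q : Matrix ι ι ℝ × (ι → ℝ) => |q.2 k - 1| := by
        refine Continuous.abs (Continuous.sub ?_ continuous_const)
        exact (continuous_apply k).comp continuous_snd
      have := hc.tendsto ((2 : ℝ) • (1 : Matrix ι ι ℝ), (1 : ι → ℝ))
      simp only [Pi.one_apply, sub_self, abs_zero] at this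
      exact this.eventually_lt_const hδ
    filter_upwards [eventually_all.mpr fun k => eventually_all.mpr (h1 k), eventually_all.mpr h2]
      with q hq1 hq2
    exact hbox q.1 q.2 (fun k j => (hq1 k j).le) (fun k => (hq2 k).le)
  have hpull := hΦ.tendsto (L0, c0)
  rw [hΦ0] at hpull
  filter_upwards [hpull.eventually hev] with p hp hEq
  have hw1 : ∀ k, w⁻¹ k ≠ 0 := fun k => inv_ne_zero (hw0 k)
  have h3 : EqC (Φ p).1 (Φ p).2 := by
    simp only [Φ]
    rw [EqC_rs_iff hw1, EqC_mul_iff hU, EqC_add_iff]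
    exact hEq
  have h4 := hp h3
  simp only [Φ] at h4
  rwa [Dg_rs_iff hw1, Dg_mul_iff hU, Dg_add_iff] at h4

/-- a limit of equality cases is an equality case -/
theorem EqC_of_tendsto {α : Type*} {l : Filter α} [l.NeBot] {L : α → Matrix ι ι ℝ}
    {c : α → ι → ℝ} {L0 : Matrix ι ι ℝ} {c0 : ι → ℝ} (hL : Tendsto L l (𝓝 L0))
    (hc : Tendsto c l (𝓝 c0)) (h : ∀ᶠ a in l, EqC (L a) (c a)) : EqC L0 c0 := by
  intro n
  have h1 : Tendsto (fun a => |(L a).det| / 2 ^ Fintype.card ι) l
      (𝓝 (|L0.det| / 2 ^ Fintype.card ι)) := by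
    have : Continuous fun M : Matrix ι ι ℝ => |M.det| / 2 ^ Fintype.card ι :=
      (Continuous.matrix_det continuous_id).abs.div_const _
    exact (this.tendsto L0).comp hL
  have hm : Tendsto (fun a => L a *ᵥ iv n) l (𝓝 (L0 *ᵥ iv n)) := by
    have hcont : Continuous fun M : Matrix ι ι ℝ => M *ᵥ iv n :=
      Continuous.matrix_mulVec continuous_id continuous_const
    exact (hcont.tendsto L0).comp hL
  have h2 : Tendsto (fun a => |∏ k, ((L a *ᵥ iv n) k + c a k)|) l
      (𝓝 |∏ k, ((L0 *ᵥ iv n) k + c0 k)|) := by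
    refine Tendsto.abs (tendsto_finsetProd _ fun k _ => ?_)
    exact ((tendsto_pi_nhds.mp hm) k).add ((tendsto_pi_nhds.mp hc) k)
  exact le_of_tendsto_of_tendsto h1 h2 (h.mono fun a ha => ha n)

end Run7.h361
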