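import Mathlib
import Pool.Agent.Run7.h361.Basic

/-!
Reduction theory for the group of real diagonal matrices acting on lattices: a triangular
reduction with row pivoting.
-/

open Matrix Finset

set_option linter.unusedSectionVars false

namespace Run7.h361

section
variable {ι : Type*} [Fintype ι] [DecidableEq ι]

theorem iv_eq_inv {L : Matrix ι ι ℝ} (hL : L.det ≠ 0) (n : ι → ℤ) :
    iv n = L⁻¹ *ᵥ (L *ᵥ iv n) := by
  rw [Matrix.mulVec_mulVec, Matrix.nonsing_inv_mul _ (isUnit_iff_ne_zero.mpr hL), Matrix.one_mulVec]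

theorem abs_iv_le {L : Matrix ι ι ℝ} (hL : L.det ≠ 0) {R : ℝ}
    {n : ι → ℤ} (hn : ∀ k, |(L *ᵥ iv n) k| ≤ R) (j : ι) :
    |(n j : ℝ)| ≤ (∑ i, ∑ k, |L⁻¹ i k|) * R := by
  have h1 := congrFun (iv_eq_inv hL n) j
  rw [iv_apply] at h1
  rw [h1]
  simp only [Matrix.mulVec, dotProduct] at hn ⊢
  have hR : 0 ≤ R := (abs_nonneg _).trans (hn j)
  calc |∑ k, L⁻¹ j k * ∑ x, L k x * iv n x| ≤ ∑ k, |L⁻¹ j k * ∑ x, L k x * iv n x| :=
        Finset.abs_sum_le_sum_abs _ _
    _ ≤ ∑ k, |L⁻¹ j k| * R := by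
        refine Finset.sum_le_sum fun k _ => ?_
        rw [abs_mul]
        exact mul_le_mul_of_nonneg_left (hn k) (abs_nonneg _)
    _ = (∑ k, |L⁻¹ j k|) * R := by rw [Finset.sum_mul]
    _ ≤ _ := by
        refine mul_le_mul_of_nonneg_right ?_ hR
        exact Finset.single_le_sum (f := fun i => ∑ k, |L⁻¹ i k|)
          (fun i _ => Finset.sum_nonneg fun k _ => abs_nonneg _) (Finset.mem_univ j)

theorem finite_int_box (B : ℝ) : Set.Finite {n : ι → ℤ | ∀ j, |(n j : ℝ)| ≤ B} := by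
  have : {n : ι → ℤ | ∀ j, |(n j : ℝ)| ≤ B} ⊆
      Set.pi Set.univ (fun _ : ι => Set.Icc (-⌈B⌉) ⌈B⌉) := by
    intro n hn j _
    have h1 := abs_le.mp (hn j)
    constructor
    · have h2 : (-(⌈B⌉ : ℤ) : ℝ) ≤ (n j : ℝ) := by
        have := Int.le_ceil B
        linarith
      exact_mod_cast h2
    · have h2 : ((n j : ℤ) : ℝ) ≤ (⌈B⌉ : ℝ) := h1.2.trans (Int.le_ceil B)
      exact_mod_cast h2
  exact (Set.Finite.pi' (fun _ => Set.finite_Icc _ _)).subset (by
    intro n hn j
    exact this hn j (Set.mem_univ j))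

theorem finite_lattice_box {L : Matrix ι ι ℝ} (hL : L.det ≠ 0) (R : ℝ) :
    Set.Finite {n : ι → ℤ | ∀ k, |(L *ᵥ iv n) k| ≤ R} :=
  (finite_int_box ((∑ i, ∑ k, |L⁻¹ i k|) * R)).subset fun _ hn j => abs_iv_le hL hn j

end

theorem mul_im_col {n : ℕ} (L : Matrix (Fin n) (Fin n) ℝ) (U : Matrix (Fin n) (Fin n) ℤ)
    (i j : Fin n) : (L * im U) i j = (L *ᵥ iv (fun l => U l j)) i := by
  simp [Matrix.mul_apply, Matrix.mulVec, dotProduct]

theorem exists_min_col {n : ℕ} (L : Matrix (Fin (n + 1)) (Fin (n + 1)) ℝ) (hL : L.det ≠ 0) :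
    ∃ U₁ : Matrix (Fin (n + 1)) (Fin (n + 1)) ℤ, IsUnit U₁.det ∧
      ∀ U : Matrix (Fin (n + 1)) (Fin (n + 1)) ℤ, IsUnit U.det →
        ‖fun i => (L * im U₁) i 0‖ ≤ ‖fun i => (L * im U) i 0‖ := by
  set f : (Fin (n + 1) → ℤ) → ℝ := fun v => ‖L *ᵥ iv v‖ with hf
  set col : Matrix (Fin (n + 1)) (Fin (n + 1)) ℤ → (Fin (n + 1) → ℤ) :=
    fun U l => U l 0 with hcol
  have hcolf : ∀ U, ‖fun i => (L * im U) i 0‖ = f (col U) := by
    intro U
    have h1 : (fun i => (L * im U) i 0) = L *ᵥ iv (fun l => U l 0) := by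
      ext i
      exact mul_im_col L U i 0
    rw [h1]
  set R := f (col 1) with hR
  set G : Set (Fin (n + 1) → ℤ) := {v | (∃ U, IsUnit U.det ∧ col U = v) ∧ f v ≤ R} with hG
  have hGfin : G.Finite := by
    refine (finite_lattice_box hL R).subset fun v hv k => ?_
    exact (norm_le_pi_norm (L *ᵥ iv v) k).trans hv.2
  have hGne : G.Nonempty := ⟨col 1, ⟨1, by simp, rfl⟩, le_refl _⟩
  obtain ⟨v, hv, hmin⟩ := Set.exists_min_image G f hGfin hGne
  obtain ⟨⟨U₁, hU₁, rfl⟩, hv2⟩ := hv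
  refine ⟨U₁, hU₁, fun U hU => ?_⟩
  rw [hcolf, hcolf]
  by_cases h : f (col U) ≤ R
  · exact hmin _ ⟨⟨U, hU, rfl⟩, h⟩
  · exact hv2.trans (le_of_not_ge h)

/-- the Schur complement -/
noncomputable def schur {n : ℕ} (L : Matrix (Fin (n + 1)) (Fin (n + 1)) ℝ) :
    Matrix (Fin n) (Fin n) ℝ :=
  Matrix.of fun i j => L i.succ j.succ - L i.succ 0 / L 0 0 * L 0 j.succ

theorem det_schur {n : ℕ} (L : Matrix (Fin (n + 1)) (Fin (n + 1)) ℝ) (h0 : L 0 0 ≠ 0) :
    L.det = L 0 0 * (schur L).det := by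
  set c : Fin (n + 1) → ℝ := Fin.cons 0 (fun i => - (L i.succ 0 / L 0 0)) with hc
  set M : Matrix (Fin (n + 1)) (Fin (n + 1)) ℝ := Matrix.of fun i j => L i j + c i * L 0 j with hM
  have h1 : M.det = L.det :=
    Matrix.det_eq_of_forall_row_eq_smul_add_const c 0 (by simp [hc]) (fun i j => rfl)
  rw [← h1, Matrix.det_succ_column_zero, Fin.sum_univ_succ]
  have h2 : ∀ i : Fin n, M i.succ 0 = 0 := by
    intro i
    simp only [hM, hc, Matrix.of_apply, Fin.cons_succ]
    field_simp; ring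
  have h3 : M 0 0 = L 0 0 := by simp [hM, hc]
  have h4 : M.submatrix (Fin.succAbove 0) Fin.succ = schur L := by
    ext i j
    simp only [Fin.succAbove_zero, Matrix.submatrix_apply, hM, hc, schur, Matrix.of_apply,
      Fin.cons_succ]
    ring
  simp only [h2, h3, h4]
  simp

/-- the block unimodular matrix used in the reduction -/
def WW {n : ℕ} (z : Fin n → ℤ) (U₂ : Matrix (Fin n) (Fin n) ℤ) :
    Matrix (Fin (n + 1)) (Fin (n + 1)) ℤ :=
  Matrix.of (Fin.cons (Fin.cons 1 (fun j => - z j)) (fun i => Fin.cons 0 (fun j => U₂ i j)))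

theorem WW_det {n : ℕ} (z : Fin n → ℤ) (U₂ : Matrix (Fin n) (Fin n) ℤ) :
    (WW z U₂).det = U₂.det := by
  rw [Matrix.det_succ_column_zero, Fin.sum_univ_succ]
  have h2 : ∀ i : Fin n, (WW z U₂) i.succ 0 = 0 := by
    intro i
    simp [WW]
  have h3 : (WW z U₂) 0 0 = 1 := by simp [WW]
  have h4 : (WW z U₂).submatrix (Fin.succAbove 0) Fin.succ = U₂ := by
    ext i j
    simp [WW]
  simp only [h2, h3, h4]
  simp

theorem mul_WW_zero {n : ℕ} (A : Matrix (Fin (n + 1)) (Fin (n + 1)) ℝ) (z : Fin n → ℤ)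
    (U₂ : Matrix (Fin n) (Fin n) ℤ) (r : Fin (n + 1)) : (A * im (WW z U₂)) r 0 = A r 0 := by
  rw [Matrix.mul_apply, Fin.sum_univ_succ]
  simp [WW]

theorem mul_WW_succ {n : ℕ} (A : Matrix (Fin (n + 1)) (Fin (n + 1)) ℝ) (z : Fin n → ℤ)
    (U₂ : Matrix (Fin n) (Fin n) ℤ) (r : Fin (n + 1)) (j : Fin n) :
    (A * im (WW z U₂)) r j.succ = - (z j : ℝ) * A r 0 + ∑ i : Fin n, A r i.succ * (U₂ i j : ℝ) := by
  rw [Matrix.mul_apply, Fin.sum_univ_succ]
  simp [WW]
  ring

/-- Triangular reduction with row pivoting. -/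
theorem red (n : ℕ) : ∃ K : ℝ, 1 ≤ K ∧ ∀ L : Matrix (Fin n) (Fin n) ℝ, L.det ≠ 0 →
    ∃ (σ : Equiv.Perm (Fin n)) (U : Matrix (Fin n) (Fin n) ℤ) (β : Fin n → ℝ),
      IsUnit U.det ∧ (∀ i, 0 < β i) ∧ (∀ i j, i ≤ j → β i ≤ K * β j) ∧ ∏ i, β i = |L.det| ∧
      ∀ i j, |(L * im U) (σ i) j| ≤ K * β (min i j) := by
  induction n with
  | zero =>
    refine ⟨1, le_refl _, fun L _ => ⟨1, 1, fun _ => 1, by simp, fun i => i.elim0,
      fun i => i.elim0, by simp, fun i => i.elim0⟩⟩
  | succ n ih =>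
    obtain ⟨K, hK1, hK⟩ := ih
    refine ⟨2 * K ^ 2 + K, by nlinarith, ?_⟩
    intro L hL
    obtain ⟨U₁, hU₁, hmin⟩ := exists_min_col L hL
    set a := L * im U₁ with ha
    have hadet : |a.det| = |L.det| := by
      rw [ha, Matrix.det_mul, abs_mul, abs_det_unit hU₁, mul_one]
    have hadet0 : a.det ≠ 0 := by
      intro h; rw [h, abs_zero] at hadet; exact hL (abs_eq_zero.mp hadet.symm)
    obtain ⟨p, hp⟩ := Finite.exists_max (fun i => |a i 0|)
    have hap : a p 0 ≠ 0 := by
      intro h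
      apply hadet0
      apply Matrix.det_eq_zero_of_column_eq_zero 0
      intro i
      have := hp i
      simp only [h, abs_zero] at this
      exact abs_nonpos_iff.mp this
    have hnorm : ‖fun i => a i 0‖ = |a p 0| := by
      apply le_antisymm
      · rw [pi_norm_le_iff_of_nonneg (abs_nonneg _)]
        exact hp
      · exact norm_le_pi_norm (fun i => a i 0) p
    set L₁ := a.submatrix (Equiv.swap 0 p) id with hL₁
    have hL₁0 : L₁ 0 0 = a p 0 := by simp [hL₁]
    have hL₁det : |L₁.det| = |L.det| := by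
      rw [hL₁, Matrix.det_permute, abs_mul, hadet]
      have : |((Equiv.Perm.sign (Equiv.swap 0 p) : ℤ) : ℝ)| = 1 := by
        rcases Int.units_eq_one_or (Equiv.Perm.sign (Equiv.swap 0 p)) with h | h <;> simp [h]
      rw [this, one_mul]
    have hsch := det_schur L₁ (by rw [hL₁0]; exact hap)
    set E := schur L₁ with hE
    have hEdet : E.det ≠ 0 := by
      intro h
      rw [h, mul_zero] at hsch
      rw [hsch, abs_zero] at hL₁det
      exact hL (abs_eq_zero.mp hL₁det.symm)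
    obtain ⟨τ, U₂, β', hU₂, hβ'0, hβ'm, hβ'p, hβ'e⟩ := hK E hEdet
    set z : Fin n → ℤ := fun j => round ((∑ i : Fin n, L₁ 0 i.succ * (U₂ i j : ℝ)) / L₁ 0 0) with hz
    set W := WW z U₂ with hW
    set β0 := |a p 0| with hβ0
    have hβ0pos : 0 < β0 := abs_pos.mpr hap
    have hUdet : IsUnit (U₁ * W).det := by
      rw [Matrix.det_mul, hW, WW_det]
      exact hU₁.mul hU₂
    set σ : Equiv.Perm (Fin (n + 1)) := Equiv.Perm.decomposeFin.symm (p, τ) with hσ
    have hσ0 : σ 0 = p := by rw [hσ, Equiv.Perm.decomposeFin_symm_apply_zero]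
    have hσs : ∀ i : Fin n, σ i.succ = Equiv.swap 0 p (τ i).succ := by
      intro i; rw [hσ, Equiv.Perm.decomposeFin_symm_apply_succ]
    have hA : L * im (U₁ * W) = a * im W := by rw [im_mul, ← Matrix.mul_assoc]
    -- the first row
    have hrow0 : ∀ j : Fin n, |(a * im W) p j.succ| ≤ β0 / 2 := by
      intro j
      rw [hW, mul_WW_succ]
      have h1 : ∀ i : Fin n, a p i.succ = L₁ 0 i.succ := by intro i; simp [hL₁]
      simp only [h1]
      rw [← hL₁0]
      have h2 := abs_sub_round ((∑ i : Fin n, L₁ 0 i.succ * (U₂ i j : ℝ)) / L₁ 0 0)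
      have h3 : (- (z j : ℝ) * L₁ 0 0 + ∑ i : Fin n, L₁ 0 i.succ * (U₂ i j : ℝ)) =
          L₁ 0 0 * ((∑ i : Fin n, L₁ 0 i.succ * (U₂ i j : ℝ)) / L₁ 0 0 - (z j : ℝ)) := by
        have : L₁ 0 0 ≠ 0 := by rw [hL₁0]; exact hap
        field_simp; ring
      rw [h3, abs_mul]
      have h4 : |L₁ 0 0| = β0 := by rw [hL₁0]
      rw [h4]
      have h5 : |(∑ i : Fin n, L₁ 0 i.succ * (U₂ i j : ℝ)) / L₁ 0 0 - (z j : ℝ)| ≤ 1 / 2 := h2
      nlinarith
    have hrows : ∀ i j : Fin n, |(a * im W) (σ i.succ) j.succ| ≤ β0 / 2 + K * β' (min i j) := by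
      intro i j
      have h0 : L₁ 0 0 ≠ 0 := by rw [hL₁0]; exact hap
      have h1 : (a * im W) (σ i.succ) j.succ =
          L₁ (τ i).succ 0 / L₁ 0 0 * (a * im W) p j.succ + (E * im U₂) (τ i) j := by
        rw [hσs, hW, mul_WW_succ, mul_WW_succ, Matrix.mul_apply]
        have e1 : ∀ l, a (Equiv.swap 0 p (τ i).succ) l = L₁ (τ i).succ l := fun l => rfl
        have e2 : ∀ l, a p l = L₁ 0 l := by intro l; simp [hL₁]
        simp only [e1, e2, hE, schur, Matrix.of_apply, im_apply, sub_mul, Finset.sum_sub_distrib,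
          mul_add, Finset.mul_sum]
        have e3 : ∀ x : Fin n, L₁ (τ i).succ 0 / L₁ 0 0 * (L₁ 0 x.succ * (U₂ x j : ℝ)) =
            L₁ (τ i).succ 0 / L₁ 0 0 * L₁ 0 x.succ * (U₂ x j : ℝ) := fun x => by ring
        simp only [e3]
        have e4 : L₁ (τ i).succ 0 / L₁ 0 0 * (-(z j : ℝ) * L₁ 0 0) =
          -(z j : ℝ) * L₁ (τ i).succ 0 := by field_simp
        rw [e4]
        ring
      rw [h1]
      refine (abs_add_le _ _).trans (add_le_add ?_ (hβ'e i j))
      rw [abs_mul, abs_div]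
      have h2 : |L₁ (τ i).succ 0| ≤ |L₁ 0 0| := by
        rw [hL₁0]; exact hp _
      have h3 : |L₁ (τ i).succ 0| / |L₁ 0 0| ≤ 1 := div_le_one_of_le₀ h2 (abs_nonneg _)
      have h4 := hrow0 j
      have h5 : 0 ≤ |L₁ (τ i).succ 0| / |L₁ 0 0| := by positivity
      nlinarith [abs_nonneg ((a * im W) p j.succ)]
    have hβle : ∀ j : Fin n, β0 ≤ 2 * K ^ 2 * β' j := by
      intro j
      have hn : 0 < n := by
        have := j.isLt; omega
      set j0 : Fin n := ⟨0, hn⟩ with hj0
      have hj0le : ∀ i : Fin n, j0 ≤ i := fun i => Fin.mk_le_of_le_val (Nat.zero_le _)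
      have h1 := hmin ((U₁ * W).submatrix id (Equiv.swap 0 j0.succ)) (by
        rw [Matrix.det_permute']; exact (Units.isUnit _).mul hUdet)
      rw [hnorm] at h1
      have h2 : ‖fun i => (L * im ((U₁ * W).submatrix id (Equiv.swap 0 j0.succ))) i 0‖ ≤
          β0 / 2 + K * β' j0 := by
        have hnn : 0 ≤ β0 / 2 + K * β' j0 := by
          have := hβ'0 j0
          positivity
        rw [pi_norm_le_iff_of_nonneg hnn]
        intro r
        have h3 : (L * im ((U₁ * W).submatrix id (Equiv.swap 0 j0.succ))) r 0 =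
            (a * im W) r j0.succ := by
          rw [← hA]
          simp only [Matrix.mul_apply, im_apply, Matrix.submatrix_apply, id_eq,
            Equiv.swap_apply_left]
        rw [Real.norm_eq_abs, h3]
        obtain ⟨i, rfl⟩ := σ.surjective r
        refine Fin.cases ?_ (fun i => ?_) i
        · rw [hσ0]
          have := hrow0 j0
          have h4 : 0 ≤ K * β' j0 := by
            have := hβ'0 j0
            positivity
          linarith
        · have := hrows i j0
          rwa [min_eq_right (hj0le i)] at this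
      have h5 : β0 ≤ 2 * K * β' j0 := by
        have := h1.trans h2
        linarith
      have h6 := hβ'm j0 j (hj0le j)
      have h7 : 0 ≤ K := by linarith
      nlinarith
    refine ⟨σ, U₁ * W, Fin.cons β0 β', hUdet, ?_, ?_, ?_, ?_⟩
    · intro i
      refine Fin.cases ?_ (fun i => ?_) i
      · simpa using hβ0pos
      · simpa using hβ'0 i
    · intro i j
      refine Fin.cases ?_ (fun i => ?_) i
      · refine Fin.cases ?_ (fun j => ?_) j
        · intro _
          simp only [Fin.cons_zero]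
          nlinarith
        · intro _
          simp only [Fin.cons_zero, Fin.cons_succ]
          have := hβle j
          have h2 := hβ'0 j
          nlinarith
      · refine Fin.cases ?_ (fun j => ?_) j
        · intro h
          exact absurd h (not_le.mpr (Fin.succ_pos i))
        · intro h
          simp only [Fin.cons_succ]
          have h1 := hβ'm i j (Fin.succ_le_succ_iff.mp h)
          have h2 := hβ'0 j
          have h3 : 0 ≤ K ^ 2 * β' j := by positivity
          nlinarith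
    · rw [Fin.prod_univ_succ]
      simp only [Fin.cons_zero, Fin.cons_succ]
      rw [hβ'p, hβ0, ← hL₁0, ← abs_mul, ← hsch, hL₁det]
    · intro i j
      rw [hA]
      refine Fin.cases ?_ (fun i => ?_) i
      · refine Fin.cases ?_ (fun j => ?_) j
        · rw [hσ0, hW, mul_WW_zero]
          simp only [min_self, Fin.cons_zero]
          nlinarith
        · rw [hσ0]
          have h1 : min (0 : Fin (n + 1)) j.succ = 0 := min_eq_left (Fin.zero_le _)
          rw [h1, Fin.cons_zero]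
          have := hrow0 j
          nlinarith
      · refine Fin.cases ?_ (fun j => ?_) j
        · have h1 : min i.succ (0 : Fin (n + 1)) = 0 := min_eq_right (Fin.zero_le _)
          rw [h1, Fin.cons_zero, hW, mul_WW_zero]
          have := hp (σ i.succ)
          nlinarith
        · have h1 : min i.succ j.succ = (min i j).succ :=
            (Fin.strictMono_succ.monotone.map_min).symm
          rw [h1, Fin.cons_succ]
          refine (hrows i j).trans ?_
          have h2 := hβle (min i j)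
          have h3 := hβ'0 (min i j)
          nlinarith

end Run7.h361
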