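import Mathlib
import Pool.Agent.Run7.h361.Nhd
import Pool.Agent.Run7.h361.Red
import Pool.Agent.Run7.h361.Block

/-!
Equivalence of configurations and compactness.
-/

open Matrix Finset Filter Topology

set_option linter.unusedSectionVars false

namespace Run7.h361

section
variable {ι : Type*} [Fintype ι] [DecidableEq ι]

/-- the transformed forms -/
def tL (t : ι → ℝ) (σ : Equiv.Perm ι) (U : Matrix ι ι ℤ) (L : Matrix ι ι ℝ) : Matrix ι ι ℝ :=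
  ((rs t L) * im U).submatrix σ id

/-- the transformed shift -/
def tc (t : ι → ℝ) (σ : Equiv.Perm ι) (U : Matrix ι ι ℤ) (m : ι → ℤ) (L : Matrix ι ι ℝ)
    (c : ι → ℝ) : ι → ℝ := (t * c) ∘ σ + tL t σ U L *ᵥ iv m

theorem EqC_t_iff {t : ι → ℝ} {σ : Equiv.Perm ι} {U : Matrix ι ι ℤ} {m : ι → ℤ}
    {L : Matrix ι ι ℝ} {c : ι → ℝ} (ht : ∀ k, t k ≠ 0) (hU : IsUnit U.det) :
    EqC (tL t σ U L) (tc t σ U m L c) ↔ EqC L c := by
  unfold tc
  rw [EqC_add_iff]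
  unfold tL
  rw [EqC_perm_iff, EqC_mul_iff hU, EqC_rs_iff ht]

theorem Dg_t_iff {t : ι → ℝ} {σ : Equiv.Perm ι} {U : Matrix ι ι ℤ} {m : ι → ℤ}
    {L : Matrix ι ι ℝ} {c : ι → ℝ} (ht : ∀ k, t k ≠ 0) (hU : IsUnit U.det) :
    Dg (tL t σ U L) (tc t σ U m L c) ↔ Dg L c := by
  unfold tc
  rw [Dg_add_iff]
  unfold tL
  rw [Dg_perm_iff, Dg_mul_iff hU, Dg_rs_iff ht]

theorem abs_det_tL {t : ι → ℝ} {σ : Equiv.Perm ι} {U : Matrix ι ι ℤ}
    {L : Matrix ι ι ℝ} (hU : IsUnit U.det) : |(tL t σ U L).det| = |∏ k, t k| * |L.det| := by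
  unfold tL
  rw [Matrix.det_permute, abs_mul, Matrix.det_mul, abs_mul, abs_det_unit hU, rs_det, abs_mul]
  have : |((Equiv.Perm.sign σ : ℤ) : ℝ)| = 1 := by
    rcases Int.units_eq_one_or (Equiv.Perm.sign σ) with h | h <;> simp [h]
  rw [this]; ring

theorem tL_apply {t : ι → ℝ} {σ : Equiv.Perm ι} {U : Matrix ι ι ℤ}
    {L : Matrix ι ι ℝ} (i j : ι) : tL t σ U L i j = t (σ i) * (L * im U) (σ i) j := by
  unfold tL
  rw [rs_mul]; rfl

theorem tL_mulVec {t : ι → ℝ} {σ : Equiv.Perm ι} {U : Matrix ι ι ℤ}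
    {L : Matrix ι ι ℝ} (n : ι → ℤ) (i : ι) :
    (tL t σ U L *ᵥ iv n) i = t (σ i) * (L *ᵥ iv (U *ᵥ n)) (σ i) := by
  rw [← im_mulVec, Matrix.mulVec_mulVec]
  simp only [Matrix.mulVec, dotProduct, tL_apply, Finset.mul_sum, mul_assoc]

/-- the shift can be brought into a bounded region -/
theorem exists_shift {L : Matrix ι ι ℝ} (hL : L.det ≠ 0) {R : ℝ} (hR : ∀ i j, |L i j| ≤ R)
    (c : ι → ℝ) : ∃ m : ι → ℤ, ∀ k, |(c + L *ᵥ iv m) k| ≤ Fintype.card ι * R := by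
  set y := L⁻¹ *ᵥ c with hy
  refine ⟨fun j => - round (y j), fun k => ?_⟩
  have h1 : c = L *ᵥ y := by
    rw [hy, Matrix.mulVec_mulVec, Matrix.mul_nonsing_inv _ (isUnit_iff_ne_zero.mpr hL),
      Matrix.one_mulVec]
  have h2 : c + L *ᵥ iv (fun j => - round (y j)) = L *ᵥ (fun j => y j - round (y j)) := by
    conv_lhs => rw [h1]
    rw [← Matrix.mulVec_add]
    congr 1
    ext j
    simp; ring
  rw [h2]
  simp only [Matrix.mulVec, dotProduct]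
  refine (Finset.abs_sum_le_sum_abs _ _).trans ?_
  have h3 : ∑ j, |L k j * (y j - round (y j))| ≤ ∑ _j : ι, R := by
    refine Finset.sum_le_sum fun j _ => ?_
    rw [abs_mul]
    have h4 := abs_sub_round (y j)
    have h5 := hR k j
    have h6 := abs_nonneg (L k j)
    nlinarith [abs_nonneg (y j - round (y j))]
  rwa [Finset.sum_const, Finset.card_univ, nsmul_eq_mul] at h3

theorem exists_subseq {X : ℕ → Matrix ι ι ℝ × (ι → ℝ) × Matrix ι ι ℝ} {R : ℝ}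
    (h1 : ∀ n i j, |(X n).1 i j| ≤ R) (h2 : ∀ n i, |(X n).2.1 i| ≤ R)
    (h3 : ∀ n i j, |(X n).2.2 i j| ≤ R) :
    ∃ (Y : Matrix ι ι ℝ × (ι → ℝ) × Matrix ι ι ℝ) (φ : ℕ → ℕ), StrictMono φ ∧
      Tendsto (X ∘ φ) atTop (𝓝 Y) := by
  have hK1 : IsCompact (Set.pi Set.univ (fun _ : ι => Set.pi Set.univ
      (fun _ : ι => Set.Icc (-R) R)) : Set (ι → ι → ℝ)) :=
    isCompact_univ_pi fun _ => isCompact_univ_pi fun _ => isCompact_Icc
  have hK2 : IsCompact (Set.pi Set.univ (fun _ : ι => Set.Icc (-R) R) : Set (ι → ℝ)) :=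
    isCompact_univ_pi fun _ => isCompact_Icc
  have hK := hK1.prod (hK2.prod hK1)
  let X' : ℕ → (ι → ι → ℝ) × (ι → ℝ) × (ι → ι → ℝ) := X
  have hX : ∀ n, X' n ∈ (Set.pi Set.univ (fun _ : ι => Set.pi Set.univ
      (fun _ : ι => Set.Icc (-R) R)) : Set (ι → ι → ℝ)) ×ˢ
      ((Set.pi Set.univ (fun _ : ι => Set.Icc (-R) R) : Set (ι → ℝ)) ×ˢ
      (Set.pi Set.univ (fun _ : ι => Set.pi Set.univ
      (fun _ : ι => Set.Icc (-R) R)) : Set (ι → ι → ℝ))) := by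
    intro n
    refine ⟨fun i _ j _ => ?_, fun i _ => ?_, fun i _ j _ => ?_⟩
    · exact abs_le.mp (h1 n i j)
    · exact abs_le.mp (h2 n i)
    · exact abs_le.mp (h3 n i j)
  obtain ⟨Y, -, φ, hφ, hlim⟩ := hK.tendsto_subseq hX
  exact ⟨Y, φ, hφ, hlim⟩

end

/-- reduction together with boundedness -/
theorem red_norm (n : ℕ) : ∃ K : ℝ, 1 ≤ K ∧ ∀ L : Matrix (Fin n) (Fin n) ℝ, L.det ≠ 0 →
    ∃ (σ : Equiv.Perm (Fin n)) (U : Matrix (Fin n) (Fin n) ℤ) (β : Fin n → ℝ),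
      IsUnit U.det ∧ (∀ i, 0 < β i) ∧ (∀ i j, i ≤ j → β i ≤ K * β j) ∧ ∏ i, β i = |L.det| ∧
      (∀ i j, |tL (fun k => (β (σ.symm k))⁻¹) σ U L i j| ≤ K ^ 2) ∧
      (∀ i j, j < i → |tL (fun k => (β (σ.symm k))⁻¹) σ U L i j| ≤ K * (β j / β i)) ∧
      (∀ i j, |(L * im U) (σ i) j| ≤ K * β (min i j)) ∧
      |(tL (fun k => (β (σ.symm k))⁻¹) σ U L).det| = 1 := by
  obtain ⟨K, hK1, hK⟩ := red n
  refine ⟨K, hK1, fun L hL => ?_⟩
  obtain ⟨σ, U, β, hU, hβ0, hβm, hβp, hβe⟩ := hK L hL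
  have hent : ∀ i j, |tL (fun k => (β (σ.symm k))⁻¹) σ U L i j| = |(L * im U) (σ i) j| / β i := by
    intro i j
    rw [tL_apply, abs_mul, Equiv.symm_apply_apply, abs_inv, abs_of_pos (hβ0 i)]
    field_simp
  refine ⟨σ, U, β, hU, hβ0, hβm, hβp, ?_, ?_, hβe, ?_⟩
  · intro i j
    rw [hent, div_le_iff₀ (hβ0 i)]
    have h1 := hβe i j
    have h2 := hβm (min i j) i (min_le_left _ _)
    have h3 : K * β (min i j) ≤ K * (K * β i) := mul_le_mul_of_nonneg_left h2 (by linarith)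
    calc _ ≤ _ := h1
      _ ≤ _ := h3
      _ = _ := by ring
  · intro i j hji
    rw [hent, div_le_iff₀ (hβ0 i)]
    have h1 := hβe i j
    rw [min_eq_right hji.le] at h1
    have h2 := hβ0 i
    have h3 : K * (β j / β i) * β i = K * β j := by field_simp
    rw [h3]; exact h1
  · rw [abs_det_tL hU, ← hβp, Finset.abs_prod]
    have h1 : ∏ k, |(β (σ.symm k))⁻¹| = ∏ k, (β k)⁻¹ := by
      rw [← Equiv.prod_comp σ]
      refine Finset.prod_congr rfl fun k _ => ?_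
      rw [Equiv.symm_apply_apply, abs_inv, abs_of_pos (hβ0 k)]
    rw [h1, ← Finset.prod_mul_distrib]
    refine Finset.prod_eq_one fun k _ => ?_
    exact inv_mul_cancel₀ (hβ0 k).ne'

/-- scaling so that a given vector of small norm becomes short -/
theorem exists_balance {n : ℕ} (hn : 0 < n) {D κ : ℝ} (hD : 0 < D) (hκ : 0 < κ) (v : Fin n → ℝ)
    (hv : |∏ k, v k| < κ * D) :
    ∃ (t : Fin n → ℝ) (s : ℝ), (∀ k, 0 < t k) ∧ (∏ k, t k) * D = 1 ∧ 0 ≤ s ∧ s ^ n ≤ κ ∧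
      ∀ k, |t k * v k| ≤ s := by
  have hcont : Continuous fun δ : ℝ => ∏ k, (|v k| + δ) := by fun_prop
  have h0 : (fun δ : ℝ => ∏ k, (|v k| + δ)) 0 < κ * D := by
    simp only [add_zero]
    rwa [← Finset.abs_prod]
  have hev : ∀ᶠ δ in 𝓝 (0 : ℝ), ∏ k, (|v k| + δ) < κ * D :=
    hcont.continuousAt.eventually_lt continuousAt_const h0
  have hev2 : ∀ᶠ δ in 𝓝[>] (0 : ℝ), ∏ k, (|v k| + δ) < κ * D := hev.filter_mono nhdsWithin_le_nhds
  obtain ⟨δ, hδ1, hδ2⟩ := (hev2.and self_mem_nhdsWithin).exists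
  have hδ0 : 0 < δ := hδ2
  set P := ∏ k, (|v k| + δ) with hP
  have hPpos : 0 < P := Finset.prod_pos fun k _ => by positivity
  have hn' : (n : ℝ) ≠ 0 := by positivity
  set s := (P / D) ^ ((n : ℝ)⁻¹) with hs
  have hsn : s ^ n = P / D := by
    rw [hs, ← Real.rpow_natCast, ← Real.rpow_mul (by positivity), inv_mul_cancel₀ hn',
      Real.rpow_one]
  have hs0 : 0 < s := by positivity
  refine ⟨fun k => s / (|v k| + δ), s, fun k => by positivity, ?_, hs0.le, ?_, ?_⟩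
  · rw [Finset.prod_div_distrib, Finset.prod_const, Finset.card_univ, Fintype.card_fin, hsn, ← hP]
    field_simp
  · rw [hsn, div_le_iff₀ hD]; exact hδ1.le
  · intro k
    rw [abs_mul, abs_of_pos (by positivity), div_mul_eq_mul_div, div_le_iff₀ (by positivity)]
    nlinarith [abs_nonneg (v k)]

end Run7.h361
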