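import Mathlib
import Pool.Agent.Run7.h361.Rel

/-!
Equality cases whose forms take arbitrarily small product values: reduction to lower dimension.
-/

open Matrix Finset Filter Topology

set_option linter.unusedSectionVars false

namespace Run7.h361

/-- transfer of goodness from `Fin k` to a type with `k` elements -/
theorem good_of_card {α : Type*} [Fintype α] [DecidableEq α] {k : ℕ} (hk : Fintype.card α = k)
    (h : ∀ M : Matrix (Fin k) (Fin k) ℝ, M.det ≠ 0 → Good M) :
    ∀ M : Matrix α α ℝ, M.det ≠ 0 → Good M := by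
  intro M hM
  subst hk
  set e := Fintype.equivFin α with he
  have h1 : (Matrix.reindex e e M).det ≠ 0 := by rwa [Matrix.det_reindex_self]
  have h2 := (h _ h1).reindex e.symm
  have h3 : Matrix.reindex e.symm e.symm (Matrix.reindex e e M) = M := by ext i j; simp
  rwa [h3] at h2

/-- A vector bounded below in terms of its image -/
theorem one_le_of_ne {ι : Type*} [Fintype ι] [DecidableEq ι] {L : Matrix ι ι ℝ} (hL : L.det ≠ 0)
    {n : ι → ℤ} (hn : n ≠ 0) {R : ℝ} (hR : ∀ k, |(L *ᵥ iv n) k| ≤ R) :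
    1 ≤ (∑ i, ∑ k, |L⁻¹ i k|) * R := by
  obtain ⟨j, hj⟩ := Function.ne_iff.mp hn
  have h1 : (1 : ℝ) ≤ |(n j : ℝ)| := by
    have h2 : 1 ≤ |n j| := Int.one_le_abs hj
    exact_mod_cast h2
  exact h1.trans (abs_iv_le hL hR j)

/-- the main compactness argument -/
theorem cusp (d : ℕ) (hQ : ∀ k < d, ∀ M : Matrix (Fin k) (Fin k) ℝ, M.det ≠ 0 → Good M) :
    ∃ κ : ℝ, 0 < κ ∧ ∀ (L : Matrix (Fin d) (Fin d) ℝ) (c : Fin d → ℝ), L.det ≠ 0 → EqC L c →
      (∃ n : Fin d → ℤ, n ≠ 0 ∧ |∏ k, (L *ᵥ iv n) k| < κ * |L.det|) → Dg L c := by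
  rcases Nat.eq_zero_or_pos d with hd | hd
  · subst hd
    refine ⟨1, one_pos, fun L c _ _ h => ?_⟩
    obtain ⟨n, hn, -⟩ := h
    exact absurd (Subsingleton.elim n 0) hn
  by_contra hcon
  push Not at hcon
  obtain ⟨K, hK1, hK⟩ := red_norm d
  have hstep : ∀ j : ℕ, ∃ (L : Matrix (Fin d) (Fin d) ℝ) (c : Fin d → ℝ) (m : Fin d → ℤ)
      (β : Fin d → ℝ) (s : ℝ), EqC L c ∧ ¬ Dg L c ∧ |L.det| = 1 ∧ (∀ i k, |L i k| ≤ K ^ 2) ∧
      (∀ i, |c i| ≤ d * K ^ 2) ∧ (∀ i, 0 < β i) ∧ (∀ i k, i ≤ k → β i ≤ K * β k) ∧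
      ∏ i, β i = 1 ∧ (∀ i k, k < i → |L i k| ≤ K * (β k / β i)) ∧ m ≠ 0 ∧
      (∀ i, |(L *ᵥ iv m) i| ≤ s / β i) ∧ 0 ≤ s ∧ s ^ d ≤ 1 / ((j : ℝ) + 1) := by
    intro j
    obtain ⟨L, c, hL, hEq, ⟨n, hn, hsmall⟩, hnot⟩ := hcon (1 / ((j : ℝ) + 1)) (by positivity)
    obtain ⟨t, s, ht0, htD, hs0, hsd, hts⟩ := exists_balance hd (abs_pos.mpr hL)
      (by positivity : (0 : ℝ) < 1 / ((j : ℝ) + 1)) (L *ᵥ iv n) hsmall
    have ht0' : ∀ k, t k ≠ 0 := fun k => (ht0 k).ne'
    have htp : 0 < ∏ k, t k := Finset.prod_pos fun k _ => ht0 k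
    have hdet1 : |(rs t L).det| = 1 := by
      rw [rs_det, abs_mul, abs_of_pos htp]; exact htD
    have hL1 : (rs t L).det ≠ 0 := by
      intro h; rw [h, abs_zero] at hdet1; exact zero_ne_one hdet1
    obtain ⟨σ, U, β, hU, hβ0, hβm, hβp, he1, he2, -, hdet2⟩ := hK (rs t L) hL1
    set u : Fin d → ℝ := fun k => (β (σ.symm k))⁻¹ with hu
    have hu0 : ∀ k, u k ≠ 0 := fun k => inv_ne_zero (hβ0 _).ne'
    set L' := tL u σ U (rs t L) with hL'
    have hL'0 : L'.det ≠ 0 := by
      intro h; rw [h, abs_zero] at hdet2; exact zero_ne_one hdet2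
    obtain ⟨m', hm'⟩ := exists_shift hL'0 he1 ((u * (t * c)) ∘ σ)
    set c' := tc u σ U m' (rs t L) (t * c) with hc'
    obtain ⟨V, hV, hUV, hVU⟩ := exists_inv hU
    refine ⟨L', c', V *ᵥ n, β, s, ?_, ?_, hdet2, he1, ?_, hβ0, hβm, by rw [hβp, hdet1], he2, ?_,
      ?_, hs0, hsd⟩
    · rw [hL', hc', EqC_t_iff hu0 hU, EqC_rs_iff ht0']; exact hEq
    · rw [hL', hc', Dg_t_iff hu0 hU, Dg_rs_iff ht0']; exact hnot
    · intro i
      have := hm' i
      rw [Fintype.card_fin] at this
      exact this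
    · intro h
      apply hn
      have : U *ᵥ (V *ᵥ n) = n := by rw [Matrix.mulVec_mulVec, hUV, Matrix.one_mulVec]
      rw [← this, h, Matrix.mulVec_zero]
    · intro i
      rw [hL', tL_mulVec, Matrix.mulVec_mulVec, hUV, Matrix.one_mulVec, rs_mulVec, hu]
      simp only [Equiv.symm_apply_apply]
      rw [abs_mul, abs_inv, abs_of_pos (hβ0 i), inv_mul_eq_div]
      exact div_le_div_of_nonneg_right (hts (σ i)) (hβ0 i).le
  choose L c m β s hEq hnot hdet hLb hcb hβ0 hβm hβp hlow hm hLm hs0 hsd using hstep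
  -- the ratios
  set R : ℕ → Matrix (Fin d) (Fin d) ℝ := fun j => Matrix.of fun a b =>
    if a ≤ b then β j a / β j b else 0 with hR
  set B : ℝ := max (K ^ 2) (max (d * K ^ 2) K) with hB
  obtain ⟨Y, φ, hφ, hlim⟩ := exists_subseq (X := fun j => (L j, c j, R j)) (R := B)
    (fun n i j => (hLb n i j).trans (le_max_left _ _))
    (fun n i => (hcb n i).trans ((le_max_left _ _).trans (le_max_right _ _)))
    (fun n i j => by
      simp only [hR, Matrix.of_apply]
      by_cases hij : i ≤ j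
      · rw [if_pos hij, abs_of_pos (div_pos (hβ0 n i) (hβ0 n j)), div_le_iff₀ (hβ0 n j)]
        refine (hβm n i j hij).trans ?_
        exact mul_le_mul_of_nonneg_right ((le_max_right _ _).trans (le_max_right _ _))
          (hβ0 n j).le
      · rw [if_neg hij, abs_zero]
        have : 0 ≤ K ^ 2 := by positivity
        exact this.trans (le_max_left _ _))
  obtain ⟨L0, c0, R0⟩ := Y
  have hlimL : Tendsto (fun j => L (φ j)) atTop (𝓝 L0) :=
    (continuous_fst.tendsto _).comp hlim
  have hlimc : Tendsto (fun j => c (φ j)) atTop (𝓝 c0) :=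
    ((continuous_fst.comp continuous_snd).tendsto _).comp hlim
  have hlimR : Tendsto (fun j => R (φ j)) atTop (𝓝 R0) :=
    ((continuous_snd.comp continuous_snd).tendsto _).comp hlim
  have hRab : ∀ a b, Tendsto (fun j => R (φ j) a b) atTop (𝓝 (R0 a b)) := fun a b =>
    ((continuous_apply_apply a b).tendsto R0).comp hlimR
  have hLab : ∀ a b, Tendsto (fun j => L (φ j) a b) atTop (𝓝 (L0 a b)) := fun a b =>
    ((continuous_apply_apply a b).tendsto L0).comp hlimL
  have hdet0 : |L0.det| = 1 := by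
    have h1 : Tendsto (fun j => |(L (φ j)).det|) atTop (𝓝 |L0.det|) := by
      have : Continuous fun M : Matrix (Fin d) (Fin d) ℝ => |M.det| :=
        (Continuous.matrix_det continuous_id).abs
      exact (this.tendsto L0).comp hlimL
    refine tendsto_nhds_unique h1 ?_
    simp only [hdet]
    exact tendsto_const_nhds
  have hL00 : L0.det ≠ 0 := by
    intro h; rw [h, abs_zero] at hdet0; exact zero_ne_one hdet0
  set z : Fin d := ⟨0, hd⟩ with hz
  have hz0 : ∀ i, z ≤ i := fun i => Fin.mk_le_of_le_val (Nat.zero_le _)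
  -- `s` tends to zero
  have hs_lim : Tendsto (fun j => s (φ j)) atTop (𝓝 0) := by
    have h1 : Tendsto (fun j => s (φ j) ^ d) atTop (𝓝 0) := by
      refine squeeze_zero (fun j => pow_nonneg (hs0 _) _) (fun j => hsd (φ j)) ?_
      exact tendsto_one_div_add_atTop_nhds_zero_nat.comp hφ.tendsto_atTop
    have hd' : (d : ℝ) ≠ 0 := by positivity
    have h2 : Tendsto (fun j => (s (φ j) ^ d) ^ ((d : ℝ)⁻¹)) atTop (𝓝 (0 ^ ((d : ℝ)⁻¹))) :=
      h1.rpow_const (Or.inr (by positivity))
    rw [Real.zero_rpow (by positivity)] at h2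
    refine h2.congr fun j => ?_
    rw [← Real.rpow_natCast, ← Real.rpow_mul (hs0 _), mul_inv_cancel₀ hd', Real.rpow_one]
  -- `β z` tends to zero
  have hinv_lim : Tendsto (fun j => ∑ i, ∑ k, |(L (φ j))⁻¹ i k|) atTop
      (𝓝 (∑ i, ∑ k, |L0⁻¹ i k|)) := by
    have h1 : Tendsto (fun j => (L (φ j))⁻¹) atTop (𝓝 L0⁻¹) := by
      have h2 : ∀ M : Matrix (Fin d) (Fin d) ℝ, M⁻¹ = (M.det)⁻¹ • M.adjugate := fun M => by
        rw [Matrix.inv_def, Ring.inverse_eq_inv']
      simp only [h2]
      refine Tendsto.smul ?_ ?_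
      · refine Tendsto.inv₀ ?_ hL00
        exact ((Continuous.matrix_det continuous_id).tendsto L0).comp hlimL
      · exact ((Continuous.matrix_adjugate continuous_id).tendsto L0).comp hlimL
    refine tendsto_finsetSum _ fun i _ => tendsto_finsetSum _ fun k _ => ?_
    have h3 : Tendsto (fun j => (L (φ j))⁻¹ i k) atTop (𝓝 (L0⁻¹ i k)) :=
      ((continuous_apply_apply i k).tendsto (L0⁻¹ : Matrix (Fin d) (Fin d) ℝ)).comp h1
    exact h3.abs
  have hβz_le : ∀ j, β j z ≤ K * ((∑ i, ∑ k, |(L j)⁻¹ i k|) * s j) := by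
    intro j
    have hLj : (L j).det ≠ 0 := by
      intro h; have := hdet j; rw [h, abs_zero] at this; exact zero_ne_one this
    have h1 : ∀ i, |(L j *ᵥ iv (m j)) i| ≤ K * s j / β j z := by
      intro i
      refine (hLm j i).trans ?_
      rw [div_le_div_iff₀ (hβ0 j i) (hβ0 j z)]
      have h2 := hβm j z i (hz0 i)
      have h3 := hs0 j
      nlinarith
    have h2 := one_le_of_ne hLj (hm j) h1
    have h3 := hβ0 j z
    rw [mul_div_assoc', le_div_iff₀ h3] at h2
    linarith
  have hβz_lim : Tendsto (fun j => β (φ j) z) atTop (𝓝 0) := by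
    refine squeeze_zero (fun j => (hβ0 _ _).le) (fun j => hβz_le (φ j)) ?_
    have := (hinv_lim.mul hs_lim).const_mul K
    simpa using this
  -- the set of indices of comparable size
  have hR_nonneg : ∀ b, 0 ≤ R0 z b := by
    intro b
    refine ge_of_tendsto' (hRab z b) fun j => ?_
    simp only [hR, Matrix.of_apply, if_pos (hz0 b)]
    exact (div_pos (hβ0 _ _) (hβ0 _ _)).le
  have hRz : ∀ b j, R j z b = β j z / β j b := by
    intro b j
    simp only [hR, Matrix.of_apply, if_pos (hz0 b)]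
  have hex : ∃ b, R0 z b = 0 := by
    by_contra hno
    push Not at hno
    have h1 : Tendsto (fun j => (∏ b, (R (φ j) z b)⁻¹) * (β (φ j) z) ^ d) atTop
        (𝓝 ((∏ b, (R0 z b)⁻¹) * 0 ^ d)) := by
      refine Tendsto.mul ?_ (hβz_lim.pow d)
      exact tendsto_finsetProd _ fun b _ => (hRab z b).inv₀ (hno b)
    rw [zero_pow hd.ne', mul_zero] at h1
    have h2 : ∀ j, (∏ b, (R (φ j) z b)⁻¹) * (β (φ j) z) ^ d = 1 := by
      intro j
      have h3 : (β (φ j) z) ^ d = ∏ _b : Fin d, β (φ j) z := by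
        rw [Finset.prod_const, Finset.card_univ, Fintype.card_fin]
      rw [h3, ← Finset.prod_mul_distrib, ← hβp (φ j)]
      refine Finset.prod_congr rfl fun b _ => ?_
      rw [hRz, inv_div]
      have := (hβ0 (φ j) z).ne'
      field_simp
    simp only [h2] at h1
    exact one_ne_zero (tendsto_nhds_unique tendsto_const_nhds h1)
  obtain ⟨b0, hb0⟩ := hex
  set p : Fin d → Prop := fun b => R0 z b ≠ 0 with hp
  have hpz : p z := by
    have h1 : Tendsto (fun j => R (φ j) z z) atTop (𝓝 1) := by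
      have : ∀ j, R (φ j) z z = 1 := fun j => by
        rw [hRz, div_self (hβ0 _ _).ne']
      simp only [this]; exact tendsto_const_nhds
    have h2 : R0 z z = 1 := tendsto_nhds_unique (hRab z z) h1
    simp only [hp, h2]; exact one_ne_zero
  have hblock : ∀ i j, ¬ p i → p j → L0 i j = 0 := by
    intro a b ha hb
    simp only [hp, not_not] at ha
    simp only [hp] at hb
    have hb' : 0 < R0 z b := lt_of_le_of_ne (hR_nonneg b) (Ne.symm hb)
    have hlt : b < a := by
      by_contra hle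
      push Not at hle
      have h1 : R0 z b ≤ K * R0 z a := by
        refine le_of_tendsto_of_tendsto' (hRab z b) ((hRab z a).const_mul K) fun j => ?_
        rw [hRz, hRz, mul_div_assoc', div_le_div_iff₀ (hβ0 _ _) (hβ0 _ _)]
        have h2 := hβm (φ j) a b hle
        have h3 := hβ0 (φ j) z
        nlinarith
      rw [ha, mul_zero] at h1
      linarith
    have h1 : Tendsto (fun j => |L (φ j) a b|) atTop (𝓝 |L0 a b|) := (hLab a b).abs
    have h2 : Tendsto (fun j => K * (R (φ j) z a / R (φ j) z b)) atTop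
        (𝓝 (K * (R0 z a / R0 z b))) := ((hRab z a).div (hRab z b) hb).const_mul K
    rw [ha, zero_div, mul_zero] at h2
    have h3 : |L0 a b| ≤ 0 := by
      refine le_of_tendsto_of_tendsto' h1 h2 fun j => ?_
      refine (hlow (φ j) a b hlt).trans (le_of_eq ?_)
      rw [hRz, hRz]
      have e1 := (hβ0 (φ j) z).ne'
      have e2 := (hβ0 (φ j) a).ne'
      have e3 := (hβ0 (φ j) b).ne'
      field_simp
    exact abs_nonpos_iff.mp h3
  classical
  have hgood : Good L0 := by
    refine good_of_blocks p hblock hL00 ?_ ?_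
    · have hc1 : Fintype.card {i // p i} < d := by
        have h1 : Fintype.card {i // p i} < Fintype.card (Fin d) :=
          Fintype.card_subtype_lt (x := b0) (by simp only [hp, not_not]; exact hb0)
        rwa [Fintype.card_fin] at h1
      exact good_of_card rfl (hQ _ hc1)
    · have hc1 : Fintype.card {i // ¬ p i} < d := by
        have h1 : Fintype.card {i // ¬ p i} < Fintype.card (Fin d) :=
          Fintype.card_subtype_lt (x := z) (not_not.mpr hpz)
        rwa [Fintype.card_fin] at h1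
      exact good_of_card rfl (hQ _ hc1)
  have hEq0 : EqC L0 c0 := EqC_of_tendsto hlimL hlimc (Eventually.of_forall fun j => hEq (φ j))
  have hDg0 : Dg L0 c0 := hgood c0 hEq0
  have hev := iso_eventually L0 c0 hDg0 hL00
  have hpair : Tendsto (fun j => (L (φ j), c (φ j))) atTop (𝓝 (L0, c0)) :=
    hlimL.prodMk_nhds hlimc
  obtain ⟨j, hj⟩ := (hpair.eventually hev).exists
  exact hnot (φ j) (hj (hEq (φ j)))

end Run7.h361
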