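import Mathlib
import Pool.Agent.Run7.h361.Bsd

/-!
Centring: from an equality case with positive homogeneous minimum to a lattice avoiding the star
shaped region `|∏ (1 + x k)| < 1`.
-/

open Matrix Finset Filter Topology

set_option linter.unusedSectionVars false

namespace Run7.h361

/-- a lattice with positive homogeneous minimum and bounded determinant has a bounded basis -/
theorem bounded_basis (d : ℕ) (hd : 0 < d) {κ D : ℝ} (hκ : 0 < κ) (hD : 0 < D) :
    ∃ R : ℝ, 0 < R ∧ ∀ M : Matrix (Fin d) (Fin d) ℝ, M.det ≠ 0 → |M.det| ≤ D →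
      (∀ n : Fin d → ℤ, n ≠ 0 → κ ≤ |∏ k, (M *ᵥ iv n) k|) →
      ∃ U : Matrix (Fin d) (Fin d) ℤ, IsUnit U.det ∧ ∀ i j, |(M * im U) i j| ≤ R := by
  obtain ⟨K, hK1, hK⟩ := red_norm d
  have hd' : (d : ℝ) ≠ 0 := by positivity
  set b := κ ^ ((d : ℝ)⁻¹) / K with hb
  have hb0 : 0 < b := by positivity
  refine ⟨K * (D / (b / K) ^ (d - 1)), by positivity, ?_⟩
  intro M hM hMD hhom
  obtain ⟨σ, U, β, hU, hβ0, hβm, hβp, -, -, he, -⟩ := hK M hM
  refine ⟨U, hU, ?_⟩
  set z : Fin d := ⟨0, hd⟩ with hz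
  have hz0 : ∀ i, z ≤ i := fun i => Fin.mk_le_of_le_val (Nat.zero_le _)
  have hcol : ∀ i, |(M *ᵥ iv (fun l => U l z)) i| ≤ K * β z := by
    intro i
    have h1 := he (σ.symm i) z
    rw [Equiv.apply_symm_apply, min_eq_right (hz0 _), mul_im_col] at h1
    exact h1
  have hne : (fun l => U l z) ≠ 0 := by
    intro h
    have : U.det = 0 := Matrix.det_eq_zero_of_column_eq_zero z fun i => congrFun h i
    rw [this] at hU
    exact not_isUnit_zero hU
  have hβz : b ≤ β z := by
    have h1 := hhom _ hne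
    have h2 : |∏ k, (M *ᵥ iv (fun l => U l z)) k| ≤ (K * β z) ^ d := by
      rw [Finset.abs_prod]
      calc _ ≤ ∏ _k : Fin d, (K * β z) :=
            Finset.prod_le_prod (fun i _ => abs_nonneg _) fun i _ => hcol i
        _ = _ := by rw [Finset.prod_const, Finset.card_univ, Fintype.card_fin]
    have h3 : κ ≤ (K * β z) ^ d := h1.trans h2
    have h4 : κ ^ ((d : ℝ)⁻¹) ≤ K * β z := by
      have hnn : 0 ≤ K * β z := by have := hβ0 z; positivity
      have h5 : κ ^ ((d : ℝ)⁻¹) ≤ ((K * β z) ^ d) ^ ((d : ℝ)⁻¹) :=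
        Real.rpow_le_rpow hκ.le h3 (by positivity)
      rwa [← Real.rpow_natCast, ← Real.rpow_mul hnn, mul_inv_cancel₀ hd', Real.rpow_one] at h5
    rw [hb, div_le_iff₀ (by linarith)]
    linarith
  have hβi : ∀ i, b / K ≤ β i := by
    intro i
    have := hβm z i (hz0 i)
    rw [div_le_iff₀ (by linarith)]
    linarith
  have hβu : ∀ i, β i ≤ D / (b / K) ^ (d - 1) := by
    intro i
    rw [le_div_iff₀ (by positivity)]
    refine le_trans ?_ hMD
    rw [← hβp, ← Finset.mul_prod_erase _ _ (Finset.mem_univ i)]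
    refine mul_le_mul_of_nonneg_left ?_ (hβ0 i).le
    have hc : (Finset.univ.erase i).card = d - 1 := by
      rw [Finset.card_erase_of_mem (Finset.mem_univ i), Finset.card_univ, Fintype.card_fin]
    calc (b / K) ^ (d - 1) = ∏ _x ∈ Finset.univ.erase i, b / K := by
          rw [Finset.prod_const, hc]
      _ ≤ _ := Finset.prod_le_prod (fun _ _ => by positivity) fun x _ => hβi x
  intro i j
  have h1 := he (σ.symm i) j
  rw [Equiv.apply_symm_apply] at h1
  exact h1.trans (mul_le_mul_of_nonneg_left (hβu _) (by linarith))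

/-- the centring argument -/
theorem centre (d : ℕ) (hd : 0 < d) {L : Matrix (Fin d) (Fin d) ℝ} {c : Fin d → ℝ}
    (hL : L.det ≠ 0) (hEq : EqC L c) {κ : ℝ} (hκ : 0 < κ)
    (hhom : ∀ n : Fin d → ℤ, n ≠ 0 → κ ≤ |∏ k, (L *ᵥ iv n) k|) :
    ∃ M : Matrix (Fin d) (Fin d) ℝ, M.det ≠ 0 ∧ |M.det| ≤ 2 ^ d ∧
      (∃ κ' : ℝ, 0 < κ' ∧ ∀ n : Fin d → ℤ, n ≠ 0 → κ' ≤ |∏ k, (M *ᵥ iv n) k|) ∧
      ∀ n : Fin d → ℤ, 1 ≤ |∏ k, (1 + (M *ᵥ iv n) k)| := by
  set f : (Fin d → ℤ) → ℝ := fun n => |∏ k, ((L *ᵥ iv n) k + c k)| with hf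
  have hlow : ∀ n, |L.det| / 2 ^ d ≤ f n := by
    intro n
    have := hEq n
    rwa [Fintype.card_fin] at this
  have hlowpos : 0 < |L.det| / 2 ^ d := by positivity
  have hbdd : BddBelow (Set.range f) := ⟨|L.det| / 2 ^ d, by rintro _ ⟨n, rfl⟩; exact hlow n⟩
  set m := ⨅ n, f n with hm
  have hm1 : |L.det| / 2 ^ d ≤ m := le_ciInf hlow
  have hm0 : 0 < m := hlowpos.trans_le hm1
  have hmle : ∀ n, m ≤ f n := fun n => ciInf_le hbdd n
  have hseq : ∀ j : ℕ, ∃ n, f n < m + 1 / ((j : ℝ) + 1) := fun j =>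
    exists_lt_of_ciInf_lt (lt_add_of_pos_right _ (by positivity))
  choose n hn using hseq
  set t : ℕ → Fin d → ℝ := fun j k => ((L *ᵥ iv (n j)) k + c k)⁻¹ with ht
  set N : ℕ → Matrix (Fin d) (Fin d) ℝ := fun j => rs (t j) L with hN
  have hfpos : ∀ l, 0 < f l := fun l => hm0.trans_le (hmle l)
  have hne : ∀ j k, (L *ᵥ iv (n j)) k + c k ≠ 0 := by
    intro j k h
    have := hfpos (n j)
    simp only [hf] at this
    rw [Finset.prod_eq_zero (Finset.mem_univ k) h, abs_zero] at this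
    exact lt_irrefl _ this
  have htprod : ∀ j, |∏ k, t j k| = (f (n j))⁻¹ := by
    intro j
    simp only [ht, hf]
    rw [Finset.prod_inv_distrib, abs_inv]
  have hNdet : ∀ j, |(N j).det| = |L.det| / f (n j) := by
    intro j
    simp only [hN]
    rw [rs_det, abs_mul, htprod]
    field_simp
  have hNdet0 : ∀ j, (N j).det ≠ 0 := by
    intro j h
    have h1 := hNdet j
    rw [h, abs_zero] at h1
    have h2 := hfpos (n j)
    have h3 : 0 < |L.det| / f (n j) := by positivity
    rw [← h1] at h3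
    exact lt_irrefl _ h3
  have hNhom : ∀ j l, l ≠ 0 → κ / (m + 1) ≤ |∏ k, (N j *ᵥ iv l) k| := by
    intro j l hl
    have h1 : ∏ k, (N j *ᵥ iv l) k = (∏ k, t j k) * ∏ k, (L *ᵥ iv l) k := by
      rw [← Finset.prod_mul_distrib]
      refine Finset.prod_congr rfl fun k _ => ?_
      simp only [hN]; rw [rs_mulVec]
    rw [h1, abs_mul, htprod]
    have h2 : f (n j) ≤ m + 1 := by
      refine (hn j).le.trans ?_
      have : 1 / ((j : ℝ) + 1) ≤ 1 := by
        rw [div_le_one (by positivity)]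
        have : (0 : ℝ) ≤ j := Nat.cast_nonneg j
        linarith
      linarith
    have h3 := hhom l hl
    have h4 := hfpos (n j)
    rw [div_le_iff₀ (by linarith)]
    have h5 : 1 ≤ (f (n j))⁻¹ * (m + 1) := by
      rw [inv_mul_eq_div, le_div_iff₀ h4]
      linarith
    nlinarith
  have hNin : ∀ j l, m / f (n j) ≤ |∏ k, (1 + (N j *ᵥ iv l) k)| := by
    intro j l
    have h1 : ∏ k, (1 + (N j *ᵥ iv l) k) =
        (∏ k, t j k) * ∏ k, ((L *ᵥ iv (n j + l)) k + c k) := by
      rw [← Finset.prod_mul_distrib]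
      refine Finset.prod_congr rfl fun k _ => ?_
      simp only [hN]
      rw [rs_mulVec, iv_add, Matrix.mulVec_add, Pi.add_apply]
      have h2 := hne j k
      simp only [ht]
      field_simp; ring
    rw [h1, abs_mul, htprod]
    have h2 := hmle (n j + l)
    have h3 := hfpos (n j)
    rw [div_eq_inv_mul]
    exact mul_le_mul_of_nonneg_left h2 (by positivity)
  obtain ⟨R, hR0, hR⟩ := bounded_basis d hd (κ := κ / (m + 1)) (D := 2 ^ d) (by positivity)
    (by positivity)
  have hNdetle : ∀ j, |(N j).det| ≤ 2 ^ d := by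
    intro j
    rw [hNdet, div_le_iff₀ (hfpos _)]
    have h1 := hlow (n j)
    rw [div_le_iff₀ (by positivity)] at h1
    linarith
  have hbas : ∀ j, ∃ U : Matrix (Fin d) (Fin d) ℤ, IsUnit U.det ∧ ∀ i k, |(N j * im U) i k| ≤ R :=
    fun j => hR (N j) (hNdet0 j) (hNdetle j) (hNhom j)
  choose U hU hUR using hbas
  obtain ⟨Y, φ, hφ, hlim⟩ := exists_subseq (X := fun j => (N j * im (U j), (0 : Fin d → ℝ),
    (0 : Matrix (Fin d) (Fin d) ℝ))) (R := R) (fun j i k => hUR j i k)
    (fun j i => by simpa using hR0.le) (fun j i k => by simpa using hR0.le)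
  obtain ⟨M, c0, R0⟩ := Y
  have hlimM : Tendsto (fun j => N (φ j) * im (U (φ j))) atTop (𝓝 M) :=
    (continuous_fst.tendsto _).comp hlim
  have hflim : Tendsto (fun j => f (n (φ j))) atTop (𝓝 m) := by
    have h1 : Tendsto (fun j => f (n j)) atTop (𝓝 m) := by
      refine tendsto_of_tendsto_of_tendsto_of_le_of_le tendsto_const_nhds
        (h := fun j : ℕ => m + 1 / ((j : ℝ) + 1)) ?_ (fun j => hmle _) (fun j => (hn j).le)
      have := tendsto_one_div_add_atTop_nhds_zero_nat (𝕜 := ℝ)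
      have h2 := this.const_add m
      rwa [add_zero] at h2
    exact h1.comp hφ.tendsto_atTop
  have hMdet : |M.det| = |L.det| / m := by
    have h1 : Tendsto (fun j => |(N (φ j) * im (U (φ j))).det|) atTop (𝓝 |M.det|) := by
      have : Continuous fun M : Matrix (Fin d) (Fin d) ℝ => |M.det| :=
        (Continuous.matrix_det continuous_id).abs
      exact (this.tendsto M).comp hlimM
    have h2 : ∀ j, |(N (φ j) * im (U (φ j))).det| = |L.det| / f (n (φ j)) := by
      intro j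
      rw [Matrix.det_mul, abs_mul, abs_det_unit (hU _), mul_one, hNdet]
    simp only [h2] at h1
    exact tendsto_nhds_unique h1 (tendsto_const_nhds.div hflim hm0.ne')
  have hvec : ∀ l : Fin d → ℤ, Tendsto (fun j => (N (φ j) * im (U (φ j))) *ᵥ iv l) atTop
      (𝓝 (M *ᵥ iv l)) := by
    intro l
    have hcont : Continuous fun M : Matrix (Fin d) (Fin d) ℝ => M *ᵥ iv l :=
      Continuous.matrix_mulVec continuous_id continuous_const
    exact (hcont.tendsto M).comp hlimM
  refine ⟨M, ?_, ?_, ⟨κ / (m + 1), by positivity, ?_⟩, ?_⟩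
  · intro h
    rw [h, abs_zero] at hMdet
    have : 0 < |L.det| / m := by positivity
    rw [← hMdet] at this
    exact lt_irrefl _ this
  · rw [hMdet, div_le_iff₀ hm0]
    rw [div_le_iff₀ (by positivity)] at hm1
    linarith
  · intro l hl
    have h1 : Tendsto (fun j => |∏ k, ((N (φ j) * im (U (φ j))) *ᵥ iv l) k|) atTop
        (𝓝 |∏ k, (M *ᵥ iv l) k|) :=
      Tendsto.abs (tendsto_finsetProd _ fun k _ => (tendsto_pi_nhds.mp (hvec l)) k)
    refine ge_of_tendsto' h1 fun j => ?_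
    rw [← Matrix.mulVec_mulVec, im_mulVec]
    refine hNhom _ _ ?_
    intro h0
    obtain ⟨V, hV, hUV, hVU⟩ := exists_inv (hU (φ j))
    apply hl
    have : V *ᵥ (U (φ j) *ᵥ l) = l := by rw [Matrix.mulVec_mulVec, hVU, Matrix.one_mulVec]
    rw [← this, h0, Matrix.mulVec_zero]
  · intro l
    have h1 : Tendsto (fun j => |∏ k, (1 + ((N (φ j) * im (U (φ j))) *ᵥ iv l) k)|) atTop
        (𝓝 |∏ k, (1 + (M *ᵥ iv l) k)|) :=
      Tendsto.abs (tendsto_finsetProd _ fun k _ => ((tendsto_pi_nhds.mp (hvec l)) k).const_add 1)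
    have h2 : Tendsto (fun j => m / f (n (φ j))) atTop (𝓝 1) := by
      have := (tendsto_const_nhds (x := m)).div hflim hm0.ne'
      rwa [div_self hm0.ne'] at this
    refine le_of_tendsto_of_tendsto' h2 h1 fun j => ?_
    rw [← Matrix.mulVec_mulVec, im_mulVec]
    exact hNin _ _

end Run7.h361
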