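import Mathlib
import Pool.Agent.Run7.h361.Block

/-!
Dimensions zero and one, and monotonicity in the dimension.
-/

open Matrix Finset

set_option linter.unusedSectionVars false

namespace Run7.h361

theorem good_empty {α : Type*} [Fintype α] [DecidableEq α] [IsEmpty α] (L : Matrix α α ℝ) :
    Good L := by
  intro c _
  refine ⟨1, by simp, 0, ?_⟩
  ext i
  exact (IsEmpty.false i).elim

theorem good_unique {α : Type*} [Fintype α] [DecidableEq α] [Unique α] (L : Matrix α α ℝ)
    (hL : L.det ≠ 0) : Good L := by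
  intro c hc
  set a := L default default with ha
  set z := c default with hz
  have hdet : L.det = a := by rw [Matrix.det_unique]
  have ha0 : a ≠ 0 := by rwa [hdet] at hL
  have hval : ∀ n : α → ℤ, (L *ᵥ iv n) default = a * n default := by
    intro n
    simp [Matrix.mulVec, dotProduct, ha]
  have hE : ∀ k : ℤ, |a| / 2 ≤ |a * k + z| := by
    intro k
    have h1 := hc (fun _ => k)
    rw [hdet, Fintype.card_unique, pow_one, Fintype.prod_unique, hval] at h1
    exact h1
  set m : ℤ := round (-z / a) with hm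
  have h1 : |(-z / a) - m| ≤ 1 / 2 := abs_sub_round _
  have h2 : |a * m + z| ≤ |a| / 2 := by
    have h3 : a * m + z = -a * (-z / a - m) := by field_simp; ring
    rw [h3, abs_mul, abs_neg]
    have := abs_nonneg a
    nlinarith
  have h3 : |a * m + z| = |a| / 2 := le_antisymm h2 (hE m)
  have h4 : ∃ u : ℤ, IsUnit u ∧ a * u = 2 * (z + a * m) := by
    have h5 : |2 * (z + a * m)| = |a| := by
      rw [abs_mul, abs_of_pos (by norm_num : (0 : ℝ) < 2), add_comm, h3]; ring
    rcases abs_eq_abs.mp h5 with h | h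
    · exact ⟨1, isUnit_one, by rw [h]; simp⟩
    · exact ⟨-1, isUnit_one.neg, by rw [h]; push_cast; ring⟩
  obtain ⟨u, hu, hau⟩ := h4
  refine ⟨Matrix.diagonal (fun _ => u), ?_, fun _ => m, ?_⟩
  · rw [Matrix.det_diagonal, Fintype.prod_unique]; exact hu
  · ext i j
    have hi : i = default := Subsingleton.elim _ _
    have hj : j = default := Subsingleton.elim _ _
    subst hi; subst hj
    rw [Matrix.mul_apply, Fintype.sum_unique, Matrix.diagonal_apply_eq, hval]
    simp only [im_apply, Matrix.diagonal_apply_eq]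
    exact hau

section
variable {α β : Type*} [Fintype α] [DecidableEq α] [Fintype β] [DecidableEq β]

theorem half_le (k : ℤ) : (1 : ℝ) / 2 ≤ |(k : ℝ) + 1 / 2| := by
  rcases le_or_gt 0 k with h | h
  · have h1 : (0 : ℝ) ≤ k := by exact_mod_cast h
    rw [abs_of_nonneg (by linarith)]; linarith
  · have h1 : (k : ℝ) ≤ -1 := by
      have : k ≤ -1 := by omega
      exact_mod_cast this
    rw [abs_of_nonpos (by linarith)]; linarith

/-- adding a trivial block -/
theorem Good.of_sum {B : Matrix α α ℝ} (h : Good (fromBlocks B 0 0 (1 : Matrix β β ℝ))) :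
    Good B := by
  intro c hc
  have hE : EqC (fromBlocks B 0 0 (1 : Matrix β β ℝ)) (Sum.elim c (fun _ => 1 / 2)) := by
    intro n
    rw [block_prod, Matrix.det_fromBlocks_zero₂₁, Matrix.det_one, mul_one, Fintype.card_sum,
      pow_add, abs_mul]
    simp only [Sum.elim_inl, Sum.elim_inr, Matrix.zero_mulVec, Pi.zero_apply, zero_add,
      Matrix.one_mulVec]
    have h1 := hc (n ∘ Sum.inl)
    have h2 : 1 / 2 ^ Fintype.card β ≤ |∏ j : β, (iv (n ∘ Sum.inr) j + 1 / 2)| := by
      rw [Finset.abs_prod]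
      calc (1 : ℝ) / 2 ^ Fintype.card β = ∏ _j : β, (1 / 2 : ℝ) := by
            rw [Finset.prod_const, Finset.card_univ, _root_.one_div_pow]
        _ ≤ _ := Finset.prod_le_prod (fun _ _ => by norm_num) fun j _ => half_le _
    have h3 : 0 ≤ |B.det| / 2 ^ Fintype.card α := by positivity
    calc |B.det| / (2 ^ Fintype.card α * 2 ^ Fintype.card β)
        = |B.det| / 2 ^ Fintype.card α * (1 / 2 ^ Fintype.card β) := by field_simp
      _ ≤ _ := mul_le_mul h1 h2 (by positivity) (abs_nonneg _)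
  obtain ⟨U, hU, m, hm⟩ := h _ hE
  have hU' : U = fromBlocks U.toBlocks₁₁ U.toBlocks₁₂ U.toBlocks₂₁ U.toBlocks₂₂ :=
    (Matrix.fromBlocks_toBlocks U).symm
  have him : im U = fromBlocks (im U.toBlocks₁₁) (U.toBlocks₁₂.map (fun z : ℤ => (z : ℝ)))
      (U.toBlocks₂₁.map (fun z : ℤ => (z : ℝ))) (im U.toBlocks₂₂) := by
    conv_lhs => rw [hU']
    rw [im_fromBlocks]
  rw [him, Matrix.fromBlocks_multiply] at hm
  simp only [Matrix.zero_mul, add_zero, zero_add, Matrix.one_mul] at hm
  have h21 : U.toBlocks₂₁ = 0 := by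
    ext i j
    have := congrFun (congrFun hm (Sum.inr i)) (Sum.inl j)
    rw [Matrix.fromBlocks_apply₂₁, Matrix.diagonal_apply_ne _ (by simp)] at this
    simpa using this
  have hdetU : U.det = U.toBlocks₁₁.det * U.toBlocks₂₂.det := by
    conv_lhs => rw [hU', h21]
    rw [Matrix.det_fromBlocks_zero₂₁]
  rw [hdetU] at hU
  refine ⟨U.toBlocks₁₁, isUnit_of_mul_isUnit_left hU, m ∘ Sum.inl, ?_⟩
  ext i j
  have := congrFun (congrFun hm (Sum.inl i)) (Sum.inl j)
  rw [Matrix.fromBlocks_apply₁₁] at this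
  rw [this]
  by_cases hij : i = j
  · subst hij
    rw [Matrix.diagonal_apply_eq, Matrix.diagonal_apply_eq]
    have h1 : iv m = Sum.elim (iv (m ∘ Sum.inl)) (iv (m ∘ Sum.inr)) := by
      ext k; rcases k with k | k <;> rfl
    rw [h1, Matrix.fromBlocks_mulVec]
    simp
  · rw [Matrix.diagonal_apply_ne _ hij, Matrix.diagonal_apply_ne _ (by simpa using hij)]

end

theorem good_succ {d : ℕ} (h : ∀ M : Matrix (Fin (d + 1)) (Fin (d + 1)) ℝ, M.det ≠ 0 → Good M) :
    ∀ M : Matrix (Fin d) (Fin d) ℝ, M.det ≠ 0 → Good M := by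
  intro M hM
  apply Good.of_sum (β := Fin 1)
  have h1 : (fromBlocks M 0 0 (1 : Matrix (Fin 1) (Fin 1) ℝ)).det ≠ 0 := by
    rw [Matrix.det_fromBlocks_zero₂₁, Matrix.det_one, mul_one]; exact hM
  have h2 := h (Matrix.reindex finSumFinEquiv finSumFinEquiv (fromBlocks M 0 0 1))
    (by rwa [Matrix.det_reindex_self])
  have h3 := h2.reindex (finSumFinEquiv (m := d) (n := 1)).symm
  have h4 : Matrix.reindex (finSumFinEquiv (m := d) (n := 1)).symm
      (finSumFinEquiv (m := d) (n := 1)).symm
      (Matrix.reindex finSumFinEquiv finSumFinEquiv (fromBlocks M 0 0 1)) =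
      fromBlocks M 0 0 1 := by ext i j; simp
  rwa [h4] at h3

theorem good_mono {d D : ℕ} (hdD : d ≤ D)
    (h : ∀ M : Matrix (Fin D) (Fin D) ℝ, M.det ≠ 0 → Good M) :
    ∀ M : Matrix (Fin d) (Fin d) ℝ, M.det ≠ 0 → Good M := by
  induction D, hdD using Nat.le_induction with
  | base => exact h
  | succ n _ ih => exact ih (good_succ h)

end Run7.h361
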