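import Mathlib
import Pool.Agent.Run7.h361.Red

/-!
The central strict inequality in dimension two.
-/

open Matrix Finset

set_option linter.unusedSectionVars false

namespace Run7.h361

theorem quad_far {α β : ℝ} (h : 1 ≤ α - β) :
    ∃ t : ℤ, |((t : ℝ) + α) * (t + β)| < (α - β) / 2 := by
  set f := Int.fract (-α) with hf
  have hf0 : 0 ≤ f := Int.fract_nonneg _
  have hf1 : f < 1 := Int.fract_lt_one _
  have hk : ((⌊-α⌋ : ℤ) : ℝ) = -α - f := by rw [hf, Int.self_sub_fract]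
  set δ := α - β with hδ
  by_contra hcon
  push Not at hcon
  have h1 := hcon ⌊-α⌋
  have h2 := hcon (⌊-α⌋ + 1)
  rw [Int.cast_add, Int.cast_one] at h2
  rw [hk] at h1 h2
  have e1 : (-α - f + α) * (-α - f + β) = f * (δ + f) := by rw [hδ]; ring
  have e2 : (-α - f + 1 + α) * (-α - f + 1 + β) = -((1 - f) * (δ - (1 - f))) := by rw [hδ]; ring
  rw [e1, abs_of_nonneg (by positivity)] at h1
  rw [e2, abs_neg, abs_of_nonneg (mul_nonneg (by linarith) (by linarith))] at h2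
  have h3 : (1 - f) ^ 2 ≤ f ^ 2 := by nlinarith
  have h4 : 1 / 2 ≤ f := by nlinarith
  nlinarith

theorem quad_far' {α β : ℝ} (h : 1 ≤ |α - β|) :
    ∃ t : ℤ, |((t : ℝ) + α) * (t + β)| < |α - β| / 2 := by
  rcases le_total β α with hab | hab
  · rw [abs_of_nonneg (by linarith)] at h ⊢
    exact quad_far h
  · rw [abs_of_nonpos (by linarith), neg_sub] at h ⊢
    obtain ⟨t, ht⟩ := quad_far h
    exact ⟨t, by rwa [mul_comm]⟩

theorem quad_near {α β : ℝ} (h : |α - β| < 1) :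
    ∃ t : ℤ, |((t : ℝ) + α) * (t + β)| ≤ 1 / 4 := by
  set t := round (-(α + β) / 2) with ht
  refine ⟨t, ?_⟩
  have h1 : |-(α + β) / 2 - t| ≤ 1 / 2 := abs_sub_round _
  set s := -(α + β) / 2 - t with hs
  have e : ((t : ℝ) + α) * (t + β) = s ^ 2 - (α - β) ^ 2 / 4 := by rw [hs]; ring
  rw [e]
  have h2 : s ^ 2 ≤ 1 / 4 := by
    have := sq_le_sq' (abs_le.mp h1).1 (abs_le.mp h1).2
    linarith
  have h3 : (α - β) ^ 2 ≤ 1 := by
    have := abs_lt.mp h
    nlinarith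
  rw [abs_le]
  constructor <;> nlinarith [sq_nonneg s, sq_nonneg (α - β)]

theorem det2 (A : Matrix (Fin 2) (Fin 2) ℝ) : A.det = A 0 0 * A 1 1 - A 0 1 * A 1 0 :=
  Matrix.det_fin_two A

theorem two_basis (M : Matrix (Fin 2) (Fin 2) ℝ) (hM : M.det ≠ 0) :
    ∃ U : Matrix (Fin 2) (Fin 2) ℤ, IsUnit U.det ∧
      3 * (((M * im U) 0 0) ^ 2 + ((M * im U) 1 0) ^ 2) ^ 2 ≤ 4 * M.det ^ 2 := by
  set f : (Fin 2 → ℤ) → ℝ := fun v => (M *ᵥ iv v) 0 ^ 2 + (M *ᵥ iv v) 1 ^ 2 with hf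
  set col : Matrix (Fin 2) (Fin 2) ℤ → (Fin 2 → ℤ) := fun U l => U l 0 with hcol
  have hcolf : ∀ U, (M * im U) 0 0 ^ 2 + (M * im U) 1 0 ^ 2 = f (col U) := by
    intro U
    rw [mul_im_col, mul_im_col]
  set R := f (col 1) with hR
  have hR0 : 0 ≤ R := by simp only [hR, hf]; positivity
  set G : Set (Fin 2 → ℤ) := {v | (∃ U, IsUnit U.det ∧ col U = v) ∧ f v ≤ R} with hG
  have hGfin : G.Finite := by
    refine (finite_lattice_box hM (R + 1)).subset fun v hv k => ?_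
    have h1 : f v ≤ R := hv.2
    have h2 : (M *ᵥ iv v) k ^ 2 ≤ R := by
      refine le_trans ?_ h1
      simp only [hf]
      fin_cases k
      · simp; positivity
      · simp; positivity
    refine abs_le_of_sq_le_sq ?_ (by linarith)
    nlinarith
  have hGne : G.Nonempty := ⟨col 1, ⟨1, by simp, rfl⟩, le_refl _⟩
  obtain ⟨v, hv, hmin⟩ := Set.exists_min_image G f hGfin hGne
  obtain ⟨⟨U, hU, rfl⟩, hv2⟩ := hv
  have hminU : ∀ V, IsUnit V.det → f (col U) ≤ f (col V) := by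
    intro V hV
    by_cases h : f (col V) ≤ R
    · exact hmin _ ⟨⟨V, hV, rfl⟩, h⟩
    · exact hv2.trans (le_of_not_ge h)
  refine ⟨U, hU, ?_⟩
  rw [hcolf]
  set A := M * im U with hA
  set q := f (col U) with hq
  have hq' : q = A 0 0 ^ 2 + A 1 0 ^ 2 := (hcolf U).symm
  have hdetA : A.det ^ 2 = M.det ^ 2 := by
    rw [hA, Matrix.det_mul, mul_pow, ← sq_abs (im U).det, abs_det_unit hU]; ring
  have hAdet : A.det ≠ 0 := by
    intro h
    rw [h] at hdetA
    exact hM (pow_eq_zero_iff (two_ne_zero) |>.mp (by linarith : M.det ^ 2 = 0))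
  have hqpos : 0 < q := by
    rw [hq']
    rcases eq_or_ne (A 0 0) 0 with h | h
    · rcases eq_or_ne (A 1 0) 0 with h' | h'
      · exfalso; apply hAdet; rw [det2, h, h']; ring
      · positivity
    · positivity
  set p := A 0 0 * A 0 1 + A 1 0 * A 1 1 with hp
  set m : ℤ := round (p / q) with hm
  have hm1 : |p / q - m| ≤ 1 / 2 := abs_sub_round _
  set V : Matrix (Fin 2) (Fin 2) ℤ := U * !![-m, 1; 1, 0] with hV
  have hVdet : IsUnit V.det := by
    rw [hV, Matrix.det_mul]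
    refine hU.mul ?_
    rw [Matrix.det_fin_two_of]
    simp
  have hVcol : ∀ k, (M * im V) k 0 = A k 1 - m * A k 0 := by
    intro k
    rw [hV, im_mul, ← Matrix.mul_assoc, ← hA, Matrix.mul_apply, Fin.sum_univ_two]
    simp
    ring
  have h1 := hminU V hVdet
  rw [← hcolf V, hVcol, hVcol] at h1
  set w0 := A 0 1 - m * A 0 0 with hw0
  set w1 := A 1 1 - m * A 1 0 with hw1
  set r := A 0 0 * w0 + A 1 0 * w1 with hr
  have hr1 : |r| ≤ q / 2 := by
    have e : r = q * (p / q - m) := by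
      have : q * (p / q - m) = p - m * q := by field_simp
      rw [this, hr, hp, hw0, hw1, hq']; ring
    rw [e, abs_mul, abs_of_pos hqpos]
    nlinarith
  have hdet2 : A.det ^ 2 = q * (w0 ^ 2 + w1 ^ 2) - r ^ 2 := by
    rw [det2, hq', hr, hw0, hw1]; ring
  have hr2 : r ^ 2 ≤ (q / 2) ^ 2 := by
    have := sq_le_sq' (abs_le.mp hr1).1 (abs_le.mp hr1).2
    exact this
  have h2 : q * q ≤ q * (w0 ^ 2 + w1 ^ 2) := mul_le_mul_of_nonneg_left h1 hqpos.le
  rw [← hdetA, hdet2]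
  nlinarith

theorem central_two (M : Matrix (Fin 2) (Fin 2) ℝ) (hM : M.det ≠ 0) (hD : |M.det| ≤ 2 ^ 2)
    (hom : ∃ κ : ℝ, 0 < κ ∧ ∀ n : Fin 2 → ℤ, n ≠ 0 → κ ≤ |∏ k, (M *ᵥ iv n) k|) :
    ∃ n : Fin 2 → ℤ, |∏ k, (1 + (M *ᵥ iv n) k)| < 1 := by
  obtain ⟨κ, hκ, hκn⟩ := hom
  obtain ⟨U, hU, hq⟩ := two_basis M hM
  set A := M * im U with hA
  have hdetA : |A.det| = |M.det| := by
    rw [hA, Matrix.det_mul, abs_mul, abs_det_unit hU, mul_one]
  have hAdet : A.det ≠ 0 := by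
    rw [← abs_pos, hdetA, abs_pos]; exact hM
  have hAn : ∀ n : Fin 2 → ℤ, A *ᵥ iv n = M *ᵥ iv (U *ᵥ n) := by
    intro n
    rw [hA, ← Matrix.mulVec_mulVec, im_mulVec]
  suffices h : ∃ n : Fin 2 → ℤ, |∏ k, (1 + (A *ᵥ iv n) k)| < 1 by
    obtain ⟨n, hn⟩ := h
    exact ⟨U *ᵥ n, by rwa [hAn] at hn⟩
  have hne : ∀ k, A k 0 ≠ 0 := by
    have h1 := hκn (fun l => U l 0) (by
      intro h
      have : U.det = 0 := Matrix.det_eq_zero_of_column_eq_zero 0 fun i => congrFun h i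
      rw [this] at hU
      exact not_isUnit_zero hU)
    intro k hk
    rw [hA, mul_im_col] at hk
    rw [Finset.prod_eq_zero (Finset.mem_univ k) hk, abs_zero] at h1
    linarith
  set u0 := A 0 0 with hu0
  set u1 := A 1 0 with hu1
  have hu0' : u0 ≠ 0 := hne 0
  have hu1' : u1 ≠ 0 := hne 1
  -- choose the line
  set D := A.det with hDdef
  have hDD : D = u0 * A 1 1 - A 0 1 * u1 := det2 A
  set j : ℤ := round (-(u0 - u1) / D) with hj
  have hj1 : |-(u0 - u1) / D - j| ≤ 1 / 2 := abs_sub_round _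
  set v0 := 1 + j * A 0 1 with hv0
  set v1 := 1 + j * A 1 1 with hv1
  have hline : |u0 * v1 - u1 * v0| ≤ |D| / 2 := by
    have e : u0 * v1 - u1 * v0 = -D * (-(u0 - u1) / D - j) := by
      have : -D * (-(u0 - u1) / D - j) = (u0 - u1) + j * D := by field_simp; ring
      rw [this, hDD, hv0, hv1]; ring
    rw [e, abs_mul, abs_neg]
    have := abs_nonneg D
    nlinarith
  have hval : ∀ t : ℤ, ∏ k, (1 + (A *ᵥ iv ![t, j]) k) =
      (u0 * u1) * (((t : ℝ) + v0 / u0) * (t + v1 / u1)) := by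
    intro t
    rw [Fin.prod_univ_two]
    simp only [Matrix.mulVec, dotProduct, Fin.sum_univ_two, iv_apply, Matrix.cons_val_zero,
      Matrix.cons_val_one]
    field_simp
    rw [hv0, hv1, ← hu0, ← hu1]; ring
  have hδ : |u0 * u1| * |v0 / u0 - v1 / u1| = |u0 * v1 - u1 * v0| := by
    rw [← abs_mul]
    have : u0 * u1 * (v0 / u0 - v1 / u1) = -(u0 * v1 - u1 * v0) := by field_simp; ring
    rw [this, abs_neg]
  have hupos : 0 < |u0 * u1| := abs_pos.mpr (mul_ne_zero hu0' hu1')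
  have hDle : |D| ≤ 4 := by rw [hDdef, hdetA]; linarith
  rcases le_or_gt 1 |v0 / u0 - v1 / u1| with hcase | hcase
  · obtain ⟨t, ht⟩ := quad_far' hcase
    refine ⟨![t, j], ?_⟩
    rw [hval, abs_mul]
    calc |u0 * u1| * |((t : ℝ) + v0 / u0) * (t + v1 / u1)|
        < |u0 * u1| * (|v0 / u0 - v1 / u1| / 2) := mul_lt_mul_of_pos_left ht hupos
      _ = |u0 * v1 - u1 * v0| / 2 := by rw [← hδ]; ring
      _ ≤ 1 := by linarith
  · obtain ⟨t, ht⟩ := quad_near hcase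
    refine ⟨![t, j], ?_⟩
    rw [hval, abs_mul]
    have h1 : |u0 * u1| < |D| := by
      rw [hdetA]
      refine sq_lt_sq.mp ?_
      have : (u0 * u1) ^ 2 * 4 ≤ (u0 ^ 2 + u1 ^ 2) ^ 2 := by nlinarith [sq_nonneg (u0 ^ 2 - u1 ^ 2)]
      have hpos : 0 < M.det ^ 2 := by positivity
      nlinarith
    calc |u0 * u1| * |((t : ℝ) + v0 / u0) * (t + v1 / u1)|
        ≤ |u0 * u1| * (1 / 4) := mul_le_mul_of_nonneg_left ht hupos.le
      _ < 1 := by linarith

end Run7.h361
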