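import Mathlib
import Pool.Agent.Run7.h361.Mono
import Pool.Agent.Run7.h361.Two
import Pool.Agent.Run7.h361.Centre

/-!
The equivalence between the description of all equality cases and a central strict inequality for
lattices with positive homogeneous minimum.
-/

open Matrix Finset

set_option linter.unusedSectionVars false

namespace Run7.h361

/-- the central strict inequality for one system of forms -/
def Cen {d : ℕ} (M : Matrix (Fin d) (Fin d) ℝ) : Prop :=
  M.det ≠ 0 → |M.det| ≤ 2 ^ d →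
    (∃ κ : ℝ, 0 < κ ∧ ∀ n : Fin d → ℤ, n ≠ 0 → κ ≤ |∏ k, (M *ᵥ iv n) k|) →
    ∃ n : Fin d → ℤ, |∏ k, (1 + (M *ᵥ iv n) k)| < 1

theorem good_of_cen (d : ℕ) (hd : 0 < d) (hQ : ∀ k < d, ∀ M : Matrix (Fin k) (Fin k) ℝ,
    M.det ≠ 0 → Good M) (hC : ∀ M : Matrix (Fin d) (Fin d) ℝ, Cen M) :
    ∀ M : Matrix (Fin d) (Fin d) ℝ, M.det ≠ 0 → Good M := by
  obtain ⟨κ, hκ, hcusp⟩ := cusp d hQ
  intro L hL c hc
  by_cases h : ∃ n : Fin d → ℤ, n ≠ 0 ∧ |∏ k, (L *ᵥ iv n) k| < κ * |L.det|
  · exact hcusp L c hL hc h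
  · push Not at h
    have hpos : 0 < κ * |L.det| := mul_pos hκ (abs_pos.mpr hL)
    obtain ⟨M, h1, h2, h3, h4⟩ := centre d hd hL hc hpos h
    obtain ⟨n, hn⟩ := hC M h1 h2 h3
    exact absurd (h4 n) (not_le.mpr hn)

theorem cen_of_good {d : ℕ} (hd : 2 ≤ d) {M : Matrix (Fin d) (Fin d) ℝ} (hM : Good M) : Cen M := by
  intro h1 h2 h3
  by_contra hcon
  push Not at hcon
  have hE : EqC M (fun _ => 1) := by
    intro n
    rw [Fintype.card_fin]
    have h4 := hcon n
    have h5 : |M.det| / 2 ^ d ≤ 1 := by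
      rw [div_le_one (by positivity)]; exact h2
    refine h5.trans (h4.trans (le_of_eq ?_))
    congr 1
    exact Finset.prod_congr rfl fun k _ => add_comm _ _
  obtain ⟨U, hU, m, hm⟩ := hM _ hE
  obtain ⟨κ, hκ, hκn⟩ := h3
  have hne : (fun l => U l ⟨0, by omega⟩) ≠ 0 := by
    intro h
    have : U.det = 0 := Matrix.det_eq_zero_of_column_eq_zero ⟨0, by omega⟩ fun i => congrFun h i
    rw [this] at hU
    exact not_isUnit_zero hU
  have h6 := hκn _ hne
  have h7 : (M *ᵥ iv (fun l => U l ⟨0, by omega⟩)) ⟨1, by omega⟩ = 0 := by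
    rw [← mul_im_col, hm, Matrix.diagonal_apply_ne]
    simp
  rw [Finset.prod_eq_zero (Finset.mem_univ _) h7, abs_zero] at h6
  linarith

theorem good_iff_cen (D : ℕ) : (∀ M : Matrix (Fin D) (Fin D) ℝ, M.det ≠ 0 → Good M) ↔
    ∀ d, 3 ≤ d → d ≤ D → ∀ M : Matrix (Fin d) (Fin d) ℝ, Cen M := by
  constructor
  · intro h d hd hdD M h1
    exact cen_of_good (by omega) (good_mono hdD h M h1) h1
  · intro h
    have key : ∀ d, d ≤ D → ∀ M : Matrix (Fin d) (Fin d) ℝ, M.det ≠ 0 → Good M := by
      intro d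
      induction d using Nat.strong_induction_on with
      | _ d ih =>
        intro hdD
        rcases Nat.lt_or_ge d 3 with hd | hd
        · interval_cases d
          · intro M _; exact good_empty M
          · intro M hM; exact good_unique M hM
          · exact good_of_cen 2 (by norm_num) (fun k hk => ih k hk (by omega))
              (fun M h1 h2 h3 => central_two M h1 h2 h3)
        · exact good_of_cen d (by omega) (fun k hk => ih k hk (by omega)) (h d hd hdD)
    exact key D le_rfl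

end Run7.h361
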