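import Mathlib

/-!
Definitions used in the statements on Minkowski's inhomogeneous product conjecture (equality cases).
The forms `L_1, …, L_d` are the rows of a real `d × d` matrix `L`.
-/

open Matrix

namespace Run7.h361

/-- an integer vector, seen as a real vector -/
def toReal {d : ℕ} (n : Fin d → ℤ) : Fin d → ℝ := fun j => (n j : ℝ)

/-- `(L, c)` is an equality case: `det L ≠ 0` and `|∏ (L_k(n) + c_k)| ≥ |det L| / 2 ^ d` for every
integer vector `n`. -/
def EqualityCase {d : ℕ} (L : Matrix (Fin d) (Fin d) ℝ) (c : Fin d → ℝ) : Prop :=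
  L.det ≠ 0 ∧ ∀ n : Fin d → ℤ, |L.det| / 2 ^ d ≤ |∏ k, ((L *ᵥ toReal n) k + c k)|

/-- `(L, c)` is diagonalisable: for some integer matrix `U` with invertible determinant and some
integer vector `m`, `L_k (U x) = 2 (c_k + L_k(m)) x_k` for all `k` and all real `x`. -/
def Diagonalisable {d : ℕ} (L : Matrix (Fin d) (Fin d) ℝ) (c : Fin d → ℝ) : Prop :=
  ∃ (U : Matrix (Fin d) (Fin d) ℤ) (m : Fin d → ℤ), IsUnit U.det ∧
    ∀ (k : Fin d) (x : Fin d → ℝ),
      (L *ᵥ (U.map (fun z : ℤ => (z : ℝ)) *ᵥ x)) k = 2 * (c k + (L *ᵥ toReal m) k) * x k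

end Run7.h361
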