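import Mathlib

/-!
Divided sets of integer points.
-/

open Matrix

namespace Run7.h361

/-- Divided finite sets of integer points, for a function `F` from integer vectors to real vectors.
In dimension zero the only point is divided. In dimension `d + 1` one splits along one coordinate
`k` and two adjacent parallel lattice hyperplanes: `S` is a divided set for the restriction of `F`
to the hyperplane `n_0 = a + 1` (after a unimodular substitution `U`) with coordinate `k` deleted,
`T` the same for `n_0 = a`, and `F_k` is positive at the points of `S` and negative at those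
of `T`. -/
inductive DividedSet : ∀ {d : ℕ}, ((Fin d → ℤ) → Fin d → ℝ) → Set (Fin d → ℤ) → Prop
  | zero (F : (Fin 0 → ℤ) → Fin 0 → ℝ) : DividedSet F Set.univ
  | succ {d : ℕ} (F : (Fin (d + 1) → ℤ) → Fin (d + 1) → ℝ) (k : Fin (d + 1))
      (U : Matrix (Fin (d + 1)) (Fin (d + 1)) ℤ) (hU : IsUnit U.det) (a : ℤ)
      (S T : Set (Fin d → ℤ))
      (hS : DividedSet (fun n i => F (U *ᵥ Fin.cons (a + 1) n) (k.succAbove i)) S)
      (hT : DividedSet (fun n i => F (U *ᵥ Fin.cons a n) (k.succAbove i)) T)
      (hpos : ∀ n ∈ S, 0 < F (U *ᵥ Fin.cons (a + 1) n) k)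
      (hneg : ∀ n ∈ T, F (U *ᵥ Fin.cons a n) k < 0) :
      DividedSet F
        ((fun n => U *ᵥ Fin.cons (a + 1) n) '' S ∪ (fun n => U *ᵥ Fin.cons a n) '' T)

end Run7.h361
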