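import Mathlib
import Pool.Agent.Run7.h361.Block

/-!
Divided configurations.
-/

open Matrix Finset

set_option linter.unusedSectionVars false

namespace Run7.h361

/-- forms of a slice: substitute `U`, delete the form `k` and the first variable -/
def slice {d : ℕ} (A : Matrix (Fin (d + 1)) (Fin (d + 1)) ℝ) (k : Fin (d + 1)) :
    Matrix (Fin d) (Fin d) ℝ := Matrix.of fun i j => A (k.succAbove i) j.succ

/-- constants of a slice where the first variable has the value `z` -/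
def sliceShift {d : ℕ} (A : Matrix (Fin (d + 1)) (Fin (d + 1)) ℝ) (c : Fin (d + 1) → ℝ)
    (k : Fin (d + 1)) (z : ℤ) : Fin d → ℝ := fun i => c (k.succAbove i) + A (k.succAbove i) 0 * z

theorem cons_mulVec {d : ℕ} (A : Matrix (Fin (d + 1)) (Fin (d + 1)) ℝ) (z : ℤ) (n : Fin d → ℤ)
    (r : Fin (d + 1)) : (A *ᵥ iv (Fin.cons z n : Fin (d + 1) → ℤ)) r =
      A r 0 * z + ∑ j, A r j.succ * n j := by
  simp [Matrix.mulVec, dotProduct, Fin.sum_univ_succ]

theorem slice_mulVec {d : ℕ} (A : Matrix (Fin (d + 1)) (Fin (d + 1)) ℝ) (c : Fin (d + 1) → ℝ)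
    (k : Fin (d + 1)) (z : ℤ) (n : Fin d → ℤ) (i : Fin d) :
    (A *ᵥ iv (Fin.cons z n : Fin (d + 1) → ℤ)) (k.succAbove i) + c (k.succAbove i) =
      (slice A k *ᵥ iv n) i + sliceShift A c k z i := by
  rw [cons_mulVec]
  simp [slice, sliceShift, Matrix.mulVec, dotProduct]
  ring

theorem prod_slice {d : ℕ} (A : Matrix (Fin (d + 1)) (Fin (d + 1)) ℝ) (c : Fin (d + 1) → ℝ)
    (k : Fin (d + 1)) (z : ℤ) (n : Fin d → ℤ) :
    ∏ r, ((A *ᵥ iv (Fin.cons z n : Fin (d + 1) → ℤ)) r + c r) =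
      ((A *ᵥ iv (Fin.cons z n : Fin (d + 1) → ℤ)) k + c k) *
        ∏ i, ((slice A k *ᵥ iv n) i + sliceShift A c k z i) := by
  rw [Fin.prod_univ_succAbove _ k]
  congr 1
  exact Finset.prod_congr rfl fun i _ => slice_mulVec A c k z n i

/-- Divided configurations: a finite binary tree of points of the grid. -/
inductive Divided : ∀ {d : ℕ}, Matrix (Fin d) (Fin d) ℝ → (Fin d → ℝ) → Set (Fin d → ℤ) → Prop
  | zero (L : Matrix (Fin 0) (Fin 0) ℝ) (c : Fin 0 → ℝ) : Divided L c Set.univ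
  | succ {d : ℕ} (L : Matrix (Fin (d + 1)) (Fin (d + 1)) ℝ) (c : Fin (d + 1) → ℝ)
      (k : Fin (d + 1)) (U : Matrix (Fin (d + 1)) (Fin (d + 1)) ℤ) (hU : IsUnit U.det) (a : ℤ)
      (S T : Set (Fin d → ℤ))
      (hS : Divided (slice (L * im U) k) (sliceShift (L * im U) c k (a + 1)) S)
      (hT : Divided (slice (L * im U) k) (sliceShift (L * im U) c k a) T)
      (hpos : ∀ n ∈ S, 0 < (L *ᵥ iv (U *ᵥ Fin.cons (a + 1) n)) k + c k)
      (hneg : ∀ n ∈ T, (L *ᵥ iv (U *ᵥ Fin.cons a n)) k + c k < 0) :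
      Divided L c ((fun n => U *ᵥ Fin.cons (a + 1) n) '' S ∪ (fun n => U *ᵥ Fin.cons a n) '' T)

theorem det_of_mulVec_single {d : ℕ} (A : Matrix (Fin (d + 1)) (Fin (d + 1)) ℝ)
    (w : Fin (d + 1) → ℝ) (hw : w 0 = 1) (k : Fin (d + 1)) (T : ℝ)
    (h : A *ᵥ w = Pi.single k T) : |A.det| = |T| * |(slice A k).det| := by
  have h1 : (A.updateCol 0 (A *ᵥ w)).det = A.det := by
    rw [← Matrix.cramer_apply, Matrix.cramer_eq_adjugate_mulVec, Matrix.mulVec_mulVec,
      Matrix.adjugate_mul]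
    simp [Matrix.smul_mulVec, hw]
  rw [← h1, Matrix.det_succ_column_zero]
  rw [Finset.sum_eq_single k]
  · rw [Matrix.updateCol_self, h, Pi.single_eq_same, abs_mul, abs_mul, abs_pow, abs_neg, abs_one,
      one_pow, one_mul]
    congr 3
  · intro b _ hb
    rw [Matrix.updateCol_self, h, Pi.single_eq_of_ne hb]
    ring
  · intro h; exact absurd (Finset.mem_univ k) h

/-- weighted mean of logarithms -/
theorem sum_log_le {ι : Type*} [Fintype ι] {p h : ι → ℝ} (hp : ∀ i, 0 < p i) (hs : ∑ i, p i = 1)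
    (hh : ∀ i, 0 < h i) : ∑ i, p i * Real.log (h i) ≤ Real.log (∑ i, p i * h i) := by
  have hne : Nonempty ι := by
    by_contra hcon
    rw [not_nonempty_iff] at hcon
    simp at hs
  set t := ∑ i, p i * h i with ht
  have ht0 : 0 < t := Finset.sum_pos (fun i _ => mul_pos (hp i) (hh i)) Finset.univ_nonempty
  have h1 : ∀ i, Real.log (h i) ≤ Real.log t + (h i / t - 1) := by
    intro i
    have := Real.log_le_sub_one_of_pos (div_pos (hh i) ht0)
    rw [Real.log_div (hh i).ne' ht0.ne'] at this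
    linarith
  calc ∑ i, p i * Real.log (h i) ≤ ∑ i, p i * (Real.log t + (h i / t - 1)) :=
        Finset.sum_le_sum fun i _ => mul_le_mul_of_nonneg_left (h1 i) (hp i).le
    _ = (∑ i, p i) * (Real.log t - 1) + (∑ i, p i * h i) / t := by
        rw [Finset.sum_mul, Finset.sum_div, ← Finset.sum_add_distrib]
        exact Finset.sum_congr rfl fun i _ => by ring
    _ = Real.log t := by rw [hs, ← ht, div_self ht0.ne']; ring

theorem eq_of_sum_log {ι : Type*} [Fintype ι] {p h : ι → ℝ} (hp : ∀ i, 0 < p i)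
    (hs : ∑ i, p i = 1) (hh : ∀ i, 0 < h i)
    (hle : Real.log (∑ i, p i * h i) ≤ ∑ i, p i * Real.log (h i)) :
    ∀ i, h i = ∑ i, p i * h i := by
  have hne : Nonempty ι := by
    by_contra hcon
    rw [not_nonempty_iff] at hcon
    simp at hs
  set t := ∑ i, p i * h i with ht
  have ht0 : 0 < t := Finset.sum_pos (fun i _ => mul_pos (hp i) (hh i)) Finset.univ_nonempty
  intro j
  by_contra hj
  have h1 : ∀ i, Real.log (h i) ≤ Real.log t + (h i / t - 1) := by
    intro i
    have := Real.log_le_sub_one_of_pos (div_pos (hh i) ht0)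
    rw [Real.log_div (hh i).ne' ht0.ne'] at this
    linarith
  have h2 : Real.log (h j) < Real.log t + (h j / t - 1) := by
    have h3 : h j / t ≠ 1 := by
      intro h4
      rw [div_eq_one_iff_eq ht0.ne'] at h4
      exact hj h4
    have := Real.log_lt_sub_one_of_pos (div_pos (hh j) ht0) h3
    rw [Real.log_div (hh j).ne' ht0.ne'] at this
    linarith
  have h3 : ∑ i, p i * Real.log (h i) < ∑ i, p i * (Real.log t + (h i / t - 1)) :=
    Finset.sum_lt_sum (fun i _ => mul_le_mul_of_nonneg_left (h1 i) (hp i).le)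
      ⟨j, Finset.mem_univ j, mul_lt_mul_of_pos_left h2 (hp j)⟩
  have h4 : ∑ i, p i * (Real.log t + (h i / t - 1)) = Real.log t := by
    calc _ = (∑ i, p i) * (Real.log t - 1) + (∑ i, p i * h i) / t := by
          rw [Finset.sum_mul, Finset.sum_div, ← Finset.sum_add_distrib]
          exact Finset.sum_congr rfl fun i _ => by ring
      _ = Real.log t := by rw [hs, ← ht, div_self ht0.ne']; ring
  linarith

/-- every orthant contains one of the points -/
theorem Divided.orthant {d : ℕ} {L : Matrix (Fin d) (Fin d) ℝ} {c : Fin d → ℝ}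
    {S : Set (Fin d → ℤ)} (h : Divided L c S) :
    ∀ s : Fin d → Bool, ∃ n ∈ S, ∀ k, if s k = true then 0 < (L *ᵥ iv n) k + c k
      else (L *ᵥ iv n) k + c k < 0 := by
  induction h with
  | zero L c => exact fun s => ⟨0, trivial, fun k => k.elim0⟩
  | succ L c k U hU a S T hS hT hpos hneg ihS ihT =>
    intro s
    have hmul : ∀ n, L *ᵥ iv (U *ᵥ n) = (L * im U) *ᵥ iv n := by
      intro n; rw [← im_mulVec, Matrix.mulVec_mulVec]
    by_cases hk : s k = true
    · obtain ⟨n, hn, hn2⟩ := ihS (fun i => s (k.succAbove i))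
      refine ⟨U *ᵥ Fin.cons (a + 1) n, Or.inl ⟨n, hn, rfl⟩, fun r => ?_⟩
      rcases Fin.eq_self_or_eq_succAbove k r with rfl | ⟨i, rfl⟩
      · rw [if_pos hk]; exact hpos n hn
      · have := hn2 i
        rw [hmul, slice_mulVec]
        exact this
    · obtain ⟨n, hn, hn2⟩ := ihT (fun i => s (k.succAbove i))
      refine ⟨U *ᵥ Fin.cons a n, Or.inr ⟨n, hn, rfl⟩, fun r => ?_⟩
      rcases Fin.eq_self_or_eq_succAbove k r with rfl | ⟨i, rfl⟩
      · rw [if_neg hk]; exact hneg n hn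
      · have := hn2 i
        rw [hmul, slice_mulVec]
        exact this

/-- a balanced measure on the points of a divided configuration -/
structure Bal {d : ℕ} (L : Matrix (Fin d) (Fin d) ℝ) (c : Fin d → ℝ) (S : Set (Fin d → ℤ)) where
  /-- index type -/
  ι : Type
  /-- finiteness -/
  ft : Fintype ι
  /-- weights -/
  p : ι → ℝ
  /-- points -/
  n : ι → Fin d → ℤ
  hp : ∀ i, 0 < p i
  hs : ∑ i, p i = 1
  hn : ∀ i, n i ∈ S
  hn' : ∀ m ∈ S, ∃ i, n i = m
  hne : ∀ i k, (L *ᵥ iv (n i)) k + c k ≠ 0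
  hbar : ∀ k, ∑ i, p i * ((L *ᵥ iv (n i)) k + c k) = 0
  hlog : ∑ i, p i * Real.log |∏ k, ((L *ᵥ iv (n i)) k + c k)| ≤ Real.log (|L.det| / 2 ^ d)

attribute [instance] Bal.ft

theorem bal_det {d : ℕ} {A : Matrix (Fin (d + 1)) (Fin (d + 1)) ℝ} {c : Fin (d + 1) → ℝ}
    {k : Fin (d + 1)} {a : ℤ} {S T : Set (Fin d → ℤ)}
    (P : Bal (slice A k) (sliceShift A c k (a + 1)) S) (Q : Bal (slice A k) (sliceShift A c k a) T) :
    |A.det| = |(∑ i, P.p i * ((A *ᵥ iv (Fin.cons (a + 1) (P.n i) : Fin (d + 1) → ℤ)) k + c k)) -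
      ∑ i, Q.p i * ((A *ᵥ iv (Fin.cons a (Q.n i) : Fin (d + 1) → ℤ)) k + c k)| *
        |(slice A k).det| := by
  set w : Fin (d + 1) → ℝ := (∑ i, P.p i • iv (Fin.cons (a + 1) (P.n i) : Fin (d + 1) → ℤ)) -
    ∑ i, Q.p i • iv (Fin.cons a (Q.n i) : Fin (d + 1) → ℤ) with hw
  have hw0 : w 0 = 1 := by
    rw [hw, Pi.sub_apply, Finset.sum_apply, Finset.sum_apply]
    simp only [Pi.smul_apply, iv_apply, Fin.cons_zero, smul_eq_mul]
    rw [← Finset.sum_mul, ← Finset.sum_mul, P.hs, Q.hs]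
    push_cast; ring
  have hAw : ∀ r, (A *ᵥ w) r =
      (∑ i, P.p i * ((A *ᵥ iv (Fin.cons (a + 1) (P.n i) : Fin (d + 1) → ℤ)) r + c r)) -
      ∑ i, Q.p i * ((A *ᵥ iv (Fin.cons a (Q.n i) : Fin (d + 1) → ℤ)) r + c r) := by
    intro r
    rw [hw, Matrix.mulVec_sub, Matrix.mulVec_sum, Matrix.mulVec_sum, Pi.sub_apply,
      Finset.sum_apply, Finset.sum_apply]
    simp only [Matrix.mulVec_smul, Pi.smul_apply, smul_eq_mul, mul_add, Finset.sum_add_distrib]
    rw [← Finset.sum_mul, ← Finset.sum_mul, P.hs, Q.hs]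
    ring
  apply det_of_mulVec_single A w hw0 k
  ext r
  rcases Fin.eq_self_or_eq_succAbove k r with rfl | ⟨i, rfl⟩
  · rw [hAw, Pi.single_eq_same]
  · rw [hAw, Pi.single_eq_of_ne (Fin.succAbove_ne k i)]
    simp only [slice_mulVec]
    rw [P.hbar i, Q.hbar i, sub_self]

theorem log_mean_le {t s : ℝ} (ht : 0 < t) (hs : 0 < s) :
    s / (t + s) * Real.log t + t / (t + s) * Real.log s ≤ Real.log ((t + s) / 2) := by
  have hT : 0 < (t + s) / 2 := by positivity
  have h1 : ∀ x : ℝ, 0 < x → Real.log x ≤ Real.log ((t + s) / 2) + (x / ((t + s) / 2) - 1) := by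
    intro x hx
    have := Real.log_le_sub_one_of_pos (div_pos hx hT)
    rw [Real.log_div hx.ne' hT.ne'] at this
    linarith
  have h2 := h1 t ht
  have h3 := h1 s hs
  have h4 : s / (t + s) * Real.log t + t / (t + s) * Real.log s ≤
      s / (t + s) * (Real.log ((t + s) / 2) + (t / ((t + s) / 2) - 1)) +
      t / (t + s) * (Real.log ((t + s) / 2) + (s / ((t + s) / 2) - 1)) :=
    add_le_add (mul_le_mul_of_nonneg_left h2 (by positivity))
      (mul_le_mul_of_nonneg_left h3 (by positivity))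
  refine h4.trans ?_
  have h5 : s / (t + s) * (Real.log ((t + s) / 2) + (t / ((t + s) / 2) - 1)) +
      t / (t + s) * (Real.log ((t + s) / 2) + (s / ((t + s) / 2) - 1)) =
      Real.log ((t + s) / 2) - (t - s) ^ 2 / (t + s) ^ 2 := by
    field_simp; ring
  rw [h5]
  have : 0 ≤ (t - s) ^ 2 / (t + s) ^ 2 := by positivity
  linarith

/-- combining the measures of the two slices -/
theorem Bal.combine {d : ℕ} {A : Matrix (Fin (d + 1)) (Fin (d + 1)) ℝ} {c : Fin (d + 1) → ℝ}
    {k : Fin (d + 1)} {a : ℤ} {S T : Set (Fin d → ℤ)} (hdet : (slice A k).det ≠ 0)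
    (P : Bal (slice A k) (sliceShift A c k (a + 1)) S) (Q : Bal (slice A k) (sliceShift A c k a) T)
    (hpos : ∀ n ∈ S, 0 < (A *ᵥ iv (Fin.cons (a + 1) n : Fin (d + 1) → ℤ)) k + c k)
    (hneg : ∀ n ∈ T, (A *ᵥ iv (Fin.cons a n : Fin (d + 1) → ℤ)) k + c k < 0) :
    A.det ≠ 0 ∧ Nonempty (Bal A c ((fun n => (Fin.cons (a + 1) n : Fin (d + 1) → ℤ)) '' S ∪
      (fun n => (Fin.cons a n : Fin (d + 1) → ℤ)) '' T)) := by
  set f : P.ι → ℝ := fun i => (A *ᵥ iv (Fin.cons (a + 1) (P.n i) : Fin (d + 1) → ℤ)) k + c k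
    with hf
  set g : Q.ι → ℝ := fun i => -((A *ᵥ iv (Fin.cons a (Q.n i) : Fin (d + 1) → ℤ)) k + c k)
    with hg
  have hf0 : ∀ i, 0 < f i := fun i => hpos _ (P.hn i)
  have hg0 : ∀ i, 0 < g i := fun i => by
    have := hneg _ (Q.hn i)
    simp only [hg]; linarith
  have hPne : Nonempty P.ι := by
    by_contra hcon
    rw [not_nonempty_iff] at hcon
    have := P.hs
    simp at this
  have hQne : Nonempty Q.ι := by
    by_contra hcon
    rw [not_nonempty_iff] at hcon
    have := Q.hs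
    simp at this
  set t := ∑ i, P.p i * f i with ht
  set s := ∑ i, Q.p i * g i with hs
  have ht0 : 0 < t := Finset.sum_pos (fun i _ => mul_pos (P.hp i) (hf0 i)) Finset.univ_nonempty
  have hs0 : 0 < s := Finset.sum_pos (fun i _ => mul_pos (Q.hp i) (hg0 i)) Finset.univ_nonempty
  have hAdet : |A.det| = (t + s) * |(slice A k).det| := by
    rw [bal_det P Q]
    congr 1
    have : ∑ i, Q.p i * ((A *ᵥ iv (Fin.cons a (Q.n i) : Fin (d + 1) → ℤ)) k + c k) = -s := by
      rw [hs, ← Finset.sum_neg_distrib]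
      exact Finset.sum_congr rfl fun i _ => by simp only [hg]; ring
    rw [this, sub_neg_eq_add]
    exact abs_of_pos (add_pos ht0 hs0)
  have hdpos : 0 < |(slice A k).det| := abs_pos.mpr hdet
  refine ⟨by rw [← abs_pos, hAdet]; positivity, ⟨{
    ι := P.ι ⊕ Q.ι
    ft := inferInstance
    p := Sum.elim (fun i => s / (t + s) * P.p i) (fun i => t / (t + s) * Q.p i)
    n := Sum.elim (fun i => Fin.cons (a + 1) (P.n i)) (fun i => Fin.cons a (Q.n i))
    hp := ?_
    hs := ?_
    hn := ?_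
    hn' := ?_
    hne := ?_
    hbar := ?_
    hlog := ?_ }⟩⟩
  · rintro (i | i)
    · exact mul_pos (by positivity) (P.hp i)
    · exact mul_pos (by positivity) (Q.hp i)
  · rw [Fintype.sum_sum_type]
    simp only [Sum.elim_inl, Sum.elim_inr]
    rw [← Finset.mul_sum, ← Finset.mul_sum, P.hs, Q.hs]
    field_simp
    ring
  · rintro (i | i)
    · exact Or.inl ⟨_, P.hn i, rfl⟩
    · exact Or.inr ⟨_, Q.hn i, rfl⟩
  · rintro m (⟨n, hn, rfl⟩ | ⟨n, hn, rfl⟩)
    · obtain ⟨i, rfl⟩ := P.hn' n hn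
      exact ⟨Sum.inl i, rfl⟩
    · obtain ⟨i, rfl⟩ := Q.hn' n hn
      exact ⟨Sum.inr i, rfl⟩
  · rintro (i | i) r
    · rcases Fin.eq_self_or_eq_succAbove k r with rfl | ⟨j, rfl⟩
      · exact (hf0 i).ne'
      · simp only [Sum.elim_inl]
        rw [slice_mulVec]
        exact P.hne i j
    · rcases Fin.eq_self_or_eq_succAbove k r with rfl | ⟨j, rfl⟩
      · have := hg0 i
        simp only [hg] at this
        simp only [Sum.elim_inr]
        intro h
        rw [h] at this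
        simp at this
      · simp only [Sum.elim_inr]
        rw [slice_mulVec]
        exact Q.hne i j
  · intro r
    rw [Fintype.sum_sum_type]
    simp only [Sum.elim_inl, Sum.elim_inr, mul_assoc]
    rw [← Finset.mul_sum, ← Finset.mul_sum]
    rcases Fin.eq_self_or_eq_succAbove k r with hr | ⟨j, rfl⟩
    · have h1 : ∑ i, Q.p i * ((A *ᵥ iv (Fin.cons a (Q.n i) : Fin (d + 1) → ℤ)) k + c k) = -s := by
        rw [hs, ← Finset.sum_neg_distrib]
        exact Finset.sum_congr rfl fun i _ => by simp only [hg]; ring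
      rw [hr, h1]
      change s / (t + s) * t + t / (t + s) * -s = 0
      ring
    · simp only [slice_mulVec]
      rw [P.hbar j, Q.hbar j]; ring
  · rw [Fintype.sum_sum_type]
    simp only [Sum.elim_inl, Sum.elim_inr, mul_assoc]
    rw [← Finset.mul_sum, ← Finset.mul_sum]
    have e1 : ∀ i, Real.log |∏ r, ((A *ᵥ iv (Fin.cons (a + 1) (P.n i) : Fin (d + 1) → ℤ)) r + c r)| =
        Real.log (f i) + Real.log |∏ j, ((slice A k *ᵥ iv (P.n i)) j +
          sliceShift A c k (a + 1) j)| := by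
      intro i
      rw [prod_slice, abs_mul, Real.log_mul, abs_of_pos (hf0 i)]
      · exact abs_ne_zero.mpr (hf0 i).ne'
      · exact abs_ne_zero.mpr (Finset.prod_ne_zero_iff.mpr fun j _ => P.hne i j)
    have e2 : ∀ i, Real.log |∏ r, ((A *ᵥ iv (Fin.cons a (Q.n i) : Fin (d + 1) → ℤ)) r + c r)| =
        Real.log (g i) + Real.log |∏ j, ((slice A k *ᵥ iv (Q.n i)) j +
          sliceShift A c k a j)| := by
      intro i
      have h1 : |(A *ᵥ iv (Fin.cons a (Q.n i) : Fin (d + 1) → ℤ)) k + c k| = g i := by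
        rw [← abs_neg]; exact abs_of_pos (hg0 i)
      rw [prod_slice, abs_mul, Real.log_mul, h1]
      · rw [h1]; exact (hg0 i).ne'
      · exact abs_ne_zero.mpr (Finset.prod_ne_zero_iff.mpr fun j _ => Q.hne i j)
    simp only [e1, e2, mul_add, Finset.sum_add_distrib]
    have h1 := sum_log_le P.hp P.hs hf0
    have h2 := sum_log_le Q.hp Q.hs hg0
    have h3 := P.hlog
    have h4 := Q.hlog
    have h5 := log_mean_le ht0 hs0
    have h6 : Real.log (|A.det| / 2 ^ (d + 1)) = Real.log ((t + s) / 2) +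
        Real.log (|(slice A k).det| / 2 ^ d) := by
      rw [← Real.log_mul (by positivity) (by positivity), hAdet]
      congr 1
      rw [pow_succ]; field_simp
    rw [h6]
    have hw1 : 0 ≤ s / (t + s) := by positivity
    have hw2 : 0 ≤ t / (t + s) := by positivity
    have hw3 : s / (t + s) + t / (t + s) = 1 := by field_simp; ring
    have h7 := mul_le_mul_of_nonneg_left (add_le_add h1 h3) hw1
    have h8 := mul_le_mul_of_nonneg_left (add_le_add h2 h4) hw2
    rw [← ht] at h7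
    rw [← hs] at h8
    linear_combination h7 + h8 + h5 + Real.log (|(slice A k).det| / 2 ^ d) * hw3

theorem Divided.bal {d : ℕ} {L : Matrix (Fin d) (Fin d) ℝ} {c : Fin d → ℝ}
    {S : Set (Fin d → ℤ)} (h : Divided L c S) : L.det ≠ 0 ∧ Nonempty (Bal L c S) := by
  induction h with
  | zero L c =>
    refine ⟨by rw [Matrix.det_fin_zero]; exact one_ne_zero, ⟨{
      ι := Unit
      ft := inferInstance
      p := fun _ => 1
      n := fun _ => 0
      hp := fun _ => one_pos
      hs := by simp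
      hn := fun _ => trivial
      hn' := fun m _ => ⟨(), Subsingleton.elim _ _⟩
      hne := fun _ k => k.elim0
      hbar := fun k => k.elim0
      hlog := by simp }⟩⟩
  | succ L c k U hU a S T hS hT hpos hneg ihS ihT =>
    obtain ⟨hdet, ⟨P⟩⟩ := ihS
    obtain ⟨-, ⟨Q⟩⟩ := ihT
    have hmul : ∀ n, L *ᵥ iv (U *ᵥ n) = (L * im U) *ᵥ iv n := by
      intro n; rw [← im_mulVec, Matrix.mulVec_mulVec]
    obtain ⟨h1, ⟨R⟩⟩ := Bal.combine hdet P Q
      (fun n hn => by rw [← hmul]; exact hpos n hn) (fun n hn => by rw [← hmul]; exact hneg n hn)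
    have hLdet : |(L * im U).det| = |L.det| := by
      rw [Matrix.det_mul, abs_mul, abs_det_unit hU, mul_one]
    refine ⟨by rw [← abs_pos, ← hLdet, abs_pos]; exact h1, ⟨{
      ι := R.ι
      ft := R.ft
      p := R.p
      n := fun i => U *ᵥ R.n i
      hp := R.hp
      hs := R.hs
      hn := ?_
      hn' := ?_
      hne := fun i k => by rw [hmul]; exact R.hne i k
      hbar := fun k => by simp only [hmul]; exact R.hbar k
      hlog := by simp only [hmul]; rw [← hLdet]; exact R.hlog }⟩⟩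
    · intro i
      rcases R.hn i with ⟨m, hm, hm2⟩ | ⟨m, hm, hm2⟩
      · exact Or.inl ⟨m, hm, by simp only at hm2 ⊢; rw [hm2]⟩
      · exact Or.inr ⟨m, hm, by simp only at hm2 ⊢; rw [hm2]⟩
    · rintro m (⟨n, hn, rfl⟩ | ⟨n, hn, rfl⟩)
      · obtain ⟨i, hi⟩ := R.hn' _ (Or.inl ⟨n, hn, rfl⟩)
        exact ⟨i, by simp only at hi ⊢; rw [hi]⟩
      · obtain ⟨i, hi⟩ := R.hn' _ (Or.inr ⟨n, hn, rfl⟩)
        exact ⟨i, by simp only at hi ⊢; rw [hi]⟩

end Run7.h361
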