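import Mathlib
import Pool.Agent.Run7.h361.Tree

/-!
Equality cases with a divided configuration are diagonalisable.
-/

open Matrix Finset

set_option linter.unusedSectionVars false

namespace Run7.h361

/-- the unimodular matrix with first column `(1, z)` and lower right block `V` -/
def LW {d : ℕ} (z : Fin d → ℤ) (V : Matrix (Fin d) (Fin d) ℤ) :
    Matrix (Fin (d + 1)) (Fin (d + 1)) ℤ :=
  Matrix.of (Fin.cons (Fin.cons 1 0) (fun i => Fin.cons (z i) (fun j => V i j)))

theorem LW_det {d : ℕ} (z : Fin d → ℤ) (V : Matrix (Fin d) (Fin d) ℤ) :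
    (LW z V).det = V.det := by
  rw [Matrix.det_succ_row_zero, Fin.sum_univ_succ]
  have h2 : ∀ j : Fin d, (LW z V) 0 j.succ = 0 := by
    intro j
    simp [LW]
  have h3 : (LW z V) 0 0 = 1 := by simp [LW]
  have h4 : (LW z V).submatrix Fin.succ (Fin.succAbove 0) = V := by
    ext i j
    simp [LW]
  simp only [h2, h3, h4]
  simp

theorem mul_LW_zero {d : ℕ} (A : Matrix (Fin (d + 1)) (Fin (d + 1)) ℝ) (z : Fin d → ℤ)
    (V : Matrix (Fin d) (Fin d) ℤ) (r : Fin (d + 1)) :
    (A * im (LW z V)) r 0 = A r 0 + ∑ j, A r j.succ * z j := by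
  rw [Matrix.mul_apply, Fin.sum_univ_succ]
  simp [LW]

theorem mul_LW_succ {d : ℕ} (A : Matrix (Fin (d + 1)) (Fin (d + 1)) ℝ) (z : Fin d → ℤ)
    (V : Matrix (Fin d) (Fin d) ℤ) (r : Fin (d + 1)) (j : Fin d) :
    (A * im (LW z V)) r j.succ = ∑ i : Fin d, A r i.succ * (V i j : ℝ) := by
  rw [Matrix.mul_apply, Fin.sum_univ_succ]
  simp [LW]

/-- the key equality analysis -/
theorem slices_of_eq {d : ℕ} {A : Matrix (Fin (d + 1)) (Fin (d + 1)) ℝ} {c : Fin (d + 1) → ℝ}
    {k : Fin (d + 1)} {a : ℤ} {S T : Set (Fin d → ℤ)} (hdet : (slice A k).det ≠ 0)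
    (P : Bal (slice A k) (sliceShift A c k (a + 1)) S) (Q : Bal (slice A k) (sliceShift A c k a) T)
    (hpos : ∀ n ∈ S, 0 < (A *ᵥ iv (Fin.cons (a + 1) n : Fin (d + 1) → ℤ)) k + c k)
    (hneg : ∀ n ∈ T, (A *ᵥ iv (Fin.cons a n : Fin (d + 1) → ℤ)) k + c k < 0)
    (hE : EqC A c) :
    ∃ t : ℝ, 0 < t ∧ |A.det| = 2 * t * |(slice A k).det| ∧
      (∀ n ∈ S, (A *ᵥ iv (Fin.cons (a + 1) n : Fin (d + 1) → ℤ)) k + c k = t) ∧
      (∀ n ∈ T, (A *ᵥ iv (Fin.cons a n : Fin (d + 1) → ℤ)) k + c k = -t) := by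
  set f : P.ι → ℝ := fun i => (A *ᵥ iv (Fin.cons (a + 1) (P.n i) : Fin (d + 1) → ℤ)) k + c k
    with hf
  set g : Q.ι → ℝ := fun i => -((A *ᵥ iv (Fin.cons a (Q.n i) : Fin (d + 1) → ℤ)) k + c k)
    with hg
  have hf0 : ∀ i, 0 < f i := fun i => hpos _ (P.hn i)
  have hg0 : ∀ i, 0 < g i := fun i => by
    have := hneg _ (Q.hn i)
    simp only [hg]; linarith
  have hPne : Nonempty P.ι := by
    by_contra hcon
    rw [not_nonempty_iff] at hcon
    have := P.hs
    simp at this
  have hQne : Nonempty Q.ι := by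
    by_contra hcon
    rw [not_nonempty_iff] at hcon
    have := Q.hs
    simp at this
  set t := ∑ i, P.p i * f i with ht
  set s := ∑ i, Q.p i * g i with hs
  have ht0 : 0 < t := Finset.sum_pos (fun i _ => mul_pos (P.hp i) (hf0 i)) Finset.univ_nonempty
  have hs0 : 0 < s := Finset.sum_pos (fun i _ => mul_pos (Q.hp i) (hg0 i)) Finset.univ_nonempty
  have hAdet : |A.det| = (t + s) * |(slice A k).det| := by
    rw [bal_det P Q]
    congr 1
    have : ∑ i, Q.p i * ((A *ᵥ iv (Fin.cons a (Q.n i) : Fin (d + 1) → ℤ)) k + c k) = -s := by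
      rw [hs, ← Finset.sum_neg_distrib]
      exact Finset.sum_congr rfl fun i _ => by simp only [hg]; ring
    rw [this, sub_neg_eq_add]
    exact abs_of_pos (add_pos ht0 hs0)
  have hdpos : 0 < |(slice A k).det| := abs_pos.mpr hdet
  have hlogA : Real.log (|A.det| / 2 ^ (d + 1)) = Real.log ((t + s) / 2) +
      Real.log (|(slice A k).det| / 2 ^ d) := by
    rw [← Real.log_mul (by positivity) (by positivity), hAdet]
    congr 1
    rw [pow_succ]; field_simp
  have hEn : ∀ n : Fin (d + 1) → ℤ, Real.log (|A.det| / 2 ^ (d + 1)) ≤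
      Real.log |∏ r, ((A *ᵥ iv n) r + c r)| := by
    intro n
    refine Real.log_le_log ?_ ?_
    · rw [hAdet]; positivity
    · have := hE n
      rwa [Fintype.card_fin] at this
  have e1 : ∀ i, Real.log |∏ r, ((A *ᵥ iv (Fin.cons (a + 1) (P.n i) : Fin (d + 1) → ℤ)) r + c r)| =
      Real.log (f i) + Real.log |∏ j, ((slice A k *ᵥ iv (P.n i)) j +
        sliceShift A c k (a + 1) j)| := by
    intro i
    rw [prod_slice, abs_mul, Real.log_mul, abs_of_pos (hf0 i)]
    · exact abs_ne_zero.mpr (hf0 i).ne'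
    · exact abs_ne_zero.mpr (Finset.prod_ne_zero_iff.mpr fun j _ => P.hne i j)
  have e2 : ∀ i, Real.log |∏ r, ((A *ᵥ iv (Fin.cons a (Q.n i) : Fin (d + 1) → ℤ)) r + c r)| =
      Real.log (g i) + Real.log |∏ j, ((slice A k *ᵥ iv (Q.n i)) j +
        sliceShift A c k a j)| := by
    intro i
    have h1 : |(A *ᵥ iv (Fin.cons a (Q.n i) : Fin (d + 1) → ℤ)) k + c k| = g i := by
      rw [← abs_neg]; exact abs_of_pos (hg0 i)
    rw [prod_slice, abs_mul, Real.log_mul, h1]
    · rw [h1]; exact (hg0 i).ne'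
    · exact abs_ne_zero.mpr (Finset.prod_ne_zero_iff.mpr fun j _ => Q.hne i j)
  have w1 : Real.log (|A.det| / 2 ^ (d + 1)) ≤ ∑ i, P.p i * Real.log (f i) +
      Real.log (|(slice A k).det| / 2 ^ d) := by
    have h1 : ∑ i, P.p i * Real.log (|A.det| / 2 ^ (d + 1)) ≤
        ∑ i, P.p i * (Real.log (f i) + Real.log |∏ j, ((slice A k *ᵥ iv (P.n i)) j +
          sliceShift A c k (a + 1) j)|) :=
      Finset.sum_le_sum fun i _ => mul_le_mul_of_nonneg_left (by rw [← e1]; exact hEn _)
        (P.hp i).le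
    rw [← Finset.sum_mul, P.hs, one_mul] at h1
    simp only [mul_add, Finset.sum_add_distrib] at h1
    linarith [P.hlog]
  have w2 : Real.log (|A.det| / 2 ^ (d + 1)) ≤ ∑ i, Q.p i * Real.log (g i) +
      Real.log (|(slice A k).det| / 2 ^ d) := by
    have h1 : ∑ i, Q.p i * Real.log (|A.det| / 2 ^ (d + 1)) ≤
        ∑ i, Q.p i * (Real.log (g i) + Real.log |∏ j, ((slice A k *ᵥ iv (Q.n i)) j +
          sliceShift A c k a j)|) :=
      Finset.sum_le_sum fun i _ => mul_le_mul_of_nonneg_left (by rw [← e2]; exact hEn _)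
        (Q.hp i).le
    rw [← Finset.sum_mul, Q.hs, one_mul] at h1
    simp only [mul_add, Finset.sum_add_distrib] at h1
    linarith [Q.hlog]
  have v1 := sum_log_le P.hp P.hs hf0
  have v2 := sum_log_le Q.hp Q.hs hg0
  rw [← ht] at v1
  rw [← hs] at v2
  rw [hlogA] at w1 w2
  have u1 : (t + s) / 2 ≤ t := by
    rw [← Real.log_le_log_iff (by positivity) ht0]; linarith
  have u2 : (t + s) / 2 ≤ s := by
    rw [← Real.log_le_log_iff (by positivity) hs0]; linarith
  have hst : s = t := by linarith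
  have e3 : (t + s) / 2 = t := by linarith
  have e4 : (t + s) / 2 = s := by linarith
  have hfe := eq_of_sum_log P.hp P.hs hf0 (by rw [← ht]; rw [e3] at w1; linarith)
  have hge := eq_of_sum_log Q.hp Q.hs hg0 (by rw [← hs]; rw [e4] at w2; linarith)
  refine ⟨t, ht0, by rw [hAdet, hst]; ring, ?_, ?_⟩
  · intro n hn
    obtain ⟨i, rfl⟩ := P.hn' n hn
    exact hfe i
  · intro n hn
    obtain ⟨i, rfl⟩ := Q.hn' n hn
    have := hge i
    rw [← hs, hst] at this
    simp only [hg] at this
    linarith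

/-- a linear function of the first slice which is constant on the chosen points vanishes -/
theorem functional_zero {d : ℕ} {B : Matrix (Fin d) (Fin d) ℝ} {e : Fin d → ℝ}
    {S : Set (Fin d → ℤ)} (hB : B.det ≠ 0)
    (horth : ∀ s : Fin d → Bool, ∃ n ∈ S, ∀ k, if s k = true then 0 < (B *ᵥ iv n) k + e k
      else (B *ᵥ iv n) k + e k < 0)
    (f : Fin d → ℝ) (v : ℝ) (hf : ∀ n ∈ S, ∑ j, f j * n j = v) : f = 0 := by
  set η : Fin d → ℝ := f ᵥ* B⁻¹ with hη
  have hfη : f = η ᵥ* B := by
    rw [hη, Matrix.vecMul_vecMul, Matrix.nonsing_inv_mul _ (isUnit_iff_ne_zero.mpr hB),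
      Matrix.vecMul_one]
  have hval : ∀ n ∈ S, ∑ k, η k * ((B *ᵥ iv n) k + e k) = v + ∑ k, η k * e k := by
    intro n hn
    have h1 : ∑ k, η k * (B *ᵥ iv n) k = v := by
      rw [← hf n hn]
      have h2 : ∑ j, f j * (n j : ℝ) = f ⬝ᵥ iv n := rfl
      have h3 : ∑ k, η k * (B *ᵥ iv n) k = η ⬝ᵥ (B *ᵥ iv n) := rfl
      rw [h2, h3, Matrix.dotProduct_mulVec, ← hfη]
    simp only [mul_add, Finset.sum_add_distrib]
    rw [h1]
  obtain ⟨n1, hn1, hs1⟩ := horth (fun k => decide (0 ≤ η k))
  obtain ⟨n2, hn2, hs2⟩ := horth (fun k => decide (η k < 0))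
  have h1 := hval n1 hn1
  have h2 := hval n2 hn2
  have h3 : ∀ k, 0 ≤ η k * ((B *ᵥ iv n1) k + e k) := by
    intro k
    have := hs1 k
    by_cases h : 0 ≤ η k
    · simp only [h, decide_true, if_true] at this
      exact mul_nonneg h this.le
    · simp only [h, decide_false] at this
      push Not at h
      have h' : (B *ᵥ iv n1) k + e k < 0 := by simpa using this
      exact (mul_pos_of_neg_of_neg h h').le
  have h4 : ∀ k, η k * ((B *ᵥ iv n2) k + e k) ≤ 0 := by
    intro k
    have := hs2 k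
    by_cases h : η k < 0
    · simp only [h, decide_true, if_true] at this
      exact (mul_neg_of_neg_of_pos h this).le
    · simp only [h, decide_false] at this
      push Not at h
      have h' : (B *ᵥ iv n2) k + e k < 0 := by simpa using this
      exact mul_nonpos_of_nonneg_of_nonpos h h'.le
  have h5 : ∑ k, η k * ((B *ᵥ iv n1) k + e k) = 0 := by
    apply le_antisymm
    · rw [h1, ← h2]; exact Finset.sum_nonpos fun k _ => h4 k
    · exact Finset.sum_nonneg fun k _ => h3 k
  have h6 := (Finset.sum_eq_zero_iff_of_nonneg (fun k _ => h3 k)).mp h5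
  have h7 : η = 0 := by
    ext k
    have h8 := h6 k (Finset.mem_univ k)
    rcases mul_eq_zero.mp h8 with h | h
    · exact h
    · exfalso
      have := hs1 k
      rw [h] at this
      split_ifs at this <;> exact lt_irrefl _ this
  rw [hfη, h7, Matrix.zero_vecMul]

theorem Divided.dg {d : ℕ} {L : Matrix (Fin d) (Fin d) ℝ} {c : Fin d → ℝ}
    {S : Set (Fin d → ℤ)} (h : Divided L c S) : EqC L c → Dg L c := by
  induction h with
  | zero L c =>
    intro _
    exact ⟨1, by simp, 0, by ext i; exact i.elim0⟩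
  | succ L c k U hU a S T hS hT hpos hneg ihS ihT =>
    intro hE
    set A := L * im U with hA
    have hmul : ∀ n, L *ᵥ iv (U *ᵥ n) = A *ᵥ iv n := by
      intro n; rw [← im_mulVec, Matrix.mulVec_mulVec]
    have hEA : EqC A c := hE.mul hU
    suffices hgoal : Dg A c from (Dg_mul_iff hU).mp hgoal
    obtain ⟨hdet, ⟨P⟩⟩ := hS.bal
    obtain ⟨-, ⟨Q⟩⟩ := hT.bal
    obtain ⟨t, ht0, hAdet, htS, htT⟩ := slices_of_eq hdet P Q
      (fun n hn => by rw [← hmul]; exact hpos n hn) (fun n hn => by rw [← hmul]; exact hneg n hn) hEA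
    -- the row `k` is trivial
    have hrow : (fun j : Fin _ => A k j.succ) = 0 := by
      refine functional_zero hdet hS.orthant _ (t - c k - A k 0 * ((a + 1 : ℤ) : ℝ)) ?_
      intro n hn
      have := htS n hn
      rw [cons_mulVec] at this
      linarith
    have hrow' : ∀ j : Fin _, A k j.succ = 0 := fun j => congrFun hrow j
    have hval : ∀ (z : ℤ) (n : Fin _ → ℤ), (A *ᵥ iv (Fin.cons z n : Fin _ → ℤ)) k = A k 0 * z := by
      intro z n
      rw [cons_mulVec]
      simp [hrow']
    obtain ⟨n0, hn0, -⟩ := hS.orthant (fun _ => true)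
    obtain ⟨n1, hn1, -⟩ := hT.orthant (fun _ => true)
    have q1 := htS n0 hn0
    have q2 := htT n1 hn1
    rw [hval] at q1 q2
    have hA0 : A k 0 = 2 * t := by
      push_cast at q1
      linarith
    -- the slices are equality cases
    have hE1 : EqC (slice A k) (sliceShift A c k (a + 1)) := by
      intro n
      have h1 := hEA (Fin.cons (a + 1) n)
      rw [prod_slice, hval, q1, abs_mul, abs_of_pos ht0, hAdet, Fintype.card_fin, pow_succ] at h1
      rw [Fintype.card_fin]
      rw [div_le_iff₀ (by positivity)] at h1 ⊢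
      nlinarith
    have hE0 : EqC (slice A k) (sliceShift A c k a) := by
      intro n
      have h1 := hEA (Fin.cons a n)
      rw [prod_slice, hval, q2, abs_mul, abs_neg, abs_of_pos ht0, hAdet, Fintype.card_fin,
        pow_succ] at h1
      rw [Fintype.card_fin]
      rw [div_le_iff₀ (by positivity)] at h1 ⊢
      nlinarith
    obtain ⟨V, hV, m, hm⟩ := ihS hE1
    set y : Fin _ → ℝ := fun i => sliceShift A c k (a + 1) i + (slice A k *ᵥ iv m) i with hy
    have hm' : slice A k * im V = Matrix.diagonal (fun i => 2 * y i) := hm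
    have hdetV : |(slice A k).det| = |(slice A k * im V).det| := by
      rw [Matrix.det_mul, abs_mul, abs_det_unit hV, mul_one]
    have hy0 : ∀ i, y i ≠ 0 := by
      have h1 : (slice A k * im V).det ≠ 0 := by
        rw [← abs_pos, ← hdetV, abs_pos]; exact hdet
      rw [hm', Matrix.det_diagonal] at h1
      intro i hi
      apply h1
      exact Finset.prod_eq_zero (Finset.mem_univ i) (by rw [hi, mul_zero])
    have hshift : ∀ i, ∃ z : ℤ, A (k.succAbove i) 0 = 2 * y i * z := by
      refine diag_shift hy0 ?_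
      intro n
      have h1 := hE0 (V *ᵥ n + m)
      rw [Fintype.card_fin, hdetV, hm', Matrix.det_diagonal, Finset.prod_mul_distrib,
        Finset.prod_const, Finset.card_univ, Fintype.card_fin, abs_mul, abs_pow,
        abs_of_pos (by norm_num : (0 : ℝ) < 2)] at h1
      rw [mul_div_right_comm, div_self (by positivity), one_mul] at h1
      refine h1.trans (le_of_eq ?_)
      congr 1
      refine Finset.prod_congr rfl fun i _ => ?_
      rw [iv_add, Matrix.mulVec_add, Pi.add_apply, ← im_mulVec, Matrix.mulVec_mulVec, hm',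
        Matrix.mulVec_diagonal]
      simp only [hy, sliceShift, iv_apply]
      push_cast
      ring
    choose z hz using hshift
    -- assemble
    refine ⟨(LW (-(V *ᵥ z)) V).submatrix id (Fin.cycleRange k), ?_, Fin.cons (a + 1) m, ?_⟩
    · rw [Matrix.det_permute', LW_det]
      exact (Units.isUnit _).mul hV
    · have hsub : A * im ((LW (-(V *ᵥ z)) V).submatrix id (Fin.cycleRange k)) =
          (A * im (LW (-(V *ᵥ z)) V)).submatrix id (Fin.cycleRange k) := by
        ext i j
        simp [Matrix.mul_apply]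
      rw [hsub]
      have hcol : ∀ i j, ∑ l, A (k.succAbove i) l.succ * (V l j : ℝ) =
          Matrix.diagonal (fun i => 2 * y i) i j := by
        intro i j
        rw [← hm', Matrix.mul_apply]
        rfl
      have hVz : ∀ i, ∑ j, A (k.succAbove i) j.succ * ((-(V *ᵥ z)) j : ℤ) =
          -(2 * y i * z i) := by
        intro i
        have h1 : ∑ j, A (k.succAbove i) j.succ * (((-(V *ᵥ z)) j : ℤ) : ℝ) =
            -((slice A k *ᵥ iv (V *ᵥ z)) i) := by
          simp only [Matrix.mulVec, dotProduct, slice, Matrix.of_apply, iv_apply, Pi.neg_apply,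
            Int.cast_neg, mul_neg, Finset.sum_neg_distrib]
        rw [h1, ← im_mulVec, Matrix.mulVec_mulVec, hm', Matrix.mulVec_diagonal, iv_apply]
      ext r s
      rw [Matrix.submatrix_apply, id]
      rcases Fin.eq_self_or_eq_succAbove k s with hs | ⟨j, rfl⟩
      · rw [hs, Fin.cycleRange_self, mul_LW_zero]
        rcases Fin.eq_self_or_eq_succAbove k r with hr | ⟨i, rfl⟩
        · rw [hr, Matrix.diagonal_apply_eq, hval]
          simp only [hrow', zero_mul, Finset.sum_const_zero, add_zero]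
          rw [hA0] at q1 ⊢
          linarith
        · rw [hVz, Matrix.diagonal_apply_ne _ (Fin.succAbove_ne k i), hz i]
          ring
      · rw [Fin.cycleRange_succAbove, mul_LW_succ]
        rcases Fin.eq_self_or_eq_succAbove k r with hr | ⟨i, rfl⟩
        · rw [hr, Matrix.diagonal_apply_ne _ (Fin.succAbove_ne k j).symm]
          simp [hrow']
        · rw [hcol]
          by_cases hij : i = j
          · subst hij
            rw [Matrix.diagonal_apply_eq, Matrix.diagonal_apply_eq, add_comm (c _), slice_mulVec]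
            simp only [hy]; ring
          · rw [Matrix.diagonal_apply_ne _ hij, Matrix.diagonal_apply_ne _]
            exact fun h => hij (Fin.succAbove_right_injective h)

end Run7.h361
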