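import Mathlib
import Pool.Agent.Run7.h361.TreeMain

/-!
Equality cases with a divided set in one lattice hyperplane at lattice distance at most one half from
the origin are diagonalisable.
-/

open Matrix Finset

set_option linter.unusedSectionVars false

namespace Run7.h361

theorem det_of_mulVec_single' {d : ℕ} (A : Matrix (Fin (d + 1)) (Fin (d + 1)) ℝ)
    (w : Fin (d + 1) → ℝ) (k : Fin (d + 1)) (T : ℝ)
    (h : A *ᵥ w = Pi.single k T) : |w 0| * |A.det| = |T| * |(slice A k).det| := by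
  have h1 : (A.updateCol 0 (A *ᵥ w)).det = A.det * w 0 := by
    rw [← Matrix.cramer_apply, Matrix.cramer_eq_adjugate_mulVec, Matrix.mulVec_mulVec,
      Matrix.adjugate_mul]
    simp [Matrix.smul_mulVec]
  rw [mul_comm |w 0|, ← abs_mul, ← h1, Matrix.det_succ_column_zero]
  rw [Finset.sum_eq_single k]
  · rw [Matrix.updateCol_self, h, Pi.single_eq_same, abs_mul, abs_mul, abs_pow, abs_neg, abs_one,
      one_pow, one_mul]
    congr 3
  · intro b _ hb
    rw [Matrix.updateCol_self, h, Pi.single_eq_of_ne hb]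
    ring
  · intro h; exact absurd (Finset.mem_univ k) h

/-- expansion along a row with one nonzero entry -/
theorem det_of_row {d : ℕ} (A : Matrix (Fin (d + 1)) (Fin (d + 1)) ℝ) (k : Fin (d + 1))
    (hrow : ∀ j : Fin d, A k j.succ = 0) : |A.det| = |A k 0| * |(slice A k).det| := by
  rw [Matrix.det_succ_row A k, Fin.sum_univ_succ]
  simp only [hrow, mul_zero, zero_mul, Finset.sum_const_zero, add_zero]
  rw [abs_mul, abs_mul, abs_pow, abs_neg, abs_one, one_pow, one_mul]
  congr 2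

/-- the unimodular matrix with first column `(σ, z)` and lower right block `V` -/
def LWs {d : ℕ} (σ : ℤ) (z : Fin d → ℤ) (V : Matrix (Fin d) (Fin d) ℤ) :
    Matrix (Fin (d + 1)) (Fin (d + 1)) ℤ :=
  Matrix.of (Fin.cons (Fin.cons σ 0) (fun i => Fin.cons (z i) (fun j => V i j)))

theorem LWs_det {d : ℕ} (σ : ℤ) (z : Fin d → ℤ) (V : Matrix (Fin d) (Fin d) ℤ) :
    (LWs σ z V).det = σ * V.det := by
  rw [Matrix.det_succ_row_zero, Fin.sum_univ_succ]
  have h2 : ∀ j : Fin d, (LWs σ z V) 0 j.succ = 0 := by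
    intro j
    simp [LWs]
  have h3 : (LWs σ z V) 0 0 = σ := by simp [LWs]
  have h4 : (LWs σ z V).submatrix Fin.succ (Fin.succAbove 0) = V := by
    ext i j
    simp [LWs]
  simp only [h2, h3, h4]
  simp

theorem mul_LWs_zero {d : ℕ} (A : Matrix (Fin (d + 1)) (Fin (d + 1)) ℝ) (σ : ℤ) (z : Fin d → ℤ)
    (V : Matrix (Fin d) (Fin d) ℤ) (r : Fin (d + 1)) :
    (A * im (LWs σ z V)) r 0 = A r 0 * σ + ∑ j, A r j.succ * z j := by
  rw [Matrix.mul_apply, Fin.sum_univ_succ]
  simp [LWs]

theorem mul_LWs_succ {d : ℕ} (A : Matrix (Fin (d + 1)) (Fin (d + 1)) ℝ) (σ : ℤ) (z : Fin d → ℤ)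
    (V : Matrix (Fin d) (Fin d) ℤ) (r : Fin (d + 1)) (j : Fin d) :
    (A * im (LWs σ z V)) r j.succ = ∑ i : Fin d, A r i.succ * (V i j : ℝ) := by
  rw [Matrix.mul_apply, Fin.sum_univ_succ]
  simp [LWs]

/-- putting the slices together -/
theorem assemble {d : ℕ} {A : Matrix (Fin (d + 1)) (Fin (d + 1)) ℝ} {c : Fin (d + 1) → ℝ}
    {k : Fin (d + 1)} {a : ℤ} {t : ℝ} {σ : ℤ} (hσ : IsUnit σ) (ht : t ≠ 0)
    (hsl : (slice A k).det ≠ 0)
    (hrow : ∀ j : Fin d, A k j.succ = 0) (h1 : A k 0 * a + c k = t) (h2 : A k 0 = 2 * t * σ)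
    (hE : EqC A c) (hD : Dg (slice A k) (sliceShift A c k a)) : Dg A c := by
  have hσσ : σ * σ = 1 := by
    rcases Int.isUnit_iff.mp hσ with h | h <;> simp [h]
  have hσσ' : (σ : ℝ) * σ = 1 := by exact_mod_cast hσσ
  have hσabs : |(σ : ℝ)| = 1 := by
    rcases Int.isUnit_iff.mp hσ with h | h <;> simp [h]
  have hAdet : |A.det| = 2 * |t| * |(slice A k).det| := by
    rw [det_of_row A k hrow, h2, abs_mul, hσabs, mul_one, abs_mul, abs_of_pos (by norm_num : (0:ℝ) < 2)]
  have hval : ∀ (z : ℤ) (n : Fin _ → ℤ), (A *ᵥ iv (Fin.cons z n : Fin _ → ℤ)) k = A k 0 * z := by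
    intro z n
    rw [cons_mulVec]
    simp [hrow]
  have htpos : 0 < |t| := abs_pos.mpr ht
  have hE0 : EqC (slice A k) (sliceShift A c k (a - σ)) := by
    intro n
    have h3 := hE (Fin.cons (a - σ) n)
    have h4 : A k 0 * ((a - σ : ℤ) : ℝ) + c k = -t := by
      push_cast
      linear_combination h1 - (σ : ℝ) * h2 - 2 * t * hσσ'
    rw [prod_slice, hval, h4, abs_mul, abs_neg, hAdet, Fintype.card_fin, pow_succ] at h3
    rw [Fintype.card_fin]
    rw [div_le_iff₀ (by positivity)] at h3 ⊢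
    nlinarith
  obtain ⟨V, hV, m, hm⟩ := hD
  set y : Fin _ → ℝ := fun i => sliceShift A c k a i + (slice A k *ᵥ iv m) i with hy
  have hm' : slice A k * im V = Matrix.diagonal (fun i => 2 * y i) := hm
  have hdetV : |(slice A k).det| = |(slice A k * im V).det| := by
    rw [Matrix.det_mul, abs_mul, abs_det_unit hV, mul_one]
  have hy0 : ∀ i, y i ≠ 0 := by
    have h1 : (slice A k * im V).det ≠ 0 := by
      rw [← abs_pos, ← hdetV, abs_pos]; exact hsl
    rw [hm', Matrix.det_diagonal] at h1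
    intro i hi
    apply h1
    exact Finset.prod_eq_zero (Finset.mem_univ i) (by rw [hi, mul_zero])
  have hshift : ∀ i, ∃ z : ℤ, σ * A (k.succAbove i) 0 = 2 * y i * z := by
    refine diag_shift hy0 ?_
    intro n
    have h1 := hE0 (V *ᵥ n + m)
    rw [Fintype.card_fin, hdetV, hm', Matrix.det_diagonal, Finset.prod_mul_distrib,
      Finset.prod_const, Finset.card_univ, Fintype.card_fin, abs_mul, abs_pow,
      abs_of_pos (by norm_num : (0 : ℝ) < 2)] at h1
    rw [mul_div_right_comm, div_self (by positivity), one_mul] at h1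
    refine h1.trans (le_of_eq ?_)
    congr 1
    refine Finset.prod_congr rfl fun i _ => ?_
    rw [iv_add, Matrix.mulVec_add, Pi.add_apply, ← im_mulVec, Matrix.mulVec_mulVec, hm',
      Matrix.mulVec_diagonal]
    simp only [hy, sliceShift, iv_apply]
    push_cast
    ring
  choose z hz using hshift
  refine ⟨(LWs σ (-(V *ᵥ z)) V).submatrix id (Fin.cycleRange k), ?_, Fin.cons a m, ?_⟩
  · rw [Matrix.det_permute', LWs_det]
    exact (Units.isUnit _).mul (hσ.mul hV)
  · have hsub : A * im ((LWs σ (-(V *ᵥ z)) V).submatrix id (Fin.cycleRange k)) =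
        (A * im (LWs σ (-(V *ᵥ z)) V)).submatrix id (Fin.cycleRange k) := by
      ext i j
      simp [Matrix.mul_apply]
    rw [hsub]
    have hcol : ∀ i j, ∑ l, A (k.succAbove i) l.succ * (V l j : ℝ) =
        Matrix.diagonal (fun i => 2 * y i) i j := by
      intro i j
      rw [← hm', Matrix.mul_apply]
      rfl
    have hVz : ∀ i, ∑ j, A (k.succAbove i) j.succ * ((-(V *ᵥ z)) j : ℤ) =
        -(2 * y i * z i) := by
      intro i
      have h1 : ∑ j, A (k.succAbove i) j.succ * (((-(V *ᵥ z)) j : ℤ) : ℝ) =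
          -((slice A k *ᵥ iv (V *ᵥ z)) i) := by
        simp only [Matrix.mulVec, dotProduct, slice, Matrix.of_apply, iv_apply, Pi.neg_apply,
          Int.cast_neg, mul_neg, Finset.sum_neg_distrib]
      rw [h1, ← im_mulVec, Matrix.mulVec_mulVec, hm', Matrix.mulVec_diagonal, iv_apply]
    ext r s
    rw [Matrix.submatrix_apply, id]
    rcases Fin.eq_self_or_eq_succAbove k s with hs | ⟨j, rfl⟩
    · rw [hs, Fin.cycleRange_self, mul_LWs_zero]
      rcases Fin.eq_self_or_eq_succAbove k r with hr | ⟨i, rfl⟩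
      · rw [hr, Matrix.diagonal_apply_eq, hval]
        simp only [hrow, zero_mul, Finset.sum_const_zero, add_zero]
        rw [add_comm (c k), h1, h2]
        linear_combination (2 * t) * hσσ'
      · rw [hVz, Matrix.diagonal_apply_ne _ (Fin.succAbove_ne k i), ← hz i]
        ring
    · rw [Fin.cycleRange_succAbove, mul_LWs_succ]
      rcases Fin.eq_self_or_eq_succAbove k r with hr | ⟨i, rfl⟩
      · rw [hr, Matrix.diagonal_apply_ne _ (Fin.succAbove_ne k j).symm]
        simp [hrow]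
      · rw [hcol]
        by_cases hij : i = j
        · subst hij
          rw [Matrix.diagonal_apply_eq, Matrix.diagonal_apply_eq, add_comm (c _), slice_mulVec]
          simp only [hy]; ring
        · rw [Matrix.diagonal_apply_ne _ hij, Matrix.diagonal_apply_ne _]
          exact fun h => hij (Fin.succAbove_right_injective h)

/-- the key equality analysis for one hyperplane -/
theorem slice_of_eq {d : ℕ} {A : Matrix (Fin (d + 1)) (Fin (d + 1)) ℝ} {c : Fin (d + 1) → ℝ}
    {k : Fin (d + 1)} {a : ℤ} {S : Set (Fin d → ℤ)} (hA : A.det ≠ 0) (hdet : (slice A k).det ≠ 0)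
    (P : Bal (slice A k) (sliceShift A c k a) S)
    (y : Fin (d + 1) → ℝ) (hy : A *ᵥ y + c = 0) (ha : |(a : ℝ) - y 0| ≤ 1 / 2)
    (hpos : (∀ n ∈ S, 0 < (A *ᵥ iv (Fin.cons a n : Fin (d + 1) → ℤ)) k + c k) ∨
      (∀ n ∈ S, (A *ᵥ iv (Fin.cons a n : Fin (d + 1) → ℤ)) k + c k < 0))
    (hE : EqC A c) :
    ∃ t : ℝ, t ≠ 0 ∧ |A.det| = 2 * |t| * |(slice A k).det| ∧
      (∀ n ∈ S, (A *ᵥ iv (Fin.cons a n : Fin (d + 1) → ℤ)) k + c k = t) := by
  set f : P.ι → ℝ := fun i => (A *ᵥ iv (Fin.cons a (P.n i) : Fin (d + 1) → ℤ)) k + c k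
    with hf
  have hPne : Nonempty P.ι := by
    by_contra hcon
    rw [not_nonempty_iff] at hcon
    have := P.hs
    simp at this
  have hf0 : ∀ i, 0 < |f i| := fun i => by
    rcases hpos with h | h
    · exact abs_pos.mpr (h _ (P.hn i)).ne'
    · exact abs_pos.mpr (h _ (P.hn i)).ne
  set T := ∑ i, P.p i * f i with hT
  have hTabs : |T| = ∑ i, P.p i * |f i| := by
    rcases hpos with h | h
    · have h1 : ∀ i, |f i| = f i := fun i => abs_of_pos (h _ (P.hn i))
      simp only [h1]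
      rw [← hT]
      refine abs_of_nonneg (Finset.sum_nonneg fun i _ => mul_nonneg (P.hp i).le ?_)
      exact (h _ (P.hn i)).le
    · have h1 : ∀ i, |f i| = - f i := fun i => abs_of_neg (h _ (P.hn i))
      simp only [h1, mul_neg, Finset.sum_neg_distrib]
      rw [← hT]
      refine abs_of_nonpos (Finset.sum_nonpos fun i _ => ?_)
      exact mul_nonpos_of_nonneg_of_nonpos (P.hp i).le (h _ (P.hn i)).le
  have hTpos : 0 < |T| := by
    rw [hTabs]
    exact Finset.sum_pos (fun i _ => mul_pos (P.hp i) (hf0 i)) Finset.univ_nonempty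
  have hdpos : 0 < |(slice A k).det| := abs_pos.mpr hdet
  have hApos : 0 < |A.det| := abs_pos.mpr hA
  -- the height of the hyperplane
  have hheight : |(a : ℝ) - y 0| * |A.det| = |T| * |(slice A k).det| := by
    set w : Fin (d + 1) → ℝ := (∑ i, P.p i • iv (Fin.cons a (P.n i) : Fin (d + 1) → ℤ)) - y with hw
    have hw0 : w 0 = a - y 0 := by
      rw [hw, Pi.sub_apply, Finset.sum_apply]
      simp only [Pi.smul_apply, iv_apply, Fin.cons_zero, smul_eq_mul]
      rw [← Finset.sum_mul, P.hs, one_mul]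
    have hAw : ∀ r, (A *ᵥ w) r =
        ∑ i, P.p i * ((A *ᵥ iv (Fin.cons a (P.n i) : Fin (d + 1) → ℤ)) r + c r) := by
      intro r
      have hyr := congrFun hy r
      rw [Pi.add_apply, Pi.zero_apply] at hyr
      rw [hw, Matrix.mulVec_sub, Matrix.mulVec_sum, Pi.sub_apply, Finset.sum_apply]
      simp only [Matrix.mulVec_smul, Pi.smul_apply, smul_eq_mul, mul_add, Finset.sum_add_distrib]
      rw [← Finset.sum_mul, P.hs]
      linarith
    rw [← hw0]
    apply det_of_mulVec_single' A w k T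
    ext r
    rcases Fin.eq_self_or_eq_succAbove k r with hr | ⟨i, rfl⟩
    · rw [hAw, hr, Pi.single_eq_same]
    · rw [hAw, Pi.single_eq_of_ne (Fin.succAbove_ne k i)]
      simp only [slice_mulVec]
      rw [P.hbar i]
  have hTle : |T| ≤ |A.det| / (2 * |(slice A k).det|) := by
    rw [le_div_iff₀ (by positivity)]
    have : |T| * (2 * |(slice A k).det|) = 2 * (|(a : ℝ) - y 0| * |A.det|) := by
      rw [hheight]; ring
    rw [this]
    nlinarith
  have hEn : ∀ n : Fin (d + 1) → ℤ, Real.log (|A.det| / 2 ^ (d + 1)) ≤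
      Real.log |∏ r, ((A *ᵥ iv n) r + c r)| := by
    intro n
    refine Real.log_le_log (by positivity) ?_
    have := hE n
    rwa [Fintype.card_fin] at this
  have hlogA : Real.log (|A.det| / 2 ^ (d + 1)) =
      Real.log (|A.det| / (2 * |(slice A k).det|)) + Real.log (|(slice A k).det| / 2 ^ d) := by
    rw [← Real.log_mul (by positivity) (by positivity)]
    congr 1
    rw [pow_succ]; field_simp
  have e1 : ∀ i, Real.log |∏ r, ((A *ᵥ iv (Fin.cons a (P.n i) : Fin (d + 1) → ℤ)) r + c r)| =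
      Real.log |f i| + Real.log |∏ j, ((slice A k *ᵥ iv (P.n i)) j +
        sliceShift A c k a j)| := by
    intro i
    rw [prod_slice, abs_mul, Real.log_mul]
    · exact (hf0 i).ne'
    · exact abs_ne_zero.mpr (Finset.prod_ne_zero_iff.mpr fun j _ => P.hne i j)
  have w1 : Real.log (|A.det| / 2 ^ (d + 1)) ≤ ∑ i, P.p i * Real.log |f i| +
      Real.log (|(slice A k).det| / 2 ^ d) := by
    have h1 : ∑ i, P.p i * Real.log (|A.det| / 2 ^ (d + 1)) ≤
        ∑ i, P.p i * (Real.log |f i| + Real.log |∏ j, ((slice A k *ᵥ iv (P.n i)) j +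
          sliceShift A c k a j)|) :=
      Finset.sum_le_sum fun i _ => mul_le_mul_of_nonneg_left (by rw [← e1]; exact hEn _)
        (P.hp i).le
    rw [← Finset.sum_mul, P.hs, one_mul] at h1
    simp only [mul_add, Finset.sum_add_distrib] at h1
    linarith [P.hlog]
  have v1 := sum_log_le P.hp P.hs hf0
  rw [← hTabs] at v1
  rw [hlogA] at w1
  have v2 : Real.log |T| ≤ Real.log (|A.det| / (2 * |(slice A k).det|)) :=
    Real.log_le_log hTpos hTle
  have hfe := eq_of_sum_log P.hp P.hs hf0 (by rw [← hTabs]; linarith)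
  have hTeq : |T| = |A.det| / (2 * |(slice A k).det|) := by
    apply le_antisymm hTle
    rw [← Real.log_le_log_iff (by positivity) hTpos]
    linarith
  refine ⟨T, abs_pos.mp hTpos, ?_, ?_⟩
  · rw [hTeq]; field_simp
  · intro n hn
    obtain ⟨i, rfl⟩ := P.hn' n hn
    have h1 := hfe i
    rw [← hTabs] at h1
    change f i = T
    have hTsgn : (0 < f i ∧ 0 < T) ∨ (f i < 0 ∧ T < 0) := by
      rcases hpos with h | h
      · left
        refine ⟨h _ (P.hn i), ?_⟩
        exact Finset.sum_pos (fun i _ => mul_pos (P.hp i) (h _ (P.hn i))) Finset.univ_nonempty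
      · right
        refine ⟨h _ (P.hn i), ?_⟩
        exact Finset.sum_neg (fun i _ => mul_neg_of_pos_of_neg (P.hp i) (h _ (P.hn i)))
          Finset.univ_nonempty
    rcases hTsgn with ⟨h2, h3⟩ | ⟨h2, h3⟩
    · rwa [abs_of_pos h2, abs_of_pos h3] at h1
    · rw [abs_of_neg h2, abs_of_neg h3] at h1; linarith

theorem half_dg {d : ℕ} {L : Matrix (Fin (d + 1)) (Fin (d + 1)) ℝ} {c : Fin (d + 1) → ℝ}
    (hL : L.det ≠ 0) (hE : EqC L c) (k : Fin (d + 1)) (U : Matrix (Fin (d + 1)) (Fin (d + 1)) ℤ)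
    (hU : IsUnit U.det) (a : ℤ) (S : Set (Fin d → ℤ))
    (hS : Divided (slice (L * im U) k) (sliceShift (L * im U) c k a) S)
    (hpos : (∀ n ∈ S, 0 < (L *ᵥ iv (U *ᵥ Fin.cons a n)) k + c k) ∨
      (∀ n ∈ S, (L *ᵥ iv (U *ᵥ Fin.cons a n)) k + c k < 0))
    (y : Fin (d + 1) → ℝ) (hy : L *ᵥ (im U *ᵥ y) + c = 0) (ha : |(a : ℝ) - y 0| ≤ 1 / 2) :
    Dg L c := by
  set A := L * im U with hA
  have hmul : ∀ n, L *ᵥ iv (U *ᵥ n) = A *ᵥ iv n := by
    intro n; rw [← im_mulVec, Matrix.mulVec_mulVec]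
  have hEA : EqC A c := hE.mul hU
  suffices hgoal : Dg A c from (Dg_mul_iff hU).mp hgoal
  have hAdet : |A.det| = |L.det| := by
    rw [hA, Matrix.det_mul, abs_mul, abs_det_unit hU, mul_one]
  have hA0 : A.det ≠ 0 := by rw [← abs_pos, hAdet, abs_pos]; exact hL
  obtain ⟨hsl, ⟨P⟩⟩ := hS.bal
  obtain ⟨t, ht, htdet, htS⟩ := slice_of_eq hA0 hsl P y (by rw [hA, ← Matrix.mulVec_mulVec]; exact hy)
    ha (by simpa only [hmul] using hpos) hEA
  have hrow : (fun j : Fin _ => A k j.succ) = 0 := by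
    refine functional_zero hsl hS.orthant _ (t - c k - A k 0 * (a : ℝ)) ?_
    intro n hn
    have := htS n hn
    rw [cons_mulVec] at this
    linarith
  have hrow' : ∀ j : Fin _, A k j.succ = 0 := fun j => congrFun hrow j
  have hval : ∀ (z : ℤ) (n : Fin _ → ℤ), (A *ᵥ iv (Fin.cons z n : Fin _ → ℤ)) k = A k 0 * z := by
    intro z n
    rw [cons_mulVec]
    simp [hrow']
  obtain ⟨n0, hn0, -⟩ := hS.orthant (fun _ => true)
  have q1 := htS n0 hn0
  rw [hval] at q1
  have hdpos : 0 < |(slice A k).det| := abs_pos.mpr hsl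
  have hAk : |A k 0| = |2 * t| := by
    have h1 := det_of_row A k hrow'
    rw [htdet] at h1
    have h2 := mul_right_cancel₀ hdpos.ne' h1
    rw [← h2, abs_mul, abs_of_pos (by norm_num : (0:ℝ) < 2)]
  have hE1 : EqC (slice A k) (sliceShift A c k a) := by
    intro n
    have h1 := hEA (Fin.cons a n)
    have htpos : 0 < |t| := abs_pos.mpr ht
    rw [prod_slice, hval, q1, abs_mul, htdet, Fintype.card_fin, pow_succ] at h1
    rw [Fintype.card_fin]
    rw [div_le_iff₀ (by positivity)] at h1 ⊢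
    nlinarith
  have hD := hS.dg hE1
  rcases abs_eq_abs.mp hAk with h | h
  · exact assemble (σ := 1) isUnit_one ht hsl hrow' q1 (by rw [h]; push_cast; ring) hEA hD
  · exact assemble (σ := -1) isUnit_one.neg ht hsl hrow' q1 (by rw [h]; push_cast; ring) hEA hD

end Run7.h361
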