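import Mathlib
import Pool.Agent.Run7.h361.Defs
import Pool.Agent.Run7.h361.DividedSet
import Pool.Agent.Run7.h361.Half

/-!
Bridges between the definitions used in the statements and those used in the proofs.
-/

open Matrix

namespace Run7.h361

theorem diagonalisable_iff {d : ℕ} (L : Matrix (Fin d) (Fin d) ℝ) (c : Fin d → ℝ) :
    Diagonalisable L c ↔ Dg L c := by
  constructor
  · rintro ⟨U, m, hU, h⟩
    refine ⟨U, hU, m, ?_⟩
    ext k j
    have h1 := h k (Pi.single j 1)
    rw [Matrix.mulVec_mulVec, Matrix.mulVec_single_one] at h1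
    change (L * U.map (fun z : ℤ => (z : ℝ))) k j = _ at h1
    change (L * U.map (fun z : ℤ => (z : ℝ))) k j = _
    rw [h1]
    by_cases hkj : k = j
    · subst hkj
      rw [Matrix.diagonal_apply_eq, Pi.single_eq_same, mul_one]
      rfl
    · rw [Matrix.diagonal_apply_ne _ hkj, Pi.single_eq_of_ne hkj, mul_zero]
  · rintro ⟨U, hU, m, h⟩
    refine ⟨U, m, hU, fun k x => ?_⟩
    have h1 : L * U.map (fun z : ℤ => (z : ℝ)) =
        Matrix.diagonal (fun k => 2 * (c k + (L *ᵥ iv m) k)) := h
    rw [Matrix.mulVec_mulVec, h1, Matrix.mulVec_diagonal]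
    rfl

theorem equalityCase_iff {d : ℕ} (L : Matrix (Fin d) (Fin d) ℝ) (c : Fin d → ℝ) :
    EqualityCase L c ↔ L.det ≠ 0 ∧ EqC L c := by
  unfold EqualityCase EqC
  rw [Fintype.card_fin]
  rfl

theorem good_iff {d : ℕ} (L : Matrix (Fin d) (Fin d) ℝ) (hL : L.det ≠ 0) :
    (∀ c, EqualityCase L c → Diagonalisable L c) ↔ Good L := by
  simp only [equalityCase_iff, diagonalisable_iff, Good]
  exact ⟨fun h c hc => h c ⟨hL, hc⟩, fun h c hc => h c hc.2⟩

theorem dividedSet_matrix {d : ℕ} {F : (Fin d → ℤ) → Fin d → ℝ} {S : Set (Fin d → ℤ)}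
    (h : DividedSet F S) : ∀ (L : Matrix (Fin d) (Fin d) ℝ) (c : Fin d → ℝ),
      F = (fun n k => (L *ᵥ iv n) k + c k) → Divided L c S := by
  induction h with
  | zero F => exact fun L c _ => Divided.zero L c
  | succ F k U hU a S T hS hT hpos hneg ihS ihT =>
    rintro L c rfl
    have key : ∀ z : ℤ, (fun (n : Fin _ → ℤ) i => (fun n k => (L *ᵥ iv n) k + c k)
        (U *ᵥ Fin.cons z n) (k.succAbove i)) = fun n i =>
        (slice (L * im U) k *ᵥ iv n) i +
          sliceShift (L * im U) c k z i := by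
      intro z
      funext n i
      change (L *ᵥ iv (U *ᵥ Fin.cons z n)) (k.succAbove i) + c (k.succAbove i) = _
      rw [← slice_mulVec, ← Matrix.mulVec_mulVec, im_mulVec]
    exact Divided.succ L c k U hU a S T (ihS _ _ (key _)) (ihT _ _ (key _)) hpos hneg

/-- a unit cell whose `2 ^ d` vertices lie in the `2 ^ d` open orthants, in the natural order, is
divided -/
theorem dividedSet_of_cell : ∀ {d : ℕ} (F : (Fin d → ℤ) → Fin d → ℝ) (m : Fin d → ℤ),
    (∀ (s : Fin d → Bool) (k : Fin d), if s k = true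
      then 0 < F (fun j => m j + if s j = true then 1 else 0) k
      else F (fun j => m j + if s j = true then 1 else 0) k < 0) →
    ∃ S, DividedSet F S ∧
      ∀ n ∈ S, ∃ s : Fin d → Bool, n = fun j => m j + if s j = true then 1 else 0
  | 0, F, m, _ =>
    ⟨Set.univ, DividedSet.zero F, fun n _ => ⟨fun _ => true, Subsingleton.elim _ _⟩⟩
  | d + 1, F, m, h => by
    have hcons : ∀ (z : ℤ) (n : Fin d → ℤ), (1 : Matrix (Fin (d + 1)) (Fin (d + 1)) ℤ) *ᵥ
        (Fin.cons z n : Fin (d + 1) → ℤ) = Fin.cons z n := fun z n => Matrix.one_mulVec _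
    have hpt : ∀ (b : Bool) (s : Fin d → Bool), (Fin.cons (m 0 + if b = true then 1 else 0)
        (fun j => m j.succ + if s j = true then 1 else 0) : Fin (d + 1) → ℤ) =
        fun j => m j + if (Fin.cons b s : Fin (d + 1) → Bool) j = true then 1 else 0 := by
      intro b s
      ext j
      refine Fin.cases ?_ (fun i => ?_) j <;> simp
    obtain ⟨S, hS, hS'⟩ := dividedSet_of_cell
      (fun n i => F ((1 : Matrix (Fin (d + 1)) (Fin (d + 1)) ℤ) *ᵥ Fin.cons (m 0 + 1) n)
        ((0 : Fin (d + 1)).succAbove i)) (fun j => m j.succ) (by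
        intro s k
        have h1 := h (Fin.cons true s) k.succ
        have h2 := hpt true s
        simp only [if_true] at h2
        rw [← h2] at h1
        simp only [hcons, Fin.succAbove_zero, Fin.cons_succ] at h1 ⊢
        exact h1)
    obtain ⟨T, hT, hT'⟩ := dividedSet_of_cell
      (fun n i => F ((1 : Matrix (Fin (d + 1)) (Fin (d + 1)) ℤ) *ᵥ Fin.cons (m 0) n)
        ((0 : Fin (d + 1)).succAbove i)) (fun j => m j.succ) (by
        intro s k
        have h1 := h (Fin.cons false s) k.succ
        have h2 := hpt false s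
        simp only [Bool.false_eq_true, if_false, add_zero] at h2
        rw [← h2] at h1
        simp only [hcons, Fin.succAbove_zero, Fin.cons_succ] at h1 ⊢
        exact h1)
    refine ⟨_, DividedSet.succ F 0 1 (by simp) (m 0) S T hS hT ?_ ?_, ?_⟩
    · intro n hn
      obtain ⟨s, rfl⟩ := hS' n hn
      have h1 := h (Fin.cons true s) 0
      have h2 := hpt true s
      simp only [if_true] at h2
      rw [← h2] at h1
      rw [hcons]
      simpa using h1
    · intro n hn
      obtain ⟨s, rfl⟩ := hT' n hn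
      have h1 := h (Fin.cons false s) 0
      have h2 := hpt false s
      simp only [Bool.false_eq_true, if_false, add_zero] at h2
      rw [← h2] at h1
      rw [hcons]
      simpa using h1
    · rintro n (⟨n, hn, rfl⟩ | ⟨n, hn, rfl⟩)
      · obtain ⟨s, rfl⟩ := hS' n hn
        refine ⟨Fin.cons true s, ?_⟩
        rw [← hpt true s]
        simp only [hcons]
        simp
      · obtain ⟨s, rfl⟩ := hT' n hn
        refine ⟨Fin.cons false s, ?_⟩
        rw [← hpt false s]
        simp only [hcons]
        simp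

theorem divided_of_cell {d : ℕ} (L : Matrix (Fin d) (Fin d) ℝ) (c : Fin d → ℝ) (m : Fin d → ℤ)
    (h : ∀ (s : Fin d → Bool) (k : Fin d), if s k = true
      then 0 < (L *ᵥ iv (fun j => m j + if s j = true then 1 else 0)) k + c k
      else (L *ᵥ iv (fun j => m j + if s j = true then 1 else 0)) k + c k < 0) :
    ∃ S, Divided L c S ∧
      ∀ n ∈ S, ∃ s : Fin d → Bool, n = fun j => m j + if s j = true then 1 else 0 := by
  obtain ⟨S, hS, hS'⟩ := dividedSet_of_cell (fun n k => (L *ᵥ iv n) k + c k) m h
  exact ⟨S, dividedSet_matrix hS L c rfl, hS'⟩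

end Run7.h361
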