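import Mathlib
import Pool.Agent.Run7.h361.Bridge
import Pool.Agent.Run7.h361.Mono
import Pool.Agent.Run7.h361.Red

/-!
Integer matrices are good, and lattices of covering radius at most `√d / 2` are good.
-/

open Matrix Finset Filter Topology

set_option linter.unusedSectionVars false

namespace Run7.h361

theorem exists_unimod_row (n : ℕ) (v : Fin (n + 1) → ℤ) :
    ∃ U : Matrix (Fin (n + 1)) (Fin (n + 1)) ℤ, IsUnit U.det ∧
      ∀ j : Fin n, (v ᵥ* U) j.castSucc = 0 := by
  classical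
  set f : Matrix (Fin (n + 1)) (Fin (n + 1)) ℤ → ℕ := fun U => ∑ j, ((v ᵥ* U) j).natAbs with hf
  have hex : ∃ k, ∃ U : Matrix (Fin (n + 1)) (Fin (n + 1)) ℤ, IsUnit U.det ∧ f U = k :=
    ⟨f 1, 1, by simp, rfl⟩
  obtain ⟨U, hU, hUk⟩ := Nat.find_spec hex
  have hmin : ∀ V : Matrix (Fin (n + 1)) (Fin (n + 1)) ℤ, IsUnit V.det → f U ≤ f V := by
    intro V hV
    rw [hUk]
    exact Nat.find_min' hex ⟨V, hV, rfl⟩
  set w := v ᵥ* U with hw
  have key : ∀ i j, i ≠ j → w i ≠ 0 → w j ≠ 0 → (w j).natAbs ≤ (w i).natAbs → False := by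
    intro i j hij hi hj hle
    obtain ⟨c, hc⟩ : ∃ c : ℤ, (w i + w j * c).natAbs < (w i).natAbs := by
      rcases lt_or_gt_of_ne hi with h1 | h1 <;> rcases lt_or_gt_of_ne hj with h2 | h2
      · exact ⟨-1, by omega⟩
      · exact ⟨1, by omega⟩
      · exact ⟨1, by omega⟩
      · exact ⟨-1, by omega⟩
    have h1 : IsUnit (U * Matrix.transvection j i c).det := by
      rw [Matrix.det_mul, Matrix.det_transvection_of_ne j i hij.symm, mul_one]
      exact hU
    have h2 := hmin _ h1
    have h3 : ∀ l, (v ᵥ* (U * Matrix.transvection j i c)) l = if l = i then w i + w j * c else w l := by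
      intro l
      rw [← Matrix.vecMul_vecMul, ← hw, Matrix.transvection, Matrix.vecMul_add, Matrix.vecMul_one,
        Pi.add_apply]
      have : (w ᵥ* Matrix.single j i c) l = if l = i then w j * c else 0 := by
        simp only [Matrix.vecMul, dotProduct, Matrix.single_apply]
        rw [Finset.sum_eq_single j]
        · by_cases hl : l = i
          · subst hl; simp
          · simp [hl, Ne.symm hl]
        · intro b _ hb
          simp [Ne.symm hb]
        · intro h; exact absurd (Finset.mem_univ j) h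
      rw [this]
      by_cases hl : l = i
      · subst hl; simp
      · simp [hl]
    have h4 : f (U * Matrix.transvection j i c) < f U := by
      simp only [hf]
      refine Finset.sum_lt_sum ?_ ⟨i, Finset.mem_univ i, ?_⟩
      · intro l _
        rw [h3]
        split_ifs with h
        · subst h; exact hc.le
        · exact le_rfl
      · rw [h3, if_pos rfl]; exact hc
    omega
  have hone : ∃ k, ∀ l, l ≠ k → w l = 0 := by
    by_cases hz : ∃ k, w k ≠ 0
    · obtain ⟨k, hk⟩ := hz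
      refine ⟨k, fun l hl => ?_⟩
      by_contra hl0
      rcases le_total (w l).natAbs (w k).natAbs with h | h
      · exact key k l (Ne.symm hl) hk hl0 h
      · exact key l k hl hl0 hk h
    · push Not at hz
      exact ⟨0, fun l _ => hz l⟩
  obtain ⟨k, hk⟩ := hone
  refine ⟨U.submatrix id (Equiv.swap k (Fin.last n)), ?_, fun j => ?_⟩
  · rw [Matrix.det_permute']
    exact (Units.isUnit _).mul hU
  · have h1 : (v ᵥ* U.submatrix id (Equiv.swap k (Fin.last n))) j.castSucc =
        w (Equiv.swap k (Fin.last n) j.castSucc) := rfl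
    rw [h1]
    apply hk
    intro h
    have h2 : j.castSucc = Equiv.swap k (Fin.last n) k := Equiv.swap_apply_eq_iff.mp h
    rw [Equiv.swap_apply_left] at h2
    exact (Fin.castSucc_lt_last j).ne h2

theorem int_good : ∀ (d : ℕ) (W : Matrix (Fin d) (Fin d) ℤ), W.det ≠ 0 → Good (im W)
  | 0, W, _ => good_empty _
  | d + 1, W, hW => by
    obtain ⟨U, hU, hz⟩ := exists_unimod_row d (W (Fin.last d))
    rw [← Good_mul_iff hU, ← im_mul]
    set A := W * U with hA
    have hA0 : ∀ j : Fin d, A (Fin.last d) j.castSucc = 0 := by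
      intro j
      rw [← hz j]; rfl
    have hAdet : A.det ≠ 0 := by
      rw [hA, Matrix.det_mul]
      exact mul_ne_zero hW hU.ne_zero
    set e : Fin d ⊕ Fin 1 ≃ Fin (d + 1) := finSumFinEquiv with he
    have hl : ∀ i : Fin d, e (Sum.inl i) = i.castSucc := fun i => by
      simp only [he, finSumFinEquiv_apply_left]; rfl
    have hr : ∀ i : Fin 1, e (Sum.inr i) = Fin.last d := fun i => by
      simp only [he, finSumFinEquiv_apply_right]
      ext; simp
    set B : Matrix (Fin d) (Fin d) ℤ := Matrix.of fun i j => A i.castSucc j.castSucc with hB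
    set C : Matrix (Fin d) (Fin 1) ℝ := Matrix.of fun i _ => (A i.castSucc (Fin.last d) : ℝ) with hC
    set E : Matrix (Fin 1) (Fin 1) ℝ := Matrix.of fun _ _ => (A (Fin.last d) (Fin.last d) : ℝ)
      with hE
    have hblock : Matrix.reindex e.symm e.symm (im A) = fromBlocks (im B) C 0 E := by
      ext i j
      rcases i with i | i <;> rcases j with j | j
      · simp [hB, hl]
      · simp [hC, hl, hr]
      · simp [hl, hr, hA0]
      · simp [hE, hr]
    have hback : im A = Matrix.reindex e e (fromBlocks (im B) C 0 E) := by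
      rw [← hblock]; ext i j; simp
    have hdet : (fromBlocks (im B) C 0 E).det ≠ 0 := by
      rw [← hblock, Matrix.det_reindex_self, im_det]
      exact_mod_cast hAdet
    rw [Matrix.det_fromBlocks_zero₂₁] at hdet
    have hB0 := left_ne_zero_of_mul hdet
    have hE0 := right_ne_zero_of_mul hdet
    rw [hback]
    refine Good.reindex (good_block (int_good d B ?_) (good_unique E hE0) hB0 hE0) e
    intro h
    apply hB0
    rw [im_det, h, Int.cast_zero]

/-- the arithmetic-geometric mean inequality with its equality case, for an equality case -/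
theorem half_of_sq_le {d : ℕ} {x : Fin d → ℝ} (h1 : 1 / 2 ^ d ≤ |∏ k, x k|)
    (h2 : ∑ k, x k ^ 2 ≤ d / 4) : ∀ k, x k ^ 2 = 1 / 4 := by
  have hne : ∀ k, x k ≠ 0 := by
    intro k hk
    rw [Finset.prod_eq_zero (Finset.mem_univ k) hk, abs_zero] at h1
    have : (0 : ℝ) < 1 / 2 ^ d := by positivity
    linarith
  have hpos : ∀ k, 0 < 4 * x k ^ 2 := fun k => by have := hne k; positivity
  have hlog : 0 ≤ ∑ k, Real.log (4 * x k ^ 2) := by
    rw [← Real.log_prod (fun k _ => (hpos k).ne')]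
    apply Real.log_nonneg
    rw [Finset.prod_mul_distrib, Finset.prod_const, Finset.card_univ, Fintype.card_fin,
      Finset.prod_pow]
    have h3 : (1 / 2 ^ d) ^ 2 ≤ (∏ k, x k) ^ 2 := by
      rw [← sq_abs (∏ k, x k)]
      exact pow_le_pow_left₀ (by positivity) h1 2
    have h4 : (4 : ℝ) ^ d * (1 / 2 ^ d) ^ 2 = 1 := by
      rw [show (4 : ℝ) = 2 ^ 2 by norm_num, ← pow_mul, mul_comm 2 d, pow_mul]
      field_simp
    calc (1 : ℝ) = 4 ^ d * (1 / 2 ^ d) ^ 2 := h4.symm
      _ ≤ _ := mul_le_mul_of_nonneg_left h3 (by positivity)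
  have hsum : ∑ k, (4 * x k ^ 2 - 1) ≤ 0 := by
    rw [Finset.sum_sub_distrib, ← Finset.mul_sum]
    simp only [Finset.sum_const, Finset.card_univ, Fintype.card_fin, nsmul_eq_mul, mul_one]
    linarith
  intro k
  by_contra hk
  have h3 : ∑ k, Real.log (4 * x k ^ 2) < ∑ k, (4 * x k ^ 2 - 1) := by
    refine Finset.sum_lt_sum (fun j _ => Real.log_le_sub_one_of_pos (hpos j))
      ⟨k, Finset.mem_univ k, Real.log_lt_sub_one_of_pos (hpos k) ?_⟩
    intro h; apply hk; linarith
  linarith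

theorem cov_direction {d : ℕ} {L : Matrix (Fin d) (Fin d) ℝ} {c : Fin d → ℝ}
    (hdet : |L.det| = 1) (hE : EqC L c)
    (hcov : ∀ x : Fin d → ℝ, ∃ n : Fin d → ℤ, ∑ k, ((L *ᵥ iv n) k - x k) ^ 2 ≤ d / 4)
    (e : Fin d → ℝ) (he : e ≠ 0) :
    ∃ n : Fin d → ℤ, (∀ k, ((L *ᵥ iv n) k + c k) ^ 2 = 1 / 4) ∧
      0 < ∑ k, ((L *ᵥ iv n) k + c k) * e k := by
  have hL : L.det ≠ 0 := by rw [← abs_pos, hdet]; exact one_pos
  have hE' : ∀ n : Fin d → ℤ, 1 / 2 ^ d ≤ |∏ k, ((L *ᵥ iv n) k + c k)| := by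
    intro n
    have := hE n
    rwa [Fintype.card_fin, hdet] at this
  set R : ℝ := d / 4 + 1 + ∑ k, |e k| + ∑ k, |c k| with hR
  set F : Set (Fin d → ℤ) := {n | ∀ k, |(L *ᵥ iv n) k| ≤ R} with hF
  have hFfin : F.Finite := finite_lattice_box hL R
  have hev : ∀ᶠ t in 𝓝[>] (0 : ℝ), ∀ n ∈ F, (d / 4 : ℝ) < ∑ k, ((L *ᵥ iv n) k + c k) ^ 2 →
      (d / 4 : ℝ) < ∑ k, ((L *ᵥ iv n) k + c k - t * e k) ^ 2 := by
    rw [Filter.eventually_all_finite hFfin]
    intro n _
    by_cases h : (d / 4 : ℝ) < ∑ k, ((L *ᵥ iv n) k + c k) ^ 2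
    · have hcont : Continuous fun t : ℝ => ∑ k, ((L *ᵥ iv n) k + c k - t * e k) ^ 2 := by
        fun_prop
      have h0 : (d / 4 : ℝ) < (fun t : ℝ => ∑ k, ((L *ᵥ iv n) k + c k - t * e k) ^ 2) 0 := by
        simpa using h
      have := (continuousAt_const.eventually_lt hcont.continuousAt h0 :
        ∀ᶠ t in 𝓝 (0 : ℝ), (d / 4 : ℝ) < ∑ k, ((L *ᵥ iv n) k + c k - t * e k) ^ 2)
      exact (this.filter_mono nhdsWithin_le_nhds).mono fun t ht _ => ht
    · exact Filter.Eventually.of_forall fun t ht => absurd ht h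
  have hev2 : ∀ᶠ t in 𝓝[>] (0 : ℝ), t ≤ 1 :=
    (eventually_le_nhds (by norm_num : (0 : ℝ) < 1)).filter_mono nhdsWithin_le_nhds
  obtain ⟨t, ⟨ht1, ht2⟩, ht3⟩ := ((hev.and hev2).and self_mem_nhdsWithin).exists
  have ht0 : 0 < t := ht3
  obtain ⟨n, hn⟩ := hcov (fun k => -c k + t * e k)
  have hn' : ∑ k, ((L *ᵥ iv n) k + c k - t * e k) ^ 2 ≤ d / 4 := by
    refine le_trans (le_of_eq ?_) hn
    exact Finset.sum_congr rfl fun k _ => by ring
  have hnF : n ∈ F := by
    intro k
    have h1 : ((L *ᵥ iv n) k + c k - t * e k) ^ 2 ≤ d / 4 :=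
      (Finset.single_le_sum (f := fun k => ((L *ᵥ iv n) k + c k - t * e k) ^ 2)
        (fun _ _ => sq_nonneg _) (Finset.mem_univ k)).trans hn'
    have h2 : |(L *ᵥ iv n) k + c k - t * e k| ≤ d / 4 + 1 := by
      rw [← sq_abs] at h1
      nlinarith [abs_nonneg ((L *ᵥ iv n) k + c k - t * e k),
        sq_nonneg (|(L *ᵥ iv n) k + c k - t * e k| - 1)]
    have h3 : |e k| ≤ ∑ k, |e k| :=
      Finset.single_le_sum (f := fun k => |e k|) (fun _ _ => abs_nonneg _) (Finset.mem_univ k)
    have h4 : |c k| ≤ ∑ k, |c k| :=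
      Finset.single_le_sum (f := fun k => |c k|) (fun _ _ => abs_nonneg _) (Finset.mem_univ k)
    have h5 : (L *ᵥ iv n) k = ((L *ᵥ iv n) k + c k - t * e k) + t * e k - c k := by ring
    have h6 : |t * e k| ≤ |e k| := by
      rw [abs_mul, abs_of_pos ht0]
      nlinarith [abs_nonneg (e k)]
    rw [h5]
    calc _ ≤ |((L *ᵥ iv n) k + c k - t * e k) + t * e k| + |c k| := abs_sub _ _
      _ ≤ |(L *ᵥ iv n) k + c k - t * e k| + |t * e k| + |c k| := by
          gcongr; exact abs_add_le _ _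
      _ ≤ R := by rw [hR]; linarith
  have hle : ∑ k, ((L *ᵥ iv n) k + c k) ^ 2 ≤ d / 4 := by
    by_contra h
    push Not at h
    exact absurd hn' (not_le.mpr (ht1 n hnF h))
  have hhalf := half_of_sq_le (hE' n) hle
  refine ⟨n, hhalf, ?_⟩
  have h1 : ∑ k, ((L *ᵥ iv n) k + c k - t * e k) ^ 2 =
      ∑ k, ((L *ᵥ iv n) k + c k) ^ 2 - 2 * t * ∑ k, ((L *ᵥ iv n) k + c k) * e k +
        t ^ 2 * ∑ k, e k ^ 2 := by
    rw [Finset.mul_sum, Finset.mul_sum, ← Finset.sum_sub_distrib, ← Finset.sum_add_distrib]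
    exact Finset.sum_congr rfl fun k _ => by ring
  have h2 : ∑ k, ((L *ᵥ iv n) k + c k) ^ 2 = d / 4 := by
    rw [Finset.sum_congr rfl fun k _ => hhalf k]
    simp; ring
  have h3 : 0 < ∑ k, e k ^ 2 := by
    obtain ⟨k, hk⟩ := Function.ne_iff.mp he
    exact Finset.sum_pos' (fun _ _ => sq_nonneg _)
      ⟨k, Finset.mem_univ k, by have : e k ≠ 0 := hk; positivity⟩
  rw [h1, h2] at hn'
  by_contra hcon
  push Not at hcon
  have h4 : 0 < t ^ 2 * ∑ k, e k ^ 2 := by positivity
  nlinarith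

theorem exists_int_basis {d : ℕ} {L : Matrix (Fin d) (Fin d) ℝ} {c : Fin d → ℝ}
    (hL : L.det ≠ 0) (hdir : ∀ e : Fin d → ℝ, e ≠ 0 →
      ∃ n : Fin d → ℤ, (∀ k, ((L *ᵥ iv n) k + c k) ^ 2 = 1 / 4) ∧
        0 < ∑ k, ((L *ᵥ iv n) k + c k) * e k) (n0 : Fin d → ℤ)
    (hn0 : ∀ k, ((L *ᵥ iv n0) k + c k) ^ 2 = 1 / 4) :
    ∃ N : Matrix (Fin d) (Fin d) ℤ, N.det ≠ 0 ∧
      ∃ W : Matrix (Fin d) (Fin d) ℤ, L * im N = im W := by
  set V : Set (Fin d → ℤ) := {n | ∀ k, ((L *ᵥ iv n) k + c k) ^ 2 = 1 / 4} with hV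
  set S : Set (Fin d → ℝ) := (fun n => iv n - iv n0) '' V with hS
  have hspan : Submodule.span ℝ S = ⊤ := by
    by_contra hne
    obtain ⟨f, hf0, hf⟩ := Submodule.exists_le_ker_of_lt_top (Submodule.span ℝ S)
      (lt_top_iff_ne_top.mpr hne)
    set a : Fin d → ℝ := fun j => f (Pi.single j 1) with ha
    have hfa : ∀ v : Fin d → ℝ, f v = ∑ j, a j * v j := by
      intro v
      conv_lhs => rw [← Finset.univ_sum_single v]
      rw [map_sum]
      refine Finset.sum_congr rfl fun j _ => ?_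
      have h1 : (Pi.single j (v j) : Fin d → ℝ) = v j • Pi.single j 1 := by
        rw [← Pi.single_smul, smul_eq_mul, mul_one]
      rw [h1, map_smul, smul_eq_mul, mul_comm]
    set e : Fin d → ℝ := a ᵥ* L⁻¹ with he
    have hae : a = e ᵥ* L := by
      rw [he, Matrix.vecMul_vecMul, Matrix.nonsing_inv_mul _ (isUnit_iff_ne_zero.mpr hL),
        Matrix.vecMul_one]
    have he0 : e ≠ 0 := by
      intro h0
      rw [h0, Matrix.zero_vecMul] at hae
      apply hf0
      ext v
      simp [hfa, hae]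
    have hval : ∀ n ∈ V, ∑ k, ((L *ᵥ iv n) k + c k) * e k =
        ∑ k, ((L *ᵥ iv n0) k + c k) * e k := by
      intro n hn
      have h1 : f (iv n - iv n0) = 0 := by
        have := hf (Submodule.subset_span ⟨n, hn, rfl⟩)
        simpa using this
      rw [hfa] at h1
      have h2 : ∑ j, a j * (iv n - iv n0) j = e ⬝ᵥ (L *ᵥ (iv n - iv n0)) := by
        rw [Matrix.dotProduct_mulVec, ← hae]; rfl
      rw [h2, Matrix.mulVec_sub] at h1
      simp only [dotProduct, Pi.sub_apply] at h1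
      have h3 : ∑ k, ((L *ᵥ iv n) k + c k) * e k - ∑ k, ((L *ᵥ iv n0) k + c k) * e k =
          ∑ k, e k * ((L *ᵥ iv n) k - (L *ᵥ iv n0) k) := by
        rw [← Finset.sum_sub_distrib]
        exact Finset.sum_congr rfl fun k _ => by ring
      linarith
    obtain ⟨n1, hn1, hp1⟩ := hdir e he0
    obtain ⟨n2, hn2, hp2⟩ := hdir (-e) (neg_ne_zero.mpr he0)
    rw [hval n1 hn1] at hp1
    simp only [Pi.neg_apply, mul_neg, Finset.sum_neg_distrib] at hp2
    rw [hval n2 hn2] at hp2
    linarith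
  obtain ⟨f, hfS, -, hli⟩ := Submodule.exists_fun_fin_finrank_span_eq ℝ S
  have hfin : Module.finrank ℝ (Submodule.span ℝ S) = d := by
    rw [hspan, finrank_top, Module.finrank_fin_fun]
  set g : Fin d → (Fin d → ℝ) := fun i => f (Fin.cast hfin.symm i) with hg
  have hgli : LinearIndependent ℝ g := hli.comp _ (Fin.cast_injective _)
  have hgS : ∀ i, ∃ n ∈ V, iv n - iv n0 = g i := fun i => hfS _
  choose n hnV hng using hgS
  refine ⟨Matrix.of fun j i => n i j - n0 j, ?_, ?_⟩
  · intro h0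
    have h1 : IsUnit (im (Matrix.of fun j i => n i j - n0 j)) := by
      have h2 : (im (Matrix.of fun j i => n i j - n0 j)).col = g := by
        ext i j
        rw [← hng i]
        simp [Matrix.col, iv]
      rw [← Matrix.linearIndependent_cols_iff_isUnit, h2]
      exact hgli
    rw [Matrix.isUnit_iff_isUnit_det, im_det, h0] at h1
    simp at h1
  · have hint : ∀ k i, ∃ w : ℤ, (L * im (Matrix.of fun j i => n i j - n0 j)) k i = w := by
      intro k i
      have h1 : (L * im (Matrix.of fun j i => n i j - n0 j)) k i =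
          ((L *ᵥ iv (n i)) k + c k) - ((L *ᵥ iv n0) k + c k) := by
        rw [mul_im_col]
        have h2 : iv (fun l => (Matrix.of fun j i => n i j - n0 j) l i) = iv (n i) - iv n0 := by
          ext l; simp
        rw [h2, Matrix.mulVec_sub, Pi.sub_apply]; ring
      rw [h1]
      have h3 : ∀ x : ℝ, x ^ 2 = 1 / 4 → x = 1 / 2 ∨ x = -(1 / 2) := by
        intro x hx
        have h4 : (x - 1 / 2) * (x + 1 / 2) = 0 := by ring_nf; linarith
        rcases mul_eq_zero.mp h4 with h | h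
        · left; linarith
        · right; linarith
      rcases h3 _ (hnV i k) with h4 | h4 <;> rcases h3 _ (hn0 k) with h5 | h5 <;> rw [h4, h5]
      · exact ⟨0, by norm_num⟩
      · exact ⟨1, by norm_num⟩
      · exact ⟨-1, by norm_num⟩
      · exact ⟨0, by norm_num⟩
    choose W hW using hint
    exact ⟨Matrix.of W, by ext k i; rw [hW]; rfl⟩

/-- covering radius at most `√d / 2`: every equality case is diagonalisable -/
theorem cov_exact {d : ℕ} {L : Matrix (Fin d) (Fin d) ℝ} {c : Fin d → ℝ}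
    (hdet : |L.det| = 1) (hE : EqC L c)
    (hcov : ∀ x : Fin d → ℝ, ∃ n : Fin d → ℤ, ∑ k, ((L *ᵥ iv n) k - x k) ^ 2 ≤ d / 4) :
    Dg L c := by
  rcases Nat.eq_zero_or_pos d with hd | hd
  · subst hd
    exact good_empty L c hE
  have hL : L.det ≠ 0 := by rw [← abs_pos, hdet]; exact one_pos
  have hdir := cov_direction hdet hE hcov
  obtain ⟨n0, hn0, -⟩ := hdir (fun _ => 1) (by
    intro h
    have := congrFun h ⟨0, hd⟩
    simp at this)
  obtain ⟨N, hN, W, hW⟩ := exists_int_basis hL hdir n0 hn0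
  have hN' : (N.det : ℝ) ≠ 0 := by exact_mod_cast hN
  have h1 : (N.det : ℝ) • L = im (W * N.adjugate) := by
    have h0 : im (N.det • (1 : Matrix (Fin d) (Fin d) ℤ)) =
        (N.det : ℝ) • (1 : Matrix (Fin d) (Fin d) ℝ) := by
      ext i j
      by_cases hij : i = j
      · subst hij
        rw [im_apply, Matrix.smul_apply, Matrix.smul_apply, Matrix.one_apply_eq,
          Matrix.one_apply_eq]
        simp
      · rw [im_apply, Matrix.smul_apply, Matrix.smul_apply, Matrix.one_apply_ne hij,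
          Matrix.one_apply_ne hij]
        simp
    rw [im_mul, ← hW, Matrix.mul_assoc, ← im_mul, Matrix.mul_adjugate, h0, Matrix.mul_smul,
      Matrix.mul_one]
  have h2 : rs (fun _ => (N.det : ℝ)) L = im (W * N.adjugate) := by
    rw [← h1]; ext i j; simp
  have h3 : (W * N.adjugate).det ≠ 0 := by
    intro h0
    have h4 : (im (W * N.adjugate)).det = 0 := by rw [im_det, h0, Int.cast_zero]
    rw [← h2, rs_det] at h4
    rcases mul_eq_zero.mp h4 with h | h
    · exact (Finset.prod_ne_zero_iff.mpr fun _ _ => hN') h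
    · exact hL h
  have h4 := int_good d _ h3
  rw [← h2, Good_rs_iff (fun _ => hN')] at h4
  exact h4 c hE

end Run7.h361
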