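import Mathlib
import Pool.Agent.Run7.h361.Cov
import Pool.Agent.Run7.h361.Rel

/-!
Lattices whose translates by a suitable compact set cover the space are good.
-/

open Matrix Finset Filter Topology

set_option linter.unusedSectionVars false

namespace Run7.h361

theorem sq_quarter {x : ℝ} (h : |x| = 1 / 2) : x ^ 2 = 1 / 4 := by
  rw [← sq_abs, h]; norm_num

theorem covK_direction {d : ℕ} {L : Matrix (Fin d) (Fin d) ℝ} {c : Fin d → ℝ}
    {K : Set (Fin d → ℝ)} (hK : IsCompact K)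
    (h1 : ∀ x ∈ K, |∏ k, x k| < 1 / 2 ^ d ∨ ∀ k, |x k| = 1 / 2)
    (h2 : ∀ s ∈ K, (∀ k, |s k| = 1 / 2) → ∀ e : Fin d → ℝ, e ≠ 0 →
      (∃ᶠ t : ℝ in 𝓝[>] 0, s + t • e ∈ K) → ∑ k, s k * e k < 0)
    (hdet : |L.det| = 1) (hE : EqC L c)
    (hcov : ∀ x : Fin d → ℝ, ∃ n : Fin d → ℤ, (L *ᵥ iv n) - x ∈ K)
    (e : Fin d → ℝ) (he : e ≠ 0) :
    ∃ n : Fin d → ℤ, (∀ k, ((L *ᵥ iv n) k + c k) ^ 2 = 1 / 4) ∧
      0 < ∑ k, ((L *ᵥ iv n) k + c k) * e k := by
  have hL : L.det ≠ 0 := by rw [← abs_pos, hdet]; exact one_pos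
  have hE' : ∀ n : Fin d → ℤ, 1 / 2 ^ d ≤ |∏ k, ((L *ᵥ iv n) k + c k)| := by
    intro n
    have := hE n
    rwa [Fintype.card_fin, hdet] at this
  obtain ⟨R0, hR0⟩ := hK.isBounded.exists_norm_le
  set R : ℝ := R0 + ∑ k, |e k| + ∑ k, |c k| with hR
  have hFfin : {n : Fin d → ℤ | ∀ k, |(L *ᵥ iv n) k| ≤ R}.Finite := finite_lattice_box hL R
  have hchoose : ∀ t : ℝ, ∃ n : Fin d → ℤ, (fun k => (L *ᵥ iv n) k + c k) + t • (-e) ∈ K := by
    intro t
    obtain ⟨n, hn⟩ := hcov (fun k => -c k + t * e k)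
    refine ⟨n, ?_⟩
    have : (fun k => (L *ᵥ iv n) k + c k) + t • (-e) = (L *ᵥ iv n) - (fun k => -c k + t * e k) := by
      ext k; simp; ring
    rw [this]; exact hn
  choose n hn using hchoose
  have hbox : ∀ᶠ t : ℝ in 𝓝[>] 0, n t ∈ {n : Fin d → ℤ | ∀ k, |(L *ᵥ iv n) k| ≤ R} := by
    have hev2 : ∀ᶠ t in 𝓝[>] (0 : ℝ), t ≤ 1 :=
      (eventually_le_nhds (by norm_num : (0 : ℝ) < 1)).filter_mono nhdsWithin_le_nhds
    filter_upwards [hev2, self_mem_nhdsWithin] with t ht1 ht0 k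
    have ht0' : 0 < t := ht0
    have h3 : |e k| ≤ ∑ k, |e k| :=
      Finset.single_le_sum (f := fun k => |e k|) (fun _ _ => abs_nonneg _) (Finset.mem_univ k)
    have h4 : |c k| ≤ ∑ k, |c k| :=
      Finset.single_le_sum (f := fun k => |c k|) (fun _ _ => abs_nonneg _) (Finset.mem_univ k)
    have h5 : |(L *ᵥ iv (n t)) k + c k - t * e k| ≤ R0 := by
      have h6 := (norm_le_pi_norm _ k).trans (hR0 _ (hn t))
      have h7 : ((fun k => (L *ᵥ iv (n t)) k + c k) + t • (-e)) k =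
          (L *ᵥ iv (n t)) k + c k - t * e k := by simp; ring
      rwa [h7] at h6
    have h6 : |t * e k| ≤ |e k| := by
      rw [abs_mul, abs_of_pos ht0']
      nlinarith [abs_nonneg (e k)]
    have h7 : (L *ᵥ iv (n t)) k = ((L *ᵥ iv (n t)) k + c k - t * e k) + t * e k - c k := by ring
    rw [h7]
    calc _ ≤ |((L *ᵥ iv (n t)) k + c k - t * e k) + t * e k| + |c k| := abs_sub _ _
      _ ≤ |(L *ᵥ iv (n t)) k + c k - t * e k| + |t * e k| + |c k| := by
          gcongr; exact abs_add_le _ _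
      _ ≤ R := by rw [hR]; linarith
  obtain ⟨m, hm⟩ : ∃ m : Fin d → ℤ, ∃ᶠ t : ℝ in 𝓝[>] 0, n t = m := by
    by_contra hcon
    push Not at hcon
    have h3 : ∀ᶠ t : ℝ in 𝓝[>] 0,
        ∀ m ∈ {n : Fin d → ℤ | ∀ k, |(L *ᵥ iv n) k| ≤ R}, n t ≠ m := by
      rw [Filter.eventually_all_finite hFfin]
      intro m _
      exact hcon m
    obtain ⟨t, ht1, ht2⟩ := (h3.and hbox).exists
    exact ht1 _ ht2 rfl
  set x : Fin d → ℝ := fun k => (L *ᵥ iv m) k + c k with hx
  have hfreq : ∃ᶠ t : ℝ in 𝓝[>] 0, x + t • (-e) ∈ K := by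
    refine hm.mono fun t ht => ?_
    have := hn t
    rwa [ht] at this
  have hxK : x ∈ K := by
    have hcont : Continuous fun t : ℝ => x + t • (-e) := by fun_prop
    have h3 : Tendsto (fun t : ℝ => x + t • (-e)) (𝓝[>] 0) (𝓝 x) := by
      have := (hcont.tendsto 0).mono_left (nhdsWithin_le_nhds (s := Set.Ioi (0 : ℝ)))
      simpa using this
    exact hK.isClosed.mem_of_frequently_of_tendsto hfreq h3
  have hhalf : ∀ k, |x k| = 1 / 2 := by
    rcases h1 x hxK with h | h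
    · exact absurd (hE' m) (not_le.mpr h)
    · exact h
  refine ⟨m, fun k => sq_quarter (hhalf k), ?_⟩
  have h3 := h2 x hxK hhalf (-e) (neg_ne_zero.mpr he) hfreq
  simp only [Pi.neg_apply, mul_neg, Finset.sum_neg_distrib] at h3
  linarith

theorem covK_exact {d : ℕ} {L : Matrix (Fin d) (Fin d) ℝ} {c : Fin d → ℝ}
    {K : Set (Fin d → ℝ)} (hK : IsCompact K)
    (h1 : ∀ x ∈ K, |∏ k, x k| < 1 / 2 ^ d ∨ ∀ k, |x k| = 1 / 2)
    (h2 : ∀ s ∈ K, (∀ k, |s k| = 1 / 2) → ∀ e : Fin d → ℝ, e ≠ 0 →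
      (∃ᶠ t : ℝ in 𝓝[>] 0, s + t • e ∈ K) → ∑ k, s k * e k < 0)
    (hdet : |L.det| = 1) (hE : EqC L c)
    (hcov : ∀ x : Fin d → ℝ, ∃ n : Fin d → ℤ, (L *ᵥ iv n) - x ∈ K) :
    Dg L c := by
  rcases Nat.eq_zero_or_pos d with hd | hd
  · subst hd
    exact good_empty L c hE
  have hL : L.det ≠ 0 := by rw [← abs_pos, hdet]; exact one_pos
  have hdir := covK_direction hK h1 h2 hdet hE hcov
  obtain ⟨n0, hn0, -⟩ := hdir (fun _ => 1) (by
    intro h
    have := congrFun h ⟨0, hd⟩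
    simp at this)
  obtain ⟨N, hN, W, hW⟩ := exists_int_basis hL hdir n0 hn0
  have hN' : (N.det : ℝ) ≠ 0 := by exact_mod_cast hN
  have h1 : (N.det : ℝ) • L = im (W * N.adjugate) := by
    have h0 : im (N.det • (1 : Matrix (Fin d) (Fin d) ℤ)) =
        (N.det : ℝ) • (1 : Matrix (Fin d) (Fin d) ℝ) := by
      ext i j
      by_cases hij : i = j
      · subst hij
        rw [im_apply, Matrix.smul_apply, Matrix.smul_apply, Matrix.one_apply_eq,
          Matrix.one_apply_eq]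
        simp
      · rw [im_apply, Matrix.smul_apply, Matrix.smul_apply, Matrix.one_apply_ne hij,
          Matrix.one_apply_ne hij]
        simp
    rw [im_mul, ← hW, Matrix.mul_assoc, ← im_mul, Matrix.mul_adjugate, h0, Matrix.mul_smul,
      Matrix.mul_one]
  have h2 : rs (fun _ => (N.det : ℝ)) L = im (W * N.adjugate) := by
    rw [← h1]; ext i j; simp
  have h3 : (W * N.adjugate).det ≠ 0 := by
    intro h0
    have h4 : (im (W * N.adjugate)).det = 0 := by rw [im_det, h0, Int.cast_zero]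
    rw [← h2, rs_det] at h4
    rcases mul_eq_zero.mp h4 with h | h
    · exact (Finset.prod_ne_zero_iff.mpr fun _ _ => hN') h
    · exact hL h
  have h4 := int_good d _ h3
  rw [← h2, Good_rs_iff (fun _ => hN')] at h4
  exact h4 c hE

theorem abs_inv_le {d : ℕ} {M : Matrix (Fin d) (Fin d) ℝ} {B : ℝ} (hB : 1 ≤ B)
    (hdet : |M.det| = 1) (hM : ∀ i j, |M i j| ≤ B) (i j : Fin d) :
    |M⁻¹ i j| ≤ (d.factorial : ℝ) * B ^ d := by
  rw [Matrix.inv_def, Matrix.smul_apply, Ring.inverse_eq_inv', smul_eq_mul, abs_mul, abs_inv,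
    hdet, inv_one, one_mul, Matrix.adjugate_apply]
  have h1 := Matrix.det_le (A := M.updateRow j (Pi.single i 1)) (abv := AbsoluteValue.abs)
    (x := B) (by
      intro a b
      rw [AbsoluteValue.abs_apply, Matrix.updateRow_apply]
      split_ifs with h
      · by_cases hb : b = i
        · subst hb; simpa using hB
        · rw [Pi.single_eq_of_ne hb, abs_zero]; linarith
      · exact hM a b)
  rw [AbsoluteValue.abs_apply, Fintype.card_fin, nsmul_eq_mul] at h1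
  exact h1

/-- a lattice of bounded covering radius has a bounded basis -/
theorem cov_basis (d : ℕ) {R : ℝ} (hR : 0 < R) : ∃ B : ℝ, 0 < B ∧
    ∀ L : Matrix (Fin d) (Fin d) ℝ, |L.det| = 1 →
    (∀ x : Fin d → ℝ, ∃ n : Fin d → ℤ, ∀ k, |(L *ᵥ iv n) k - x k| ≤ R) →
    ∃ U : Matrix (Fin d) (Fin d) ℤ, IsUnit U.det ∧ ∀ i k, |(L * im U) i k| ≤ B := by
  rcases Nat.eq_zero_or_pos d with hd | hd
  · subst hd
    exact ⟨1, one_pos, fun L _ _ => ⟨1, by simp, fun i => i.elim0⟩⟩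
  obtain ⟨K, hK1, hK⟩ := red d
  have hK0 : 0 < K := by linarith
  set C : ℝ := (d.factorial : ℝ) * (K ^ 2) ^ d with hC
  have hC0 : 0 < C := by positivity
  refine ⟨K * (K * (2 * (d * C * R))), by positivity, ?_⟩
  intro L hdet hcov
  have hL : L.det ≠ 0 := by rw [← abs_pos, hdet]; exact one_pos
  obtain ⟨σ, U, β, hU, hβ0, hβm, hβp, hβe⟩ := hK L hL
  refine ⟨U, hU, ?_⟩
  set l : Fin d := ⟨d - 1, by omega⟩ with hl
  have hle : ∀ i : Fin d, i ≤ l := fun i => by
    rw [Fin.le_def]; simp only [hl]; omega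
  set M : Matrix (Fin d) (Fin d) ℝ := Matrix.of fun i j => (L * im U) (σ i) j / β j with hM
  have hMb : ∀ i j, |M i j| ≤ K ^ 2 := by
    intro i j
    simp only [hM, Matrix.of_apply]
    rw [abs_div, abs_of_pos (hβ0 j), div_le_iff₀ (hβ0 j)]
    have h3 := hβe i j
    have h4 := hβm (min i j) j (min_le_right _ _)
    nlinarith
  have hMeq : (L * im U).submatrix σ id = M * Matrix.diagonal β := by
    ext i j
    rw [Matrix.mul_diagonal]
    simp only [hM, Matrix.submatrix_apply, Matrix.of_apply, id_eq]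
    have := (hβ0 j).ne'
    field_simp
  have hMdet : |M.det| = 1 := by
    have h3 : |((L * im U).submatrix σ id).det| = 1 := by
      rw [Matrix.det_permute, abs_mul, Matrix.det_mul, abs_mul, abs_det_unit hU, hdet, mul_one,
        mul_one]
      rcases Int.units_eq_one_or (Equiv.Perm.sign σ) with h | h <;> simp [h]
    rw [hMeq, Matrix.det_mul, Matrix.det_diagonal, hβp, hdet, mul_one] at h3
    exact h3
  have hM0 : M.det ≠ 0 := by rw [← abs_pos, hMdet]; exact one_pos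
  have hMinv := abs_inv_le (by nlinarith : (1 : ℝ) ≤ K ^ 2) hMdet hMb
  have hMM : M⁻¹ * M = 1 := Matrix.nonsing_inv_mul _ (isUnit_iff_ne_zero.mpr hM0)
  -- the half-integral point
  set y : Fin d → ℝ := M *ᵥ (Pi.single l (β l / 2)) with hy
  obtain ⟨n, hn⟩ := hcov (fun i => y (σ.symm i))
  obtain ⟨V, hV, hUV, hVU⟩ := exists_inv hU
  set m := V *ᵥ n with hm
  have hAm : ∀ k, (L *ᵥ iv n) (σ k) = (M *ᵥ (β * iv m)) k := by
    intro k
    have h3 : U *ᵥ m = n := by rw [hm, Matrix.mulVec_mulVec, hUV, Matrix.one_mulVec]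
    rw [← h3, ← im_mulVec, Matrix.mulVec_mulVec]
    simp only [Matrix.mulVec, dotProduct, hM, Matrix.of_apply, Pi.mul_apply]
    refine Finset.sum_congr rfl fun j _ => ?_
    have := (hβ0 j).ne'
    field_simp
  have hval : (M⁻¹ *ᵥ (M *ᵥ (β * iv m) - y)) l = β l * ((m l : ℝ) - 1 / 2) := by
    rw [hy, ← Matrix.mulVec_sub, Matrix.mulVec_mulVec, hMM, Matrix.one_mulVec]
    simp only [Pi.sub_apply, Pi.mul_apply, iv_apply, Pi.single_eq_same]
    ring
  have hub : |(M⁻¹ *ᵥ (M *ᵥ (β * iv m) - y)) l| ≤ d * C * R := by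
    simp only [Matrix.mulVec, dotProduct]
    refine (Finset.abs_sum_le_sum_abs _ _).trans ?_
    have h3 : ∀ k ∈ Finset.univ, |M⁻¹ l k * (M *ᵥ (β * iv m) - y) k| ≤ C * R := by
      intro k _
      rw [abs_mul]
      refine mul_le_mul (hMinv l k) ?_ (abs_nonneg _) hC0.le
      have h4 := hn (σ k)
      rw [hAm, Equiv.symm_apply_apply] at h4
      exact h4
    refine (Finset.sum_le_sum h3).trans ?_
    rw [Finset.sum_const, Finset.card_univ, Fintype.card_fin, nsmul_eq_mul]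
    linarith
  have hhalf : (1 : ℝ) / 2 ≤ |(m l : ℝ) - 1 / 2| := by
    have := half_le (m l - 1)
    have h3 : ((m l - 1 : ℤ) : ℝ) + 1 / 2 = (m l : ℝ) - 1 / 2 := by push_cast; ring
    rwa [h3] at this
  have hβl : β l ≤ 2 * (d * C * R) := by
    rw [hval, abs_mul, abs_of_pos (hβ0 l)] at hub
    have := hβ0 l
    nlinarith
  intro i j
  have h3 := hβe (σ.symm i) j
  rw [Equiv.apply_symm_apply] at h3
  refine h3.trans ?_
  have h4 := hβm (min (σ.symm i) j) l (hle _)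
  refine mul_le_mul_of_nonneg_left (h4.trans ?_) hK0.le
  exact mul_le_mul_of_nonneg_left hβl hK0.le

/-- translates of the set `K` by a lattice which almost cover the space -/
theorem covK_eps (d : ℕ) {K : Set (Fin d → ℝ)} (hK : IsCompact K)
    (h1 : ∀ x ∈ K, |∏ k, x k| < 1 / 2 ^ d ∨ ∀ k, |x k| = 1 / 2)
    (h2 : ∀ s ∈ K, (∀ k, |s k| = 1 / 2) → ∀ e : Fin d → ℝ, e ≠ 0 →
      (∃ᶠ t : ℝ in 𝓝[>] 0, s + t • e ∈ K) → ∑ k, s k * e k < 0) :
    ∃ ε : ℝ, 0 < ε ∧ ∀ L : Matrix (Fin d) (Fin d) ℝ, |L.det| = 1 →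
      (∀ x : Fin d → ℝ, ∃ n : Fin d → ℤ, ∃ y ∈ K, ∀ k, |(L *ᵥ iv n) k - x k - y k| ≤ ε) →
      Good L := by
  rcases Nat.eq_zero_or_pos d with hd | hd
  · subst hd
    exact ⟨1, one_pos, fun L _ _ => good_empty L⟩
  by_contra hcon
  push Not at hcon
  obtain ⟨R0, hR0pos, hR0⟩ : ∃ R0 : ℝ, 0 < R0 ∧ ∀ y ∈ K, ∀ k, |y k| ≤ R0 := by
    obtain ⟨R0, hR0⟩ := hK.isBounded.exists_norm_le
    refine ⟨|R0| + 1, by positivity, fun y hy k => ?_⟩
    have := (norm_le_pi_norm y k).trans (hR0 y hy)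
    rw [Real.norm_eq_abs] at this
    linarith [le_abs_self R0]
  obtain ⟨B, hB0, hB⟩ := cov_basis d (R := R0 + 1) (by positivity)
  have hstep : ∀ j : ℕ, ∃ (A : Matrix (Fin d) (Fin d) ℝ) (c : Fin d → ℝ), |A.det| = 1 ∧
      EqC A c ∧ ¬ Dg A c ∧ (∀ i k, |A i k| ≤ B) ∧ (∀ i, |c i| ≤ d * B) ∧
      (∀ x : Fin d → ℝ, ∃ n : Fin d → ℤ, ∃ y ∈ K,
        ∀ k, |(A *ᵥ iv n) k - x k - y k| ≤ 1 / ((j : ℝ) + 1)) := by
    intro j
    obtain ⟨L, hdet, hcov, hnot⟩ := hcon (1 / ((j : ℝ) + 1)) (by positivity)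
    unfold Good at hnot
    push Not at hnot
    obtain ⟨c, hEq, hDg⟩ := hnot
    have hj1 : 1 / ((j : ℝ) + 1) ≤ 1 := by
      rw [div_le_one (by positivity)]
      have : (0 : ℝ) ≤ j := Nat.cast_nonneg j
      linarith
    obtain ⟨U, hU, hUB⟩ := hB L hdet (by
      intro x
      obtain ⟨n, y, hy, hn⟩ := hcov x
      refine ⟨n, fun k => ?_⟩
      have h3 := hn k
      have h4 := hR0 y hy k
      have h5 : (L *ᵥ iv n) k - x k = ((L *ᵥ iv n) k - x k - y k) + y k := by ring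
      rw [h5]
      refine (abs_add_le _ _).trans ?_
      linarith)
    have hAdet : |(L * im U).det| = 1 := by
      rw [Matrix.det_mul, abs_mul, abs_det_unit hU, hdet, mul_one]
    have hA0 : (L * im U).det ≠ 0 := by rw [← abs_pos, hAdet]; exact one_pos
    obtain ⟨m, hm⟩ := exists_shift hA0 hUB c
    refine ⟨L * im U, c + (L * im U) *ᵥ iv m, hAdet, ?_, ?_, hUB, ?_, ?_⟩
    · rw [EqC_add_iff, EqC_mul_iff hU]; exact hEq
    · rw [Dg_add_iff, Dg_mul_iff hU]; exact hDg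
    · intro i
      have := hm i
      rwa [Fintype.card_fin] at this
    · intro x
      obtain ⟨n, y, hy, hn⟩ := hcov x
      obtain ⟨V, hV, hUV, hVU⟩ := exists_inv hU
      refine ⟨V *ᵥ n, y, hy, fun k => ?_⟩
      have h3 : (L * im U) *ᵥ iv (V *ᵥ n) = L *ᵥ iv n := by
        rw [← Matrix.mulVec_mulVec, im_mulVec, Matrix.mulVec_mulVec, hUV, Matrix.one_mulVec]
      rw [h3]; exact hn k
  choose A c hdet hEq hDg hAB hcB hcov using hstep
  obtain ⟨Y, φ, hφ, hlim⟩ := exists_subseq (X := fun j => (A j, c j, (0 : Matrix (Fin d) (Fin d) ℝ)))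
    (R := max B (d * B)) (fun j i k => (hAB j i k).trans (le_max_left _ _))
    (fun j i => (hcB j i).trans (le_max_right _ _))
    (fun j i k => by simpa using Or.inl hB0.le)
  obtain ⟨A0, c0, R1⟩ := Y
  have hlimA : Tendsto (fun j => A (φ j)) atTop (𝓝 A0) := (continuous_fst.tendsto _).comp hlim
  have hlimc : Tendsto (fun j => c (φ j)) atTop (𝓝 c0) :=
    ((continuous_fst.comp continuous_snd).tendsto _).comp hlim
  have hdet0 : |A0.det| = 1 := by
    have h3 : Tendsto (fun j => |(A (φ j)).det|) atTop (𝓝 |A0.det|) := by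
      have : Continuous fun M : Matrix (Fin d) (Fin d) ℝ => |M.det| :=
        (Continuous.matrix_det continuous_id).abs
      exact (this.tendsto A0).comp hlimA
    simp only [hdet] at h3
    exact tendsto_nhds_unique h3 tendsto_const_nhds
  have hA00 : A0.det ≠ 0 := by rw [← abs_pos, hdet0]; exact one_pos
  have hEq0 : EqC A0 c0 := EqC_of_tendsto hlimA hlimc (Filter.Eventually.of_forall fun j => hEq _)
  have hvec : ∀ l : Fin d → ℤ, Tendsto (fun j => (A (φ j)) *ᵥ iv l) atTop (𝓝 (A0 *ᵥ iv l)) := by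
    intro l
    have hcont : Continuous fun M : Matrix (Fin d) (Fin d) ℝ => M *ᵥ iv l :=
      Continuous.matrix_mulVec continuous_id continuous_const
    exact (hcont.tendsto A0).comp hlimA
  have hlimε : Tendsto (fun j => 1 / ((φ j : ℝ) + 1)) atTop (𝓝 0) :=
    tendsto_one_div_add_atTop_nhds_zero_nat.comp hφ.tendsto_atTop
  have hcov0 : ∀ x : Fin d → ℝ, ∃ n : Fin d → ℤ, (A0 *ᵥ iv n) - x ∈ K := by
    intro x
    have h3 : ∀ j, ∃ n : Fin d → ℤ, ∃ y ∈ K,
        ∀ k, |((A (φ j)) *ᵥ iv n) k - x k - y k| ≤ 1 / ((φ j : ℝ) + 1) := fun j => hcov (φ j) x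
    choose n y hy hn using h3
    set Q : ℝ := 1 + R0 + ∑ k, |x k| with hQ
    set D : ℝ := (d.factorial : ℝ) * (max 1 B) ^ d with hD
    have hbound : ∀ j i, |(n j i : ℝ)| ≤ (∑ _i : Fin d, ∑ _k : Fin d, D) * Q := by
      intro j i
      have hAj : (A (φ j)).det ≠ 0 := by rw [← abs_pos, hdet]; exact one_pos
      have h4 : ∀ k, |((A (φ j)) *ᵥ iv (n j)) k| ≤ Q := by
        intro k
        have h5 := hn j k
        have h6 := hR0 _ (hy j) k
        have h7 : |x k| ≤ ∑ k, |x k| :=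
          Finset.single_le_sum (f := fun k => |x k|) (fun _ _ => abs_nonneg _) (Finset.mem_univ k)
        have h8 : 1 / ((φ j : ℝ) + 1) ≤ 1 := by
          rw [div_le_one (by positivity)]
          have : (0 : ℝ) ≤ φ j := Nat.cast_nonneg _
          linarith
        have h9 : ((A (φ j)) *ᵥ iv (n j)) k =
            (((A (φ j)) *ᵥ iv (n j)) k - x k - y j k) + y j k + x k := by ring
        rw [h9]
        calc _ ≤ |(((A (φ j)) *ᵥ iv (n j)) k - x k - y j k) + y j k| + |x k| := abs_add_le _ _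
          _ ≤ |((A (φ j)) *ᵥ iv (n j)) k - x k - y j k| + |y j k| + |x k| := by
              gcongr; exact abs_add_le _ _
          _ ≤ Q := by rw [hQ]; linarith
      have hQ0 : 0 ≤ Q := (abs_nonneg _).trans (h4 i)
      refine (abs_iv_le hAj h4 i).trans ?_
      refine mul_le_mul_of_nonneg_right ?_ hQ0
      refine Finset.sum_le_sum fun a _ => Finset.sum_le_sum fun b _ => ?_
      exact abs_inv_le (le_max_left _ _) (hdet _) (fun i k => (hAB _ i k).trans (le_max_right _ _))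
        a b
    have hfin := finite_int_box (ι := Fin d) ((∑ _i : Fin d, ∑ _k : Fin d, D) * Q)
    obtain ⟨m, hm⟩ : ∃ m : Fin d → ℤ, ∃ᶠ j in atTop, n j = m := by
      by_contra hcon2
      push Not at hcon2
      have h3 : ∀ᶠ j in atTop, ∀ m ∈ {m : Fin d → ℤ | ∀ i, |(m i : ℝ)| ≤
          (∑ _i : Fin d, ∑ _k : Fin d, D) * Q}, n j ≠ m := by
        rw [Filter.eventually_all_finite hfin]
        intro m _
        exact hcon2 m
      obtain ⟨j, hj⟩ := h3.exists
      exact hj (n j) (hbound j) rfl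
    refine ⟨m, ?_⟩
    -- a further subsequence
    obtain ⟨ψ, hψ, hψm⟩ := Filter.extraction_of_frequently_atTop hm
    obtain ⟨y0, hy0, θ, hθ, hθlim⟩ := hK.tendsto_subseq (fun j => hy (ψ j))
    have hcomp : Tendsto (fun j => ψ (θ j)) atTop atTop :=
      hψ.tendsto_atTop.comp hθ.tendsto_atTop
    have h4 : y0 = (A0 *ᵥ iv m) - x := by
      ext k
      have h5 : Tendsto (fun j => |((A (φ (ψ (θ j)))) *ᵥ iv m) k - x k - y (ψ (θ j)) k|) atTop
          (𝓝 |(A0 *ᵥ iv m) k - x k - y0 k|) := by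
        refine Tendsto.abs (Tendsto.sub (Tendsto.sub ?_ tendsto_const_nhds) ?_)
        · exact ((tendsto_pi_nhds.mp (hvec m)) k).comp hcomp
        · exact (tendsto_pi_nhds.mp hθlim) k
      have h6 : |(A0 *ᵥ iv m) k - x k - y0 k| ≤ 0 := by
        refine le_of_tendsto_of_tendsto' h5 (hlimε.comp hcomp) fun j => ?_
        have h7 := hn (ψ (θ j)) k
        rwa [hψm (θ j)] at h7
      have h7 := abs_nonpos_iff.mp h6
      rw [Pi.sub_apply]; linarith
    rw [← h4]; exact hy0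
  have hDg0 : Dg A0 c0 := covK_exact hK h1 h2 hdet0 hEq0 hcov0
  have hiso := iso_eventually A0 c0 hDg0 hA00
  have hpair : Tendsto (fun j => (A (φ j), c (φ j))) atTop (𝓝 (A0, c0)) := hlimA.prodMk_nhds hlimc
  obtain ⟨j, hj⟩ := (hpair.eventually hiso).exists
  exact hDg _ (hj (hEq _))

end Run7.h361
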