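import Mathlib
import Pool.Agent.Run7.h361.CovK

/-!
Covering sets: the definition used in the statement, and balls.
-/

open Matrix Finset Filter Topology

set_option linter.unusedSectionVars false

namespace Run7.h361

/-- A compact set `K` on which `|∏ x_k| < 1 / 2 ^ d`, except possibly at the points `s` with all
coordinates `± 1 / 2`, and which at each such point `s ∈ K` lies strictly under the tangent plane:
if `s + t e ∈ K` for arbitrarily small `t > 0`, where `e ≠ 0`, then `∑ s_k e_k < 0`. -/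
def CoveringSet {d : ℕ} (K : Set (Fin d → ℝ)) : Prop :=
  IsCompact K ∧ (∀ x ∈ K, |∏ k, x k| < 1 / 2 ^ d ∨ ∀ k, |x k| = 1 / 2) ∧
    ∀ s ∈ K, (∀ k, |s k| = 1 / 2) → ∀ e : Fin d → ℝ, e ≠ 0 →
      (∀ δ : ℝ, 0 < δ → ∃ t : ℝ, 0 < t ∧ t < δ ∧ s + t • e ∈ K) → ∑ k, s k * e k < 0

theorem freq_iff {d : ℕ} {K : Set (Fin d → ℝ)} {s e : Fin d → ℝ} :
    (∃ᶠ t : ℝ in 𝓝[>] 0, s + t • e ∈ K) ↔
      ∀ δ : ℝ, 0 < δ → ∃ t : ℝ, 0 < t ∧ t < δ ∧ s + t • e ∈ K := by
  rw [(nhdsGT_basis (0 : ℝ)).frequently_iff]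
  constructor
  · intro h δ hδ
    obtain ⟨t, ht, htK⟩ := h δ hδ
    exact ⟨t, ht.1, ht.2, htK⟩
  · intro h δ hδ
    obtain ⟨t, h1, h2, h3⟩ := h δ hδ
    exact ⟨t, ⟨h1, h2⟩, h3⟩

/-- the balls `∑ |x_k| ^ p ≤ d / 2 ^ p`, `p > 1`, are covering sets; `p = 2` is the Euclidean ball
of radius `√d / 2` -/
theorem coveringSet_lp (d : ℕ) {p : ℝ} (hp : 1 < p) :
    CoveringSet {x : Fin d → ℝ | ∑ k, |x k| ^ p ≤ d / 2 ^ p} := by
  have hp0 : 0 < p := by linarith
  have h2p : (0 : ℝ) < 2 ^ p := by positivity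
  have hmul : ∀ x : Fin d → ℝ, ∑ k, |x k| ^ p ≤ d / 2 ^ p ↔ ∑ k, (2 * |x k|) ^ p ≤ d := by
    intro x
    rw [le_div_iff₀ h2p, Finset.sum_mul]
    have : ∀ k, (2 * |x k|) ^ p = |x k| ^ p * 2 ^ p := fun k => by
      rw [Real.mul_rpow (by norm_num) (abs_nonneg _), mul_comm]
    simp only [this]
  refine ⟨?_, ?_, ?_⟩
  · have hclosed : IsClosed {x : Fin d → ℝ | ∑ k, |x k| ^ p ≤ d / 2 ^ p} := by
      refine isClosed_le (continuous_finsetSum _ fun k _ => ?_) continuous_const
      exact ((continuous_apply k).abs).rpow_const fun x => Or.inr hp0.le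
    refine IsCompact.of_isClosed_subset (isCompact_univ_pi fun _ : Fin d =>
      isCompact_Icc (a := -((d : ℝ) + 1)) (b := (d : ℝ) + 1)) hclosed ?_
    intro x hx k _
    rw [Set.mem_ofPred_eq, hmul] at hx
    have h1 : (2 * |x k|) ^ p ≤ d :=
      (Finset.single_le_sum (f := fun k => (2 * |x k|) ^ p) (fun _ _ => by positivity)
        (Finset.mem_univ k)).trans hx
    rw [Set.mem_Icc, ← abs_le]
    by_contra hcon
    push Not at hcon
    have hd0 : (0 : ℝ) ≤ d := Nat.cast_nonneg d
    have h2 : 1 ≤ 2 * |x k| := by linarith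
    have h3 := Real.self_le_rpow_of_one_le h2 hp.le
    linarith [abs_nonneg (x k)]
  · intro x hx
    rw [Set.mem_ofPred_eq, hmul] at hx
    by_cases h : |∏ k, x k| < 1 / 2 ^ d
    · exact Or.inl h
    right
    push Not at h
    have hne : ∀ k, x k ≠ 0 := by
      intro k hk
      rw [Finset.prod_eq_zero (Finset.mem_univ k) hk, abs_zero] at h
      have : (0 : ℝ) < 1 / 2 ^ d := by positivity
      linarith
    have hpos : ∀ k, 0 < 2 * |x k| := fun k => by have := abs_pos.mpr (hne k); positivity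
    have hposp : ∀ k, 0 < (2 * |x k|) ^ p := fun k => Real.rpow_pos_of_pos (hpos k) p
    have hlog : 0 ≤ ∑ k, Real.log ((2 * |x k|) ^ p) := by
      have h1 : ∑ k, Real.log ((2 * |x k|) ^ p) = p * ∑ k, Real.log (2 * |x k|) := by
        rw [Finset.mul_sum]
        exact Finset.sum_congr rfl fun k _ => Real.log_rpow (hpos k) p
      rw [h1, ← Real.log_prod (fun k _ => (hpos k).ne')]
      refine mul_nonneg hp0.le (Real.log_nonneg ?_)
      rw [Finset.prod_mul_distrib, Finset.prod_const, Finset.card_univ, Fintype.card_fin,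
        ← Finset.abs_prod]
      rw [div_le_iff₀ (by positivity)] at h
      linarith
    have hsum : ∑ k, ((2 * |x k|) ^ p - 1) ≤ 0 := by
      rw [Finset.sum_sub_distrib]
      simp only [Finset.sum_const, Finset.card_univ, Fintype.card_fin, nsmul_eq_mul, mul_one]
      linarith
    intro k
    by_contra hk
    have h3 : ∑ k, Real.log ((2 * |x k|) ^ p) < ∑ k, ((2 * |x k|) ^ p - 1) := by
      refine Finset.sum_lt_sum (fun j _ => Real.log_le_sub_one_of_pos (hposp j))
        ⟨k, Finset.mem_univ k, Real.log_lt_sub_one_of_pos (hposp k) ?_⟩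
      intro h4
      apply hk
      have h5 : (2 * |x k|) ^ p = (1 : ℝ) ^ p := by rw [h4, Real.one_rpow]
      have h6 := (Real.rpow_left_inj (hpos k).le zero_le_one hp0.ne').mp h5
      linarith
    linarith
  · intro s _ hs e he hfreq
    have hs2 : ∀ k, s k * s k = 1 / 4 := fun k => by
      have := sq_quarter (hs k)
      rw [← this]; ring
    obtain ⟨j, hj⟩ := Function.ne_iff.mp he
    have hj' : e j ≠ 0 := hj
    set E : ℝ := ∑ k, |e k| with hE
    have hEk : ∀ k, |e k| ≤ E := fun k =>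
      Finset.single_le_sum (f := fun k => |e k|) (fun _ _ => abs_nonneg _) (Finset.mem_univ k)
    have hE0 : 0 < E := (abs_pos.mpr hj').trans_le (hEk j)
    obtain ⟨t, ht0, ht1, htK⟩ := hfreq (1 / (4 * E)) (by positivity)
    rw [Set.mem_ofPred_eq, hmul] at htK
    have h1 : ∀ k, 2 * |(s + t • e) k| = 1 + 4 * t * (s k * e k) := by
      intro k
      have h2 : (s + t • e) k = s k * (1 + 4 * t * (s k * e k)) := by
        have := hs2 k
        simp only [Pi.add_apply, Pi.smul_apply, smul_eq_mul]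
        linear_combination (-4 * t * e k) * this
      rw [h2, abs_mul, hs k, abs_of_nonneg]
      · ring
      · have h3 : |4 * t * (s k * e k)| ≤ 1 := by
          rw [abs_mul (4 * t), abs_mul (s k), hs k, abs_of_pos (by positivity : 0 < 4 * t)]
          rw [lt_div_iff₀ (by positivity)] at ht1
          have := hEk k
          nlinarith [abs_nonneg (e k)]
        linarith [neg_abs_le (4 * t * (s k * e k))]
    have hge : ∀ k, -1 ≤ 4 * t * (s k * e k) := fun k => by
      have := h1 k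
      have h2 : 0 ≤ 2 * |(s + t • e) k| := by positivity
      linarith
    simp only [h1] at htK
    have h4 : ∑ k, (1 + p * (4 * t * (s k * e k))) < ∑ k, (1 + 4 * t * (s k * e k)) ^ p := by
      refine Finset.sum_lt_sum (fun k _ => one_add_mul_self_le_rpow_one_add (hge k) hp.le)
        ⟨j, Finset.mem_univ j, one_add_mul_self_lt_rpow_one_add (hge j) ?_ hp⟩
      have : s j ≠ 0 := by
        intro h0
        have := hs j
        rw [h0, abs_zero] at this
        norm_num at this
      positivity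
    rw [Finset.sum_add_distrib, ← Finset.mul_sum, ← Finset.mul_sum] at h4
    simp only [Finset.sum_const, Finset.card_univ, Fintype.card_fin, nsmul_eq_mul, mul_one] at h4
    have h5 : p * (4 * t * ∑ k, s k * e k) < 0 := by linarith
    have h6 : 0 < p * (4 * t) := by positivity
    by_contra hcon
    push Not at hcon
    have h7 : 0 ≤ p * (4 * t) * ∑ k, s k * e k := mul_nonneg h6.le hcon
    nlinarith

/-- the statement for covering sets -/
theorem covering_main {d : ℕ} {K : Set (Fin d → ℝ)} (hK : CoveringSet K) :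
    ∃ ε : ℝ, 0 < ε ∧ ∀ (L : Matrix (Fin d) (Fin d) ℝ) (t : Fin d → ℝ), (∀ k, 0 < t k) →
      (∏ k, t k) * |L.det| = 1 →
      (∀ x : Fin d → ℝ, ∃ n : Fin d → ℤ, ∃ y ∈ K,
        ∀ k, |t k * (L *ᵥ toReal n) k - x k - y k| ≤ ε) →
      ∀ c : Fin d → ℝ, EqualityCase L c → Diagonalisable L c := by
  obtain ⟨hK0, hK1, hK2⟩ := hK
  obtain ⟨ε, hε, h⟩ := covK_eps d hK0 hK1 fun s hs hs2 e he hf => hK2 s hs hs2 e he (freq_iff.mp hf)
  refine ⟨ε, hε, fun L t ht hdet hcov c hE => ?_⟩
  rw [diagonalisable_iff]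
  have hEq := ((equalityCase_iff L c).1 hE).2
  have hdet1 : |(rs t L).det| = 1 := by
    rw [rs_det, abs_mul, abs_of_pos (Finset.prod_pos fun k _ => ht k)]; exact hdet
  have hgood := h (rs t L) hdet1 (by
    intro x
    obtain ⟨n, y, hy, hn⟩ := hcov x
    refine ⟨n, y, hy, fun k => ?_⟩
    rw [rs_mulVec]
    exact hn k)
  rw [Good_rs_iff fun k => (ht k).ne'] at hgood
  exact hgood c hEq

end Run7.h361
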