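import Mathlib
import Pool.Agent.Run7.h361.Bridge

/-!
Diagonally dominant forms: determinant estimates and the measure on a unit cell.
-/

open Matrix Finset

set_option linter.unusedSectionVars false

namespace Run7.h361

/-- a solution of a dominated system is bounded by the right-hand side -/
theorem dom_bound {ι : Type*} [Fintype ι] [DecidableEq ι] {S : Matrix ι ι ℝ} {ρ : ℝ}
    (hρ : 0 < ρ) (h : ∀ k, ρ + ∑ j ∈ univ.erase k, |S k j| ≤ |S k k|) {w b : ι → ℝ} {β : ℝ}
    (hw : S *ᵥ w = b) (hb : ∀ i, |b i| ≤ β) (i : ι) : ρ * |w i| ≤ β := by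
  obtain ⟨i0, -, hmax⟩ := Finset.exists_max_image (univ : Finset ι) (fun i => |w i|)
    ⟨i, Finset.mem_univ i⟩
  have hrow := congrFun hw i0
  simp only [Matrix.mulVec, dotProduct] at hrow
  rw [← Finset.add_sum_erase _ _ (Finset.mem_univ i0)] at hrow
  have h1 : |S i0 i0| * |w i0| ≤ β + (∑ j ∈ univ.erase i0, |S i0 j|) * |w i0| := by
    have h2 : S i0 i0 * w i0 = b i0 - ∑ j ∈ univ.erase i0, S i0 j * w j := by linarith
    rw [← abs_mul, h2]
    refine (abs_sub _ _).trans (add_le_add (hb i0) ?_)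
    refine (Finset.abs_sum_le_sum_abs _ _).trans ?_
    rw [Finset.sum_mul]
    refine Finset.sum_le_sum fun j _ => ?_
    rw [abs_mul]
    exact mul_le_mul_of_nonneg_left (hmax j (Finset.mem_univ j)) (abs_nonneg _)
  have h3 := h i0
  have h4 := hmax i (Finset.mem_univ i)
  have h5 := abs_nonneg (w i0)
  nlinarith

theorem det_ge_of_dom : ∀ {n : ℕ} {S : Matrix (Fin n) (Fin n) ℝ} {ρ : ℝ}, 0 < ρ →
    (∀ k, ρ + ∑ j ∈ univ.erase k, |S k j| ≤ |S k k|) → ρ ^ n ≤ |S.det|
  | 0, S, ρ, _, _ => by simp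
  | n + 1, S, ρ, hρ, h => by
    have hdet : S.det ≠ 0 := det_ne_zero_of_sum_row_lt_diag (A := S) (fun k => by
      have := h k
      simp only [Real.norm_eq_abs]
      linarith)
    set w : Fin (n + 1) → ℝ := S⁻¹ *ᵥ Pi.single 0 1 with hw
    have hSw : S *ᵥ w = Pi.single 0 1 := by
      rw [hw, Matrix.mulVec_mulVec, Matrix.mul_nonsing_inv _ (isUnit_iff_ne_zero.mpr hdet),
        Matrix.one_mulVec]
    have hb : ∀ i, |(Pi.single 0 1 : Fin (n + 1) → ℝ) i| ≤ 1 := by
      intro i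
      by_cases hi : i = 0
      · subst hi; simp
      · rw [Pi.single_eq_of_ne hi]; simp
    have h1 := dom_bound hρ h hSw hb 0
    have h2 := det_of_mulVec_single' S w 0 1 hSw
    rw [abs_one, one_mul] at h2
    have h3 : ρ ^ n ≤ |(slice S 0).det| := by
      refine det_ge_of_dom hρ fun k => ?_
      have h4 := h k.succ
      simp only [slice, Matrix.of_apply, Fin.succAbove_zero]
      refine le_trans (add_le_add_right ?_ ρ) h4
      have h5 : ∑ j ∈ univ.erase k, |S k.succ j.succ| =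
          ∑ j ∈ (univ.erase k).map (Fin.succEmb n), |S k.succ j| := by
        rw [Finset.sum_map]; rfl
      rw [h5]
      refine Finset.sum_le_sum_of_subset_of_nonneg ?_ fun _ _ _ => abs_nonneg _
      intro j hj
      rw [Finset.mem_map] at hj
      obtain ⟨i, hi, rfl⟩ := hj
      rw [Finset.mem_erase] at hi ⊢
      exact ⟨fun h => hi.1 (Fin.succ_injective _ h), Finset.mem_univ _⟩
    rw [pow_succ]
    rw [← h2] at h3
    have h6 := abs_nonneg S.det
    nlinarith [abs_nonneg (w 0)]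

theorem det_ge_of_dom' {κ : Type*} [Fintype κ] [DecidableEq κ] {S : Matrix κ κ ℝ} {ρ : ℝ}
    (hρ : 0 < ρ) (h : ∀ k, ρ + ∑ j ∈ univ.erase k, |S k j| ≤ |S k k|) :
    ρ ^ Fintype.card κ ≤ |S.det| := by
  set e := Fintype.equivFin κ with he
  have h1 : |S.det| = |(Matrix.reindex e e S).det| := by rw [Matrix.det_reindex_self]
  rw [h1]
  refine det_ge_of_dom hρ fun k => ?_
  have h2 := h (e.symm k)
  simp only [Matrix.reindex_apply, Matrix.submatrix_apply]
  refine le_trans (le_of_eq ?_) h2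
  congr 1
  refine Finset.sum_bij (fun j _ => e.symm j) ?_ ?_ ?_ ?_
  · intro j hj
    rw [Finset.mem_erase] at hj ⊢
    exact ⟨fun h => hj.1 (e.symm.injective h), Finset.mem_univ _⟩
  · intro a _ b _ hab; exact e.symm.injective hab
  · intro b hb
    refine ⟨e b, ?_, by simp⟩
    rw [Finset.mem_erase] at hb ⊢
    exact ⟨fun h => hb.1 (by rw [← h]; simp), Finset.mem_univ _⟩
  · intro j _; rfl

/-- comparison of the determinant with a principal minor -/
theorem det_minor {κ ν : Type*} [Fintype κ] [DecidableEq κ] [Fintype ν] [DecidableEq ν]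
    {A : Matrix κ κ ℝ} {B : Matrix κ ν ℝ} {C : Matrix ν κ ℝ} {D : Matrix ν ν ℝ} {ρ : ℝ}
    (hρ : 0 < ρ)
    (h1 : ∀ k, ρ + (∑ j ∈ univ.erase k, |A k j| + ∑ i, |B k i|) ≤ |A k k|)
    (h2 : ∀ i, ρ + (∑ k, |C i k| + ∑ j ∈ univ.erase i, |D i j|) ≤ |D i i|) :
    ρ ^ Fintype.card κ * |D.det| ≤ |(fromBlocks A B C D).det| := by
  have hD : ∀ i, ρ + ∑ j ∈ univ.erase i, |D i j| ≤ |D i i| := by
    intro i
    have := h2 i
    have h3 : 0 ≤ ∑ k, |C i k| := Finset.sum_nonneg fun _ _ => abs_nonneg _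
    linarith
  have hDdet : D.det ≠ 0 := det_ne_zero_of_sum_row_lt_diag (A := D) (fun k => by
    have := hD k
    simp only [Real.norm_eq_abs]
    linarith)
  have hDu : IsUnit D.det := isUnit_iff_ne_zero.mpr hDdet
  letI : Invertible D := D.invertibleOfIsUnitDet hDu
  rw [Matrix.det_fromBlocks₂₂, abs_mul, mul_comm]
  refine mul_le_mul_of_nonneg_left ?_ (abs_nonneg _)
  refine det_ge_of_dom' hρ fun k => ?_
  set M : Matrix ν κ ℝ := D⁻¹ * C with hM
  have hDM : D * M = C := by
    rw [hM, ← Matrix.mul_assoc, Matrix.mul_nonsing_inv _ hDu, Matrix.one_mul]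
  have hinv : B * ⅟D * C = B * M := by
    rw [Matrix.invOf_eq_nonsing_inv, Matrix.mul_assoc]
  rw [hinv]
  -- row sums of `M` are at most one
  have hm : ∀ i, ∑ j, |M i j| ≤ 1 := by
    intro i
    obtain ⟨i0, -, hmax⟩ := Finset.exists_max_image (univ : Finset ν) (fun i => ∑ j, |M i j|)
      ⟨i, Finset.mem_univ i⟩
    refine (hmax i (Finset.mem_univ i)).trans ?_
    by_contra hcon
    push Not at hcon
    set m := ∑ j, |M i0 j| with hmdef
    have h3 : ∀ j, |D i0 i0| * |M i0 j| ≤ |C i0 j| + ∑ l ∈ univ.erase i0, |D i0 l| * |M l j| := by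
      intro j
      have h4 := congrFun (congrFun hDM i0) j
      rw [Matrix.mul_apply, ← Finset.add_sum_erase _ _ (Finset.mem_univ i0)] at h4
      have h5 : D i0 i0 * M i0 j = C i0 j - ∑ l ∈ univ.erase i0, D i0 l * M l j := by linarith
      rw [← abs_mul, h5]
      refine (abs_sub _ _).trans (add_le_add le_rfl ?_)
      refine (Finset.abs_sum_le_sum_abs _ _).trans (le_of_eq ?_)
      exact Finset.sum_congr rfl fun l _ => abs_mul _ _
    have h4 : |D i0 i0| * m ≤ ∑ j, |C i0 j| + ∑ l ∈ univ.erase i0, |D i0 l| * ∑ j, |M l j| := by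
      calc |D i0 i0| * m = ∑ j, |D i0 i0| * |M i0 j| := by rw [hmdef, Finset.mul_sum]
        _ ≤ ∑ j, (|C i0 j| + ∑ l ∈ univ.erase i0, |D i0 l| * |M l j|) :=
            Finset.sum_le_sum fun j _ => h3 j
        _ = _ := by
            rw [Finset.sum_add_distrib, Finset.sum_comm]
            simp only [Finset.mul_sum]
    have h5 : ∑ l ∈ univ.erase i0, |D i0 l| * ∑ j, |M l j| ≤
        (∑ l ∈ univ.erase i0, |D i0 l|) * m := by
      rw [Finset.sum_mul]
      exact Finset.sum_le_sum fun l _ => mul_le_mul_of_nonneg_left (hmax l (Finset.mem_univ l))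
        (abs_nonneg _)
    have h6 := h2 i0
    have h7 : 0 ≤ ∑ k, |C i0 k| := Finset.sum_nonneg fun _ _ => abs_nonneg _
    nlinarith
  have hBM : ∑ j, |(B * M) k j| ≤ ∑ i, |B k i| := by
    calc ∑ j, |(B * M) k j| ≤ ∑ j, ∑ i, |B k i| * |M i j| := by
          refine Finset.sum_le_sum fun j _ => ?_
          rw [Matrix.mul_apply]
          refine (Finset.abs_sum_le_sum_abs _ _).trans (le_of_eq ?_)
          exact Finset.sum_congr rfl fun l _ => abs_mul _ _
      _ = ∑ i, |B k i| * ∑ j, |M i j| := by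
          rw [Finset.sum_comm]
          simp only [Finset.mul_sum]
      _ ≤ ∑ i, |B k i| * 1 := Finset.sum_le_sum fun i _ =>
          mul_le_mul_of_nonneg_left (hm i) (abs_nonneg _)
      _ = _ := by simp
  have h3 : ∑ j ∈ univ.erase k, |(A - B * M) k j| ≤
      ∑ j ∈ univ.erase k, |A k j| + ∑ j ∈ univ.erase k, |(B * M) k j| := by
    rw [← Finset.sum_add_distrib]
    exact Finset.sum_le_sum fun j _ => by rw [Matrix.sub_apply]; exact abs_sub _ _
  have h4 : |A k k| - |(B * M) k k| ≤ |(A - B * M) k k| := by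
    rw [Matrix.sub_apply]; exact abs_sub_abs_le_abs_sub _ _
  have h5 : ∑ j, |(B * M) k j| = |(B * M) k k| + ∑ j ∈ univ.erase k, |(B * M) k j| :=
    (Finset.add_sum_erase _ _ (Finset.mem_univ k)).symm
  have h6 := h1 k
  linarith

end Run7.h361
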