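import Mathlib
import Pool.Agent.Run7.h361.Dom

/-!
The balanced measure on a unit cell, over an arbitrary finite index type.
-/

open Matrix Finset

set_option linter.unusedSectionVars false

namespace Run7.h361

/-- the vertex of the unit cube given by a Boolean vector -/
def bit {ν : Type*} (s : ν → Bool) : ν → ℝ := fun j => if s j = true then 1 else 0

theorem cell_measure {ν : Type*} [Fintype ν] [DecidableEq ν] (D : Matrix ν ν ℝ) (e : ν → ℝ)
    (h : ∀ (s : ν → Bool) (k : ν), if s k = true then 0 < (D *ᵥ bit s) k + e k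
      else (D *ᵥ bit s) k + e k < 0) :
    D.det ≠ 0 ∧ ∃ (J : Type) (_ : Fintype J) (p : J → ℝ) (s : J → ν → Bool), (∀ j, 0 < p j) ∧
      ∑ j, p j = 1 ∧ (∀ k, ∑ j, p j * ((D *ᵥ bit (s j)) k + e k) = 0) ∧
      ∑ j, p j * Real.log |∏ k, ((D *ᵥ bit (s j)) k + e k)| ≤
        Real.log (|D.det| / 2 ^ Fintype.card ν) := by
  set q := Fintype.equivFin ν with hq
  set D' := Matrix.reindex q q D with hD'
  set e' := e ∘ q.symm with he'
  have hval : ∀ (v : Fin (Fintype.card ν) → ℝ) (k : Fin (Fintype.card ν)),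
      (D' *ᵥ v) k + e' k = (D *ᵥ (v ∘ q)) (q.symm k) + e (q.symm k) := by
    intro v k
    rw [hD', reindex_mulVec]
    rfl
  have hbit : ∀ s : Fin (Fintype.card ν) → Bool,
      (iv (fun j => (0 : Fin (Fintype.card ν) → ℤ) j + if s j = true then 1 else 0)) ∘ q =
        bit (s ∘ q) := by
    intro s
    ext j
    simp only [Function.comp_apply, iv_apply, bit, Pi.zero_apply, zero_add]
    split_ifs <;> simp
  obtain ⟨S, hS, hS'⟩ := divided_of_cell D' e' 0 (by
    intro s k
    have h1 := h (s ∘ q) (q.symm k)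
    rw [hval, hbit]
    simpa using h1)
  obtain ⟨hdet, ⟨P⟩⟩ := hS.bal
  have hdet' : D'.det = D.det := by rw [hD', Matrix.det_reindex_self]
  rw [hdet'] at hdet
  choose s hs using fun j => hS' _ (P.hn j)
  have hpt : ∀ j k, (D' *ᵥ iv (P.n j)) k + e' k =
      (D *ᵥ bit (s j ∘ q)) (q.symm k) + e (q.symm k) := by
    intro j k
    rw [hs j, hval, hbit]
  refine ⟨hdet, P.ι, P.ft, P.p, fun j => s j ∘ q, P.hp, P.hs, ?_, ?_⟩
  · intro k
    have h1 := P.hbar (q k)
    simp only [hpt, Equiv.symm_apply_apply] at h1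
    exact h1
  · have h1 := P.hlog
    rw [hdet'] at h1
    refine le_trans (le_of_eq ?_) h1
    refine Finset.sum_congr rfl fun j _ => ?_
    congr 3
    rw [← Equiv.prod_comp q]
    refine Finset.prod_congr rfl fun k _ => ?_
    rw [hpt, Equiv.symm_apply_apply]

end Run7.h361
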