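import Mathlib
import Pool.Agent.Run7.h361.CellM

/-!
Diagonally dominant forms: every equality case is diagonalisable.
-/

open Matrix Finset

set_option linter.unusedSectionVars false

namespace Run7.h361

/-- perturbation estimate for a dominated row -/
theorem row_abs_le {d : ℕ} {L : Matrix (Fin d) (Fin d) ℝ}
    (h2 : ∀ k, ∑ j ∈ univ.erase k, |L k j| ≤ 1 / 4) (k : Fin d) (v : Fin d → ℝ) {M : ℝ}
    (hM : 0 ≤ M) (hv : ∀ j ∈ univ.erase k, |v j| ≤ M) :
    |∑ j ∈ univ.erase k, L k j * v j| ≤ 1 / 4 * M := by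
  refine (Finset.abs_sum_le_sum_abs _ _).trans ?_
  calc ∑ j ∈ univ.erase k, |L k j * v j| ≤ ∑ j ∈ univ.erase k, |L k j| * M := by
        refine Finset.sum_le_sum fun j hj => ?_
        rw [abs_mul]
        exact mul_le_mul_of_nonneg_left (hv j hj) (abs_nonneg _)
    _ = (∑ j ∈ univ.erase k, |L k j|) * M := by rw [Finset.sum_mul]
    _ ≤ _ := mul_le_mul_of_nonneg_right (h2 k) hM

theorem mulVec_split {d : ℕ} {L : Matrix (Fin d) (Fin d) ℝ} (h1 : ∀ k, L k k = 1)
    (v : Fin d → ℝ) (k : Fin d) : (L *ᵥ v) k = v k + ∑ j ∈ univ.erase k, L k j * v j := by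
  simp only [Matrix.mulVec, dotProduct]
  rw [← Finset.add_sum_erase _ _ (Finset.mem_univ k), h1, one_mul]

/-- the sign of a coordinate is the sign of the corresponding lattice coordinate -/
theorem sign_of_dom {d : ℕ} {L : Matrix (Fin d) (Fin d) ℝ} (h1 : ∀ k, L k k = 1)
    (h2 : ∀ k, ∑ j ∈ univ.erase k, |L k j| ≤ 1 / 4) (v : Fin d → ℝ) (hv : ∀ j, |v j| ≤ 4 / 5)
    (k : Fin d) (b : Bool) (hb : if b = true then 1 / 5 < v k else v k < -(1 / 5)) :
    if b = true then 0 < (L *ᵥ v) k else (L *ᵥ v) k < 0 := by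
  have h3 := row_abs_le h2 k v (by norm_num : (0 : ℝ) ≤ 4 / 5) (fun j _ => hv j)
  rw [mulVec_split h1]
  have h4 := abs_le.mp h3
  split_ifs at hb ⊢ with h
  · linarith [h4.1]
  · linarith [h4.2]

theorem good_of_dom {d : ℕ} (L : Matrix (Fin d) (Fin d) ℝ) (h1 : ∀ k, L k k = 1)
    (h2 : ∀ k, ∑ j ∈ univ.erase k, |L k j| ≤ 1 / 4) : Good L := by
  classical
  intro c hE
  have hdet : L.det ≠ 0 := det_ne_zero_of_sum_row_lt_diag (A := L) (fun k => by
    have := h2 k
    simp only [Real.norm_eq_abs]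
    rw [h1, abs_one]
    linarith)
  set y : Fin d → ℝ := -(L⁻¹ *ᵥ c) with hy
  have hLy : L *ᵥ y = -c := by
    rw [hy, Matrix.mulVec_neg, Matrix.mulVec_mulVec,
      Matrix.mul_nonsing_inv _ (isUnit_iff_ne_zero.mpr hdet), Matrix.one_mulVec]
  set φ : Fin d → ℝ := fun i => Int.fract (y i) with hφ
  have hφ0 : ∀ i, 0 ≤ φ i := fun i => Int.fract_nonneg _
  have hφ1 : ∀ i, φ i < 1 := fun i => Int.fract_lt_one _
  have hfl : ∀ i, ((⌊y i⌋ : ℤ) : ℝ) = y i - φ i := fun i => by
    simp only [hφ]; rw [Int.self_sub_fract]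
  set p : Fin d → Prop := fun i => φ i ≤ 1 / 5 ∨ 4 / 5 ≤ φ i with hp
  set n : ({i // ¬ p i} → Bool) → Fin d → ℤ := fun s i =>
    if hpi : p i then (if φ i ≤ 1 / 5 then ⌊y i⌋ else ⌊y i⌋ + 1)
    else ⌊y i⌋ + (if s ⟨i, hpi⟩ = true then 1 else 0) with hn
  set z : ({i // ¬ p i} → Bool) → Fin d → ℝ := fun s i => (n s i : ℝ) - y i with hz
  have hzp : ∀ s i, p i → |z s i| ≤ 1 / 5 := by
    intro s i hpi
    simp only [hz, hn, dif_pos hpi]
    split_ifs with h
    · rw [hfl, abs_le]; constructor <;> linarith [hφ0 i]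
    · have h' : 4 / 5 ≤ φ i := by
        rcases hpi with h3 | h3
        · exact absurd h3 h
        · exact h3
      push_cast
      rw [hfl, abs_le]; constructor <;> linarith [hφ1 i]
  have hznp : ∀ s i (hpi : ¬ p i), z s i = (if s ⟨i, hpi⟩ = true then 1 else 0) - φ i := by
    intro s i hpi
    simp only [hz, hn, dif_neg hpi]
    push_cast
    rw [hfl]
    split_ifs <;> ring
  have hφnp : ∀ i, ¬ p i → 1 / 5 < φ i ∧ φ i < 4 / 5 := by
    intro i hpi
    simp only [hp, not_or, not_le] at hpi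
    exact hpi
  have hz45 : ∀ s i, |z s i| ≤ 4 / 5 := by
    intro s i
    by_cases hpi : p i
    · exact (hzp s i hpi).trans (by norm_num)
    · rw [hznp s i hpi]
      have := hφnp i hpi
      rw [abs_le]
      split_ifs <;> constructor <;> linarith
  have hx : ∀ s, L *ᵥ z s = L *ᵥ iv (n s) + c := by
    intro s
    have h3 : z s = iv (n s) - y := by ext i; rfl
    rw [h3, Matrix.mulVec_sub, hLy, sub_neg_eq_add]
  have hsign : ∀ s i (hpi : ¬ p i), if s ⟨i, hpi⟩ = true then 0 < (L *ᵥ z s) i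
      else (L *ᵥ z s) i < 0 := by
    intro s i hpi
    refine sign_of_dom h1 h2 (z s) (hz45 s) i _ ?_
    rw [hznp s i hpi]
    have := hφnp i hpi
    split_ifs <;> linarith
  by_cases hK : ∀ i, ¬ p i
  · -- the unit cell around the origin is divided
    obtain ⟨S, hS, -⟩ := divided_of_cell L c (fun i => ⌊y i⌋) (by
      intro s k
      obtain ⟨s', hs'⟩ : ∃ s' : {i // ¬ p i} → Bool, ∀ i, s' i = s i.1 := ⟨fun i => s i.1, fun _ => rfl⟩
      have h4 : n s' = fun j => ⌊y j⌋ + if s j = true then 1 else 0 := by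
        ext j
        simp only [hn, dif_neg (hK j), hs']
      have h5 := congrFun (hx s') k
      rw [Pi.add_apply, h4] at h5
      have h3 := hsign s' k (hK k)
      rw [h5, hs'] at h3
      exact h3)
    exact hS.dg hE
  exfalso
  push Not at hK
  obtain ⟨k0, hk0⟩ := hK
  -- the block decomposition
  set A : Matrix {i // p i} {i // p i} ℝ := Matrix.of fun i j => L i.1 j.1 with hA
  set B : Matrix {i // p i} {i // ¬ p i} ℝ := Matrix.of fun i j => L i.1 j.1 with hB
  set C : Matrix {i // ¬ p i} {i // p i} ℝ := Matrix.of fun i j => L i.1 j.1 with hC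
  set D : Matrix {i // ¬ p i} {i // ¬ p i} ℝ := Matrix.of fun i j => L i.1 j.1 with hD
  have hblock : |(fromBlocks A B C D).det| = |L.det| := by
    have h3 : fromBlocks A B C D =
        Matrix.reindex (Equiv.sumCompl p).symm (Equiv.sumCompl p).symm L := by
      ext i j
      rcases i with i | i <;> rcases j with j | j <;> simp [hA, hB, hC, hD]
    rw [h3, Matrix.det_reindex_self]
  have hsum : ∀ k, ∑ j : {i // p i}, |L k j.1| + ∑ j : {i // ¬ p i}, |L k j.1| ≤ 5 / 4 := by
    intro k
    rw [Fintype.sum_subtype_add_sum_subtype p (fun j => |L k j|),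
      ← Finset.add_sum_erase _ _ (Finset.mem_univ k), h1, abs_one]
    linarith [h2 k]
  have hminor : (3 / 4 : ℝ) ^ Fintype.card {i // p i} * |D.det| ≤ |L.det| := by
    rw [← hblock]
    refine det_minor (by norm_num) ?_ ?_
    · intro k
      have h3 := hsum k.1
      have h4 : ∑ j : {i // p i}, |L k.1 j.1| = |A k k| + ∑ j ∈ univ.erase k, |A k j| :=
        (Finset.add_sum_erase _ _ (Finset.mem_univ k)).symm
      have h5 : |A k k| = 1 := by simp only [hA, Matrix.of_apply]; rw [h1, abs_one]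
      have h6 : ∑ i, |B k i| = ∑ j : {i // ¬ p i}, |L k.1 j.1| := rfl
      rw [h6]
      linarith
    · intro k
      have h3 := hsum k.1
      have h4 : ∑ j : {i // ¬ p i}, |L k.1 j.1| = |D k k| + ∑ j ∈ univ.erase k, |D k j| :=
        (Finset.add_sum_erase _ _ (Finset.mem_univ k)).symm
      have h5 : |D k k| = 1 := by simp only [hD, Matrix.of_apply]; rw [h1, abs_one]
      have h6 : ∑ i, |C k i| = ∑ j : {i // p i}, |L k.1 j.1| := rfl
      rw [h6]
      linarith
  -- the measure on the partial cell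
  have hcell : ∀ (s : {i // ¬ p i} → Bool) (k : {i // ¬ p i}),
      (D *ᵥ bit s) k + (L *ᵥ z (fun _ => false)) k.1 = (L *ᵥ z s) k.1 := by
    intro s k
    have h3 : (L *ᵥ z s) k.1 - (L *ᵥ z (fun _ => false)) k.1 =
        ∑ j, L k.1 j * (z s j - z (fun _ => false) j) := by
      simp only [Matrix.mulVec, dotProduct, mul_sub, Finset.sum_sub_distrib]
    have h4 : ∑ j, L k.1 j * (z s j - z (fun _ => false) j) = (D *ᵥ bit s) k := by
      rw [← Fintype.sum_subtype_add_sum_subtype p]
      have h5 : ∑ j : {i // p i}, L k.1 j.1 * (z s j.1 - z (fun _ => false) j.1) = 0 := by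
        refine Finset.sum_eq_zero fun j _ => ?_
        have : z s j.1 = z (fun _ => false) j.1 := by
          simp only [hz, hn, dif_pos j.2]
        rw [this, sub_self, mul_zero]
      rw [h5, zero_add]
      simp only [Matrix.mulVec, dotProduct]
      refine Finset.sum_congr rfl fun j _ => ?_
      have h6 := hznp s j.1 j.2
      have h7 := hznp (fun _ => false) j.1 j.2
      have h8 : z s j.1 - z (fun _ => false) j.1 = bit s j := by
        rw [h6, h7]
        simp [bit]
      rw [h8]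
      rfl
    linarith
  obtain ⟨hDdet, J, hJ, w, s, hw0, hw1, hbar, hlog⟩ := cell_measure D
    (fun k => (L *ᵥ z (fun _ => false)) k.1) (by
      intro s k
      rw [hcell]
      exact hsign s k.1 k.2)
  simp only [hcell] at hbar hlog
  -- mean values
  set Z : Fin d → ℝ := fun i => ∑ j, w j * z (s j) i with hZ
  have hLZ : ∀ k, (L *ᵥ Z) k = ∑ j, w j * (L *ᵥ z (s j)) k := by
    intro k
    simp only [Matrix.mulVec, dotProduct, hZ, Finset.mul_sum]
    rw [Finset.sum_comm]
    refine Finset.sum_congr rfl fun j _ => Finset.sum_congr rfl fun i _ => by ring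
  have hJne : Nonempty J := by
    by_contra hcon
    rw [not_nonempty_iff] at hcon
    simp at hw1
  have hZp : ∀ i, p i → |Z i| ≤ 1 / 5 := by
    intro i hpi
    calc |Z i| ≤ ∑ j, |w j * z (s j) i| := Finset.abs_sum_le_sum_abs _ _
      _ ≤ ∑ j, w j * (1 / 5) := by
          refine Finset.sum_le_sum fun j _ => ?_
          rw [abs_mul, abs_of_pos (hw0 j)]
          exact mul_le_mul_of_nonneg_left (hzp _ i hpi) (hw0 j).le
      _ = 1 / 5 := by rw [← Finset.sum_mul, hw1, one_mul]
  have hZrow : ∀ i, ¬ p i → ∀ M, 0 ≤ M → (∀ j, |Z j| ≤ M) → |Z i| ≤ 1 / 4 * M := by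
    intro i hpi M hM0 hM
    have h3 := hbar ⟨i, hpi⟩
    simp only at h3
    rw [← hLZ, mulVec_split h1] at h3
    have h4 := row_abs_le h2 i Z hM0 (fun j _ => hM j)
    have h5 : Z i = -∑ j ∈ univ.erase i, L i j * Z j := by linarith
    rw [h5, abs_neg]; exact h4
  have hZ15 : ∀ i, |Z i| ≤ 1 / 5 := by
    obtain ⟨i0, -, hmax⟩ := Finset.exists_max_image (univ : Finset (Fin d)) (fun i => |Z i|)
      ⟨k0, Finset.mem_univ k0⟩
    intro i
    refine (hmax i (Finset.mem_univ i)).trans ?_
    by_cases hpi : p i0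
    · exact hZp i0 hpi
    · have h3 := hZrow i0 hpi |Z i0| (abs_nonneg _) (fun j => hmax j (Finset.mem_univ j))
      have h4 := abs_nonneg (Z i0)
      linarith
  have hZnp : ∀ i, ¬ p i → |Z i| ≤ 1 / 20 := by
    intro i hpi
    have := hZrow i hpi (1 / 5) (by norm_num) hZ15
    linarith
  have hEz : ∀ i, ∑ j, w j * |z (s j) i| ≤ 11 / 20 := by
    intro i
    by_cases hpi : p i
    · calc ∑ j, w j * |z (s j) i| ≤ ∑ j, w j * (1 / 5) :=
            Finset.sum_le_sum fun j _ => mul_le_mul_of_nonneg_left (hzp _ i hpi) (hw0 j).le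
        _ = 1 / 5 := by rw [← Finset.sum_mul, hw1, one_mul]
        _ ≤ _ := by norm_num
    · have hφi := hφnp i hpi
      have h3 : ∀ j, |z (s j) i| = z (s j) i * (1 - 2 * φ i) + 2 * φ i * (1 - φ i) := by
        intro j
        rw [hznp _ i hpi]
        split_ifs
        · rw [abs_of_pos (by linarith)]; ring
        · rw [abs_of_neg (by linarith)]; ring
      simp only [h3, mul_add, Finset.sum_add_distrib]
      have h4 : ∑ j, w j * (z (s j) i * (1 - 2 * φ i)) = Z i * (1 - 2 * φ i) := by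
        simp only [hZ, Finset.sum_mul]
        exact Finset.sum_congr rfl fun j _ => by ring
      rw [h4, ← Finset.sum_mul, hw1, one_mul]
      have h5 : Z i * (1 - 2 * φ i) ≤ 1 / 20 := by
        have h6 := hZnp i hpi
        have h7 : |1 - 2 * φ i| ≤ 1 := by rw [abs_le]; constructor <;> linarith
        calc Z i * (1 - 2 * φ i) ≤ |Z i * (1 - 2 * φ i)| := le_abs_self _
          _ = |Z i| * |1 - 2 * φ i| := abs_mul _ _
          _ ≤ 1 / 20 * 1 := mul_le_mul h6 h7 (abs_nonneg _) (by norm_num)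
          _ = 1 / 20 := by norm_num
      have h6 : 2 * φ i * (1 - φ i) ≤ 1 / 2 := by nlinarith [sq_nonneg (φ i - 1 / 2)]
      linarith
  have hEx : ∀ k, p k → ∑ j, w j * |(L *ᵥ z (s j)) k| ≤ 27 / 80 := by
    intro k hpk
    have h3 : ∀ j, |(L *ᵥ z (s j)) k| ≤ 1 / 5 + ∑ i ∈ univ.erase k, |L k i| * |z (s j) i| := by
      intro j
      rw [mulVec_split h1]
      refine (abs_add_le _ _).trans (add_le_add (hzp _ k hpk) ?_)
      refine (Finset.abs_sum_le_sum_abs _ _).trans (le_of_eq ?_)
      exact Finset.sum_congr rfl fun i _ => abs_mul _ _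
    calc ∑ j, w j * |(L *ᵥ z (s j)) k|
        ≤ ∑ j, w j * (1 / 5 + ∑ i ∈ univ.erase k, |L k i| * |z (s j) i|) :=
          Finset.sum_le_sum fun j _ => mul_le_mul_of_nonneg_left (h3 j) (hw0 j).le
      _ = 1 / 5 + ∑ i ∈ univ.erase k, |L k i| * ∑ j, w j * |z (s j) i| := by
          simp only [mul_add, Finset.sum_add_distrib]
          rw [← Finset.sum_mul, hw1, one_mul]
          congr 1
          simp only [Finset.mul_sum]
          rw [Finset.sum_comm]
          refine Finset.sum_congr rfl fun i _ => Finset.sum_congr rfl fun j _ => by ring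
      _ ≤ 1 / 5 + ∑ i ∈ univ.erase k, |L k i| * (11 / 20) := by
          refine add_le_add le_rfl (Finset.sum_le_sum fun i _ => ?_)
          exact mul_le_mul_of_nonneg_left (hEz i) (abs_nonneg _)
      _ = 1 / 5 + (∑ i ∈ univ.erase k, |L k i|) * (11 / 20) := by rw [Finset.sum_mul]
      _ ≤ 27 / 80 := by
          have := h2 k
          linarith
  -- the values are nonzero
  have hLpos : 0 < |L.det| := abs_pos.mpr hdet
  have hprod : ∀ j, |L.det| / 2 ^ d ≤ |∏ k, (L *ᵥ z (s j)) k| := by
    intro j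
    have h3 := hE (n (s j))
    rw [Fintype.card_fin] at h3
    have h4 : ∀ k, (L *ᵥ z (s j)) k = (L *ᵥ iv (n (s j))) k + c k := by
      intro k; rw [hx]; rfl
    simp only [h4]
    exact h3
  have hne : ∀ j k, (L *ᵥ z (s j)) k ≠ 0 := by
    intro j k h3
    have h4 := hprod j
    rw [Finset.prod_eq_zero (Finset.mem_univ k) h3, abs_zero] at h4
    have h5 : 0 < |L.det| / 2 ^ d := by positivity
    linarith
  -- the logarithmic inequality
  have hcards : Fintype.card {i // p i} + Fintype.card {i // ¬ p i} = d := by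
    have := Fintype.card_subtype_compl p
    have h3 := Fintype.card_subtype_le p
    rw [Fintype.card_fin] at this h3
    omega
  set a := Fintype.card {i // p i} with ha
  set b := Fintype.card {i // ¬ p i} with hb
  have hapos : 0 < a := Fintype.card_pos_iff.mpr ⟨⟨k0, hk0⟩⟩
  have e1 : ∀ j, Real.log |∏ k, (L *ᵥ z (s j)) k| =
      ∑ k : {i // p i}, Real.log |(L *ᵥ z (s j)) k.1| +
        Real.log |∏ k : {i // ¬ p i}, (L *ᵥ z (s j)) k.1| := by
    intro j
    rw [← Fintype.prod_subtype_mul_prod_subtype p (fun k => (L *ᵥ z (s j)) k), abs_mul,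
      Real.log_mul]
    · rw [Finset.abs_prod, Real.log_prod]
      intro k _
      exact abs_ne_zero.mpr (hne j k.1)
    · exact abs_ne_zero.mpr (Finset.prod_ne_zero_iff.mpr fun k _ => hne j k.1)
    · exact abs_ne_zero.mpr (Finset.prod_ne_zero_iff.mpr fun k _ => hne j k.1)
  have e2 : Real.log (|L.det| / 2 ^ d) ≤
      ∑ k : {i // p i}, ∑ j, w j * Real.log |(L *ᵥ z (s j)) k.1| +
        Real.log (|D.det| / 2 ^ b) := by
    have h3 : ∑ j, w j * Real.log (|L.det| / 2 ^ d) ≤
        ∑ j, w j * (∑ k : {i // p i}, Real.log |(L *ᵥ z (s j)) k.1| +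
          Real.log |∏ k : {i // ¬ p i}, (L *ᵥ z (s j)) k.1|) := by
      refine Finset.sum_le_sum fun j _ => mul_le_mul_of_nonneg_left ?_ (hw0 j).le
      rw [← e1]
      exact Real.log_le_log (by positivity) (hprod j)
    rw [← Finset.sum_mul, hw1, one_mul] at h3
    simp only [mul_add, Finset.sum_add_distrib] at h3
    have h4 : ∑ j, w j * ∑ k : {i // p i}, Real.log |(L *ᵥ z (s j)) k.1| =
        ∑ k : {i // p i}, ∑ j, w j * Real.log |(L *ᵥ z (s j)) k.1| := by
      simp only [Finset.mul_sum]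
      rw [Finset.sum_comm]
    rw [h4] at h3
    linarith
  have e3 : ∀ k : {i // p i}, ∑ j, w j * Real.log |(L *ᵥ z (s j)) k.1| ≤ Real.log (27 / 80) := by
    intro k
    have hpos : ∀ j, 0 < |(L *ᵥ z (s j)) k.1| := fun j => abs_pos.mpr (hne j k.1)
    refine (sum_log_le hw0 hw1 hpos).trans (Real.log_le_log ?_ (hEx k.1 k.2))
    exact Finset.sum_pos (fun j _ => mul_pos (hw0 j) (hpos j)) Finset.univ_nonempty
  have e4 : ∑ k : {i // p i}, ∑ j, w j * Real.log |(L *ᵥ z (s j)) k.1| ≤ a * Real.log (27 / 80) := by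
    calc _ ≤ ∑ _k : {i // p i}, Real.log (27 / 80) := Finset.sum_le_sum fun k _ => e3 k
      _ = a * Real.log (27 / 80) := by
          rw [Finset.sum_const, Finset.card_univ, nsmul_eq_mul]
  have hDpos : 0 < |D.det| := abs_pos.mpr hDdet
  have e5 : a * Real.log (3 / 4) + Real.log |D.det| ≤ Real.log |L.det| := by
    have h3 := Real.log_le_log (by positivity) hminor
    rw [Real.log_mul (by positivity) (by positivity), Real.log_pow] at h3
    exact h3
  have e6 : Real.log (|L.det| / 2 ^ d) = Real.log |L.det| - (a + b) * Real.log 2 := by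
    rw [Real.log_div (by positivity) (by positivity), Real.log_pow]
    have : (d : ℝ) = a + b := by rw [← hcards]; push_cast; ring
    rw [this]
  have e7 : Real.log (|D.det| / 2 ^ b) = Real.log |D.det| - b * Real.log 2 := by
    rw [Real.log_div (by positivity) (by positivity), Real.log_pow]
  have e8 : Real.log 2 + Real.log (27 / 80) < Real.log (3 / 4) := by
    rw [← Real.log_mul (by norm_num) (by norm_num)]
    exact Real.log_lt_log (by norm_num) (by norm_num)
  have hapos' : (0 : ℝ) < a := by exact_mod_cast hapos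
  have e9 := mul_lt_mul_of_pos_left e8 hapos'
  rw [e6, e7] at e2
  nlinarith

end Run7.h361
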