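import Mathlib

/-!
# Isoptics of plane convex sets: definitions and the second support line
-/

set_option autoImplicit false

namespace Run7.h361.Iso

open Complex Set

/-- The angle of sight of `S` at `Q`: the supremum of the angles `A Q B`, for `A, B` in `S`. -/
noncomputable def sightAngle {P : Type*} [NormedAddCommGroup P] [InnerProductSpace ℝ P]
    (S : Set P) (Q : P) : ℝ :=
  sSup {a | ∃ A ∈ S, ∃ B ∈ S, a = EuclideanGeometry.angle A Q B}

/-- The isoptic of `S` at the angle `α`. -/
def isoptic {P : Type*} [NormedAddCommGroup P] [InnerProductSpace ℝ P] (S : Set P) (α : ℝ) :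
    Set P :=
  {Q | Q ∉ S ∧ sightAngle S Q = α}

/-- `α ∈ (0, π)` and the isoptic at `α` is a circle. -/
def CircularAt {P : Type*} [NormedAddCommGroup P] [InnerProductSpace ℝ P] (S : Set P) (α : ℝ) :
    Prop :=
  (0 < α ∧ α < Real.pi) ∧ ∃ (c : P) (R : ℝ), 0 < R ∧ isoptic S α = Metric.sphere c R

/-- `e ^ (i θ)` -/
noncomputable def ee (θ : ℝ) : ℂ := Complex.exp (θ * I)

lemma ee_ne (θ : ℝ) : ee θ ≠ 0 := Complex.exp_ne_zero _

lemma norm_ee (θ : ℝ) : ‖ee θ‖ = 1 := by
  unfold ee
  exact Complex.norm_exp_ofReal_mul_I θ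

lemma ee_add (a b : ℝ) : ee (a + b) = ee a * ee b := by
  unfold ee
  rw [← Complex.exp_add]
  congr 1
  push_cast
  ring

lemma ee_re (θ : ℝ) : (ee θ).re = Real.cos θ := by
  unfold ee
  rw [Complex.exp_ofReal_mul_I_re]

lemma ee_im (θ : ℝ) : (ee θ).im = Real.sin θ := by
  unfold ee
  rw [Complex.exp_ofReal_mul_I_im]

lemma ee_neg (θ : ℝ) : ee (-θ) * ee θ = 1 := by
  rw [← ee_add]
  simp [ee]

lemma ee_pi : ee Real.pi = -1 := by
  unfold ee
  exact Complex.exp_pi_mul_I

lemma polar (z : ℂ) : z = (‖z‖ : ℂ) * ee (arg z) := by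
  unfold ee
  exact (Complex.norm_mul_exp_arg_mul_I z).symm

/-- angles in terms of arguments -/
lemma angle_args {z w : ℂ} (hz : z ≠ 0) (hw : w ≠ 0) (h1 : arg z ≤ 0) (h2 : arg w ≤ 0) :
    InnerProductGeometry.angle z w = |arg z - arg w| := by
  rw [Complex.angle_eq_abs_arg hz hw]
  congr 1
  have h3 := Complex.neg_pi_lt_arg z
  have h4 := Complex.neg_pi_lt_arg w
  have h5 : z / w = ((‖z‖ / ‖w‖ : ℝ) : ℂ) * ee (arg z - arg w) := by
    conv_lhs => rw [polar z, polar w]
    rw [sub_eq_add_neg, ee_add]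
    have h6 : ee (arg w) * ee (-arg w) = 1 := by
      rw [mul_comm]
      exact ee_neg _
    have h7 : (‖w‖ : ℂ) ≠ 0 := by simpa using hw
    have h8 := ee_ne (arg w)
    push_cast
    field_simp
    linear_combination (-(‖z‖ : ℂ) * ee (arg z)) * h6
  rw [h5, Complex.arg_real_mul _ (div_pos (norm_pos_iff.2 hz) (norm_pos_iff.2 hw))]
  unfold ee
  rw [Complex.arg_exp_mul_I, toIocMod_eq_self]
  constructor
  · linarith
  · have := Real.pi_pos
    linarith

/-- **The second support line.** Let `Q ∉ S` lie on the support line of `S` with the normal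
`e ^ (iθ)`, which touches `S` at a point on the negative side. If the angle of sight is `π - β`,
then `Q` lies on the support line with the normal `e ^ (i(θ + β))`, which touches `S` on the positive
side. -/
theorem second {S : Set ℂ} (hc : IsCompact S) (hv : Convex ℝ S) {Q : ℂ} (hQ : Q ∉ S) {θ β : ℝ}
    (hs : sightAngle S Q = Real.pi - β) (hside : ∀ X ∈ S, ((X - Q) * ee (-θ)).re ≤ 0) {T : ℂ}
    (hT : T ∈ S) {s : ℝ} (hs0 : 0 < s) (hTs : T = Q - s * I * ee θ) (hβ : 0 ≤ β)
    (hβ' : β ≤ Real.pi) :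
    (∀ X ∈ S, ((X - Q) * ee (-(θ + β))).re ≤ 0) ∧
      ∃ X ∈ S, ∃ ρ : ℝ, 0 < ρ ∧ X = Q + ρ * I * ee (θ + β) := by
  -- rotated coordinates
  set w : ℂ → ℂ := fun X => (X - Q) * (I * ee (-θ)) with hw
  have hI : I * ee (-θ) ≠ 0 := mul_ne_zero I_ne_zero (ee_ne _)
  have hne : ∀ X ∈ S, w X ≠ 0 := by
    intro X hX
    refine mul_ne_zero (sub_ne_zero.2 ?_) hI
    rintro rfl
    exact hQ hX
  have hwT : w T = (s : ℂ) := by
    simp only [hw]
    rw [hTs]
    have h1 := ee_neg θ
    have h2 : I * I = -1 := I_mul_I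
    linear_combination (-(s : ℂ)) * I * I * h1 - (s : ℂ) * h2
  have him : ∀ X ∈ S, (w X).im ≤ 0 := by
    intro X hX
    have h1 := hside X hX
    have h2 : w X = ((X - Q) * ee (-θ)) * I := by
      simp only [hw]
      ring
    rw [h2, Complex.mul_I_im]
    exact h1
  have harg : ∀ X ∈ S, arg (w X) ≤ 0 := by
    intro X hX
    by_contra hcon
    push Not at hcon
    have h1 : 0 ≤ (w X).im := Complex.arg_nonneg_iff.1 hcon.le
    have h2 : (w X).im = 0 := le_antisymm (him X hX) h1
    have h3 : (w X).re < 0 := by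
      by_contra h4
      push Not at h4
      have h5 : arg (w X) = 0 := Complex.arg_eq_zero_iff.2 ⟨h4, h2⟩
      linarith
    -- `Q` is between `T` and `X`
    apply hQ
    have h6 : w X = ((w X).re : ℂ) := by
      apply Complex.ext
      · simp
      · simpa using h2
    set r := (w X).re with hr
    have h7 : (s - r) ≠ 0 := by linarith
    have h7' : 0 < s - r := by linarith
    have h8 : Q = (-r / (s - r)) • T + (s / (s - r)) • X := by
      have h9 : (X - Q) * (I * ee (-θ)) = (r : ℂ) := h6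
      have h10 : (T - Q) * (I * ee (-θ)) = (s : ℂ) := hwT
      have h11 : ((s : ℂ) - r) ≠ 0 := by
        exact_mod_cast h7
      have h12 : (I * ee (-θ)) * (((s : ℂ) - r) * Q) =
          (I * ee (-θ)) * (-r * T + s * X) := by
        linear_combination (-(s : ℂ)) * h9 + (r : ℂ) * h10
      have h13 := mul_left_cancel₀ hI h12
      simp only [Complex.real_smul]
      push_cast
      field_simp
      linear_combination h13
    rw [h8]
    refine hv hT hX ?_ ?_ ?_
    · exact (div_pos (by linarith) h7').le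
    · exact (div_pos hs0 h7').le
    · field_simp
      ring
  -- the angle at `Q`
  have hang : ∀ A ∈ S, ∀ B ∈ S, EuclideanGeometry.angle A Q B = |arg (w A) - arg (w B)| := by
    intro A hA B hB
    rw [← angle_args (hne A hA) (hne B hB) (harg A hA) (harg B hB)]
    unfold EuclideanGeometry.angle
    simp only [vsub_eq_sub, hw]
    rw [mul_comm (A - Q), mul_comm (B - Q)]
    exact (Complex.angle_mul_left hI _ _).symm
  have hslit : ∀ X ∈ S, w X ∈ slitPlane := by
    intro X hX
    rw [Complex.mem_slitPlane_iff_arg]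
    refine ⟨?_, hne X hX⟩
    have := harg X hX
    have := Real.pi_pos
    linarith
  have hcont : ContinuousOn (fun X => arg (w X)) S := by
    intro X hX
    have h1 : ContinuousAt arg (w X) := Complex.continuousAt_arg (hslit X hX)
    have h2 : ContinuousAt w X := by
      simp only [hw]
      fun_prop
    exact (ContinuousAt.comp (f := w) (g := arg) h1 h2).continuousWithinAt
  obtain ⟨X0, hX0, hmin⟩ := hc.exists_isMinOn ⟨T, hT⟩ hcont
  have hmin' : ∀ X ∈ S, arg (w X0) ≤ arg (w X) := fun X hX => hmin hX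
  have hargT : arg (w T) = 0 := by
    rw [hwT]
    exact Complex.arg_ofReal_of_nonneg hs0.le
  have hsup : sightAngle S Q = -arg (w X0) := by
    unfold sightAngle
    refine IsGreatest.csSup_eq ⟨⟨T, hT, X0, hX0, ?_⟩, ?_⟩
    · rw [hang T hT X0 hX0, hargT, zero_sub, abs_of_nonneg]
      linarith [harg X0 hX0]
    · rintro a ⟨A, hA, B, hB, rfl⟩
      rw [hang A hA B hB, abs_le]
      have h1 := hmin' A hA
      have h2 := hmin' B hB
      have h3 := harg A hA
      have h4 := harg B hB
      constructor <;> linarith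
  have hα : arg (w X0) = β - Real.pi := by linarith
  have hkey : ∀ X, w X = (X - Q) * (I * ee (-θ)) := fun X => rfl
  constructor
  · intro X hX
    have h1 : (X - Q) * ee (-(θ + β)) = -I * (w X) * ee (-β) := by
      rw [hkey, neg_add, ee_add]
      have h2 : I * I = -1 := I_mul_I
      linear_combination ((X - Q) * ee (-θ) * ee (-β)) * h2
    have h2 : -I * (w X) * ee (-β) = ((‖w X‖ : ℝ) : ℂ) * (ee (arg (w X) - β) * (-I)) := by
      rw [sub_eq_add_neg, ee_add]
      conv_lhs => rw [polar (w X)]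
      ring
    rw [h1, h2, Complex.re_ofReal_mul]
    have h3 : (ee (arg (w X) - β) * (-I)).re = Real.sin (arg (w X) - β) := by
      rw [← ee_im]
      simp
    rw [h3]
    have h4 : Real.sin (arg (w X) - β) ≤ 0 := by
      apply Real.sin_nonpos_of_nonpos_of_neg_pi_le
      · linarith [harg X hX]
      · linarith [hmin' X hX]
    exact mul_nonpos_of_nonneg_of_nonpos (norm_nonneg _) h4
  · refine ⟨X0, hX0, ‖w X0‖, norm_pos_iff.2 (hne X0 hX0), ?_⟩
    have h1 : w X0 = (‖w X0‖ : ℂ) * ee (β - Real.pi) := by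
      conv_lhs => rw [polar (w X0), hα]
    have h2 : ee (β - Real.pi) = -ee β := by
      rw [sub_eq_add_neg, ee_add]
      have h3 := ee_neg Real.pi
      rw [ee_pi] at h3
      linear_combination (-ee β) * h3
    rw [h2] at h1
    have h3 : (X0 - Q) * (I * ee (-θ)) = (‖w X0‖ : ℂ) * -ee β := by
      rw [← hkey]
      exact h1
    have h4 := ee_neg θ
    have h5 : I * I = -1 := I_mul_I
    rw [ee_add]
    linear_combination (-I * ee θ) * h3 + (-(X0 - Q)) * (ee (-θ) * ee θ) * (-h5) - (X0 - Q) * h4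

end Run7.h361.Iso
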