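import Pool.Agent.Run7.h361.IsoDef

/-!
# Isoptics of plane convex sets: the functional equations
-/

set_option autoImplicit false

namespace Run7.h361.Iso

open Complex Set

/-- two decreasing involutions -/
theorem const_of_two {g : ℝ → ℝ} (hg : Continuous g) {R1 R2 β1 β2 : ℝ} (hR1 : 0 < R1)
    (hR2 : 0 < R2) (h1 : 0 < β1) (h1' : β1 < Real.pi) (h2 : 0 < β2) (h2' : β2 < Real.pi)
    (hne : β1 ≠ β2)
    (H1 : ∀ θ, |g θ| < R1 ∧ Real.arccos (g θ / R1) < β1 ∧
      g (θ + β1) = R1 * Real.cos (β1 - Real.arccos (g θ / R1)))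
    (H2 : ∀ θ, |g θ| < R2 ∧ Real.arccos (g θ / R2) < β2 ∧
      g (θ + β2) = R2 * Real.cos (β2 - Real.arccos (g θ / R2))) :
    ∀ θ, g θ = R1 * Real.cos (β1 / 2) := by
  -- general facts for one shift
  have gen : ∀ R β : ℝ, 0 < R → 0 < β → β < Real.pi → (∀ θ, |g θ| < R ∧
      Real.arccos (g θ / R) < β ∧ g (θ + β) = R * Real.cos (β - Real.arccos (g θ / R))) →
      (∀ θ, g (θ + 2 * β) = g θ) ∧ (∀ θ θ', g θ < g θ' → g (θ' + β) < g (θ + β)) ∧
      (∀ θ, g θ ^ 2 + g (θ + β) ^ 2 - 2 * g θ * g (θ + β) * Real.cos β = R ^ 2 * Real.sin β ^ 2) ∧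
      (∀ θ, g (θ + β) = g θ → g θ = R * Real.cos (β / 2)) := by
    intro R β hR hβ hβ' H
    have hcos : ∀ θ, R * Real.cos (Real.arccos (g θ / R)) = g θ := by
      intro θ
      obtain ⟨ha, -, -⟩ := H θ
      rw [abs_lt] at ha
      rw [Real.cos_arccos]
      · field_simp
      · rw [le_div_iff₀ hR]
        linarith
      · rw [div_le_iff₀ hR]
        linarith
    have hpos : ∀ θ, 0 < Real.arccos (g θ / R) := by
      intro θ
      obtain ⟨ha, -, -⟩ := H θ
      rw [abs_lt] at ha
      rw [Real.arccos_pos, div_lt_one hR]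
      exact ha.2
    have hac : ∀ θ, Real.arccos (g (θ + β) / R) = β - Real.arccos (g θ / R) := by
      intro θ
      obtain ⟨ha, hb, hc⟩ := H θ
      rw [hc, mul_div_cancel_left₀ _ hR.ne', Real.arccos_cos]
      · linarith
      · linarith [hpos θ]
    refine ⟨?_, ?_, ?_, ?_⟩
    · intro θ
      have h3 : θ + 2 * β = (θ + β) + β := by ring
      rw [h3, (H (θ + β)).2.2, hac θ, sub_sub_cancel]
      exact hcos θ
    · intro θ θ' hlt
      rw [(H θ).2.2, (H θ').2.2]
      apply mul_lt_mul_of_pos_left _ hR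
      have h3 : Real.arccos (g θ' / R) < Real.arccos (g θ / R) := by
        apply Real.strictAntiOn_arccos
        · have := (abs_lt.1 (H θ).1)
          constructor
          · rw [le_div_iff₀ hR]; linarith
          · rw [div_le_iff₀ hR]; linarith
        · have := (abs_lt.1 (H θ').1)
          constructor
          · rw [le_div_iff₀ hR]; linarith
          · rw [div_le_iff₀ hR]; linarith
        · exact div_lt_div_of_pos_right hlt hR
      apply Real.cos_lt_cos_of_nonneg_of_le_pi
      · linarith [(H θ).2.1]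
      · linarith [hpos θ']
      · linarith
    · intro θ
      set δ := Real.arccos (g θ / R) with hδ
      have h3 := (H θ).2.2
      rw [← hδ, Real.cos_sub] at h3
      have h4 := hcos θ
      rw [← hδ] at h4
      have h5 := Real.sin_sq_add_cos_sq δ
      have h6 := Real.sin_sq_add_cos_sq β
      rw [h3, ← h4]
      have h7 : (R * Real.cos δ) ^ 2 + (R * (Real.cos β * Real.cos δ + Real.sin β * Real.sin δ)) ^ 2 -
          2 * (R * Real.cos δ) * (R * (Real.cos β * Real.cos δ + Real.sin β * Real.sin δ)) *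
            Real.cos β = R ^ 2 * (Real.cos δ ^ 2 * (1 - Real.cos β ^ 2) +
              Real.sin β ^ 2 * Real.sin δ ^ 2) := by ring
      rw [h7]
      have h8 : 1 - Real.cos β ^ 2 = Real.sin β ^ 2 := by linarith
      rw [h8]
      linear_combination (R ^ 2 * Real.sin β ^ 2) * h5
    · intro θ h3
      have h4 := hac θ
      rw [h3] at h4
      have h5 : Real.arccos (g θ / R) = β / 2 := by linarith
      rw [← hcos θ, h5]
  obtain ⟨p1, m1, q1, e1⟩ := gen R1 β1 hR1 h1 h1' H1
  obtain ⟨p2, m2, q2, -⟩ := gen R2 β2 hR2 h2 h2' H2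
  have hs : ∀ θ, g (θ + β1 + β2) = g θ := by
    intro θ
    have hper : g (θ + β1 + β2 + β1 + β2) = g θ := by
      have h3 : θ + β1 + β2 + β1 + β2 = (θ + 2 * β1) + 2 * β2 := by ring
      rw [h3, p2, p1]
    rcases lt_trichotomy (g θ) (g (θ + β1 + β2)) with h3 | h3 | h3
    · have h4 := m2 _ _ (m1 _ _ h3)
      rw [hper] at h4
      linarith
    · exact h3.symm
    · have h4 := m2 _ _ (m1 _ _ h3)
      rw [hper] at h4
      linarith
  have heq : ∀ θ, g (θ + β1) = g (θ + β2) := by
    intro θ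
    have h3 := hs (θ + β2)
    have h4 : θ + β2 + β1 + β2 = (θ + β1) + 2 * β2 := by ring
    rw [h4, p2] at h3
    exact h3
  have hcne : Real.cos β1 - Real.cos β2 ≠ 0 := by
    intro h3
    apply hne
    exact Real.injOn_cos ⟨h1.le, h1'.le⟩ ⟨h2.le, h2'.le⟩ (by linarith)
  set k := (R2 ^ 2 * Real.sin β2 ^ 2 - R1 ^ 2 * Real.sin β1 ^ 2) /
    (2 * (Real.cos β1 - Real.cos β2)) with hk
  have hxy : ∀ θ, g θ * g (θ + β1) = k := by
    intro θ
    have h3 := q1 θ
    have h4 := q2 θ
    rw [← heq θ] at h4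
    rw [hk, eq_div_iff (mul_ne_zero two_ne_zero hcne)]
    linear_combination h4 - h3
  set l := R1 ^ 2 * Real.sin β1 ^ 2 + 2 * k * Real.cos β1 with hl
  have hquart : ∀ θ, (g θ ^ 2) ^ 2 - l * g θ ^ 2 + k ^ 2 = 0 := by
    intro θ
    have h3 := q1 θ
    have h4 := hxy θ
    have h5 : g θ ^ 2 + g (θ + β1) ^ 2 = l := by
      rw [hl]
      linear_combination h3 + 2 * Real.cos β1 * h4
    linear_combination (g θ ^ 2) * h5 + (-(k + g θ * g (θ + β1))) * h4
  -- `g` is constant
  have hconst : ∀ a b, g a = g b := by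
    by_contra hcon
    push Not at hcon
    obtain ⟨a, b, hab⟩ := hcon
    wlog hlt : g a < g b generalizing a b
    · exact this b a hab.symm (lt_of_le_of_ne (not_lt.1 hlt) hab.symm)
    obtain ⟨K, hK⟩ : ∃ K, K = k ^ 2 := ⟨_, rfl⟩
    have hsub : Icc (g a) (g b) ⊆ {x : ℝ | (Polynomial.X ^ 4 - Polynomial.C l * Polynomial.X ^ 2 +
        Polynomial.C K : Polynomial ℝ).IsRoot x} := by
      intro x hx
      obtain ⟨t, rfl⟩ : x ∈ range g := mem_range_of_exists_le_of_exists_ge hg ⟨a, hx.1⟩ ⟨b, hx.2⟩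
      have h3 := hquart t
      simp only [mem_setOf_eq, Polynomial.IsRoot.def, Polynomial.eval_add, Polynomial.eval_sub,
        Polynomial.eval_pow, Polynomial.eval_X, Polynomial.eval_mul, Polynomial.eval_C, hK]
      linear_combination h3
    have hne0 : (Polynomial.X ^ 4 - Polynomial.C l * Polynomial.X ^ 2 +
        Polynomial.C K : Polynomial ℝ) ≠ 0 := by
      intro h3
      have h4 := congrArg (fun P => Polynomial.coeff P 4) h3
      simp [Polynomial.coeff_X_pow, Polynomial.coeff_C] at h4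
    exact (Icc_infinite hlt) ((Polynomial.finite_setOf_isRoot hne0).subset hsub)
  intro θ
  exact e1 θ (hconst _ _)

end Run7.h361.Iso
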