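import Pool.Agent.Run7.h361.IsoDef

/-!
# Isoptics of plane convex sets: the support function of a set with a circular isoptic
-/

set_option autoImplicit false

namespace Run7.h361.Iso

open Complex Set

/-- The support function with respect to the point `c`, at the normal `e ^ (iθ)`. -/
noncomputable def supp (S : Set ℂ) (c : ℂ) (θ : ℝ) : ℝ :=
  sSup ((fun X => ((X - c) * ee (-θ)).re) '' S)

lemma continuous_ee : Continuous ee := by
  unfold ee
  fun_prop

lemma supp_att {S : Set ℂ} (hc : IsCompact S) (hn : S.Nonempty) (c : ℂ) (θ : ℝ) :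
    (∀ X ∈ S, ((X - c) * ee (-θ)).re ≤ supp S c θ) ∧
      ∃ T ∈ S, ((T - c) * ee (-θ)).re = supp S c θ := by
  have hcont : ContinuousOn (fun X => ((X - c) * ee (-θ)).re) S := by fun_prop
  have himg := hc.image_of_continuousOn hcont
  constructor
  · intro X hX
    exact le_csSup himg.bddAbove ⟨X, hX, rfl⟩
  · obtain ⟨T, hT, h⟩ := himg.sSup_mem (hn.image _)
    exact ⟨T, hT, h⟩

lemma supp_eq {S : Set ℂ} {c : ℂ} {θ v : ℝ} (h1 : ∀ X ∈ S, ((X - c) * ee (-θ)).re ≤ v)
    (h2 : ∃ T ∈ S, ((T - c) * ee (-θ)).re = v) : supp S c θ = v := by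
  unfold supp
  refine IsGreatest.csSup_eq ⟨?_, ?_⟩
  · obtain ⟨T, hT, h⟩ := h2
    exact ⟨T, hT, h⟩
  · rintro _ ⟨X, hX, rfl⟩
    exact h1 X hX

lemma supp_shift {S : Set ℂ} (hc : IsCompact S) (hn : S.Nonempty) (c d : ℂ) (θ : ℝ) :
    supp S d θ = supp S c θ + ((c - d) * ee (-θ)).re := by
  obtain ⟨h1, T, hT, h2⟩ := supp_att hc hn c θ
  have h3 : ∀ X, ((X - d) * ee (-θ)).re = ((X - c) * ee (-θ)).re + ((c - d) * ee (-θ)).re := by
    intro X
    rw [← Complex.add_re]
    congr 1
    ring
  refine supp_eq (fun X hX => ?_) ⟨T, hT, ?_⟩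
  · rw [h3]
    have := h1 X hX
    linarith
  · rw [h3, h2]

lemma continuous_supp {S : Set ℂ} (hc : IsCompact S) (c : ℂ) : Continuous (supp S c) := by
  unfold supp
  refine hc.continuous_sSup ?_
  have h1 := continuous_ee
  show Continuous fun p : ℝ × ℂ => ((p.2 - c) * ee (-p.1)).re
  fun_prop

lemma ee_sub (a b : ℝ) : ee (a - b) = ee a * ee (-b) := by
  rw [sub_eq_add_neg, ee_add]

lemma sep {S : Set ℂ} (hc : IsClosed S) (hv : Convex ℝ S) (hn : S.Nonempty) {Y : ℂ} (hY : Y ∉ S) :
    ∃ θ : ℝ, ∀ X ∈ S, (X * ee (-θ)).re < (Y * ee (-θ)).re := by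
  obtain ⟨f, u, h1, h2⟩ := geometric_hahn_banach_closed_point hv hc hY
  set a : ℂ := (f 1 : ℂ) + (f I : ℂ) * I with ha
  have hf : ∀ z : ℂ, f z = z.re * f 1 + z.im * f I := by
    intro z
    have h3 : z = z.re • (1 : ℂ) + z.im • I := by
      simp [Complex.re_add_im]
    conv_lhs => rw [h3]
    rw [map_add, map_smul, map_smul]
    simp
  have hane : a ≠ 0 := by
    intro h3
    have h4 : f 1 = 0 := by
      have := congrArg Complex.re h3
      simpa [ha] using this
    have h5 : f I = 0 := by
      have := congrArg Complex.im h3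
      simpa [ha] using this
    obtain ⟨X, hX⟩ := hn
    have h6 := h1 X hX
    rw [hf, h4, h5] at h6
    rw [hf, h4, h5] at h2
    linarith
  refine ⟨arg a, fun X hX => ?_⟩
  have h3 : ∀ z : ℂ, f z = ‖a‖ * (z * ee (-(arg a))).re := by
    intro z
    have h4 : (‖a‖ : ℂ) * ee (-(arg a)) = (starRingEnd ℂ) a := by
      conv_rhs => rw [polar a]
      rw [map_mul, Complex.conj_ofReal]
      congr 1
      unfold ee
      rw [← Complex.exp_conj]
      congr 1
      simp
    have h5 : ‖a‖ * (z * ee (-(arg a))).re = (z * ((‖a‖ : ℂ) * ee (-(arg a)))).re := by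
      rw [← Complex.re_ofReal_mul]
      congr 1
      ring
    rw [h5, h4, hf]
    simp [ha]
  have h4 := h1 X hX
  have h5 : f X < f Y := h4.trans h2
  rw [h3, h3] at h5
  exact lt_of_mul_lt_mul_left h5 (norm_nonneg _)

lemma re_I_mul (θ : ℝ) : (I * ee θ).re = -Real.sin θ := by
  rw [Complex.I_mul_re, ee_im]

/-- what is assumed about the set, for one isoptic at the angle `π - β` -/
structure Data (S : Set ℂ) (c : ℂ) (R β : ℝ) : Prop where
  comp : IsCompact S
  conv : Convex ℝ S
  hR : 0 < R
  hβ : 0 < β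
  hβ' : β < Real.pi
  iso : isoptic S (Real.pi - β) = Metric.sphere c R

lemma Data.nonempty {S : Set ℂ} {c : ℂ} {R β : ℝ} (d : Data S c R β) : S.Nonempty := by
  by_contra h
  rw [not_nonempty_iff_eq_empty] at h
  have h1 : c + R ∈ Metric.sphere c R := by
    simp [abs_of_pos d.hR]
  rw [← d.iso, h] at h1
  have h2 := h1.2
  unfold sightAngle at h2
  simp at h2
  linarith [d.hβ']

lemma Data.notMem {S : Set ℂ} {c : ℂ} {R β : ℝ} (d : Data S c R β) {Q : ℂ}
    (hQ : ‖Q - c‖ = R) : Q ∉ S ∧ sightAngle S Q = Real.pi - β := by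
  have h1 : Q ∈ Metric.sphere c R := by
    rw [mem_sphere_iff_norm]
    exact hQ
  rw [← d.iso] at h1
  exact h1

/-- the set lies inside the circle -/
lemma Data.inside {S : Set ℂ} {c : ℂ} {R β : ℝ} (d : Data S c R β) : ∀ X ∈ S, ‖X - c‖ < R := by
  have hcover : S ⊆ Metric.ball c R ∪ (Metric.closedBall c R)ᶜ := by
    intro X hX
    rcases lt_trichotomy (dist X c) R with h | h | h
    · exact Or.inl h
    · exact absurd hX (d.notMem (by rw [← dist_eq_norm]; exact h)).1
    · refine Or.inr ?_
      simp only [mem_compl_iff, Metric.mem_closedBall, not_le]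
      exact h
  have hdisj : Disjoint (Metric.ball c R) (Metric.closedBall c R)ᶜ :=
    disjoint_compl_right.mono_left Metric.ball_subset_closedBall |>.symm.symm
  rcases d.conv.isPreconnected.subset_or_subset Metric.isOpen_ball
    Metric.isClosed_closedBall.isOpen_compl hdisj hcover with h | h
  · intro X hX
    have := h hX
    rwa [mem_ball_iff_norm] at this
  · exfalso
    have hout : ∀ X ∈ S, R < ‖X - c‖ := by
      intro X hX
      have := h hX
      simp only [mem_compl_iff, Metric.mem_closedBall, not_le] at this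
      rwa [dist_eq_norm] at this
    have hcS : c ∉ S := by
      intro h1
      have := hout c h1
      simp at this
      linarith [d.hR]
    obtain ⟨θ0, hθ0⟩ := sep d.comp.isClosed d.conv d.nonempty hcS
    have hre : ∀ X θ, ((X - c) * ee (-θ)).re = (X * ee (-θ)).re - (c * ee (-θ)).re := by
      intro X θ
      rw [sub_mul, Complex.sub_re]
    have hneg : supp S c θ0 < 0 := by
      obtain ⟨-, T, hT, h1⟩ := supp_att d.comp d.nonempty c θ0
      rw [← h1, hre]
      have := hθ0 T hT
      linarith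
    have hpos : 0 < supp S c (θ0 - Real.pi) := by
      obtain ⟨X, hX⟩ := d.nonempty
      have h1 := (supp_att d.comp d.nonempty c (θ0 - Real.pi)).1 X hX
      have h2 : ee (-(θ0 - Real.pi)) = -ee (-θ0) := by
        have h3 : -(θ0 - Real.pi) = -θ0 + Real.pi := by ring
        rw [h3, ee_add, ee_pi]
        ring
      rw [h2, mul_neg, Complex.neg_re, hre] at h1
      have := hθ0 X hX
      linarith
    obtain ⟨θ, hθ, hθz⟩ : ∃ θ ∈ Icc (θ0 - Real.pi) θ0, supp S c θ = 0 := by
      have h1 := intermediate_value_Icc' (a := θ0 - Real.pi) (b := θ0)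
        (by linarith [Real.pi_pos]) (continuous_supp d.comp c).continuousOn
      obtain ⟨θ, hθ, h2⟩ := h1 ⟨hneg.le, hpos.le⟩
      exact ⟨θ, hθ, h2⟩
    have hθ1 : θ0 - Real.pi < θ := by
      refine lt_of_le_of_ne hθ.1 ?_
      rintro h1
      rw [← h1] at hθz
      linarith
    have hθ2 : θ < θ0 := by
      refine lt_of_le_of_ne hθ.2 ?_
      rintro h1
      rw [h1] at hθz
      linarith
    obtain ⟨hall, T, hT, hTz⟩ := supp_att d.comp d.nonempty c θ
    rw [hθz] at hTz hall
    set τ := ((T - c) * ee (-θ)).im with hτ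
    have hT1 : (T - c) * ee (-θ) = τ * I := by
      apply Complex.ext
      · simpa using hTz
      · simp [hτ]
    have hT2 : T - c = τ * I * ee θ := by
      have h1 := ee_neg θ
      linear_combination (ee θ) * hT1 - (T - c) * h1
    have hτabs : ‖T - c‖ = |τ| := by
      rw [hT2, norm_mul, norm_mul, norm_ee]
      simp
    have hτneg : τ < 0 := by
      have h1 := (supp_att d.comp d.nonempty c θ0).1 T hT
      have h2 : (T - c) * ee (-θ0) = (τ : ℂ) * (I * ee (θ - θ0)) := by
        rw [hT2, ee_sub]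
        ring
      rw [h2, Complex.re_ofReal_mul, re_I_mul] at h1
      have h3 : 0 < Real.sin (θ0 - θ) := Real.sin_pos_of_pos_of_lt_pi (by linarith) (by linarith)
      have h4 : Real.sin (θ - θ0) = -Real.sin (θ0 - θ) := by
        rw [← Real.sin_neg]
        congr 1
        ring
      rw [h4] at h1
      by_contra h5
      push Not at h5
      have := mul_nonneg h5 h3.le
      linarith
    have hτR : τ < -R := by
      have h1 := hout T hT
      rw [hτabs, abs_of_neg hτneg] at h1
      linarith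
    -- the two points of the circle on the support line
    have hQ1 : ‖(c - R * I * ee θ) - c‖ = R := by
      have h1 : (c - R * I * ee θ) - c = -((R : ℂ) * I * ee θ) := by ring
      rw [h1, norm_neg, norm_mul, norm_mul, norm_ee]
      simp [abs_of_pos d.hR]
    have hQ2 : ‖(c + R * I * ee θ) - c‖ = R := by
      have h1 : (c + R * I * ee θ) - c = ((R : ℂ) * I * ee θ) := by ring
      rw [h1, norm_mul, norm_mul, norm_ee]
      simp [abs_of_pos d.hR]
    obtain ⟨hn1, hs1⟩ := d.notMem hQ1
    obtain ⟨hn2, hs2⟩ := d.notMem hQ2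
    have hzero : ((R : ℂ) * I * ee θ * ee (-θ)).re = 0 := by
      have h1 := ee_neg θ
      have h2 : (R : ℂ) * I * ee θ * ee (-θ) = R * I := by
        linear_combination (R : ℂ) * I * h1
      rw [h2]
      simp
    obtain ⟨hu1, -⟩ := second d.comp d.conv hn1 hs1 (θ := θ) (T := T) (s := -τ - R)
      (by
        intro X hX
        have h1 : (X - (c - R * I * ee θ)) * ee (-θ) =
          (X - c) * ee (-θ) + (R : ℂ) * I * ee θ * ee (-θ) := by ring
        rw [h1, Complex.add_re, hzero, add_zero]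
        exact hall X hX) hT (by linarith)
      (by
        push_cast
        linear_combination hT2) d.hβ.le d.hβ'.le
    obtain ⟨-, X2, hX2, ρ, hρ, hX2e⟩ := second d.comp d.conv hn2 hs2 (θ := θ) (T := T)
      (s := R - τ)
      (by
        intro X hX
        have h1 : (X - (c + R * I * ee θ)) * ee (-θ) =
          (X - c) * ee (-θ) - (R : ℂ) * I * ee θ * ee (-θ) := by ring
        rw [h1, Complex.sub_re, hzero, sub_zero]
        exact hall X hX) hT (by linarith [d.hR])
      (by
        push_cast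
        linear_combination hT2) d.hβ.le d.hβ'.le
    have h1 := hu1 X2 hX2
    have h2 : (X2 - (c - R * I * ee θ)) * ee (-(θ + β)) =
        ((2 * R : ℝ) : ℂ) * (I * ee (-β)) + (ρ : ℂ) * I := by
      have h3 := ee_neg θ
      have h4 := ee_neg (θ + β)
      rw [hX2e]
      have h5 : ee (-(θ + β)) = ee (-θ) * ee (-β) := by
        rw [← ee_add]
        congr 1
        ring
      have h6 : ee θ * ee (-(θ + β)) = ee (-β) := by
        rw [h5]
        linear_combination (ee (-β)) * h3
      push_cast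
      linear_combination (2 * (R : ℂ) * I) * h6 + ((ρ : ℂ) * I) * h4
    rw [h2, Complex.add_re, Complex.re_ofReal_mul, re_I_mul, Real.sin_neg] at h1
    have h3 : ((ρ : ℂ) * I).re = 0 := by simp
    rw [h3] at h1
    have h4 : 0 < Real.sin β := Real.sin_pos_of_pos_of_lt_pi d.hβ d.hβ'
    have h5 := mul_pos (mul_pos two_pos d.hR) h4
    linarith

/-- the functional equation of the support function -/
lemma Data.rel {S : Set ℂ} {c : ℂ} {R β : ℝ} (d : Data S c R β) (θ : ℝ) :
    |supp S c θ| < R ∧ Real.arccos (supp S c θ / R) < β ∧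
      supp S c (θ + β) = R * Real.cos (β - Real.arccos (supp S c θ / R)) := by
  obtain ⟨hall, T, hT, hTz⟩ := supp_att d.comp d.nonempty c θ
  have hin := d.inside T hT
  have hR := d.hR
  set g := supp S c θ with hg
  set τ := ((T - c) * ee (-θ)).im with hτ
  have hT1 : (T - c) * ee (-θ) = g + τ * I := by
    apply Complex.ext
    · simpa using hTz
    · simp [hτ]
  have hT2 : T - c = (g + τ * I) * ee θ := by
    have h1 := ee_neg θ
    linear_combination (ee θ) * hT1 - (T - c) * h1
  have hnorm : g ^ 2 + τ ^ 2 < R ^ 2 := by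
    have h1 : ‖T - c‖ ^ 2 < R ^ 2 := by
      have := norm_nonneg (T - c)
      nlinarith
    rw [hT2, norm_mul, norm_ee, mul_one, Complex.sq_norm, Complex.normSq_add_mul_I] at h1
    exact h1
  have hgR : |g| < R := by
    apply abs_lt_of_sq_lt_sq _ hR.le
    nlinarith [sq_nonneg τ]
  have hgR' := abs_lt.1 hgR
  set δ := Real.arccos (g / R) with hδ
  have hcos : Real.cos δ = g / R := by
    rw [hδ, Real.cos_arccos]
    · rw [le_div_iff₀ hR]
      linarith
    · rw [div_le_iff₀ hR]
      linarith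
  have hcos' : g = R * Real.cos δ := by
    rw [hcos]
    field_simp
  have hδ0 : 0 < δ := by
    rw [hδ, Real.arccos_pos, div_lt_one hR]
    exact hgR'.2
  have hδπ : δ < Real.pi := by
    rw [hδ, Real.arccos_lt_pi, lt_div_iff₀ hR]
    linarith
  have hsin : 0 < Real.sin δ := Real.sin_pos_of_pos_of_lt_pi hδ0 hδπ
  have hτs : |τ| < R * Real.sin δ := by
    apply abs_lt_of_sq_lt_sq _ (by positivity)
    have h1 := Real.sin_sq_add_cos_sq δ
    rw [hcos'] at hnorm
    nlinarith
  have hτs' := abs_lt.1 hτs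
  -- the point of the circle
  set Q := c + R * ee (θ + δ) with hQ
  have hQn : ‖Q - c‖ = R := by
    rw [hQ, add_sub_cancel_left, norm_mul, norm_ee]
    simp [abs_of_pos hR]
  obtain ⟨hn, hs⟩ := d.notMem hQn
  have hee : ee δ = (Real.cos δ : ℂ) + (Real.sin δ : ℂ) * I := by
    apply Complex.ext
    · rw [ee_re]
      simp [-Complex.ofReal_cos, -Complex.ofReal_sin]
    · rw [ee_im]
      simp [-Complex.ofReal_cos, -Complex.ofReal_sin]
  have hQθ : (Q - c) * ee (-θ) = R * ee δ := by
    have h1 := ee_neg θ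
    rw [hQ, ee_add]
    linear_combination ((R : ℂ) * ee δ) * h1
  obtain ⟨hu, X0, hX0, ρ, hρ, hX0e⟩ := second d.comp d.conv hn hs (θ := θ) (T := T)
    (s := R * Real.sin δ - τ)
    (by
      intro X hX
      have h1 : (X - Q) * ee (-θ) = (X - c) * ee (-θ) - (Q - c) * ee (-θ) := by ring
      rw [h1, Complex.sub_re, hQθ, Complex.re_ofReal_mul, ee_re, ← hcos']
      have := hall X hX
      linarith) hT (by linarith)
    (by
      have h1 : T = c + (T - c) := by ring
      rw [h1, hT2, hQ, ee_add, hee]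
      have h2 : (g : ℂ) = (R : ℂ) * (Real.cos δ : ℂ) := by
        rw [← Complex.ofReal_mul, ← hcos']
      rw [Complex.ofReal_sub, Complex.ofReal_mul]
      linear_combination (ee θ) * h2) d.hβ.le d.hβ'.le
  have hQβ : (Q - c) * ee (-(θ + β)) = (R : ℂ) * ee (δ - β) := by
    have h1 := ee_neg θ
    have h5 : ee (-(θ + β)) = ee (-θ) * ee (-β) := by
      rw [← ee_add]
      congr 1
      ring
    rw [hQ, ee_add, h5, ee_sub]
    linear_combination ((R : ℂ) * ee δ * ee (-β)) * h1
  have hX0β : (X0 - c) * ee (-(θ + β)) = (R : ℂ) * ee (δ - β) + (ρ : ℂ) * I := by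
    have h4 := ee_neg (θ + β)
    have h5 : (X0 - c) * ee (-(θ + β)) = (Q - c) * ee (-(θ + β)) +
        (ρ : ℂ) * I * ee (θ + β) * ee (-(θ + β)) := by
      rw [hX0e]
      ring
    rw [h5, hQβ]
    linear_combination ((ρ : ℂ) * I) * h4
  have hval : supp S c (θ + β) = R * Real.cos (δ - β) := by
    refine supp_eq (fun X hX => ?_) ⟨X0, hX0, ?_⟩
    · have h1 : (X - c) * ee (-(θ + β)) = (X - Q) * ee (-(θ + β)) + (Q - c) * ee (-(θ + β)) := by
        ring
      rw [h1, Complex.add_re, hQβ, Complex.re_ofReal_mul, ee_re]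
      have := hu X hX
      linarith
    · rw [hX0β, Complex.add_re, Complex.re_ofReal_mul, ee_re]
      simp
  have hlt : δ < β := by
    have h1 : ‖(X0 - c) * ee (-(θ + β))‖ < R := by
      rw [norm_mul, norm_ee, mul_one]
      exact d.inside X0 hX0
    have h2 : (R : ℂ) * ee (δ - β) + (ρ : ℂ) * I =
        ((R * Real.cos (δ - β) : ℝ) : ℂ) + ((R * Real.sin (δ - β) + ρ : ℝ) : ℂ) * I := by
      apply Complex.ext
      · rw [Complex.add_re, Complex.re_ofReal_mul, ee_re]
        simp [-Complex.ofReal_cos, -Complex.ofReal_sin, -Complex.ofReal_mul, -Complex.ofReal_add]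
      · rw [Complex.add_im, Complex.im_ofReal_mul, ee_im]
        simp [-Complex.ofReal_cos, -Complex.ofReal_sin, -Complex.ofReal_mul, -Complex.ofReal_add]
    rw [hX0β, h2] at h1
    have h3 : ‖((R * Real.cos (δ - β) : ℝ) : ℂ) + ((R * Real.sin (δ - β) + ρ : ℝ) : ℂ) * I‖ ^ 2 <
        R ^ 2 := by
      have := norm_nonneg (((R * Real.cos (δ - β) : ℝ) : ℂ) +
        ((R * Real.sin (δ - β) + ρ : ℝ) : ℂ) * I)
      nlinarith
    rw [Complex.sq_norm, Complex.normSq_add_mul_I] at h3
    have h4 := Real.sin_sq_add_cos_sq (δ - β)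
    by_contra h5
    push Not at h5
    have h6 : 0 ≤ Real.sin (δ - β) :=
      Real.sin_nonneg_of_nonneg_of_le_pi (by linarith) (by linarith [d.hβ])
    have h7 : 0 ≤ R * Real.sin (δ - β) * ρ := by positivity
    nlinarith [sq_nonneg ρ]
  refine ⟨hgR, hlt, ?_⟩
  rw [hval]
  congr 1
  rw [← Real.cos_neg]
  congr 1
  ring

end Run7.h361.Iso
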