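import Pool.Agent.Run7.h361.IsoFun
import Pool.Agent.Run7.h361.IsoGeo

/-!
# Isoptics of plane convex sets: two circular isoptics
-/

set_option autoImplicit false

namespace Run7.h361.Iso

open Complex Set

lemma ee_two_ne {β : ℝ} (h : 0 < β) (h' : β < Real.pi) : ee (-(2 * β)) ≠ 1 := by
  intro h1
  have h2 := congrArg Complex.re h1
  rw [ee_re, Real.cos_neg, Real.cos_two_mul'] at h2
  have h3 := Real.sin_sq_add_cos_sq β
  have h4 : 0 < Real.sin β := Real.sin_pos_of_pos_of_lt_pi h h'
  simp only [Complex.one_re] at h2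
  nlinarith [sq_pos_of_pos h4]

lemma ee_pi_half : ee (-(Real.pi / 2)) = -I := by
  apply Complex.ext
  · rw [ee_re]
    simp
  · rw [ee_im]
    simp

lemma zero_of_re {z : ℂ} (h : ∀ θ : ℝ, (z * ee (-θ)).re = 0) : z = 0 := by
  apply Complex.ext
  · have h1 := h 0
    have h2 : ee (-0) = 1 := by
      simp [ee]
    rw [h2, mul_one] at h1
    simpa using h1
  · have h1 := h (Real.pi / 2)
    rw [ee_pi_half] at h1
    simpa using h1

/-- the periods of the support function -/
lemma Data.period {S : Set ℂ} {c : ℂ} {R β : ℝ} (d : Data S c R β) (θ : ℝ) :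
    supp S c (θ + 2 * β) = supp S c θ := by
  have hR := d.hR
  obtain ⟨h1, h2, h3⟩ := d.rel θ
  obtain ⟨h4, h5, h6⟩ := d.rel (θ + β)
  have h1' := abs_lt.1 h1
  have hδ0 : 0 < Real.arccos (supp S c θ / R) := by
    rw [Real.arccos_pos, div_lt_one hR]
    exact h1'.2
  have hac : Real.arccos (supp S c (θ + β) / R) = β - Real.arccos (supp S c θ / R) := by
    rw [h3, mul_div_cancel_left₀ _ hR.ne', Real.arccos_cos]
    · linarith
    · linarith [d.hβ']
  have h7 : θ + 2 * β = θ + β + β := by ring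
  rw [h7, h6, hac, sub_sub_cancel, Real.cos_arccos]
  · field_simp
  · rw [le_div_iff₀ hR]
    linarith
  · rw [div_le_iff₀ hR]
    linarith

/-- two circular isoptics are concentric -/
lemma concentric {S : Set ℂ} {c1 c2 : ℂ} {R1 R2 β1 β2 : ℝ} (d1 : Data S c1 R1 β1)
    (d2 : Data S c2 R2 β2) : c1 = c2 := by
  have hk : ∀ θ : ℝ, ((c1 - c2) * ee (-θ)).re = supp S c2 θ - supp S c1 θ := by
    intro θ
    rw [supp_shift d1.comp d1.nonempty c1 c2 θ]
    ring
  have hsum : ∀ θ : ℝ, ((c1 - c2) * ee (-(θ + 2 * β1 + 2 * β2))).re -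
      ((c1 - c2) * ee (-(θ + 2 * β1))).re - ((c1 - c2) * ee (-(θ + 2 * β2))).re +
      ((c1 - c2) * ee (-θ)).re = 0 := by
    intro θ
    rw [hk, hk, hk, hk]
    have e1 : θ + 2 * β1 + 2 * β2 = (θ + 2 * β2) + 2 * β1 := by ring
    have p1 : supp S c1 (θ + 2 * β1 + 2 * β2) = supp S c1 (θ + 2 * β2) := by
      rw [e1, d1.period]
    have p2 : supp S c2 (θ + 2 * β1 + 2 * β2) = supp S c2 (θ + 2 * β1) := d2.period _
    rw [p1, p2, d1.period, d2.period]
    ring
  have hz : (c1 - c2) * ((ee (-(2 * β1)) - 1) * (ee (-(2 * β2)) - 1)) = 0 := by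
    apply zero_of_re
    intro θ
    have h1 := hsum θ
    rw [← Complex.sub_re, ← Complex.sub_re, ← Complex.add_re] at h1
    rw [← h1]
    congr 1
    have e1 : ee (-(θ + 2 * β1 + 2 * β2)) = ee (-θ) * ee (-(2 * β1)) * ee (-(2 * β2)) := by
      rw [← ee_add, ← ee_add]
      congr 1
      ring
    have e2 : ee (-(θ + 2 * β1)) = ee (-θ) * ee (-(2 * β1)) := by
      rw [← ee_add]
      congr 1
      ring
    have e3 : ee (-(θ + 2 * β2)) = ee (-θ) * ee (-(2 * β2)) := by
      rw [← ee_add]
      congr 1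
      ring
    rw [e1, e2, e3]
    ring
  rcases mul_eq_zero.1 hz with h | h
  · exact sub_eq_zero.1 h
  · exfalso
    rcases mul_eq_zero.1 h with h | h
    · exact ee_two_ne d1.hβ d1.hβ' (sub_eq_zero.1 h)
    · exact ee_two_ne d2.hβ d2.hβ' (sub_eq_zero.1 h)

/-- two circular isoptics at different angles: the set is a disk -/
theorem disk_of_two {S : Set ℂ} {c1 c2 : ℂ} {R1 R2 β1 β2 : ℝ} (d1 : Data S c1 R1 β1)
    (d2 : Data S c2 R2 β2) (hne : β1 ≠ β2) :
    ∃ r : ℝ, 0 < r ∧ S = Metric.closedBall c1 r := by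
  have hcc := concentric d1 d2
  subst hcc
  have hcon := const_of_two (continuous_supp d1.comp c1) d1.hR d2.hR d1.hβ d1.hβ' d2.hβ d2.hβ'
    hne d1.rel d2.rel
  set r := R1 * Real.cos (β1 / 2) with hr
  have hr0 : 0 < r := by
    have h1 : 0 < Real.cos (β1 / 2) := by
      apply Real.cos_pos_of_mem_Ioo
      constructor <;> linarith [d1.hβ, d1.hβ', Real.pi_pos]
    exact mul_pos d1.hR h1
  refine ⟨r, hr0, ?_⟩
  apply Subset.antisymm
  · intro X hX
    rw [mem_closedBall_iff_norm]
    have h1 := (supp_att d1.comp d1.nonempty c1 (arg (X - c1))).1 X hX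
    rw [hcon] at h1
    have h2 : (X - c1) * ee (-(arg (X - c1))) = (‖X - c1‖ : ℂ) := by
      have h3 := ee_neg (arg (X - c1))
      conv_lhs => rw [polar (X - c1)]
      have h4 : arg ((‖X - c1‖ : ℂ) * ee (arg (X - c1))) = arg (X - c1) := by
        rw [← polar (X - c1)]
      rw [h4]
      linear_combination (‖X - c1‖ : ℂ) * h3
    rw [h2] at h1
    simpa using h1
  · intro Y hY
    by_contra hYS
    obtain ⟨θ, hθ⟩ := sep d1.comp.isClosed d1.conv d1.nonempty hYS
    obtain ⟨T, hT, hTe⟩ := (supp_att d1.comp d1.nonempty c1 θ).2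
    rw [hcon] at hTe
    have h1 := hθ T hT
    rw [mem_closedBall_iff_norm] at hY
    have h2 : ((Y - c1) * ee (-θ)).re ≤ ‖Y - c1‖ := by
      have h3 := Complex.re_le_norm ((Y - c1) * ee (-θ))
      rwa [norm_mul, norm_ee, mul_one] at h3
    rw [sub_mul, Complex.sub_re] at h2 hTe
    linarith

/-- the angle of sight of a disk -/
lemma sight_disk {c Q : ℂ} {r : ℝ} (hr : 0 < r) (hQ : r < ‖Q - c‖) :
    sightAngle (Metric.closedBall c r) Q = 2 * Real.arcsin (r / ‖Q - c‖) := by
  set d := ‖Q - c‖ with hd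
  have hd0 : 0 < d := hr.trans hQ
  set a := Real.arcsin (r / d) with ha
  have hrd : r / d < 1 := by
    rw [div_lt_one hd0]
    exact hQ
  have hrd0 : 0 < r / d := by positivity
  have ha0 : 0 < a := by
    rw [ha, Real.arcsin_pos]
    exact hrd0
  have ha1 : a < Real.pi / 2 := by
    rw [ha, Real.arcsin_lt_pi_div_two]
    exact hrd
  have hsa : Real.sin a = r / d := by
    rw [ha]
    exact Real.sin_arcsin (by linarith) hrd.le
  -- coordinates in which `c - Q` is a positive number
  have hcQ : c - Q ≠ 0 := by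
    intro h
    rw [← norm_sub_rev, h, norm_zero] at hd
    linarith
  set m : ℂ := ee (-(arg (c - Q))) with hm
  have hm0 : m ≠ 0 := ee_ne _
  have hcm : (c - Q) * m = d := by
    have h3 := ee_neg (arg (c - Q))
    have h4 : (‖c - Q‖ : ℂ) = d := by
      rw [norm_sub_rev]
    rw [hm]
    have h5 := polar (c - Q)
    linear_combination (ee (-(arg (c - Q)))) * h5 + (‖c - Q‖ : ℂ) * h3 + h4
  have key : ∀ A ∈ Metric.closedBall c r, 0 < ((A - Q) * m).re ∧ |arg ((A - Q) * m)| ≤ a := by
    intro A hA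
    rw [mem_closedBall_iff_norm] at hA
    set z := (A - Q) * m with hz
    have h1 : ‖z - d‖ ≤ r := by
      have h2 : z - d = (A - c) * m := by
        rw [hz, ← hcm]
        ring
      rw [h2, norm_mul, hm, norm_ee, mul_one]
      exact hA
    have h2 : (z.re - d) ^ 2 + z.im ^ 2 ≤ r ^ 2 := by
      have h3 : ‖z - d‖ ^ 2 ≤ r ^ 2 := by
        have := norm_nonneg (z - d)
        nlinarith
      rw [Complex.sq_norm, Complex.normSq_apply] at h3
      simp only [Complex.sub_re, Complex.sub_im, Complex.ofReal_re, Complex.ofReal_im] at h3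
      nlinarith
    have hre : 0 < z.re := by
      by_contra h3
      push Not at h3
      nlinarith [sq_nonneg z.im]
    refine ⟨hre, ?_⟩
    have h3 : Real.sin |arg z| ≤ Real.sin a := by
      have h4 : Real.sin |arg z| = |z.im| / ‖z‖ := by
        rw [← Real.abs_sin_eq_sin_abs_of_abs_le_pi (Complex.abs_arg_le_pi z), Complex.sin_arg,
          abs_div, abs_norm]
      rw [h4, hsa]
      have h5 : 0 < ‖z‖ := by
        rw [norm_pos_iff]
        rintro h6
        rw [h6] at hre
        simp at hre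
      rw [div_le_div_iff₀ h5 hd0]
      apply le_of_sq_le_sq _ (by positivity)
      have h6 : ‖z‖ ^ 2 = z.re ^ 2 + z.im ^ 2 := by
        rw [Complex.sq_norm, Complex.normSq_apply]
        ring
      have h7 : (|z.im| * d) ^ 2 = z.im ^ 2 * d ^ 2 := by
        rw [mul_pow, sq_abs]
      have h8 : (r * ‖z‖) ^ 2 = r ^ 2 * (z.re ^ 2 + z.im ^ 2) := by
        rw [mul_pow, h6]
      rw [h7, h8]
      have h9 : 0 ≤ z.re ^ 2 + z.im ^ 2 := by positivity
      have h10 := mul_le_mul_of_nonneg_right h2 h9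
      nlinarith [sq_nonneg ((z.re - d) * z.re + z.im ^ 2)]
    have h4 : |arg z| < Real.pi / 2 := by
      rw [Complex.abs_arg_lt_pi_div_two_iff]
      exact Or.inl hre
    by_contra h5
    push Not at h5
    have h6 := Real.sin_lt_sin_of_lt_of_le_pi_div_two (by linarith) h4.le h5
    linarith
  have hpt : ∀ A ∈ Metric.closedBall c r, A - Q ≠ 0 := by
    intro A hA h
    have := (key A hA).1
    rw [h] at this
    simp at this
  have hang : ∀ A ∈ Metric.closedBall c r, ∀ B ∈ Metric.closedBall c r,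
      EuclideanGeometry.angle A Q B = |arg ((A - Q) * m) - arg ((B - Q) * m)| := by
    intro A hA B hB
    have hA' := abs_le.1 (key A hA).2
    have hB' := abs_le.1 (key B hB).2
    unfold EuclideanGeometry.angle
    simp only [vsub_eq_sub]
    rw [← Complex.angle_mul_left hm0, mul_comm m, mul_comm m]
    rw [Complex.angle_eq_abs_arg (mul_ne_zero (hpt A hA) hm0) (mul_ne_zero (hpt B hB) hm0)]
    congr 1
    set z := (A - Q) * m with hz
    set w := (B - Q) * m with hw
    have hz0 : z ≠ 0 := mul_ne_zero (hpt A hA) hm0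
    have hw0 : w ≠ 0 := mul_ne_zero (hpt B hB) hm0
    have h5 : z / w = ((‖z‖ / ‖w‖ : ℝ) : ℂ) * ee (arg z - arg w) := by
      conv_lhs => rw [polar z, polar w]
      rw [sub_eq_add_neg, ee_add]
      have h6 : ee (arg w) * ee (-arg w) = 1 := by
        rw [mul_comm]
        exact ee_neg _
      have h7 : (‖w‖ : ℂ) ≠ 0 := by simpa using hw0
      have h8 := ee_ne (arg w)
      push_cast
      field_simp
      linear_combination (-(‖z‖ : ℂ) * ee (arg z)) * h6
    rw [h5, Complex.arg_real_mul _ (div_pos (norm_pos_iff.2 hz0) (norm_pos_iff.2 hw0))]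
    unfold ee
    rw [Complex.arg_exp_mul_I, toIocMod_eq_self]
    constructor <;> linarith [Real.pi_pos]
  -- the two points of contact
  have hcosa : 0 < Real.cos a := Real.cos_pos_of_mem_Ioo ⟨by linarith, ha1⟩
  have hsq : Real.sin a * d = r := by
    rw [hsa]
    field_simp
  have hpoint : ∀ t : ℝ, t = a ∨ t = -a → ∃ A ∈ Metric.closedBall c r,
      arg ((A - Q) * m) = t := by
    intro t ht
    have hct : Real.cos t = Real.cos a := by
      rcases ht with rfl | rfl
      · rfl
      · exact Real.cos_neg _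
    have hst : Real.sin t ^ 2 = Real.sin a ^ 2 := by
      rcases ht with rfl | rfl
      · rfl
      · rw [Real.sin_neg]
        ring
    refine ⟨Q + (d * Real.cos a : ℝ) * ee t * m⁻¹, ?_, ?_⟩
    · rw [mem_closedBall_iff_norm]
      have h1 : Q + (d * Real.cos a : ℝ) * ee t * m⁻¹ - c =
          ((d * Real.cos a : ℝ) * ee t - d) * m⁻¹ := by
        have h2 : c - Q = d * m⁻¹ := by
          rw [← hcm]
          field_simp
        linear_combination (-1 : ℂ) * h2
      have h2 : ‖m⁻¹‖ = 1 := by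
        rw [norm_inv, hm, norm_ee, inv_one]
      rw [h1, norm_mul, h2, mul_one]
      apply le_of_sq_le_sq _ hr.le
      rw [Complex.sq_norm, Complex.normSq_apply]
      simp only [Complex.sub_re, Complex.sub_im, Complex.re_ofReal_mul, Complex.im_ofReal_mul,
        ee_re, ee_im, Complex.ofReal_re, Complex.ofReal_im]
      rw [hct]
      have h3 := Real.sin_sq_add_cos_sq a
      have h4 : d ^ 2 * Real.sin a ^ 2 = r ^ 2 := by
        rw [← hsq]
        ring
      have h5 : (d * Real.cos a * Real.cos a - d) * (d * Real.cos a * Real.cos a - d) +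
          (d * Real.cos a * Real.sin t - 0) * (d * Real.cos a * Real.sin t - 0) =
          d ^ 2 * ((1 - Real.cos a ^ 2) ^ 2 + Real.cos a ^ 2 * Real.sin t ^ 2) := by ring
      rw [h5, hst]
      have h6 : 1 - Real.cos a ^ 2 = Real.sin a ^ 2 := by linarith
      rw [h6]
      apply le_of_eq
      linear_combination h4 + (d ^ 2 * Real.sin a ^ 2) * h3
    · have h1 : (Q + (d * Real.cos a : ℝ) * ee t * m⁻¹ - Q) * m = (d * Real.cos a : ℝ) * ee t := by
        field_simp
        ring
      rw [h1, Complex.arg_real_mul _ (mul_pos hd0 hcosa)]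
      unfold ee
      rw [Complex.arg_exp_mul_I, toIocMod_eq_self]
      rcases ht with rfl | rfl <;> constructor <;> linarith [Real.pi_pos]
  obtain ⟨A, hA, hAa⟩ := hpoint a (Or.inl rfl)
  obtain ⟨B, hB, hBa⟩ := hpoint (-a) (Or.inr rfl)
  unfold sightAngle
  refine IsGreatest.csSup_eq ⟨⟨A, hA, B, hB, ?_⟩, ?_⟩
  · rw [hang A hA B hB, hAa, hBa, abs_of_pos]
    · ring
    · linarith
  · rintro x ⟨A, hA, B, hB, rfl⟩
    rw [hang A hA B hB, abs_le]
    have h1 := abs_le.1 (key A hA).2
    have h2 := abs_le.1 (key B hB).2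
    constructor <;> linarith

/-- all isoptics of a disk are circles -/
theorem circular_disk (c : ℂ) {r : ℝ} (hr : 0 < r) {α : ℝ} (h0 : 0 < α) (h1 : α < Real.pi) :
    isoptic (Metric.closedBall c r) α = Metric.sphere c (r / Real.sin (α / 2)) := by
  have hs : 0 < Real.sin (α / 2) := Real.sin_pos_of_pos_of_lt_pi (by linarith) (by linarith)
  have hs1 : Real.sin (α / 2) < 1 := by
    rw [← Real.sin_pi_div_two]
    apply Real.sin_lt_sin_of_lt_of_le_pi_div_two <;> linarith
  ext Q
  simp only [isoptic, mem_setOf_eq, mem_sphere_iff_norm, mem_closedBall_iff_norm, not_le]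
  constructor
  · rintro ⟨hQ, h2⟩
    rw [sight_disk hr hQ] at h2
    have hd0 : 0 < ‖Q - c‖ := hr.trans hQ
    have h3 : Real.arcsin (r / ‖Q - c‖) = α / 2 := by linarith
    have h4 : r / ‖Q - c‖ = Real.sin (α / 2) := by
      rw [← h3]
      refine (Real.sin_arcsin ?_ ?_).symm
      · have : 0 < r / ‖Q - c‖ := by positivity
        linarith
      · rw [div_le_one hd0]
        exact hQ.le
    rw [← h4]
    field_simp
  · intro h2
    have hQ : r < ‖Q - c‖ := by
      rw [h2, lt_div_iff₀ hs]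
      nlinarith
    refine ⟨hQ, ?_⟩
    rw [sight_disk hr hQ, h2]
    have h3 : r / (r / Real.sin (α / 2)) = Real.sin (α / 2) := by
      field_simp
    rw [h3, Real.arcsin_sin (by linarith) (by linarith)]
    ring

/-- the theorem in the complex plane -/
theorem main {S : Set ℂ} (hc : IsCompact S) (hv : Convex ℝ S) {α1 α2 : ℝ}
    (h1 : CircularAt S α1) (h2 : CircularAt S α2) (hne : α1 ≠ α2) :
    ∃ (c : ℂ) (r : ℝ), 0 < r ∧ S = Metric.closedBall c r ∧
      ∀ α : ℝ, 0 < α → α < Real.pi →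
        isoptic S α = Metric.sphere c (r / Real.sin (α / 2)) := by
  obtain ⟨⟨a1, a2⟩, c1, R1, hR1, e1⟩ := h1
  obtain ⟨⟨b1, b2⟩, c2, R2, hR2, e2⟩ := h2
  have d1 : Data S c1 R1 (Real.pi - α1) :=
    ⟨hc, hv, hR1, by linarith, by linarith, by rw [sub_sub_cancel]; exact e1⟩
  have d2 : Data S c2 R2 (Real.pi - α2) :=
    ⟨hc, hv, hR2, by linarith, by linarith, by rw [sub_sub_cancel]; exact e2⟩
  obtain ⟨r, hr, hS⟩ := disk_of_two d1 d2 (by
    intro h
    apply hne
    linarith)
  refine ⟨c1, r, hr, hS, fun α h0 h1 => ?_⟩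
  rw [hS]
  exact circular_disk c1 hr h0 h1

end Run7.h361.Iso
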